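import Pool.Agent.Mg.F97bb71.G93af99
import Pool.Agent.MP_97bb71_gt.Defs

section

/-! The Goeritz form on all faces and its signature. -/

namespace Pool.Agent.MP_97bb71_gt
open Finset

set_option linter.unusedSectionVars false

noncomputable section

section
variable {M M' : Type} [AddCommGroup M] [Module ℚ M] [AddCommGroup M'] [Module ℚ M']

def PD (V : M → Prop) (Q : M → ℚ) (k : ℕ) : Prop :=
  ∃ f : (Fin k → ℚ) →ₗ[ℚ] M, (∀ v, V (f v)) ∧ ∀ v, v ≠ 0 → 0 < Q (f v)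

theorem PD.map {V : M → Prop} {Q : M → ℚ} {V' : M' → Prop} {Q' : M' → ℚ} {k : ℕ}
    (h : PD V Q k) (Φ : M →ₗ[ℚ] M') (hΦ : ∀ z, V z → V' (Φ z) ∧ Q z ≤ Q' (Φ z)) : PD V' Q' k := by
  obtain ⟨f, h1, h2⟩ := h
  exact ⟨Φ.comp f, fun _ => (hΦ _ (h1 _)).1, fun v hv => (h2 v hv).trans_le (hΦ _ (h1 v)).2⟩

theorem PD.zero {V : M → Prop} {Q : M → ℚ} (h : V 0) : PD V Q 0 :=
  ⟨0, fun _ => h, fun _ hv => absurd (Subsingleton.elim _ _) hv⟩

theorem PD.ker {V : M → Prop} {Q : M → ℚ} {k : ℕ} (h : PD V Q (k + 1)) (l : M →ₗ[ℚ] ℚ) :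
    PD (fun z => V z ∧ l z = 0) Q k := by
  obtain ⟨f, h1, h2⟩ := h
  have e := (l.comp f).finrank_range_add_finrank_ker
  have e2 : Module.finrank ℚ (LinearMap.range (l.comp f)) ≤ 1 := by
    simpa using Submodule.finrank_le (LinearMap.range (l.comp f))
  have e3 : Module.finrank ℚ (Fin k → ℚ) ≤ Module.finrank ℚ (LinearMap.ker (l.comp f)) := by
    simp only [Module.finrank_fintype_fun_eq_card, Fintype.card_fin] at e ⊢
    omega
  obtain ⟨g, hg⟩ := finrank_le_iff_exists_linearMap.mp e3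
  refine ⟨f.comp ((LinearMap.ker (l.comp f)).subtype.comp g), fun v => ⟨h1 _, (g v).2⟩,
    fun v hv => h2 _ fun h0 => hv (hg ?_)⟩
  rw [map_zero]; exact Subtype.ext h0

theorem PD.succ {V : M → Prop} {Q : M → ℚ} {V' : M' → Prop} {Q' : M' → ℚ} {k : ℕ}
    (h : PD V Q k) (h0 : Q 0 = 0) (Φ : M →ₗ[ℚ] M') (u : M')
    (hΦ : ∀ z (t : ℚ), V z → V' (Φ z + t • u) ∧ Q z + t ^ 2 ≤ Q' (Φ z + t • u)) :
    PD V' Q' (k + 1) := by
  obtain ⟨f, h1, h2⟩ := h
  refine ⟨Φ.comp (f.comp (LinearMap.funLeft ℚ ℚ Fin.succ)) +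
    (LinearMap.proj (0 : Fin (k + 1))).smulRight u, fun v => (hΦ _ _ (h1 _)).1, fun v hv => ?_⟩
  refine lt_of_lt_of_le ?_ (hΦ (f (LinearMap.funLeft ℚ ℚ Fin.succ v)) (v 0) (h1 _)).2
  by_cases ht : LinearMap.funLeft ℚ ℚ Fin.succ v = 0
  · rw [ht, map_zero, h0, zero_add]
    have : v 0 ≠ 0 := by
      intro h3
      apply hv
      funext i
      refine Fin.cases h3 (fun j => ?_) i
      exact congrFun ht j
    positivity
  · have := h2 _ ht
    positivity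

def Sh (V : M → Prop) (Q : M → ℚ) (V' : M' → Prop) (Q' : M' → ℚ) (i : ℕ) : Prop :=
  ∀ k, PD V' Q' (k + i) ↔ PD V Q k

def SigI (V : M → Prop) (Q : M → ℚ) (t : ℤ) : Prop :=
  (∀ k, PD V Q k → ∃ l, PD V (fun z => -Q z) l ∧ (k : ℤ) - l ≤ t) ∧
    ∀ l, PD V (fun z => -Q z) l → ∃ k, PD V Q k ∧ (l : ℤ) - k ≤ -t

theorem half_shift {A B A' B' : ℕ → Prop} {i j : ℕ} {t : ℤ} (hA : ∀ k, A' (k + i) ↔ A k)
    (hB : ∀ k, B' (k + j) ↔ B k) (a0 : A 0) (b0 : B 0) :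
    (∀ k, A k → ∃ l, B l ∧ (k : ℤ) - l ≤ t) ↔
      ∀ k, A' k → ∃ l, B' l ∧ (k : ℤ) - l ≤ t + i - j := by
  constructor
  · intro h k hk
    have : A (k - i) := by
      by_cases hi : i ≤ k
      · rw [← hA, Nat.sub_add_cancel hi]; exact hk
      · rw [Nat.sub_eq_zero_of_le (by omega)]; exact a0
    obtain ⟨l, h1, h2⟩ := h _ this
    exact ⟨l + j, (hB l).mpr h1, by omega⟩
  · intro h k hk
    obtain ⟨l, h1, h2⟩ := h _ ((hA k).mpr hk)
    refine ⟨l - j, ?_, by omega⟩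
    by_cases hi : j ≤ l
    · rw [← hB, Nat.sub_add_cancel hi]; exact h1
    · rw [Nat.sub_eq_zero_of_le (by omega)]; exact b0

theorem SigI_shift {V : M → Prop} {Q : M → ℚ} {V' : M' → Prop} {Q' : M' → ℚ} {i j : ℕ}
    (h1 : Sh V Q V' Q' i) (h2 : Sh V (fun z => -Q z) V' (fun z => -Q' z) j) (h0 : V 0)
    {t t' : ℤ} (ht : t' = t + i - j) : SigI V Q t ↔ SigI V' Q' t' := by
  unfold SigI
  rw [half_shift h1 h2 (PD.zero h0) (PD.zero h0), half_shift h2 h1 (PD.zero h0) (PD.zero h0), ht]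
  have : -t + j - i = -(t + i - j) := by ring
  rw [this]

theorem SigI_iso {V : M → Prop} {Q : M → ℚ} {V' : M' → Prop} {Q' : M' → ℚ}
    (Φ : M →ₗ[ℚ] M') (Ψ : M' →ₗ[ℚ] M) (hΦ : ∀ z, V z → V' (Φ z) ∧ Q' (Φ z) = Q z)
    (hΨ : ∀ z, V' z → V (Ψ z) ∧ Q (Ψ z) = Q' z) (h0 : V 0) (t : ℤ) :
    SigI V Q t ↔ SigI V' Q' t := by
  refine SigI_shift (i := 0) (j := 0) (fun k => ⟨fun h => h.map Ψ fun z hz => ?_,
    fun h => h.map Φ fun z hz => ?_⟩) (fun k => ⟨fun h => h.map Ψ fun z hz => ?_,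
    fun h => h.map Φ fun z hz => ?_⟩) h0 (by simp)
  · exact ⟨(hΨ z hz).1, (hΨ z hz).2.ge⟩
  · exact ⟨(hΦ z hz).1, (hΦ z hz).2.ge⟩
  · exact ⟨(hΨ z hz).1, by rw [(hΨ z hz).2]⟩
  · exact ⟨(hΦ z hz).1, by rw [(hΦ z hz).2]⟩

end

variable {α β Γ X X' P P' : Type}

abbrev Fn (α : Type) : Type := α → Bool → ℚ

def FC (x : X → Fin 4 → α) (p : P → Fin 2 → α) (o : X → Fin 4 → Bool) (z : Fn α) : Prop :=
  (∀ y j, z (x y j) (o y j) = z (x y (j + 1)) (!o y (j + 1))) ∧ ∀ j, z (p j 0) = z (p j 1)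

def qt (v : Fin 4 → ℚ) : ℚ := (v 0 - v 2) ^ 2 - (v 1 - v 3) ^ 2

def Qf [Fintype X] (x : X → Fin 4 → α) (ε : X → ℤ) (o : X → Fin 4 → Bool) (z : Fn α) : ℚ :=
  ∑ y, (ε y : ℚ) * qt fun j => z (x y j) (o y j)

theorem FC_zero (x : X → Fin 4 → α) (p : P → Fin 2 → α) (o : X → Fin 4 → Bool) : FC x p o 0 :=
  ⟨fun _ _ => rfl, fun _ => rfl⟩

theorem Qf_zero [Fintype X] (x : X → Fin 4 → α) (ε : X → ℤ) (o : X → Fin 4 → Bool) :
    Qf x ε o 0 = 0 := by simp [Qf, qt]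

def ev (a : α) (s : Bool) : Fn α →ₗ[ℚ] ℚ where
  toFun z := z a s
  map_add' _ _ := rfl
  map_smul' _ _ := rfl

@[simp] theorem ev_apply (a : α) (s : Bool) (z : Fn α) : ev a s z = z a s := rfl

def upd [DecidableEq α] (e : α) (l : Bool → (Fn α →ₗ[ℚ] ℚ)) (Φ : Fn α →ₗ[ℚ] Fn α) :
    Fn α →ₗ[ℚ] Fn α :=
  LinearMap.pi fun a => if a = e then LinearMap.pi l else (LinearMap.proj a).comp Φ

theorem upd_apply [DecidableEq α] (e : α) (l : Bool → (Fn α →ₗ[ℚ] ℚ)) (Φ : Fn α →ₗ[ℚ] Fn α)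
    (z : Fn α) (a : α) : upd e l Φ z a = if a = e then fun s => l s z else Φ z a := by
  unfold upd
  by_cases h : a = e
  · simp only [LinearMap.pi_apply, h, if_true]; rfl
  · simp only [LinearMap.pi_apply, h, if_false]; rfl

def Bf [Fintype X] (x : X → Fin 4 → α) (ε : X → ℤ) (o : X → Fin 4 → Bool) (v : Fn α) :
    Fn α →ₗ[ℚ] ℚ :=
  ∑ y, (ε y : ℚ) • ((v (x y 0) (o y 0) - v (x y 2) (o y 2)) •
    (ev (x y 0) (o y 0) - ev (x y 2) (o y 2)) - (v (x y 1) (o y 1) - v (x y 3) (o y 3)) •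
    (ev (x y 1) (o y 1) - ev (x y 3) (o y 3)))

theorem Qf_add [Fintype X] (x : X → Fin 4 → α) (ε : X → ℤ) (o : X → Fin 4 → Bool) (v w : Fn α)
    (t : ℚ) : Qf x ε o (w + t • v) = Qf x ε o w + 2 * t * Bf x ε o v w + t ^ 2 * Qf x ε o v := by
  simp only [Qf, Bf, LinearMap.sum_apply, mul_sum, ← sum_add_distrib]
  refine sum_congr rfl fun y _ => ?_
  simp [qt]; ring

variable [Fintype X] [Fintype P] [Fintype X'] [Fintype P'] [DecidableEq Γ]

theorem FC_sum {R PR : Type} {xR : R → Fin 4 → α} {pR : PR → Fin 2 → α} {x : X → Fin 4 → α}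
    {p : P → Fin 2 → α} {oR : R → Fin 4 → Bool} {o : X → Fin 4 → Bool} {z : Fn α} :
    FC (Sum.elim xR x) (Sum.elim pR p) (Sum.elim oR o) z ↔ FC xR pR oR z ∧ FC x p o z := by
  simp only [FC, Sum.forall, Sum.elim_inl, Sum.elim_inr]; tauto

theorem Qf_sum {R : Type} [Fintype R] (xR : R → Fin 4 → α) (x : X → Fin 4 → α) (εR : R → ℤ)
    (ε : X → ℤ) (oR : R → Fin 4 → Bool) (o : X → Fin 4 → Bool) (z : Fn α) :
    Qf (Sum.elim xR x) (Sum.elim εR ε) (Sum.elim oR o) z = Qf xR εR oR z + Qf x ε o z := by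
  simp only [Qf, Fintype.sum_sum_type, Sum.elim_inl, Sum.elim_inr]

theorem FC_congr {x : X → Fin 4 → α} {p : P → Fin 2 → α} {o : X → Fin 4 → Bool} {z z' : Fn α}
    (h : FC x p o z) (h1 : ∀ y j, z' (x y j) = z (x y j)) (h2 : ∀ y j, z' (p y j) = z (p y j)) :
    FC x p o z' := by
  simp only [FC, h1, h2]; exact h

theorem Qf_congr (x : X → Fin 4 → α) (ε : X → ℤ) (o : X → Fin 4 → Bool) {z z' : Fn α}
    (h1 : ∀ y j, z' (x y j) = z (x y j)) : Qf x ε o z' = Qf x ε o z := by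
  simp only [Qf, h1]

/-- the invariants of a diagram -/
def Inv (x : X → Fin 4 → α) (p : P → Fin 2 → α) (U : Finset α) (ε : X → ℤ) (d : Dat Γ) : Prop :=
  ∃ o oP κ, Pk x p U ε d o oP κ ∧
    SigI (FC x p o) (Qf x ε o) (wr x ε o (fun _ => true) + d.K)

theorem Inv.reindex {x : X → Fin 4 → α} {p : P → Fin 2 → α} {U : Finset α} {ε : X → ℤ}
    {d : Dat Γ} (h : Inv x p U ε d) (σ : X' ≃ X) (τ : P' ≃ P) :
    Inv (fun y => x (σ y)) (fun j => p (τ j)) U (fun y => ε (σ y)) d := by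
  obtain ⟨o, oP, κ, h1, h2⟩ := h
  refine ⟨_, _, κ, h1.reindex σ τ, ?_⟩
  rw [wr_reindex]
  have e1 : FC (fun y => x (σ y)) (fun j => p (τ j)) (fun y => o (σ y)) = FC x p o :=
    funext fun z => propext (and_congr (σ.forall_congr_right (q := fun y => ∀ j, z (x y j) (o y j) =
      z (x y (j + 1)) (!o y (j + 1)))) (τ.forall_congr_right (q := fun j => z (p j 0) = z (p j 1))))
  have e2 : Qf (fun y => x (σ y)) (fun y => ε (σ y)) (fun y => o (σ y)) = Qf x ε o :=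
    funext fun z => σ.sum_comp fun y => (ε y : ℚ) * qt fun j => z (x y j) (o y j)
  rw [e1, e2]; exact h2

theorem SigI_relabel (f : β → α) (hf : Function.Injective f) (x : X → Fin 4 → β)
    (p : P → Fin 2 → β) (ε : X → ℤ) (o : X → Fin 4 → Bool) (t : ℤ) :
    SigI (FC (fun y j => f (x y j)) (fun y j => f (p y j)) o) (Qf (fun y j => f (x y j)) ε o) t ↔
      SigI (FC x p o) (Qf x ε o) t := by
  classical
  let Ψ : Fn β →ₗ[ℚ] Fn α := LinearMap.pi fun a =>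
    if h : ∃ b, f b = a then LinearMap.proj h.choose else 0
  have hΨ : ∀ z b, Ψ z (f b) = z b := by
    intro z b
    have h : ∃ b', f b' = f b := ⟨b, rfl⟩
    simp only [Ψ, LinearMap.pi_apply, dif_pos h, LinearMap.proj_apply, hf h.choose_spec]
  refine SigI_iso (LinearMap.funLeft ℚ (Bool → ℚ) f) Ψ (fun z hz => ?_)
    (fun z hz => ⟨?_, ?_⟩) (FC_zero _ _ _) t
  · exact ⟨hz, rfl⟩
  · simp only [FC, hΨ]; exact hz
  · simp only [Qf, hΨ]

theorem Inv_relabel [Nonempty Γ] (f : β → α) (hf : Function.Injective f) {x : X → Fin 4 → β}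
    {p : P → Fin 2 → β} {U' : Finset β} {U : Finset α} (hU : ∀ u, u ∈ U ↔ ∃ a ∈ U', f a = u)
    {ε : X → ℤ} {d : Dat Γ} :
    Inv (fun y j => f (x y j)) (fun y j => f (p y j)) U ε d ↔ Inv x p U' ε d := by
  constructor
  · rintro ⟨o, oP, κ, h1, h2⟩
    exact ⟨o, oP, _, (Pk_relabel f hf hU).mp h1, (SigI_relabel f hf x p ε o _).mp h2⟩
  · rintro ⟨o, oP, κ, h1, h2⟩
    refine ⟨o, oP, Function.extend f κ fun _ => Classical.arbitrary Γ,
      (Pk_relabel f hf hU).mpr ?_, (SigI_relabel f hf x p ε o _).mpr h2⟩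
    simpa only [hf.extend_apply] using h1

theorem FC_rot {x : X → Fin 4 → α} {p : P → Fin 2 → α} {o : X → Fin 4 → Bool} (r : X → Bool)
    (z : Fn α) : FC (fun y j => x y (pm 0 (r y) j)) p (fun y j => o y (pm 0 (r y) j)) z ↔
      FC x p o z := by
  refine and_congr_left' (forall_congr' fun y => ?_)
  beta_reduce
  cases r y <;> simp [pm, Fin.forall_fin_succ]
  tauto

theorem Inv.rot {x : X → Fin 4 → α} {p : P → Fin 2 → α} {U : Finset α} {ε : X → ℤ}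
    {d : Dat Γ} (h : Inv x p U ε d) (r : X → Bool) :
    Inv (fun y j => x y (pm 0 (r y) j)) p U (fun y => sg (!r y) * ε y) d := by
  obtain ⟨o, oP, κ, h1, h2⟩ := h
  refine ⟨_, _, κ, h1.pm (fun _ => 0) r, ?_⟩
  rw [wr_pm ε h1.ori (h1.kap.comp fun _ => true) (fun _ => 0) r]
  have e2 : Qf (fun y j => x y (pm 0 (r y) j)) (fun y => sg (!r y) * ε y)
      (fun y j => o y (pm 0 (r y) j)) = Qf x ε o := by
    funext z
    refine sum_congr rfl fun y _ => ?_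
    beta_reduce
    cases r y <;> simp [pm, qt, sg]
    ring
  have e1 : FC (fun y j => x y (pm 0 (r y) j)) p (fun y j => o y (pm 0 (r y) j)) = FC x p o :=
    funext fun z => propext (FC_rot r z)
  rw [e1, e2]
  exact h2

end

end Pool.Agent.MP_97bb71_gt

end

section

/-! Components, connectivity, and the bridge to diagram codes. -/

namespace Pool.Agent.MP_97bb71_gt
open Finset

set_option linter.unusedSectionVars false

noncomputable section

variable {α β Γ X X' P P' : Type} [Fintype X] [Fintype P] [Fintype X'] [Fintype P']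
  [DecidableEq Γ]

def act (ε : X → ℤ) (m : Md) (y : X) : Md := if ε y = 0 then .S else m

structure Conn [Fintype Γ] (d : Dat Γ) : Prop where
  b0 : ∀ η, d.B ∅ η = dl ^ Fintype.card Γ
  w0 : d.w ∅ = 0
  nb : ∀ Y, ∃ Z, Y ≠ Z ∧ d.lk Y Z ≠ 0
  co : ∀ (β : Type) (f : Γ → β), (∀ Y Z, Y ≠ Z → d.lk Y Z ≠ 0 → f Y = f Z) → ∀ Y Z, f Y = f Z

theorem Conn.mir [Fintype Γ] {d : Dat Γ} (h : Conn d) : Conn d.mir :=
  ⟨fun η => h.b0 _, by simp [Dat.mir, h.w0], fun Y => by simpa [Dat.mir] using h.nb Y,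
    fun β f hf => h.co β f fun Y Z h1 h2 => hf Y Z h1 (by simpa [Dat.mir] using h2)⟩

theorem Br_zero (x : X → Fin 4 → α) (p : P → Fin 2 → α) (U : Finset α) :
    Br x p U (fun _ => 0) = dl ^ N x p U fun _ => .S := by
  classical
  rw [Br_def, sum_eq_single (fun _ => true)]
  · simp [wt, md]
  · intro s _ hs
    obtain ⟨y, hy⟩ := Function.ne_iff.mp hs
    rw [prod_eq_zero (mem_univ y) (by simpa [wt] using hy), zero_mul]
  · simp

theorem dl_pow_inj {m n : ℕ} (h : dl ^ m = dl ^ n) : m = n := by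
  have := congrArg abs h
  rw [abs_pow, abs_pow] at this
  exact pow_right_injective₀ (by norm_num [dl]) (by norm_num [dl, abs_of_neg]) this

section
variable {x : X → Fin 4 → α} {p : P → Fin 2 → α} {U : Finset α} {ε : X → ℤ} {d : Dat Γ}
  {o : X → Fin 4 → Bool} {oP : P → Bool} {κ : α → Γ}

def Btw (x : X → Fin 4 → α) (κ : α → Γ) (Y Z : Γ) (y : X) : Prop :=
  (κ (x y 0) = Y ∧ κ (x y 1) = Z) ∨ (κ (x y 0) = Z ∧ κ (x y 1) = Y)

theorem Pk.cross (h : Pk x p U ε d o oP κ) {Y Z : Γ} (h1 : Y ≠ Z) (h2 : d.lk Y Z ≠ 0) :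
    ∃ y, ε y ≠ 0 ∧ Btw x κ Y Z y := by
  by_contra hn
  apply h2
  rw [← h.lk Y Z h1]
  refine sum_eq_zero fun y _ => ?_
  by_cases h0 : ε y = 0
  · simp [h0]
  have : ¬Btw x κ Y Z y := fun hb => hn ⟨y, h0, hb⟩
  simp only [Btw, not_or, not_and] at this
  simp only [chi]
  split_ifs <;> simp_all

theorem Pk.sep [Fintype Γ] (h : Pk x p U ε d o oP κ) (hc : Conn d) (hU : ∀ y j, x y j ∈ U)
    {a b : α} (ha : a ∈ U) (hb : b ∈ U) (hab : κ a = κ b) :
    Quot.mk (rel x p fun _ => .S) a = Quot.mk (rel x p fun _ => .S) b := by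
  refine eq_of_ncl_le κ (Cp_iff.mp h.kap) ?_ ha hb hab
  have h1 := h.br ∅ true
  have e : eS x ε (inS κ ∅) = fun _ => 0 := by funext y; simp [eS, inS, ind]
  simp only [wr, e, mul_zero, zero_mul, sum_const_zero, hc.w0, sub_zero, zpow_zero, one_mul,
    hc.b0, Br_zero] at h1
  have h2 : U.image κ = univ := by
    refine eq_univ_of_forall fun Y => ?_
    obtain ⟨Z, h3, h4⟩ := hc.nb Y
    obtain ⟨y, _, h5 | h5⟩ := h.cross h3 h4
    · exact mem_image.mpr ⟨_, hU y 0, h5.1⟩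
    · exact mem_image.mpr ⟨_, hU y 1, h5.2⟩
  rw [h2, card_univ]
  exact (dl_pow_inj h1).le

theorem Pk.fac [Fintype Γ] (h : Pk x p U ε d o oP κ) (hc : Conn d) (hU : ∀ y j, x y j ∈ U)
    {g : α → β} (hg : Cp x p (fun _ => .S) g) {a b : α} (ha : a ∈ U) (hb : b ∈ U)
    (hab : κ a = κ b) : g a = g b := hg.eq (h.sep hc hU ha hb hab)

theorem Cp.str {g : α → β} (hg : Cp x p (act ε .C) g) : Cp x p (fun _ => .S) g := by
  refine ⟨fun y => ?_, hg.2⟩
  have := hg.1 y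
  unfold act at this
  split_ifs at this
  · exact this
  · exact cp_of_C this _

theorem Pk.conn [Fintype Γ] (h : Pk x p U ε d o oP κ) (hc : Conn d) (hU : ∀ y j, x y j ∈ U)
    {g : α → β} (hg : Cp x p (act ε .C) g) {a b : α} (ha : a ∈ U) (hb : b ∈ U) : g a = g b := by
  classical
  let f : Γ → β := fun Y => if hY : ∃ c ∈ U, κ c = Y then g hY.choose else g a
  have hf : ∀ c ∈ U, f (κ c) = g c := by
    intro c hc'
    have hY : ∃ c' ∈ U, κ c' = κ c := ⟨c, hc', rfl⟩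
    simp only [f, dif_pos hY]
    exact h.fac hc hU hg.str hY.choose_spec.1 hc' hY.choose_spec.2
  rw [← hf a ha, ← hf b hb]
  refine hc.co β f (fun Y Z h1 h2 => ?_) _ _
  obtain ⟨y, h0, h3⟩ := h.cross h1 h2
  have h4 := hg.1 y
  simp only [act, h0, if_false] at h4
  rcases h3 with ⟨rfl, rfl⟩ | ⟨rfl, rfl⟩ <;> rw [hf _ (hU _ _), hf _ (hU _ _)]
  exacts [h4.1, h4.1.symm]

theorem Pk.N_conn [Fintype Γ] (h : Pk x p U ε d o oP κ) (hc : Conn d) (hU : ∀ y j, x y j ∈ U) :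
    N x p U (act ε .C) ≤ 1 := by
  refine (ncl_le_card (fun _ => ()) fun a ha b hb _ => h.conn hc hU (Cp_mk _ _ _) ha hb).trans ?_
  exact card_le_one.mpr fun _ _ _ _ => rfl

end

open Classical in
def labs (x : X → Fin 4 → α) (p : P → Fin 2 → α) : Finset α :=
  (univ.image fun q : X × Fin 4 => x q.1 q.2) ∪ univ.image fun q : P × Fin 2 => p q.1 q.2

theorem mem_labs {x : X → Fin 4 → α} {p : P → Fin 2 → α} {a : α} :
    a ∈ labs x p ↔ (∃ y j, x y j = a) ∨ ∃ y j, p y j = a := by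
  simp [labs]

theorem labs_reindex (x : X → Fin 4 → α) (p : P → Fin 2 → α) (σ : X' ≃ X) (τ : P' ≃ P) :
    labs (fun y => x (σ y)) (fun y => p (τ y)) = labs x p := by
  ext a
  simp only [mem_labs]
  exact or_congr (σ.exists_congr_right (q := fun y => ∃ j, x y j = a))
    (τ.exists_congr_right (q := fun y => ∃ j, p y j = a))

def frel (x : X → Fin 4 → α) (p : P → Fin 2 → α) (o : X → Fin 4 → Bool) (a b : α × Bool) : Prop :=
  (∃ y j, a = (x y j, o y j) ∧ b = (x y (j + 1), !o y (j + 1))) ∨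
    ∃ j s, a = (p j 0, s) ∧ b = (p j 1, s)

theorem FC_iff {x : X → Fin 4 → α} {p : P → Fin 2 → α} {o : X → Fin 4 → Bool} {z : Fn α} :
    FC x p o z ↔ ∀ a b, frel x p o a b → z a.1 a.2 = z b.1 b.2 := by
  constructor
  · rintro ⟨h1, h2⟩ a b (⟨y, j, rfl, rfl⟩ | ⟨j, s, rfl, rfl⟩)
    · exact h1 y j
    · exact congrFun (h2 j) s
  · intro h
    exact ⟨fun y j => h _ _ (Or.inl ⟨y, j, rfl, rfl⟩),
      fun j => funext fun s => h _ _ (Or.inr ⟨j, s, rfl, rfl⟩)⟩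

theorem frel_reindex (x : X → Fin 4 → α) (p : P → Fin 2 → α) (o : X → Fin 4 → Bool)
    (σ : X' ≃ X) (τ : P' ≃ P) :
    frel (fun y => x (σ y)) (fun y => p (τ y)) (fun y => o (σ y)) = frel x p o := by
  funext a b
  exact propext (or_congr (σ.exists_congr_right (q := fun y => ∃ j, a = (x y j, o y j) ∧
    b = (x y (j + 1), !o y (j + 1)))) (τ.exists_congr_right
      (q := fun j => ∃ s, a = (p j 0, s) ∧ b = (p j 1, s))))

namespace Diagram

theorem mem_labs' (D : Diagram) (u : ℕ) : u ∈ labs D.x D.p ↔ ∃ a, D.lab a = u := by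
  simp [mem_labs, lab]

theorem count_eq (D : Diagram) (m : Md) (c : D.Dart → Prop) (hc : ∀ i, c (.inr i))
    (hm : ∀ i j, c (.inl (i, j)) → (j - 1, j) ∈ mp m ∨ m = .C)
    (hm' : ∀ i, ∀ q ∈ mp m, c (.inl (i, q.2)) ∧ q.1 = q.2 - 1) :
    Nat.card (Quot fun a b : D.Dart => D.lab a = D.lab b ∨ (b = D.prev a ∧ c a)) =
      N D.x D.p (labs D.x D.p) fun _ => m := by
  refine card_quot_eq_ncl _ _ D.lab _ D.mem_labs' ?_ (fun a b h => Quot.sound (Or.inl h)) ?_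
  · rintro a b (h | ⟨rfl, h⟩)
    · rw [h]
    · have hk := Cp_mk D.x D.p fun _ => m
      rcases a with ⟨i, j⟩ | ⟨i, j⟩
      · rcases hm i j h with h1 | rfl
        · exact ((cp_iff _ _).mp (hk.1 i) _ h1).symm
        · obtain ⟨h1, h2, h3⟩ := hk.1 i
          fin_cases j
          · exact h1.trans (h2.trans h3)
          · exact h1.symm
          · exact h2.symm
          · exact h3.symm
      · fin_cases j
        · exact hk.2 i
        · exact (hk.2 i).symm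
  · rintro u v (⟨y, q, hq, rfl, rfl⟩ | ⟨j, rfl, rfl⟩)
    · refine ⟨.inl (y, q.1), .inl (y, q.2), rfl, rfl, Eq.symm ?_⟩
      refine Quot.sound (Or.inr ⟨?_, (hm' y q hq).1⟩)
      rw [(hm' y q hq).2]; rfl
    · exact ⟨.inr (j, 0), .inr (j, 1), rfl, rfl, Quot.sound (Or.inr ⟨rfl, hc _⟩)⟩

theorem pieces_eq (D : Diagram) : D.pieces = N D.x D.p (labs D.x D.p) fun _ => .C := by
  rw [← D.count_eq .C (fun _ => True) (fun _ => trivial) (fun _ _ _ => Or.inr rfl)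
    (fun _ => by simp [mp])]
  simp [pieces]

theorem sA_eq (D : Diagram) : D.sA = N D.x D.p (labs D.x D.p) fun _ => .U := by
  refine D.count_eq .U _ (by simp) ?_ ?_
  · intro i j h
    rcases h i j rfl with rfl | rfl <;> simp [mp]
  · intro i; simp [mp]

theorem sB_eq (D : Diagram) : D.sB = N D.x D.p (labs D.x D.p) fun _ => .V := by
  refine D.count_eq .V _ (by simp) ?_ ?_
  · intro i j h
    rcases h i j rfl with rfl | rfl <;> exact Or.inl (by decide)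
  · intro i; simp [mp]; rfl

/-- orientation of an edge end -/
def od (D : Diagram) (o : Fin D.n → Fin 4 → Bool) (oP : Fin D.m → Bool) : D.Dart → Bool
  | .inl (i, j) => o i j
  | .inr (i, j) => if j = 0 then oP i else !oP i

theorem od_ne (D : Diagram) (hv : ∀ a : D.Dart, ∃! b, b ≠ a ∧ D.lab b = D.lab a)
    {o : Fin D.n → Fin 4 → Bool} {oP : Fin D.m → Bool} (hb : ∀ g, flow D.x D.p o oP g = 0)
    {a b : D.Dart} (h1 : b ≠ a) (h2 : D.lab b = D.lab a) : D.od o oP b = !D.od o oP a := by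
  have h3 := hb fun u => if u = D.lab a then 1 else 0
  have e : ∀ g, flow D.x D.p o oP g = ∑ c : D.Dart, g (D.lab c) * sg (D.od o oP c) := by
    intro g
    rw [Fintype.sum_sum_type, Fintype.sum_prod_type, Fintype.sum_prod_type, flow]
    congr 1
    refine sum_congr rfl fun j _ => ?_
    simp only [Fin.sum_univ_two, lab, od, if_true, one_ne_zero, if_false, sg_not]; ring
  rw [e, sum_eq_add_of_mem a b (mem_univ _) (mem_univ _) h1.symm] at h3
  · simp only [h2, if_true, one_mul] at h3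
    revert h3
    cases D.od o oP a <;> cases D.od o oP b <;> decide
  · intro c _ hc
    rw [if_neg, zero_mul]
    intro h4
    exact hc.2 ((hv a).unique ⟨hc.1, h4⟩ ⟨h1, h2⟩)

theorem faces_eq (D : Diagram) (hv : ∀ a : D.Dart, ∃! b, b ≠ a ∧ D.lab b = D.lab a)
    {o : Fin D.n → Fin 4 → Bool} {oP : Fin D.m → Bool} (hb : ∀ g, flow D.x D.p o oP g = 0) :
    D.faces = ncl (frel D.x D.p o) (labs D.x D.p ×ˢ univ) := by
  have key : ∀ c : D.Dart, Quot.mk (frel D.x D.p o) (D.lab (D.prev c), D.od o oP (D.prev c)) =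
      Quot.mk (frel D.x D.p o) (D.lab c, !D.od o oP c) := by
    rintro (⟨i, j⟩ | ⟨i, j⟩)
    · exact Quot.sound (Or.inl ⟨i, j - 1, rfl, by simp [lab, od]⟩)
    · fin_cases j
      · exact Eq.symm (Quot.sound (Or.inr ⟨i, !oP i, rfl, rfl⟩))
      · exact Quot.sound (Or.inr ⟨i, oP i, rfl, by simp [lab, od]⟩)
  have key2 : ∀ c : D.Dart, ∃ b, (D.lab c, !D.od o oP c) = (D.lab b, D.od o oP b) ∧
      Quot.mk (fun a b : D.Dart => ∃ c, c ≠ a ∧ D.lab c = D.lab a ∧ b = D.prev c) (D.prev c) =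
      Quot.mk _ b := by
    intro c
    obtain ⟨b, ⟨h1, h2⟩, _⟩ := hv c
    exact ⟨b, by rw [h2, D.od_ne hv hb h1 h2], (Quot.sound ⟨c, h1.symm, h2.symm, rfl⟩).symm⟩
  refine card_quot_eq_ncl _ _ (fun a => (D.lab a, D.od o oP a)) _ ?_ ?_ ?_ ?_
  · rintro ⟨u, s⟩
    simp only [mem_product, mem_univ, and_true, D.mem_labs']
    constructor
    · rintro ⟨a, rfl⟩
      by_cases hs : D.od o oP a = s
      · exact ⟨a, by rw [hs]⟩
      · obtain ⟨b, h1, _⟩ := key2 a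
        refine ⟨b, ?_⟩
        rw [← h1, Bool.eq_not_iff.mpr hs, Bool.not_not]
    · rintro ⟨a, h⟩; exact ⟨a, (Prod.ext_iff.mp h).1⟩
  · rintro a b ⟨c, h1, h2, rfl⟩
    rw [key, h2, D.od_ne hv hb h1 h2, Bool.not_not]
  · intro a b h
    by_cases hab : b = a
    · rw [hab]
    · have h1 := Prod.ext_iff.mp h
      have := D.od_ne hv hb hab h1.1.symm
      simp only at h1
      rw [← h1.2] at this
      simp at this
  · rintro u v (⟨y, j, rfl, rfl⟩ | ⟨j, s, rfl, rfl⟩)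
    · obtain ⟨b, h1, h2⟩ := key2 (.inl (y, j + 1))
      refine ⟨.inl (y, j), b, rfl, h1, ?_⟩
      rw [← h2]; simp [prev]
    · by_cases hs : s = oP j
      · obtain ⟨b, h1, h2⟩ := key2 (.inr (j, 1))
        refine ⟨.inr (j, 0), b, by rw [hs]; rfl, ?_, h2⟩
        rw [← h1, hs]; simp [lab, od]
      · obtain ⟨b, h1, h2⟩ := key2 (.inr (j, 0))
        have hs' : s = !oP j := by revert hs; cases s <;> cases oP j <;> simp
        refine ⟨b, .inr (j, 1), ?_, by rw [hs']; rfl, h2.symm⟩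
        rw [← h1, hs']; rfl

end Diagram

end

end Pool.Agent.MP_97bb71_gt

end

section

/-! Generic treatment of local moves. -/

namespace Pool.Agent.MP_97bb71_gt
open Finset

set_option linter.unusedSectionVars false

noncomputable section

section
variable {M M' : Type} [AddCommGroup M] [Module ℚ M] [AddCommGroup M'] [Module ℚ M']

theorem sh_zero {V : M → Prop} {Q : M → ℚ} {V' : M' → Prop} {Q' : M' → ℚ}
    (Φ : M →ₗ[ℚ] M') (Ψ : M' →ₗ[ℚ] M) (hΦ : ∀ z, V z → V' (Φ z) ∧ Q z ≤ Q' (Φ z))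
    (hΨ : ∀ z, V' z → V (Ψ z) ∧ Q' z ≤ Q (Ψ z)) : Sh V Q V' Q' 0 :=
  fun _ => ⟨fun h => h.map Ψ hΨ, fun h => h.map Φ hΦ⟩

theorem sh_one {V : M → Prop} {Q : M → ℚ} {V' : M' → Prop} {Q' : M' → ℚ} (h0 : Q 0 = 0)
    (Φ : M →ₗ[ℚ] M') (u : M') (Ψ : M' →ₗ[ℚ] M) (l : M' →ₗ[ℚ] ℚ)
    (hΦ : ∀ z (t : ℚ), V z → V' (Φ z + t • u) ∧ Q z + t ^ 2 ≤ Q' (Φ z + t • u))
    (hΨ : ∀ z, V' z → l z = 0 → V (Ψ z) ∧ Q' z ≤ Q (Ψ z)) : Sh V Q V' Q' 1 :=
  fun _ => ⟨fun h => (h.ker l).map Ψ fun z hz => hΨ z hz.1 hz.2, fun h => h.succ h0 Φ u hΦ⟩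

end

variable {α Γ X X' P P' R PR : Type} [Fintype X] [Fintype P] [Fintype X'] [Fintype P']
  [Fintype R] [Fintype PR] [DecidableEq Γ]

theorem ind_inS (κ : α → Γ) (S : Finset Γ) (a : α) :
    ind (inS κ S a) = if κ a ∈ S then 1 else 0 := by simp [ind, inS]

theorem hw_of_WW {x : X → Fin 4 → α} {ε : X → ℤ} {o : X → Fin 4 → Bool} {x' : X' → Fin 4 → α}
    {ε' : X' → ℤ} {o' : X' → Fin 4 → Bool} {κ : α → Γ} (L : ℕ → α) (kl : List (ℕ × ℤ))
    (h : ∀ G G' : Γ → ℤ, W x ε o (fun a => G (κ a)) (fun a => G' (κ a)) -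
      W x' ε' o' (fun a => G (κ a)) (fun a => G' (κ a)) =
      (kl.map fun q => q.2 * (G (κ (L q.1)) * G' (κ (L q.1)))).sum) :
    (∀ Y Z, Y ≠ Z → W x ε o (chi κ Y) (chi κ Z) = W x' ε' o' (chi κ Y) (chi κ Z)) ∧
    (∀ S, wr x ε o (inS κ S) - wr x' ε' o' (inS κ S) =
      (kl.map fun q => q.2 * ind (inS κ S (L q.1))).sum / 2) ∧
    wr x ε o (fun _ => true) - wr x' ε' o' (fun _ => true) = (kl.map fun q => q.2).sum / 2 := by
  refine ⟨fun Y Z hYZ => ?_, fun S => ?_, ?_⟩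
  · have := h (fun v => if v = Y then 1 else 0) (fun v => if v = Z then 1 else 0)
    rw [List.sum_eq_zero, sub_eq_zero] at this
    · exact this
    · intro v hv
      obtain ⟨q, _, rfl⟩ := List.mem_map.mp hv
      by_cases h1 : κ (L q.1) = Y
      · simp [h1, hYZ]
      · simp [h1]
  · have := h (fun v => ind (decide (v ∈ S))) (fun v => ind (decide (v ∈ S)))
    simp only [ind_sq] at this
    have e1 := two_wr x ε o (inS κ S)
    have e2 := two_wr x' ε' o' (inS κ S)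
    simp only [inS] at e1 e2 ⊢
    omega
  · have := h (fun _ => 1) (fun _ => 1)
    have e1 := two_wr x ε o (fun _ => true)
    have e2 := two_wr x' ε' o' (fun _ => true)
    simp only [ind, if_true, mul_one] at this e1 e2
    omega

def IV (x : X → Fin 4 → α) (p : P → Fin 2 → α) (d : Dat Γ) : Prop :=
  Inv x p (labs x p) (fun _ => 1) d

def PkS (xR : R → Fin 4 → α) (pR : PR → Fin 2 → α) (x : X → Fin 4 → α) (p : P → Fin 2 → α)
    (d : Dat Γ) (oR : R → Fin 4 → Bool) (oPR : PR → Bool) (o : X → Fin 4 → Bool) (oP : P → Bool)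
    (κ : α → Γ) : Prop :=
  Pk (Sum.elim xR x) (Sum.elim pR p) (labs (Sum.elim xR x) (Sum.elim pR p))
    (Sum.elim (fun _ => 1) fun _ => 1) d (Sum.elim oR o) (Sum.elim oPR oP) κ

def FCS (xR : R → Fin 4 → α) (pR : PR → Fin 2 → α) (oR : R → Fin 4 → Bool) (x : X → Fin 4 → α)
    (p : P → Fin 2 → α) (o : X → Fin 4 → Bool) (z : Fn α) : Prop := FC xR pR oR z ∧ FC x p o z

def QS (xR : R → Fin 4 → α) (oR : R → Fin 4 → Bool) (x : X → Fin 4 → α) (o : X → Fin 4 → Bool)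
    (z : Fn α) : ℚ := Qf xR (fun _ => 1) oR z + Qf x (fun _ => 1) o z

def Core (xR : R → Fin 4 → α) (pR : PR → Fin 2 → α) (x : X → Fin 4 → α) (p : P → Fin 2 → α)
    (d : Dat Γ) (oR : R → Fin 4 → Bool) (oPR : PR → Bool) (o : X → Fin 4 → Bool) (oP : P → Bool)
    (κ : α → Γ) : Prop :=
  PkS xR pR x p d oR oPR o oP κ ∧ SigI (FCS xR pR oR x p o) (QS xR oR x o)
    (wr xR (fun _ => 1) oR (fun _ => true) + wr x (fun _ => 1) o (fun _ => true) + d.K)

theorem IV_sum {xR : R → Fin 4 → α} {pR : PR → Fin 2 → α} {x : X → Fin 4 → α}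
    {p : P → Fin 2 → α} {d : Dat Γ} : IV (Sum.elim xR x) (Sum.elim pR p) d ↔
      ∃ oR oPR o oP κ, Core xR pR x p d oR oPR o oP κ := by
  have e : (fun _ => 1 : R ⊕ X → ℤ) = Sum.elim (fun _ => 1) fun _ => 1 := by
    funext y; cases y <;> rfl
  have e1 : ∀ oR o, FC (Sum.elim xR x) (Sum.elim pR p) (Sum.elim oR o) = FCS xR pR oR x p o :=
    fun _ _ => funext fun _ => propext FC_sum
  have e2 : ∀ oR o, Qf (Sum.elim xR x) (Sum.elim (fun _ => 1) fun _ => 1) (Sum.elim oR o) =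
    QS xR oR x o := fun _ _ => funext fun z => Qf_sum _ _ _ _ _ _ z
  have e3 : ∀ oR o, wr (Sum.elim xR x) (Sum.elim (fun _ => 1) fun _ => 1) (Sum.elim oR o)
      (fun _ => true) = wr xR (fun _ => 1) oR (fun _ => true) +
        wr x (fun _ => 1) o (fun _ => true) := by
    intro oR o; simp only [wr, eS, Fintype.sum_sum_type, Sum.elim_inl, Sum.elim_inr]
  unfold IV Inv Core PkS
  rw [e]
  constructor
  · rintro ⟨o, oP, κ, h⟩
    rw [← Sum.elim_comp_inl_inr o, ← Sum.elim_comp_inl_inr oP, e1, e2, e3] at h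
    exact ⟨_, _, _, _, κ, h⟩
  · rintro ⟨oR, oPR, o, oP, κ, h⟩
    rw [← e1, ← e2, ← e3] at h
    exact ⟨_, _, κ, h⟩

theorem IV_reindex {x : X → Fin 4 → α} {p : P → Fin 2 → α} {d : Dat Γ} (σ : X' ≃ X)
    (τ : P' ≃ P) : IV (fun y => x (σ y)) (fun y => p (τ y)) d ↔ IV x p d := by
  constructor
  · intro h
    have := Inv.reindex h σ.symm τ.symm
    simp only [Equiv.apply_symm_apply, labs_reindex] at this
    exact this
  · intro h
    have := Inv.reindex h σ τ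
    rw [← labs_reindex x p σ τ] at this
    exact this

theorem add_x (D : Diagram) {k l : ℕ} (x : Fin k → Fin 4 → ℕ) (p : Fin l → Fin 2 → ℕ) :
    (fun y => (D.add x p).x (finSumFinEquiv y)) = Sum.elim D.x x := by
  funext y; cases y <;> simp [Diagram.add]

theorem add_p (D : Diagram) {k l : ℕ} (x : Fin k → Fin 4 → ℕ) (p : Fin l → Fin 2 → ℕ) :
    (fun y => (D.add x p).p (finSumFinEquiv y)) = Sum.elim D.p p := by
  funext y; cases y <;> simp [Diagram.add]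

theorem IV_add (D : Diagram) {k l : ℕ} (x : Fin k → Fin 4 → ℕ) (p : Fin l → Fin 2 → ℕ)
    {d : Dat Γ} : IV (D.add x p).x (D.add x p).p d ↔
      ∃ oR oPR o oP κ, Core D.x D.p x p d oR oPR o oP κ := by
  rw [← IV_sum, ← add_x D x p, ← add_p D x p]
  exact (IV_reindex finSumFinEquiv finSumFinEquiv).symm

def SideOK {k l : ℕ} (nb n : ℕ) (s : Sd) (cx : Fin k → Fin 4 → ℕ) (cj : Fin l → Fin 2 → ℕ) :
    Prop :=
  s.xs = List.ofFn (fun y => (cx y 0, cx y 1, cx y 2, cx y 3, 1)) ∧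
  s.js = List.ofFn (fun y => (cj y 0, cj y 1)) ∧ (∀ y j, cx y j ∈ s.used) ∧
  (∀ y j, cj y j ∈ s.used) ∧
  (∀ i ∈ s.used, i < n ∧ ((∃ y j, cx y j = i) ∨ ∃ y j, cj y j = i)) ∧ ∀ i < nb, i ∈ s.used

instance {k l : ℕ} (nb n : ℕ) (s : Sd) (cx : Fin k → Fin 4 → ℕ) (cj : Fin l → Fin 2 → ℕ) :
    Decidable (SideOK nb n s cx cj) := by unfold SideOK; infer_instance

theorem SideOK.labs {k l nb n : ℕ} {s : Sd} {cx : Fin k → Fin 4 → ℕ} {cj : Fin l → Fin 2 → ℕ}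
    (h : SideOK nb n s cx cj) (xR : R → Fin 4 → α) (pR : PR → Fin 2 → α) (L : ℕ → α) (a : α) :
    a ∈ labs (Sum.elim xR fun y j => L (cx y j)) (Sum.elim pR fun y j => L (cj y j)) ↔
      a ∈ labs xR pR ∨ ∃ i ∈ s.used, L i = a := by
  obtain ⟨_, _, h1, h2, h3, _⟩ := h
  simp only [mem_labs, Sum.exists, Sum.elim_inl, Sum.elim_inr]
  constructor
  · rintro ((h | ⟨y, j, h⟩) | h | ⟨y, j, h⟩)
    · exact Or.inl (Or.inl h)
    · exact Or.inr ⟨_, h1 y j, h⟩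
    · exact Or.inl (Or.inr h)
    · exact Or.inr ⟨_, h2 y j, h⟩
  · rintro ((h | h) | ⟨i, hi, rfl⟩)
    · exact Or.inl (Or.inl h)
    · exact Or.inr (Or.inl h)
    · rcases (h3 i hi).2 with ⟨y, j, rfl⟩ | ⟨y, j, rfl⟩
      · exact Or.inl (Or.inr ⟨y, j, rfl⟩)
      · exact Or.inr (Or.inr ⟨y, j, rfl⟩)

def blkR (nb n : ℕ) : List ℕ := (List.range n).map fun i => i + 1 - nb

def bkR (new : List ℕ) (a : ℕ) : ℕ := if a ∈ new then new.idxOf a + 1 else 0

theorem bkR_L {old new : List ℕ} (h1 : new.Nodup) (h2 : ∀ e ∈ new, e ∉ old) {i : ℕ}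
    (hi : i < old.length + new.length) :
    bkR new (gt (old ++ new) i) = gt (blkR old.length (old.length + new.length)) i := by
  rw [blkR, gt_map_range _ _ hi, gt_eq, bkR]
  by_cases h : i < old.length
  · rw [List.getD_append _ _ _ _ h, if_neg, Nat.sub_eq_zero_of_le h]
    intro hm
    exact h2 _ hm (by rw [List.getD_eq_getElem _ _ h]; exact List.getElem_mem h)
  · have h3 : i - old.length < new.length := by omega
    rw [List.getD_append_right _ _ _ _ (by omega), List.getD_eq_getElem _ _ h3,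
      if_pos (List.getElem_mem h3), h1.idxOf_getElem]
    omega

theorem core_iff {k1 l1 k2 l2 : ℕ} (D : Diagram) (old new : List ℕ) (hfr : D.Fresh new old)
    (nb n : ℕ) (src : List ℕ) (s1 s2 : Sd) (kl : List (ℕ × ℤ))
    (cx1 : Fin k1 → Fin 4 → ℕ) (cj1 : Fin l1 → Fin 2 → ℕ)
    (cx2 : Fin k2 → Fin 4 → ℕ) (cj2 : Fin l2 → Fin 2 → ℕ) (i j : ℕ)
    (hchk : chk n (blkR nb n) [] src s1 s2 kl 1 0 true = true ∧
      chk n (blkR nb n) [] src s1 s2 kl 1 0 false = true)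
    (hdec : SideOK nb n s1 cx1 cj1 ∧ SideOK nb n s2 cx2 cj2 ∧ (∀ q ∈ kl, q.1 < n) ∧
      (∀ i < n, gt src i ≤ i) ∧ (j : ℤ) - i = (kl.map fun q => q.2).sum / 2)
    (hnb : nb = old.length) (hn : n = old.length + new.length)
    {x1 : Fin k1 → Fin 4 → ℕ} {p1 : Fin l1 → Fin 2 → ℕ} {x2 : Fin k2 → Fin 4 → ℕ}
    {p2 : Fin l2 → Fin 2 → ℕ} (hx1 : x1 = fun y j => gt (old ++ new) (cx1 y j))
    (hp1 : p1 = fun y j => gt (old ++ new) (cj1 y j))
    (hx2 : x2 = fun y j => gt (old ++ new) (cx2 y j))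
    (hp2 : p2 = fun y j => gt (old ++ new) (cj2 y j))
    {d : Dat Γ} {oR : Fin D.n → Fin 4 → Bool} {oPR : Fin D.m → Bool}
    {o1 : Fin k1 → Fin 4 → Bool} {oP1 : Fin l1 → Bool} {o2 : Fin k2 → Fin 4 → Bool}
    {oP2 : Fin l2 → Bool} {κ : ℕ → Γ} (ho1 : Ori o1) (ho2 : Ori o2)
    (hf : ∀ g, flow x2 p2 o2 oP2 g = flow x1 p1 o1 oP1 g)
    (hk1 : Cp x1 p1 (fun _ => .S) κ) (hk2 : Cp x2 p2 (fun _ => .S) κ)
    (hsrc : ∀ i < n, κ (gt (old ++ new) (gt src i)) = κ (gt (old ++ new) i))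
    (hWW : ∀ G G' : Γ → ℤ, W x1 (fun _ => 1) o1 (fun a => G (κ a)) (fun a => G' (κ a)) -
      W x2 (fun _ => 1) o2 (fun a => G (κ a)) (fun a => G' (κ a)) =
      (kl.map fun q => q.2 * (G (κ (gt (old ++ new) q.1)) * G' (κ (gt (old ++ new) q.1)))).sum)
    (hsh : PkS D.x D.p x1 p1 d oR oPR o1 oP1 κ → PkS D.x D.p x2 p2 d oR oPR o2 oP2 κ →
      Sh (FCS D.x D.p oR x1 p1 o1) (QS D.x oR x1 o1) (FCS D.x D.p oR x2 p2 o2) (QS D.x oR x2 o2) i ∧
      Sh (FCS D.x D.p oR x1 p1 o1) (fun z => -QS D.x oR x1 o1 z) (FCS D.x D.p oR x2 p2 o2)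
        (fun z => -QS D.x oR x2 o2 z) j) :
    Core D.x D.p x1 p1 d oR oPR o1 oP1 κ ↔ Core D.x D.p x2 p2 d oR oPR o2 oP2 κ := by
  obtain ⟨hs1, hs2, hkl, hsr, hij⟩ := hdec
  obtain ⟨w1, w2, w3⟩ := hw_of_WW (gt (old ++ new)) kl hWW
  have hz : ∀ a ∈ labs D.x D.p, bkR new a = 0 := by
    intro a ha
    obtain ⟨q, rfl⟩ := (D.mem_labs' a).mp ha
    exact if_neg fun hm => (hfr.2 _ hm).2 q rfl
  have hB : Cp D.x D.p (fun _ => .S) κ → ∀ S η, Br (Sum.elim D.x x1) (Sum.elim D.p p1)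
      (labs (Sum.elim D.x x1) (Sum.elim D.p p1))
      (Sum.elim (fun y => sg η * eS D.x (fun _ => 1) (inS κ S) y)
        fun y => sg η * eS x1 (fun _ => 1) (inS κ S) y) =
      (-8 : ℚ) ^ (sg η * ((kl.map fun q => q.2 * ind (inS κ S (gt (old ++ new) q.1))).sum / 2)) *
      Br (Sum.elim D.x x2) (Sum.elim D.p p2) (labs (Sum.elim D.x x2) (Sum.elim D.p p2))
      (Sum.elim (fun y => sg η * eS D.x (fun _ => 1) (inS κ S) y)
        fun y => sg η * eS x2 (fun _ => 1) (inS κ S) y) := by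
    intro hk S η
    subst hx1 hp1 hx2 hp2
    refine Br_move D.x D.p (fun _ => 1) (gt (old ++ new)) n (blkR nb n) [] src s1 s2 kl 0
      (fun η r hr => ?_) (fun i _ v _ hv => by simp [gt] at hv) cx1 cj1 (fun _ => 1) cx2 cj2
      (fun _ => 1) hs1.1 hs1.2.1 hs2.1 hs2.2.1
      ⟨fun y j => (hs1.2.2.2.2.1 _ (hs1.2.2.1 y j)).1, fun y j => (hs1.2.2.2.2.1 _ (hs1.2.2.2.1 y j)).1,
        fun y j => (hs2.2.2.2.2.1 _ (hs2.2.2.1 y j)).1,
        fun y j => (hs2.2.2.2.2.1 _ (hs2.2.2.2.1 y j)).1, fun i hi => (hs1.2.2.2.2.1 i hi).1,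
        fun i hi => (hs2.2.2.2.2.1 i hi).1, hkl, hsr⟩
      (labs D.x D.p) _ _ (hs1.labs _ _ _) (hs2.labs _ _ _) (bkR new) ?_ ?_ ?_ (Or.inl rfl)
      (inS κ S) (hk.comp fun v => decide (v ∈ S)) (fun i hi => by simp only [inS, hsrc i hi]) η
    · obtain rfl : r = 0 := by omega
      cases η
      exacts [hchk.2, hchk.1]
    · refine Cp_iff.mpr ?_
      rintro a b (⟨y, q, _, rfl, rfl⟩ | ⟨j, rfl, rfl⟩) <;> rw [hz, hz] <;> first
        | exact mem_labs.mpr (Or.inl ⟨_, _, rfl⟩)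
        | exact mem_labs.mpr (Or.inr ⟨_, _, rfl⟩)
    · intro i hi
      rw [hn, hnb]
      exact bkR_L hfr.1 (fun e he => (hfr.2 e he).1) (hn ▸ hi)
    · intro i hi
      by_cases h : i < nb
      · exact Or.inl ⟨hs1.2.2.2.2.2 i h, hs2.2.2.2.2.2 i h⟩
      · refine Or.inr fun a ha => ?_
        rw [hz a ha, blkR, gt_map_range _ _ hi]; omega
  have hP : PkS D.x D.p x1 p1 d oR oPR o1 oP1 κ ↔ PkS D.x D.p x2 p2 d oR oPR o2 oP2 κ := by
    constructor
    · intro h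
      exact Pk.move h ho2 hf hk2 _ w1 w2 (hB (Cp_sum_S.mp h.kap).1)
    · intro h
      refine Pk.move h ho1 (fun g => (hf g).symm) hk1
        (fun S => -((kl.map fun q => q.2 * ind (inS κ S (gt (old ++ new) q.1))).sum / 2))
        (fun Y Z h => (w1 Y Z h).symm) (fun S => by rw [← w2 S]; ring) fun S η => ?_
      rw [hB (Cp_sum_S.mp h.kap).1, ← mul_assoc, ← zpow_add₀ (by norm_num)]
      simp
  unfold Core
  constructor
  · rintro ⟨h1, h2⟩
    obtain ⟨h3, h4⟩ := hsh h1 (hP.mp h1)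
    exact ⟨hP.mp h1, (SigI_shift h3 h4 ⟨FC_zero _ _ _, FC_zero _ _ _⟩ (by omega)).mp h2⟩
  · rintro ⟨h1, h2⟩
    obtain ⟨h3, h4⟩ := hsh (hP.mpr h1) h1
    exact ⟨hP.mpr h1, (SigI_shift h3 h4 ⟨FC_zero _ _ _, FC_zero _ _ _⟩ (by omega)).mpr h2⟩

theorem Core.kap {xR : R → Fin 4 → α} {pR : PR → Fin 2 → α} {x : X → Fin 4 → α}
    {p : P → Fin 2 → α} {d : Dat Γ} {oR : R → Fin 4 → Bool} {oPR : PR → Bool}
    {o : X → Fin 4 → Bool} {oP : P → Bool} {κ : α → Γ} (h : Core xR pR x p d oR oPR o oP κ) :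
    Cp x p (fun _ => .S) κ := (Cp_sum_S.mp h.1.kap).2

theorem Core.ori {xR : R → Fin 4 → α} {pR : PR → Fin 2 → α} {x : X → Fin 4 → α}
    {p : P → Fin 2 → α} {d : Dat Γ} {oR : R → Fin 4 → Bool} {oPR : PR → Bool}
    {o : X → Fin 4 → Bool} {oP : P → Bool} {κ : α → Γ} (h : Core xR pR x p d oR oPR o oP κ) :
    Ori o := fun y => h.1.ori (.inr y)

theorem Core.upd {D : Diagram} {old new : List ℕ} (hfr : D.Fresh new old) {x : X → Fin 4 → ℕ}
    {p : P → Fin 2 → ℕ} {d : Dat Γ} {oR : Fin D.n → Fin 4 → Bool} {oPR : Fin D.m → Bool}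
    {o : X → Fin 4 → Bool} {oP : P → Bool} {κ : ℕ → Γ} (h : Core D.x D.p x p d oR oPR o oP κ)
    (hx : ∀ y j, x y j ∈ old) (hp : ∀ y j, p y j ∈ old) (κ' : ℕ → Γ)
    (hκ : ∀ a, a ∉ new → κ' a = κ a) : Core D.x D.p x p d oR oPR o oP κ' := by
  refine ⟨Pk.congr_kap h.1 ?_ ?_, h.2⟩
  · rintro (y | y) j
    · exact hκ _ fun hm => (hfr.2 _ hm).2 (.inl (y, j)) rfl
    · exact hκ _ fun hm => (hfr.2 _ hm).1 (hx y j)
  · rintro (y | y) j
    · exact hκ _ fun hm => (hfr.2 _ hm).2 (.inr (y, j)) rfl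
    · exact hκ _ fun hm => (hfr.2 _ hm).1 (hp y j)

theorem Core.int {D : Diagram} {old new : List ℕ} (hfr : D.Fresh new old) {x : X → Fin 4 → ℕ}
    {p : P → Fin 2 → ℕ} {d : Dat Γ} {oR : Fin D.n → Fin 4 → Bool} {oPR : Fin D.m → Bool}
    {o : X → Fin 4 → Bool} {oP : P → Bool} {κ : ℕ → Γ} (h : Core D.x D.p x p d oR oPR o oP κ)
    {e : ℕ} (he : e ∈ new) : flow x p o oP (fun a => if a = e then 1 else 0) = 0 := by
  have h1 := h.1.bal fun a => if a = e then 1 else 0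
  have h2 : ∀ y j, D.x y j ≠ e := fun y j => (hfr.2 e he).2 (.inl (y, j))
  have h3 : ∀ y j, D.p y j ≠ e := fun y j => (hfr.2 e he).2 (.inr (y, j))
  rw [flow_sum] at h1
  simpa [flow, h2, h3] using h1

theorem rest_congr {D : Diagram} {old new : List ℕ} (hfr : D.Fresh new old)
    (oR : Fin D.n → Fin 4 → Bool) {z z' : Fn ℕ} (h : ∀ a, a ∉ new → z' a = z a) :
    (FC D.x D.p oR z → FC D.x D.p oR z') ∧
      Qf D.x (fun _ => 1) oR z' = Qf D.x (fun _ => 1) oR z := by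
  have h2 : ∀ y j, z' (D.x y j) = z (D.x y j) :=
    fun y j => h _ fun hm => (hfr.2 _ hm).2 (.inl (y, j)) rfl
  exact ⟨fun h1 => FC_congr h1 h2 fun y j => h _ fun hm => (hfr.2 _ hm).2 (.inr (y, j)) rfl,
    Qf_congr _ _ _ h2⟩

theorem sh_iso {D : Diagram} {old new : List ℕ} (hfr : D.Fresh new old)
    (oR : Fin D.n → Fin 4 → Bool) {x1 : X → Fin 4 → ℕ} {p1 : P → Fin 2 → ℕ}
    {o1 : X → Fin 4 → Bool} {x2 : X' → Fin 4 → ℕ} {p2 : P' → Fin 2 → ℕ} {o2 : X' → Fin 4 → Bool}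
    (Φ Ψ : Fn ℕ →ₗ[ℚ] Fn ℕ) (hΦ : ∀ z a, a ∉ new → Φ z a = z a)
    (hΨ : ∀ z a, a ∉ new → Ψ z a = z a)
    (h1 : ∀ z, FC x1 p1 o1 z → FC x2 p2 o2 (Φ z) ∧
      Qf x2 (fun _ => 1) o2 (Φ z) = Qf x1 (fun _ => 1) o1 z)
    (h2 : ∀ z, FC x2 p2 o2 z → FC x1 p1 o1 (Ψ z) ∧
      Qf x1 (fun _ => 1) o1 (Ψ z) = Qf x2 (fun _ => 1) o2 z) :
    Sh (FCS D.x D.p oR x1 p1 o1) (QS D.x oR x1 o1) (FCS D.x D.p oR x2 p2 o2) (QS D.x oR x2 o2) 0 ∧
      Sh (FCS D.x D.p oR x1 p1 o1) (fun z => -QS D.x oR x1 o1 z) (FCS D.x D.p oR x2 p2 o2)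
        (fun z => -QS D.x oR x2 o2 z) 0 := by
  constructor <;> refine sh_zero Φ Ψ (fun z hz => ?_) (fun z hz => ?_)
  all_goals first
    | exact ⟨⟨(rest_congr hfr oR (hΦ z)).1 hz.1, (h1 z hz.2).1⟩, by
        simp only [QS, (rest_congr hfr oR (hΦ z)).2, (h1 z hz.2).2, le_refl]⟩
    | exact ⟨⟨(rest_congr hfr oR (hΨ z)).1 hz.1, (h2 z hz.2).1⟩, by
        simp only [QS, (rest_congr hfr oR (hΨ z)).2, (h2 z hz.2).2, le_refl]⟩

end

end Pool.Agent.MP_97bb71_gt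

end

section

/-! Invariance under the recoding moves. -/

namespace Pool.Agent.MP_97bb71_gt
open Finset

noncomputable section

variable {Γ : Type} [DecidableEq Γ] {d : Dat Γ}

def DInv (D : Diagram) (d : Dat Γ) : Prop := IV D.x D.p d

theorem ori1 {o : Fin 1 → Fin 4 → Bool} (h : Ori o) :
    o = ![![o 0 0, o 0 1, !o 0 0, !o 0 1]] := by
  funext y j; fin_cases y; fin_cases j <;> simp [h 0]

theorem turn_core (R : Diagram) (a b c e : ℕ) (t u : Bool) {oR : Fin R.n → Fin 4 → Bool}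
    {oPR : Fin R.m → Bool} {κ : ℕ → Γ} (oP : Fin 0 → Bool) (h1 : κ a = κ c) (h2 : κ b = κ e) :
    Core R.x R.p ![![a, b, c, e]] ![] d oR oPR ![![t, u, !t, !u]] oP κ ↔
    Core R.x R.p ![![c, e, a, b]] ![] d oR oPR ![![!t, !u, t, u]] oP κ := by
  have hfr : R.Fresh [] [a, b, c, e] := ⟨List.nodup_nil, by simp⟩
  refine core_iff R [a, b, c, e] [] hfr 4 4 [0, 1, 0, 1] ⟨[(0, 1, 2, 3, 1)], [], [0, 1, 2, 3]⟩
    ⟨[(2, 3, 0, 1, 1)], [], [0, 1, 2, 3]⟩ [] ![![0, 1, 2, 3]] ![] ![![2, 3, 0, 1]] ![] 0 0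
    (by decide +kernel) (by decide) rfl rfl
    (by funext y j; fin_cases y; fin_cases j <;> rfl) (by funext y; exact y.elim0)
    (by funext y j; fin_cases y; fin_cases j <;> rfl) (by funext y; exact y.elim0)
    (by simp [Ori]) (by simp [Ori]) (fun g => by simp [flow, Fin.sum_univ_succ]; ring)
    (by simp [Cp, cp, h1, h2]) (by simp [Cp, cp, h1, h2])
    (fun i hi => by interval_cases i <;> simp [gt_eq, h1, h2])
    (fun G G' => by simp [W, sn, sg_not, h1, h2]) fun _ _ => ?_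
  refine sh_iso hfr oR LinearMap.id LinearMap.id (by simp) (by simp) (fun z hz => ?_)
    (fun z hz => ?_) <;> simp [FC, Qf, qt, Fin.forall_fin_succ] at hz ⊢ <;>
    exact ⟨by tauto, by ring⟩

theorem turn_inv (R : Diagram) (a b c e : ℕ) (h : DInv (R.add ![![a, b, c, e]] ![]) d) :
    DInv (R.add ![![c, e, a, b]] ![]) d := by
  obtain ⟨oR, oPR, o, oP, κ, h⟩ := (IV_add R _ _).mp h
  have hk := h.kap
  simp [Cp, cp] at hk
  rw [ori1 h.ori] at h
  exact (IV_add R _ _).mpr ⟨_, _, _, _, κ, (turn_core R a b c e _ _ oP hk.1 hk.2).mp h⟩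

theorem flip_core (R : Diagram) (a b : ℕ) (t : Bool) {oR : Fin R.n → Fin 4 → Bool}
    {oPR : Fin R.m → Bool} {κ : ℕ → Γ} (o : Fin 0 → Fin 4 → Bool) (h1 : κ a = κ b) :
    Core R.x R.p ![] ![![a, b]] d oR oPR o ![t] κ ↔
    Core R.x R.p ![] ![![b, a]] d oR oPR o ![!t] κ := by
  have hfr : R.Fresh [] [a, b] := ⟨List.nodup_nil, by simp⟩
  refine core_iff R [a, b] [] hfr 2 2 [0, 0] ⟨[], [(0, 1)], [0, 1]⟩
    ⟨[], [(1, 0)], [0, 1]⟩ [] ![] ![![0, 1]] ![] ![![1, 0]] 0 0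
    (by decide +kernel) (by decide) rfl rfl
    (by funext y; exact y.elim0) (by funext y j; fin_cases y; fin_cases j <;> rfl)
    (by funext y; exact y.elim0) (by funext y j; fin_cases y; fin_cases j <;> rfl)
    (by simp [Ori]) (by simp [Ori]) (fun g => by simp [flow, sg_not]; ring)
    (by simp [Cp, h1]) (by simp [Cp, h1])
    (fun i hi => by interval_cases i <;> simp [gt_eq, h1])
    (fun G G' => by simp [W]) fun _ _ => ?_
  refine sh_iso hfr oR LinearMap.id LinearMap.id (by simp) (by simp) (fun z hz => ?_)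
    (fun z hz => ?_) <;> simp [FC, Qf] at hz ⊢ <;> exact hz.symm

theorem fin1 (oP : Fin 1 → Bool) : oP = ![oP 0] := by funext y; fin_cases y; rfl

theorem flip_inv (R : Diagram) (a b : ℕ) (h : DInv (R.add ![] ![![a, b]]) d) :
    DInv (R.add ![] ![![b, a]]) d := by
  obtain ⟨oR, oPR, o, oP, κ, h⟩ := (IV_add R _ _).mp h
  have hk := h.kap
  simp [Cp] at hk
  rw [fin1 oP] at h
  exact (IV_add R _ _).mpr ⟨_, _, _, _, κ, (flip_core R a b _ o hk).mp h⟩

theorem cut0_core (R : Diagram) (a b c f e : ℕ) (hfr : R.Fresh [e] [a, b, c, f]) (t u : Bool)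
    {oR : Fin R.n → Fin 4 → Bool} {oPR : Fin R.m → Bool} {κ : ℕ → Γ} (oP : Fin 0 → Bool)
    (h1 : κ c = κ a) (h2 : κ f = κ b) (h3 : κ e = κ a) :
    Core R.x R.p ![![a, b, c, f]] ![] d oR oPR ![![t, u, !t, !u]] oP κ ↔
    Core R.x R.p ![![e, b, c, f]] ![![e, a]] d oR oPR ![![t, u, !t, !u]] ![!t] κ := by
  have hn := (hfr.2 e (by simp)).1
  simp only [List.mem_cons, List.not_mem_nil, or_false, not_or] at hn
  obtain ⟨n1, n2, n3, n4⟩ := hn
  refine core_iff R [a, b, c, f] [e] hfr 4 5 [0, 1, 0, 1, 0]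
    ⟨[(0, 1, 2, 3, 1)], [], [0, 1, 2, 3]⟩
    ⟨[(4, 1, 2, 3, 1)], [(4, 0)], [0, 1, 2, 3, 4]⟩ [] ![![0, 1, 2, 3]] ![] ![![4, 1, 2, 3]]
    ![![4, 0]] 0 0 (by decide +kernel) (by decide) rfl rfl
    (by funext y j; fin_cases y; fin_cases j <;> rfl) (by funext y; exact y.elim0)
    (by funext y j; fin_cases y; fin_cases j <;> rfl)
    (by funext y j; fin_cases y; fin_cases j <;> rfl)
    (by simp [Ori]) (by simp [Ori]) (fun g => by simp [flow, Fin.sum_univ_succ, sg_not]; ring)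
    (by simp [Cp, cp, h1, h2]) (by simp [Cp, cp, h1, h2, h3])
    (fun i hi => by interval_cases i <;> simp [gt_eq, h1, h2, h3])
    (fun G G' => by simp [W, sn, h3]) fun _ _ => ?_
  refine sh_iso hfr oR (upd e (ev a) LinearMap.id) LinearMap.id
    (fun z v hv => by simp at hv; simp [upd_apply, hv]) (by simp) (fun z hz => ?_)
    (fun z hz => ?_) <;>
    simp [FC, Qf, qt, Fin.forall_fin_succ, upd_apply, Ne.symm n1, Ne.symm n2, Ne.symm n3,
      Ne.symm n4] at hz ⊢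
  · exact hz
  · rw [← hz.2]; exact ⟨hz.1, rfl⟩

theorem cut0_inv (R : Diagram) (a b c f e : ℕ) (hfr : R.Fresh [e] [a, b, c, f]) :
    DInv (R.add ![![a, b, c, f]] ![]) d ↔ DInv (R.add ![![e, b, c, f]] ![![e, a]]) d := by
  have hn := (hfr.2 e (by simp)).1
  simp only [List.mem_cons, List.not_mem_nil, or_false, not_or] at hn
  obtain ⟨n1, n2, n3, n4⟩ := hn
  unfold DInv
  rw [IV_add, IV_add]
  constructor
  · rintro ⟨oR, oPR, o, oP, κ, h⟩
    have hk := h.kap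
    simp [Cp, cp] at hk
    rw [ori1 h.ori] at h
    have h' := h.upd hfr (by simp [Fin.forall_fin_succ]) (by simp)
      (fun v => if v = e then κ a else κ v) (fun v hv => by simp at hv; simp [hv])
    exact ⟨_, _, _, _, _, (cut0_core R a b c f e hfr _ _ oP (by simp [Ne.symm n1, Ne.symm n3, hk])
      (by simp [Ne.symm n2, Ne.symm n4, hk]) (by simp)).mp h'⟩
  · rintro ⟨oR, oPR, o, oP, κ, h⟩
    have hk := h.kap
    simp [Cp, cp] at hk
    have hi := h.int hfr (e := e) (by simp)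
    simp [flow, Fin.sum_univ_succ, Ne.symm n1, Ne.symm n2, Ne.symm n3, Ne.symm n4] at hi
    have e1 : oP 0 = !o 0 0 := by revert hi; cases oP 0 <;> cases o 0 0 <;> decide
    rw [ori1 h.ori, fin1 oP, e1] at h
    exact ⟨_, _, _, ![], _, (cut0_core R a b c f e hfr _ _ _ (by rw [← hk.1.1, hk.2]) hk.1.2.symm
      hk.2).mpr h⟩

theorem cut1_core (R : Diagram) (a b c f e : ℕ) (hfr : R.Fresh [e] [a, b, c, f]) (t u : Bool)
    {oR : Fin R.n → Fin 4 → Bool} {oPR : Fin R.m → Bool} {κ : ℕ → Γ} (oP : Fin 0 → Bool)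
    (h1 : κ c = κ a) (h2 : κ f = κ b) (h3 : κ e = κ b) :
    Core R.x R.p ![![a, b, c, f]] ![] d oR oPR ![![t, u, !t, !u]] oP κ ↔
    Core R.x R.p ![![a, e, c, f]] ![![e, b]] d oR oPR ![![t, u, !t, !u]] ![!u] κ := by
  have hn := (hfr.2 e (by simp)).1
  simp only [List.mem_cons, List.not_mem_nil, or_false, not_or] at hn
  obtain ⟨n1, n2, n3, n4⟩ := hn
  refine core_iff R [a, b, c, f] [e] hfr 4 5 [0, 1, 0, 1, 1]
    ⟨[(0, 1, 2, 3, 1)], [], [0, 1, 2, 3]⟩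
    ⟨[(0, 4, 2, 3, 1)], [(4, 1)], [0, 1, 2, 3, 4]⟩ [] ![![0, 1, 2, 3]] ![] ![![0, 4, 2, 3]]
    ![![4, 1]] 0 0 (by decide +kernel) (by decide) rfl rfl
    (by funext y j; fin_cases y; fin_cases j <;> rfl) (by funext y; exact y.elim0)
    (by funext y j; fin_cases y; fin_cases j <;> rfl)
    (by funext y j; fin_cases y; fin_cases j <;> rfl)
    (by simp [Ori]) (by simp [Ori]) (fun g => by simp [flow, Fin.sum_univ_succ, sg_not]; ring)
    (by simp [Cp, cp, h1, h2]) (by simp [Cp, cp, h1, h2, h3])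
    (fun i hi => by interval_cases i <;> simp [gt_eq, h1, h2, h3])
    (fun G G' => by simp [W, sn, h3]) fun _ _ => ?_
  refine sh_iso hfr oR (upd e (ev b) LinearMap.id) LinearMap.id
    (fun z v hv => by simp at hv; simp [upd_apply, hv]) (by simp) (fun z hz => ?_)
    (fun z hz => ?_) <;>
    simp [FC, Qf, qt, Fin.forall_fin_succ, upd_apply, Ne.symm n1, Ne.symm n2, Ne.symm n3,
      Ne.symm n4] at hz ⊢
  · exact hz
  · rw [← hz.2]; exact ⟨hz.1, rfl⟩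

theorem cut1_inv (R : Diagram) (a b c f e : ℕ) (hfr : R.Fresh [e] [a, b, c, f]) :
    DInv (R.add ![![a, b, c, f]] ![]) d ↔ DInv (R.add ![![a, e, c, f]] ![![e, b]]) d := by
  have hn := (hfr.2 e (by simp)).1
  simp only [List.mem_cons, List.not_mem_nil, or_false, not_or] at hn
  obtain ⟨n1, n2, n3, n4⟩ := hn
  unfold DInv
  rw [IV_add, IV_add]
  constructor
  · rintro ⟨oR, oPR, o, oP, κ, h⟩
    have hk := h.kap
    simp [Cp, cp] at hk
    rw [ori1 h.ori] at h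
    have h' := h.upd hfr (by simp [Fin.forall_fin_succ]) (by simp)
      (fun v => if v = e then κ b else κ v) (fun v hv => by simp at hv; simp [hv])
    exact ⟨_, _, _, _, _, (cut1_core R a b c f e hfr _ _ oP (by simp [Ne.symm n1, Ne.symm n3, hk])
      (by simp [Ne.symm n2, Ne.symm n4, hk]) (by simp)).mp h'⟩
  · rintro ⟨oR, oPR, o, oP, κ, h⟩
    have hk := h.kap
    simp [Cp, cp] at hk
    have hi := h.int hfr (e := e) (by simp)
    simp [flow, Fin.sum_univ_succ, Ne.symm n1, Ne.symm n2, Ne.symm n3, Ne.symm n4] at hi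
    have e1 : oP 0 = !o 0 1 := by revert hi; cases oP 0 <;> cases o 0 1 <;> decide
    rw [ori1 h.ori, fin1 oP, e1] at h
    exact ⟨_, _, _, ![], _, (cut1_core R a b c f e hfr _ _ _ hk.1.1.symm (by rw [← hk.1.2, hk.2])
      hk.2).mpr h⟩

theorem fin2 (oP : Fin 2 → Bool) : oP = ![oP 0, oP 1] := by funext y; fin_cases y <;> rfl

theorem cutJ_core (R : Diagram) (a b e : ℕ) (hfr : R.Fresh [e] [a, b]) (t : Bool)
    {oR : Fin R.n → Fin 4 → Bool} {oPR : Fin R.m → Bool} {κ : ℕ → Γ} (o : Fin 0 → Fin 4 → Bool)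
    (h1 : κ b = κ a) (h3 : κ e = κ a) :
    Core R.x R.p ![] ![![a, b]] d oR oPR o ![t] κ ↔
    Core R.x R.p ![] ![![a, e], ![e, b]] d oR oPR o ![t, t] κ := by
  have hn := (hfr.2 e (by simp)).1
  simp only [List.mem_cons, List.not_mem_nil, or_false, not_or] at hn
  obtain ⟨n1, n2⟩ := hn
  refine core_iff R [a, b] [e] hfr 2 3 [0, 0, 0] ⟨[], [(0, 1)], [0, 1]⟩
    ⟨[], [(0, 2), (2, 1)], [0, 1, 2]⟩ [] ![] ![![0, 1]] ![] ![![0, 2], ![2, 1]] 0 0
    (by decide +kernel) (by decide) rfl rfl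
    (by funext y; exact y.elim0) (by funext y j; fin_cases y; fin_cases j <;> rfl)
    (by funext y; exact y.elim0) (by funext y j; fin_cases y <;> fin_cases j <;> rfl)
    (by simp [Ori]) (by simp [Ori]) (fun g => by simp [flow, Fin.sum_univ_succ]; ring)
    (by simp [Cp, h1]) (by simp [Cp, h1, h3])
    (fun i hi => by interval_cases i <;> simp [gt_eq, h1, h3])
    (fun G G' => by simp [W]) fun _ _ => ?_
  refine sh_iso hfr oR (upd e (ev a) LinearMap.id) LinearMap.id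
    (fun z v hv => by simp at hv; simp [upd_apply, hv]) (by simp) (fun z hz => ?_)
    (fun z hz => ?_) <;>
    simp [FC, Qf, Fin.forall_fin_succ, upd_apply, Ne.symm n1, Ne.symm n2] at hz ⊢
  · exact hz
  · exact hz.1.trans hz.2

theorem cutJ_inv (R : Diagram) (a b e : ℕ) (hfr : R.Fresh [e] [a, b]) :
    DInv (R.add ![] ![![a, b]]) d ↔ DInv (R.add ![] ![![a, e], ![e, b]]) d := by
  have hn := (hfr.2 e (by simp)).1
  simp only [List.mem_cons, List.not_mem_nil, or_false, not_or] at hn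
  obtain ⟨n1, n2⟩ := hn
  unfold DInv
  rw [IV_add, IV_add]
  constructor
  · rintro ⟨oR, oPR, o, oP, κ, h⟩
    have hk := h.kap
    simp [Cp] at hk
    rw [fin1 oP] at h
    have h' := h.upd hfr (by simp) (by simp [Fin.forall_fin_succ])
      (fun v => if v = e then κ a else κ v) (fun v hv => by simp at hv; simp [hv])
    exact ⟨_, _, _, _, _, (cutJ_core R a b e hfr _ o (by simp [Ne.symm n1, Ne.symm n2, hk])
      (by simp)).mp h'⟩
  · rintro ⟨oR, oPR, o, oP, κ, h⟩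
    have hk := h.kap
    simp [Cp] at hk
    have hi := h.int hfr (e := e) (by simp)
    simp [flow, Fin.sum_univ_succ, Ne.symm n1, Ne.symm n2] at hi
    have e1 : oP 1 = oP 0 := by revert hi; cases oP 0 <;> cases oP 1 <;> decide
    rw [fin2 oP, e1] at h
    exact ⟨_, _, _, _, _, (cutJ_core R a b e hfr _ o (by rw [← hk.2, hk.1]) hk.1.symm).mpr h⟩

end

end Pool.Agent.MP_97bb71_gt

end

section

/-! Invariance under the first and third Reidemeister moves. -/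

namespace Pool.Agent.MP_97bb71_gt
open Finset

noncomputable section

theorem sh_kink {M M' : Type} [AddCommGroup M] [Module ℚ M] [AddCommGroup M'] [Module ℚ M']
    {V : M → Prop} {Q : M → ℚ} {V' : M' → Prop} {Q' : M' → ℚ} (h0 : Q 0 = 0)
    (Φ : M →ₗ[ℚ] M') (u : M') (Ψ : M' →ₗ[ℚ] M) (l : M' →ₗ[ℚ] ℚ)
    (hΦ : ∀ z (t : ℚ), V z → V' (Φ z + t • u) ∧ Q' (Φ z + t • u) = Q z + t ^ 2)
    (hΨ : ∀ z, V' z → V (Ψ z) ∧ Q' z = Q (Ψ z) + l z ^ 2) :
    Sh V Q V' Q' 1 ∧ Sh V (fun z => -Q z) V' (fun z => -Q' z) 0 := by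
  refine ⟨sh_one h0 Φ u Ψ l (fun z t hz => ⟨(hΦ z t hz).1, (hΦ z t hz).2.ge⟩)
    fun z hz hl => ⟨(hΨ z hz).1, by rw [(hΨ z hz).2, hl]; simp⟩,
    sh_zero Φ Ψ (fun z hz => ?_) fun z hz => ⟨(hΨ z hz).1, ?_⟩⟩
  · have := hΦ z 0 hz
    simp only [zero_smul, add_zero] at this
    exact ⟨this.1, by rw [this.2]; simp⟩
  · rw [(hΨ z hz).2]; nlinarith [sq_nonneg (l z)]

variable {Γ : Type} [DecidableEq Γ] {d : Dat Γ}

theorem r1b_core (R : Diagram) (a b e : ℕ) (hfr : R.Fresh [e] [a, b]) (t : Bool)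
    {oR : Fin R.n → Fin 4 → Bool} {oPR : Fin R.m → Bool} {κ : ℕ → Γ} (o : Fin 0 → Fin 4 → Bool)
    (oP : Fin 0 → Bool) (h1 : κ b = κ a) (h3 : κ e = κ a) :
    Core R.x R.p ![] ![![a, b]] d oR oPR o ![t] κ ↔
    Core R.x R.p ![![a, b, e, e]] ![] d oR oPR ![![t, !t, !t, t]] oP κ := by
  have hn := (hfr.2 e (by simp)).1
  simp only [List.mem_cons, List.not_mem_nil, or_false, not_or] at hn
  obtain ⟨n1, n2⟩ := hn
  refine core_iff R [a, b] [e] hfr 2 3 [0, 0, 0] ⟨[], [(0, 1)], [0, 1]⟩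
    ⟨[(0, 1, 2, 2, 1)], [], [0, 1, 2]⟩ [(0, -2)] ![] ![![0, 1]] ![![0, 1, 2, 2]] ![] 1 0
    (by decide +kernel) (by decide) rfl rfl
    (by funext y; exact y.elim0) (by funext y j; fin_cases y; fin_cases j <;> rfl)
    (by funext y j; fin_cases y; fin_cases j <;> rfl) (by funext y; exact y.elim0)
    (by simp [Ori]) (by simp [Ori]) (fun g => by simp [flow, Fin.sum_univ_succ, sg_not]; ring)
    (by simp [Cp, h1]) (by simp [Cp, cp, h1, h3])
    (fun i hi => by interval_cases i <;> simp [gt_eq, h1, h3])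
    (fun G G' => by simp [W, sn, sg_not, sg_sq, gt_eq, h1]; ring) fun _ _ => ?_
  refine sh_kink (by simp [QS, Qf_zero])
    (upd e (fun s => if s = t then ev a (!t) else ev a t) LinearMap.id)
    (fun v s => if v = e ∧ s = !t then 1 else 0) LinearMap.id (ev a t - ev e (!t))
    (fun z w hz => ?_) (fun z hz => ?_)
  · have hr := rest_congr hfr oR (z := z) (z' := upd e (fun s => if s = t then ev a (!t) else ev a t)
      LinearMap.id z + w • fun v s => if v = e ∧ s = !t then 1 else 0)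
      (fun v hv => by simp at hv; funext s; simp [upd_apply, hv])
    have h2 := hz.2
    rw [QS, QS, hr.2, add_assoc, add_right_inj]
    refine ⟨⟨hr.1 hz.1, ?_⟩, ?_⟩ <;> cases t <;>
      simp [FC, Qf, qt, Fin.forall_fin_succ, upd_apply, Ne.symm n1, Ne.symm n2] at h2 ⊢ <;>
      simp [h2]
  · have h2 := hz.2
    rw [QS, QS, add_assoc, LinearMap.id_apply, add_right_inj]
    refine ⟨⟨hz.1, ?_⟩, ?_⟩ <;> cases t <;>
      simp [FC, Qf, qt, Fin.forall_fin_succ, funext_iff] at h2 ⊢ <;> simp [h2]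

theorem r1a_core (R : Diagram) (a b e : ℕ) (hfr : R.Fresh [e] [a, b]) (t : Bool)
    {oR : Fin R.n → Fin 4 → Bool} {oPR : Fin R.m → Bool} {κ : ℕ → Γ} (o : Fin 0 → Fin 4 → Bool)
    (oP : Fin 0 → Bool) (h1 : κ b = κ a) (h3 : κ e = κ a) :
    Core R.x R.p ![] ![![a, b]] d oR oPR o ![t] κ ↔
    Core R.x R.p ![![a, e, e, b]] ![] d oR oPR ![![t, t, !t, !t]] oP κ := by
  have hn := (hfr.2 e (by simp)).1
  simp only [List.mem_cons, List.not_mem_nil, or_false, not_or] at hn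
  obtain ⟨n1, n2⟩ := hn
  refine core_iff R [a, b] [e] hfr 2 3 [0, 0, 0] ⟨[], [(0, 1)], [0, 1]⟩
    ⟨[(0, 2, 2, 1, 1)], [], [0, 1, 2]⟩ [(0, 2)] ![] ![![0, 1]] ![![0, 2, 2, 1]] ![] 0 1
    (by decide +kernel) (by decide) rfl rfl
    (by funext y; exact y.elim0) (by funext y j; fin_cases y; fin_cases j <;> rfl)
    (by funext y j; fin_cases y; fin_cases j <;> rfl) (by funext y; exact y.elim0)
    (by simp [Ori]) (by simp [Ori]) (fun g => by simp [flow, Fin.sum_univ_succ, sg_not]; ring)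
    (by simp [Cp, h1]) (by simp [Cp, cp, h1, h3])
    (fun i hi => by interval_cases i <;> simp [gt_eq, h1, h3])
    (fun G G' => by simp [W, sn, sg_sq, gt_eq, h3]; ring) fun _ _ => ?_
  have := sh_kink (V := FCS R.x R.p oR ![] ![![a, b]] o) (Q := fun z => -QS R.x oR ![] o z)
    (V' := FCS R.x R.p oR ![![a, e, e, b]] ![] ![![t, t, !t, !t]])
    (Q' := fun z => -QS R.x oR ![![a, e, e, b]] ![![t, t, !t, !t]] z) (by simp [QS, Qf_zero])
    (upd e (fun s => if s = t then ev a (!t) else ev a t) LinearMap.id)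
    (fun v s => if v = e ∧ s = t then 1 else 0) LinearMap.id (ev e t - ev b (!t))
    (fun z w hz => ?_) (fun z hz => ?_)
  · simp only [neg_neg] at this
    exact this.symm
  · have hr := rest_congr hfr oR (z := z) (z' := upd e (fun s => if s = t then ev a (!t) else ev a t)
      LinearMap.id z + w • fun v s => if v = e ∧ s = t then 1 else 0)
      (fun v hv => by simp at hv; funext s; simp [upd_apply, hv])
    have h2 := hz.2
    rw [QS, QS, hr.2, neg_add, neg_add, add_assoc, add_right_inj]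
    refine ⟨⟨hr.1 hz.1, ?_⟩, ?_⟩ <;> cases t <;>
      simp [FC, Qf, qt, Fin.forall_fin_succ, upd_apply, Ne.symm n1, Ne.symm n2] at h2 ⊢ <;>
      simp [h2]
  · have h2 := hz.2
    rw [QS, QS, neg_add, neg_add, add_assoc, LinearMap.id_apply, add_right_inj]
    refine ⟨⟨hz.1, ?_⟩, ?_⟩ <;> cases t <;>
      simp [FC, Qf, qt, Fin.forall_fin_succ, funext_iff] at h2 ⊢ <;> simp [h2]

theorem r1_inv (R : Diagram) (a b e : ℕ) (hfr : R.Fresh [e] [a, b]) :
    (DInv (R.add ![] ![![a, b]]) d ↔ DInv (R.add ![![a, e, e, b]] ![]) d) ∧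
    (DInv (R.add ![] ![![a, b]]) d ↔ DInv (R.add ![![a, b, e, e]] ![]) d) := by
  have hn := (hfr.2 e (by simp)).1
  simp only [List.mem_cons, List.not_mem_nil, or_false, not_or] at hn
  obtain ⟨n1, n2⟩ := hn
  unfold DInv
  rw [IV_add, IV_add, IV_add]
  have up : ∀ oR oPR o oP κ, Core R.x R.p ![] ![![a, b]] d oR oPR o oP κ →
      ∃ κ', Core R.x R.p ![] ![![a, b]] d oR oPR o ![oP 0] κ' ∧ κ' b = κ' a ∧ κ' e = κ' a := by
    intro oR oPR o oP κ h
    have hk := h.kap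
    simp [Cp] at hk
    rw [fin1 oP] at h
    exact ⟨_, h.upd hfr (by simp) (by simp [Fin.forall_fin_succ])
      (fun v => if v = e then κ a else κ v) (fun v hv => by simp at hv; simp [hv]),
      by simp [Ne.symm n1, Ne.symm n2, hk], by simp⟩
  refine ⟨⟨?_, ?_⟩, ?_, ?_⟩ <;> rintro ⟨oR, oPR, o, oP, κ, h⟩
  · obtain ⟨κ', h1, h2, h3⟩ := up _ _ _ _ _ h
    exact ⟨_, _, _, ![], _, (r1a_core R a b e hfr _ o _ h2 h3).mp h1⟩
  · have hk := h.kap
    simp [Cp, cp] at hk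
    have hi := h.int hfr (e := e) (by simp)
    simp [flow, Fin.sum_univ_succ, Ne.symm n1, Ne.symm n2, (h.ori 0).1] at hi
    have e1 : o 0 1 = o 0 0 := by revert hi; cases o 0 0 <;> cases o 0 1 <;> decide
    rw [ori1 h.ori, e1] at h
    exact ⟨_, _, ![], _, _, (r1a_core R a b e hfr _ _ oP (by rw [← hk.2, hk.1]) hk.1.symm).mpr h⟩
  · obtain ⟨κ', h1, h2, h3⟩ := up _ _ _ _ _ h
    exact ⟨_, _, _, ![], _, (r1b_core R a b e hfr _ o _ h2 h3).mp h1⟩
  · have hk := h.kap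
    simp [Cp, cp] at hk
    have hi := h.int hfr (e := e) (by simp)
    simp [flow, Fin.sum_univ_succ, Ne.symm n1, Ne.symm n2, (h.ori 0).1, (h.ori 0).2] at hi
    have e1 : o 0 1 = !o 0 0 := by revert hi; cases o 0 0 <;> cases o 0 1 <;> decide
    rw [ori1 h.ori, e1, Bool.not_not] at h
    exact ⟨_, _, ![], _, _, (r1b_core R a b e hfr _ _ oP (by rw [hk.2, hk.1]) hk.1.symm).mpr h⟩

end

end Pool.Agent.MP_97bb71_gt

end
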