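import Pool.Agent.Mg.F97bb71.G93af99

namespace Pool.Agent.MP_97bb71_gt

noncomputable def r2f (ρ : List ℕ) : Bool :=
  mgsK [(0, 2), (1, 3), (4, 6), (5, 7)] ρ fun ρ1 =>
  mgsK [(5, 8), (9, 10), (11, 1), (0, 4), (10, 9), (8, 7), (6, 2), (3, 11)] ρ fun ρ2 =>
    orr (Nat.ble (cnt ρ2 [0, 1, 2, 3, 4, 5, 6, 7, 8, 9, 10, 11])
      (cnt ρ1 [0, 1, 2, 3, 4, 5, 6, 7] + 1))
      (an (Nat.beq (gt ρ1 0) (gt ρ1 4)) (cn (Nat.beq (gt ρ2 0) (gt ρ2 2)) false true))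

theorem r2f_all : allR [0, 0, 0, 0, 0, 0, 0, 0, 1, 2, 3, 4] [] r2f 12 0 [] [] 0 = true := by
  decide +kernel

end Pool.Agent.MP_97bb71_gt
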