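import Mathlib

section

/-! Counting classes of a generated equivalence relation. -/

namespace Pool.Agent.MP_97bb71_gt
open Finset

noncomputable section
open Classical

variable {α β γ : Type}

/-- number of classes of the equivalence generated by `r` that meet `U` -/
def ncl (r : α → α → Prop) (U : Finset α) : ℕ := (U.image (Quot.mk r)).card

theorem lift_eq {r : α → α → Prop} {g : α → β} (h : ∀ a b, r a b → g a = g b) {a b : α}
    (hab : Quot.mk r a = Quot.mk r b) : g a = g b :=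
  congrArg (Quot.lift g h) hab

theorem card_image_le_of_ker (U : Finset α) (f : α → β) (g : α → γ) [DecidableEq β]
    [DecidableEq γ] (h : ∀ a ∈ U, ∀ b ∈ U, f a = f b → g a = g b) :
    (U.image g).card ≤ (U.image f).card := by
  rcases U.eq_empty_or_nonempty with rfl | ⟨a0, ha0⟩
  · simp
  let k : β → γ := fun v => if hv : ∃ a ∈ U, f a = v then g hv.choose else g a0
  have : U.image g = (U.image f).image k := by
    rw [image_image]
    apply image_congr
    intro a ha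
    have hv : ∃ a' ∈ U, f a' = f a := ⟨a, ha, rfl⟩
    simp only [Function.comp, k, dif_pos hv]
    exact h a ha _ hv.choose_spec.1 hv.choose_spec.2.symm
  rw [this]
  exact card_image_le

theorem ncl_le_card {r : α → α → Prop} {U : Finset α} (f : α → β) [DecidableEq β]
    (h : ∀ a ∈ U, ∀ b ∈ U, f a = f b → Quot.mk r a = Quot.mk r b) :
    ncl r U ≤ (U.image f).card := card_image_le_of_ker U f _ h

theorem card_le_ncl {r : α → α → Prop} {U : Finset α} (f : α → β) [DecidableEq β]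
    (h : ∀ a b, r a b → f a = f b) : (U.image f).card ≤ ncl r U :=
  card_image_le_of_ker U _ f fun _ _ _ _ hab => lift_eq h hab

theorem ncl_anti {r r' : α → α → Prop} (U : Finset α)
    (h : ∀ a b, r a b → Quot.mk r' a = Quot.mk r' b) : ncl r' U ≤ ncl r U :=
  card_le_ncl _ h

theorem ncl_congr {r r' : α → α → Prop} (U : Finset α)
    (h : ∀ a b, r a b → Quot.mk r' a = Quot.mk r' b)
    (h' : ∀ a b, r' a b → Quot.mk r a = Quot.mk r b) : ncl r U = ncl r' U :=
  le_antisymm (ncl_anti U h') (ncl_anti U h)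

/-- if a compatible function attains as many values as there are classes, it separates classes -/
theorem eq_of_ncl_le {r : α → α → Prop} {U : Finset α} (f : α → β) [DecidableEq β]
    (h : ∀ a b, r a b → f a = f b) (hc : ncl r U ≤ (U.image f).card) {a b : α} (ha : a ∈ U)
    (hb : b ∈ U) (hab : f a = f b) : Quot.mk r a = Quot.mk r b := by
  have e : U.image f = (U.image (Quot.mk r)).image (Quot.lift f h) := by
    rw [image_image]; rfl
  have hc' : ((U.image (Quot.mk r)).image (Quot.lift f h)).card = (U.image (Quot.mk r)).card :=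
    le_antisymm card_image_le (by rw [← e]; exact hc)
  exact card_image_iff.mp hc' (mem_coe.mpr (mem_image_of_mem _ ha))
    (mem_coe.mpr (mem_image_of_mem _ hb)) hab

/-- several distinct classes merged into one -/
theorem ncl_add_le {r r' : α → α → Prop} (U : Finset α)
    (h : ∀ a b, r a b → Quot.mk r' a = Quot.mk r' b) (a0 : α) (ha0 : a0 ∈ U) (A : Finset α)
    (hA : A ⊆ U) (h1 : ∀ a ∈ A, Quot.mk r a ≠ Quot.mk r a0)
    (h2 : ∀ a ∈ A, ∀ b ∈ A, Quot.mk r a = Quot.mk r b → a = b)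
    (h3 : ∀ a ∈ A, Quot.mk r' a = Quot.mk r' a0) : ncl r' U + A.card ≤ ncl r U := by
  have hsub : A.image (Quot.mk r) ⊆ U.image (Quot.mk r) := image_subset_image hA
  have hc : (A.image (Quot.mk r)).card = A.card :=
    card_image_of_injOn fun a ha b hb hab => h2 a ha b hb hab
  have : U.image (Quot.mk r') ⊆
      (U.image (Quot.mk r) \ A.image (Quot.mk r)).image (Quot.lift (Quot.mk r') h) := by
    intro q hq
    obtain ⟨a, ha, rfl⟩ := mem_image.mp hq
    by_cases hm : Quot.mk r a ∈ A.image (Quot.mk r)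
    · obtain ⟨b, hb, hba⟩ := mem_image.mp hm
      refine mem_image.mpr ⟨Quot.mk r a0, mem_sdiff.mpr ⟨mem_image_of_mem _ ha0, ?_⟩, ?_⟩
      · intro hm'
        obtain ⟨c, hc, hca⟩ := mem_image.mp hm'
        exact h1 c hc hca
      · show Quot.mk r' a0 = Quot.mk r' a
        rw [← h3 b hb]; exact lift_eq h hba
    · exact mem_image.mpr ⟨Quot.mk r a, mem_sdiff.mpr ⟨mem_image_of_mem _ ha, hm⟩, rfl⟩
  have h4 := (card_le_card this).trans card_image_le
  rw [card_sdiff_of_subset hsub, hc] at h4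
  have h5 := card_le_card hsub
  unfold ncl
  omega

/-- bridge from a quotient of a finite type to `ncl` -/
theorem card_quot_eq_ncl {δ : Type} [Fintype δ] (rD : δ → δ → Prop) (r : α → α → Prop)
    (h : δ → α) (U : Finset α) (hU' : ∀ u, u ∈ U ↔ ∃ a, h a = u)
    (h1 : ∀ a b, rD a b → Quot.mk r (h a) = Quot.mk r (h b))
    (h2 : ∀ a b, h a = h b → Quot.mk rD a = Quot.mk rD b)
    (h3 : ∀ u v, r u v → ∃ a b, u = h a ∧ v = h b ∧ Quot.mk rD a = Quot.mk rD b) :
    Nat.card (Quot rD) = ncl r U := by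
  have hU : U = univ.image h := by ext u; simp [hU']
  have e1 : Nat.card (Quot rD) = (univ.image (Quot.mk rD)).card := by
    have : Fintype (Quot rD) := Fintype.ofSurjective _ Quot.mk_surjective
    rw [image_univ_of_surjective Quot.mk_surjective, Nat.card_eq_fintype_card, card_univ]
  let k : α → Option (Quot rD) := fun u => if hu : ∃ a, h a = u then some (Quot.mk rD hu.choose)
    else none
  have hk : ∀ a, k (h a) = some (Quot.mk rD a) := by
    intro a
    have hu : ∃ a', h a' = h a := ⟨a, rfl⟩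
    simp only [k, dif_pos hu]
    rw [h2 _ _ hu.choose_spec]
  have hk2 : ∀ u v, r u v → k u = k v := by
    intro u v huv
    obtain ⟨a, b, rfl, rfl, hab⟩ := h3 u v huv
    rw [hk, hk, hab]
  rw [e1, hU, ncl, image_image]
  apply le_antisymm
  · apply card_image_le_of_ker
    intro a _ b _ hab
    have := lift_eq hk2 hab
    rw [hk, hk] at this
    exact Option.some.inj this
  · apply card_image_le_of_ker
    intro a _ b _ hab
    exact lift_eq (g := fun a => Quot.mk r (h a)) h1 hab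

/-- relabelling by an injective map -/
theorem ncl_map (f : β → α) (hf : Function.Injective f) (r' : β → β → Prop) (r : α → α → Prop)
    (U' : Finset β) (U : Finset α) (hU' : ∀ u, u ∈ U ↔ ∃ a ∈ U', f a = u)
    (h1 : ∀ a b, r' a b → r (f a) (f b))
    (h3 : ∀ u v, r u v → ∃ a b, u = f a ∧ v = f b ∧ r' a b) : ncl r U = ncl r' U' := by
  have hU : U = U'.image f := by ext u; simp [hU']
  let k : α → Option (Quot r') := fun u => if hu : ∃ a, f a = u then some (Quot.mk r' hu.choose)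
    else none
  have hk : ∀ a, k (f a) = some (Quot.mk r' a) := by
    intro a
    have hu : ∃ a', f a' = f a := ⟨a, rfl⟩
    simp only [k, dif_pos hu]
    rw [hf hu.choose_spec]
  have hk2 : ∀ u v, r u v → k u = k v := by
    intro u v huv
    obtain ⟨a, b, rfl, rfl, hab⟩ := h3 u v huv
    rw [hk, hk, Quot.sound hab]
  rw [hU, ncl, ncl, image_image]
  apply le_antisymm
  · apply card_image_le_of_ker
    intro a _ b _ hab
    exact lift_eq (g := fun a => Quot.mk r (f a)) (fun a b hab => Quot.sound (h1 a b hab)) hab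
  · apply card_image_le_of_ker
    intro a _ b _ hab
    have := lift_eq hk2 hab
    rw [hk, hk] at this
    exact Option.some.inj this

/-- `f` names the classes of `r` -/
def Rep (r : α → α → Prop) (f : α → β) : Prop :=
  ∀ a b, f a = f b ↔ Quot.mk r a = Quot.mk r b

theorem Rep.ncl_eq {r : α → α → Prop} {f : α → β} (h : Rep r f) (U : Finset α) [DecidableEq β] :
    ncl r U = (U.image f).card :=
  le_antisymm (ncl_le_card f fun a _ b _ hab => (h a b).mp hab)
    (card_le_ncl f fun a b hab => (h a b).mpr (Quot.sound hab))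

theorem Rep.merge {r r' : α → α → Prop} {f f' : α → β} (h : Rep r f) (u v : α)
    (hr : ∀ a b, r' a b ↔ r a b ∨ (a = u ∧ b = v))
    (hf : ∀ a, f' a = if f a = f v then f u else f a) : Rep r' f' := by
  have k1 : ∀ a b, f a = f b → Quot.mk r' a = Quot.mk r' b := fun a b hab =>
    lift_eq (fun a b hab => Quot.sound ((hr a b).mpr (Or.inl hab))) ((h a b).mp hab)
  have k2 : Quot.mk r' u = Quot.mk r' v := Quot.sound ((hr u v).mpr (Or.inr ⟨rfl, rfl⟩))
  intro a b
  constructor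
  · intro hab
    rw [hf, hf] at hab
    by_cases ha : f a = f v <;> by_cases hb : f b = f v <;> simp only [ha, hb, if_true, if_false] at hab
    · rw [k1 a v ha, k1 b v hb]
    · rw [k1 a v ha, ← k2, k1 u b hab]
    · rw [k1 b v hb, ← k2, k1 a u hab]
    · exact k1 a b hab
  · apply lift_eq
    intro a b hab
    rcases (hr a b).mp hab with hab | ⟨rfl, rfl⟩
    · rw [hf, hf, (h a b).mpr (Quot.sound hab)]
    · rw [hf, hf]; simp

theorem ncl_le_succ {r r' : α → α → Prop} (U : Finset α) (u v : α)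
    (hr : ∀ a b, r' a b → Quot.mk (fun a b => r a b ∨ (a = u ∧ b = v)) a =
      Quot.mk (fun a b => r a b ∨ (a = u ∧ b = v)) b) : ncl r U ≤ ncl r' U + 1 := by
  have h0 : Rep r (Quot.mk r) := fun _ _ => Iff.rfl
  have h1 := h0.merge (r' := fun a b => r a b ∨ (a = u ∧ b = v)) u v (fun _ _ => Iff.rfl)
    (fun _ => rfl)
  refine le_trans ?_ (Nat.add_le_add_right (ncl_anti U hr) 1)
  rw [h1.ncl_eq U, ncl]
  refine le_trans (card_le_card (t := insert (Quot.mk r v) (U.image fun a =>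
    if Quot.mk r a = Quot.mk r v then Quot.mk r u else Quot.mk r a)) ?_) (card_insert_le _ _)
  intro q hq
  obtain ⟨a, ha, rfl⟩ := mem_image.mp hq
  by_cases hv : Quot.mk r a = Quot.mk r v
  · rw [hv]; exact mem_insert_self _ _
  · exact mem_insert_of_mem (mem_image.mpr ⟨a, ha, by simp [hv]⟩)

end

end Pool.Agent.MP_97bb71_gt

end

section

/-! Local counting of classes through merges on lists. -/

namespace Pool.Agent.MP_97bb71_gt
open Finset

noncomputable section
open Classical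

variable {α β : Type}

def frc (x : ℕ) (k : ℕ → β) : β := @Nat.rec (fun _ => β) (k 0) (fun c _ => k c) (Nat.succ x)

theorem frc_eq (x : ℕ) (k : ℕ → β) : frc x k = k x := rfl

def cn (a : Bool) (x y : β) : β := @Bool.rec (fun _ => β) y x a

theorem cn_eq (a : Bool) (x y : β) : cn a x y = if a then x else y := by cases a <;> rfl

def gt (l : List ℕ) : ℕ → ℕ :=
  @List.rec ℕ (fun _ => ℕ → ℕ) (fun _ => 0)
    (fun v _ ih i => @Nat.rec (fun _ => ℕ) v (fun i' _ => ih i') i) l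

theorem gt_eq (l : List ℕ) (i : ℕ) : gt l i = l.getD i 0 := by
  induction l generalizing i with
  | nil => rfl
  | cons v t ih =>
    cases i with
    | zero => rfl
    | succ i => exact ih i

def mapK (a b : ℕ) (l : List ℕ) : (List ℕ → β) → β :=
  @List.rec ℕ (fun _ => (List ℕ → β) → β) (fun k => k [])
    (fun v _ ih k => frc (cn (Nat.beq v b) a v) fun v' => ih fun t' => k (v' :: t')) l

theorem mapK_eq (a b : ℕ) (l : List ℕ) (k : List ℕ → β) :
    mapK a b l k = k (l.map fun v => if v = b then a else v) := by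
  induction l generalizing k with
  | nil => rfl
  | cons v t ih =>
    show mapK a b t (fun t' => k (cn (Nat.beq v b) a v :: t')) = _
    rw [ih, cn_eq]
    by_cases h : v = b
    · subst h; simp
    · have : Nat.beq v b = false := by
        rw [Bool.eq_false_iff]; intro h'; exact h (Nat.eq_of_beq_eq_true h')
      simp [this, h]

def mg (i j : ℕ) (ρ : List ℕ) : List ℕ := ρ.map fun v => if v = gt ρ j then gt ρ i else v

def mgK (i j : ℕ) (ρ : List ℕ) (k : List ℕ → β) : β :=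
  frc (gt ρ i) fun a => frc (gt ρ j) fun b => mapK a b ρ k

theorem mgK_eq (i j : ℕ) (ρ : List ℕ) (k : List ℕ → β) : mgK i j ρ k = k (mg i j ρ) :=
  mapK_eq _ _ _ _

def mgs : List (ℕ × ℕ) → List ℕ → List ℕ
  | [], ρ => ρ
  | q :: t, ρ => mgs t (mg q.1 q.2 ρ)

def mgsK (ps : List (ℕ × ℕ)) : List ℕ → (List ℕ → β) → β :=
  @List.rec (ℕ × ℕ) (fun _ => List ℕ → (List ℕ → β) → β) (fun ρ k => k ρ)
    (fun q _ ih ρ k => frc q.1 fun i => frc q.2 fun j => mgK i j ρ fun ρ' => ih ρ' k) ps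

theorem mgsK_eq (ps : List (ℕ × ℕ)) (ρ : List ℕ) (k : List ℕ → β) :
    mgsK ps ρ k = k (mgs ps ρ) := by
  induction ps generalizing ρ with
  | nil => rfl
  | cons q t ih =>
    show mgK q.1 q.2 ρ (fun ρ' => mgsK t ρ' k) = _
    rw [mgK_eq, ih]; rfl

def cntD (ρ : List ℕ) (l : List ℕ) : ℕ → ℕ → ℕ :=
  @List.rec ℕ (fun _ => ℕ → ℕ → ℕ) (fun _ c => c)
    (fun i _ ih m c => frc (gt ρ i) fun v =>
      cn (Nat.beq (Nat.land (Nat.shiftRight m v) 1) 1) (ih m c)
        (frc (Nat.lor m (Nat.shiftLeft 1 v)) fun m' => frc (Nat.succ c) fun c' => ih m' c')) l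

theorem cntD_eq (ρ l : List ℕ) (m c : ℕ) :
    cntD ρ l m c = c + ((l.toFinset.image (gt ρ)).filter fun v => m.testBit v = false).card := by
  induction l generalizing m c with
  | nil => simp [cntD]
  | cons i t ih =>
    show cn (Nat.beq (Nat.land (Nat.shiftRight m (gt ρ i)) 1) 1) (cntD ρ t m c)
      (cntD ρ t (Nat.lor m (Nat.shiftLeft 1 (gt ρ i))) (Nat.succ c)) = _
    have e : Nat.beq (Nat.land (Nat.shiftRight m (gt ρ i)) 1) 1 = m.testBit (gt ρ i) := by
      show Nat.beq ((m >>> (gt ρ i)) &&& 1) 1 = _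
      rw [Nat.testBit, Nat.and_comm, Nat.one_and_eq_mod_two]
      rcases Nat.mod_two_eq_zero_or_one (m >>> gt ρ i) with h | h <;> rw [h] <;> rfl
    rw [e, cn_eq, List.toFinset_cons, image_insert, filter_insert]
    by_cases h : m.testBit (gt ρ i) = true
    · simp only [h, if_true, ih]; simp
    · have h' : m.testBit (gt ρ i) = false := by simpa using h
      rw [if_neg h, ih, if_pos h', ← card_erase_add_one (mem_insert_self _ _), erase_insert_eq_erase]
      have : (filter (fun v => (Nat.lor m (Nat.shiftLeft 1 (gt ρ i))).testBit v = false)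
          (image (gt ρ) t.toFinset)) =
          (filter (fun v => m.testBit v = false) (image (gt ρ) t.toFinset)).erase (gt ρ i) := by
        ext v
        have e2 : (Nat.lor m (Nat.shiftLeft 1 (gt ρ i))).testBit v =
            (m.testBit v || decide (gt ρ i = v)) := by
          show (m ||| (1 <<< gt ρ i)).testBit v = _
          rw [Nat.testBit_or, Nat.one_shiftLeft, Nat.testBit_two_pow]
        simp only [mem_filter, mem_erase, e2, Bool.or_eq_false_iff, decide_eq_false_iff_not]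
        constructor
        · rintro ⟨h1, h2, h3⟩; exact ⟨fun h => h3 h.symm, h1, h2⟩
        · rintro ⟨h1, h2, h3⟩; exact ⟨h2, h3, fun h => h1 h.symm⟩
      rw [this]; omega

/-- number of distinct values of `ρ` at the listed positions -/
def cnt (ρ used : List ℕ) : ℕ := cntD ρ used 0 0

theorem cnt_eq (ρ l : List ℕ) : cnt ρ l = (l.toFinset.image (gt ρ)).card := by
  rw [cnt, cntD_eq]; simp

theorem cnt_le (ρ l : List ℕ) : cnt ρ l ≤ l.length := by
  rw [cnt_eq]; exact card_image_le.trans (List.toFinset_card_le l)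

section
variable (r0 : α → α → Prop) (L : ℕ → α) (n : ℕ)

def mn (q : Quot r0) : ℕ := sInf {j | Quot.mk r0 (L j) = q}

def rho (i : ℕ) : ℕ := mn r0 L (Quot.mk r0 (L i))

theorem rho_le (i : ℕ) : rho r0 L i ≤ i := Nat.sInf_le rfl

theorem rho_spec (i : ℕ) : Quot.mk r0 (L (rho r0 L i)) = Quot.mk r0 (L i) :=
  Nat.sInf_mem (s := {j | Quot.mk r0 (L j) = Quot.mk r0 (L i)}) ⟨i, rfl⟩

theorem rho_eq_iff (i j : ℕ) :
    rho r0 L i = rho r0 L j ↔ Quot.mk r0 (L i) = Quot.mk r0 (L j) := by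
  constructor
  · intro h; rw [← rho_spec r0 L i, h, rho_spec]
  · intro h; unfold rho; rw [h]

theorem rho_rho (i : ℕ) : rho r0 L (rho r0 L i) = rho r0 L i :=
  (rho_eq_iff r0 L _ _).mpr (rho_spec r0 L i)

def f0 (a : α) : ℕ ⊕ Quot r0 :=
  if ∃ i < n, Quot.mk r0 (L i) = Quot.mk r0 a then .inl (mn r0 L (Quot.mk r0 a))
  else .inr (Quot.mk r0 a)

theorem f0_L {i : ℕ} (hi : i < n) : f0 r0 L n (L i) = .inl (rho r0 L i) := by
  unfold f0; rw [if_pos ⟨i, hi, rfl⟩]; rfl

theorem f0_rep : Rep r0 (f0 r0 L n) := by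
  intro a b
  constructor
  · unfold f0
    split_ifs with ha hb hb
    · obtain ⟨i, _, hi⟩ := ha
      obtain ⟨j, _, hj⟩ := hb
      intro h
      rw [← hi, ← hj] at h ⊢
      exact (rho_eq_iff r0 L i j).mp (Sum.inl.inj h)
    · intro h; cases h
    · intro h; cases h
    · intro h; exact Sum.inr.inj h
  · intro h; unfold f0; rw [h]

def rho0 : List ℕ := (List.range n).map (rho r0 L)

/-- the list `ρ` describes the classes of `r` on the local labels -/
def St (r : α → α → Prop) (ρ : List ℕ) : Prop :=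
  ∃ h : ℕ → ℕ, Rep r (fun a => Sum.map h id (f0 r0 L n a)) ∧
    ρ = (List.range n).map fun i => h (rho r0 L i)

theorem St_init : St r0 L n r0 (rho0 r0 L n) :=
  ⟨id, by simpa using f0_rep r0 L n, rfl⟩

theorem gt_map_range (g : ℕ → ℕ) {i : ℕ} (hi : i < n) : gt ((List.range n).map g) i = g i := by
  rw [gt_eq]; simp [List.getD, hi]

variable {r0 L n}

theorem St.congr {r r' : α → α → Prop} {ρ : List ℕ} (h : St r0 L n r ρ)
    (hr : ∀ a b, r' a b ↔ r a b) : St r0 L n r' ρ := by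
  have : r' = r := by funext a b; exact propext (hr a b)
  rw [this]; exact h

theorem St.merge {r r' : α → α → Prop} {ρ : List ℕ} (h : St r0 L n r ρ) {i j : ℕ} (hi : i < n)
    (hj : j < n) (hr : ∀ a b, r' a b ↔ r a b ∨ (a = L i ∧ b = L j)) :
    St r0 L n r' (mg i j ρ) := by
  obtain ⟨h, h1, rfl⟩ := h
  refine ⟨fun v => if h v = h (rho r0 L j) then h (rho r0 L i) else h v, ?_, ?_⟩
  · refine h1.merge (L i) (L j) hr ?_
    intro a
    simp only [f0_L r0 L n hi, f0_L r0 L n hj]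
    rcases f0 r0 L n a with v | q
    · by_cases hv : h v = h (rho r0 L j) <;> simp [hv]
    · simp
  · rw [mg, gt_map_range n _ hi, gt_map_range n _ hj, List.map_map]; rfl

theorem St.merges (ps : List (ℕ × ℕ)) {r r' : α → α → Prop} {ρ : List ℕ} (h : St r0 L n r ρ)
    (hp : ∀ q ∈ ps, q.1 < n ∧ q.2 < n)
    (hr : ∀ a b, r' a b ↔ r a b ∨ ∃ q ∈ ps, a = L q.1 ∧ b = L q.2) :
    St r0 L n r' (mgs ps ρ) := by
  induction ps generalizing r ρ with
  | nil => exact h.congr (by simpa using hr)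
  | cons q t ih =>
    have hq := hp q List.mem_cons_self
    refine ih (h.merge hq.1 hq.2 fun _ _ => Iff.rfl) (fun q' hq' => hp q' (List.mem_cons_of_mem _ hq'))
      ?_
    intro a b
    rw [hr]; simp only [List.mem_cons, exists_eq_or_imp, or_assoc]

theorem St.eq_iff {r : α → α → Prop} {ρ : List ℕ} (h : St r0 L n r ρ) {i j : ℕ} (hi : i < n)
    (hj : j < n) : gt ρ i = gt ρ j ↔ Quot.mk r (L i) = Quot.mk r (L j) := by
  obtain ⟨h, h1, rfl⟩ := h
  rw [← h1, gt_map_range n _ hi, gt_map_range n _ hj]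
  simp [f0_L r0 L n hi, f0_L r0 L n hj]

/-- classes not met by local labels -/
def mOut (r0 : α → α → Prop) (L : ℕ → α) (n : ℕ) (UR : Finset α) : ℕ :=
  ((UR.filter fun a => ¬∃ i < n, Quot.mk r0 (L i) = Quot.mk r0 a).image (Quot.mk r0)).card

theorem St.ncl_eq {r : α → α → Prop} {ρ : List ℕ} (h : St r0 L n r ρ) (UR U : Finset α)
    (used : List ℕ) (hU : ∀ a, a ∈ U ↔ a ∈ UR ∨ ∃ i ∈ used, L i = a) (hu : ∀ i ∈ used, i < n)
    (hit : ∀ a ∈ UR, ∀ i < n, Quot.mk r0 (L i) = Quot.mk r0 a →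
      ∃ j ∈ used, Quot.mk r0 (L j) = Quot.mk r0 a) :
    ncl r U = mOut r0 L n UR + cnt ρ used := by
  obtain ⟨h, h1, rfl⟩ := h
  rw [h1.ncl_eq U, cnt_eq, mOut, add_comm, ← card_disjSum]
  congr 1
  ext z
  simp only [mem_image, mem_disjSum, List.mem_toFinset, mem_filter]
  constructor
  · rintro ⟨a, ha, rfl⟩
    by_cases hl : ∃ i < n, Quot.mk r0 (L i) = Quot.mk r0 a
    · have : ∃ j ∈ used, Quot.mk r0 (L j) = Quot.mk r0 a := by
        rcases (hU a).mp ha with ha | ⟨i, hi, rfl⟩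
        · obtain ⟨i, hi, e⟩ := hl; exact hit a ha i hi e
        · exact ⟨i, hi, rfl⟩
      obtain ⟨j, hj, e⟩ := this
      refine Or.inl ⟨_, ⟨j, hj, rfl⟩, ?_⟩
      rw [gt_map_range n _ (hu j hj), ← (f0_rep r0 L n _ _).mpr e, f0_L r0 L n (hu j hj)]
      rfl
    · refine Or.inr ⟨_, ⟨a, ⟨?_, hl⟩, rfl⟩, ?_⟩
      · rcases (hU a).mp ha with ha | ⟨i, hi, rfl⟩
        · exact ha
        · exact absurd ⟨i, hu i hi, rfl⟩ hl
      · unfold f0; rw [if_neg hl]; rfl
  · rintro (⟨_, ⟨j, hj, rfl⟩, rfl⟩ | ⟨_, ⟨a, ⟨ha, hl⟩, rfl⟩, rfl⟩)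
    · refine ⟨L j, (hU _).mpr (Or.inr ⟨j, hj, rfl⟩), ?_⟩
      rw [gt_map_range n _ (hu j hj), f0_L r0 L n (hu j hj)]; rfl
    · refine ⟨a, (hU _).mpr (Or.inl ha), ?_⟩
      unfold f0; rw [if_neg hl]; rfl

end

end

end Pool.Agent.MP_97bb71_gt

end

section

/-! Enumeration of partitions and bit patterns. -/

namespace Pool.Agent.MP_97bb71_gt
open Finset

noncomputable section
open Classical

variable {α β : Type}

def an (a b : Bool) : Bool := @Bool.rec (fun _ => Bool) false b a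

theorem an_eq (a b : Bool) : an a b = (a && b) := by cases a <;> rfl

def orr (a b : Bool) : Bool := @Bool.rec (fun _ => Bool) b true a

theorem orr_eq (a b : Bool) : orr a b = (a || b) := by cases a <;> rfl

def allL {γ : Type} (f : γ → Bool) (l : List γ) : Bool :=
  @List.rec γ (fun _ => Bool) true (fun v _ ih => an (f v) ih) l

theorem allL_sound {γ : Type} {f : γ → Bool} {l : List γ} (h : allL f l = true) :
    ∀ v ∈ l, f v = true := by
  induction l with
  | nil => simp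
  | cons v t ih =>
    have h' : an (f v) (allL f t) = true := h
    rw [an_eq, Bool.and_eq_true] at h'
    intro u hu
    rcases List.mem_cons.mp hu with rfl | hu
    · exact h'.1
    · exact ih h'.2 u hu

def bit (B i : ℕ) : Bool := Nat.beq (Nat.land (Nat.shiftRight B i) 1) 1

theorem bit_eq (B i : ℕ) : bit B i = B.testBit i := by
  show Nat.beq ((B >>> i) &&& 1) 1 = _
  rw [Nat.testBit, Nat.and_comm, Nat.one_and_eq_mod_two]
  rcases Nat.mod_two_eq_zero_or_one (B >>> i) with h | h <;> rw [h] <;> rfl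

def revK (l : List ℕ) : List ℕ → (List ℕ → β) → β :=
  @List.rec ℕ (fun _ => List ℕ → (List ℕ → β) → β) (fun acc k => k acc)
    (fun v _ ih acc k => ih (v :: acc) k) l

theorem revK_eq (l acc : List ℕ) (k : List ℕ → β) : revK l acc k = k (l.reverse ++ acc) := by
  induction l generalizing acc with
  | nil => rfl
  | cons v t ih =>
    show revK t (v :: acc) k = _
    rw [ih]; simp

def forceL (l : List ℕ) : (List ℕ → β) → β :=
  @List.rec ℕ (fun _ => (List ℕ → β) → β) (fun k => k [])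
    (fun v _ ih k => frc v fun v' => ih fun t' => k (v' :: t')) l

theorem forceL_eq (l : List ℕ) (k : List ℕ → β) : forceL l k = k l := by
  induction l generalizing k with
  | nil => rfl
  | cons v t ih => exact ih _

def allR (blk cm : List ℕ) (f : List ℕ → Bool) (k : ℕ) : ℕ → List ℕ → List ℕ → ℕ → Bool :=
  @Nat.rec (fun _ => ℕ → List ℕ → List ℕ → ℕ → Bool)
    (fun _ pre _ _ => revK pre [] f)
    (fun _ ih i pre reps m => frc (Nat.succ i) fun i1 => frc (gt blk i) fun bi =>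
      frc (gt cm i) fun ci =>
      an (frc (Nat.xor m (Nat.shiftLeft 1 i)) fun m' =>
          cn (Nat.beq (Nat.land m' ci) 0) (ih i1 (i :: pre) (i :: reps) m') true)
        (allL (fun v => cn (Nat.beq (gt blk v) bi)
          (frc (Nat.xor m (Nat.shiftLeft 1 v)) fun m' =>
            cn (Nat.beq (Nat.land m' ci) 0) (ih i1 (v :: pre) reps m') true) true) reps)) k

theorem allR_aux (blk cm : List ℕ) (f : List ℕ → Bool) (g : ℕ → ℕ)
    (h1 : ∀ j, g j ≤ j) (h2 : ∀ j, g (g j) = g j) (k : ℕ) :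
    ∀ i reps m, allR blk cm f k i ((List.range i).map g).reverse reps m = true →
      (∀ j < i + k, gt blk (g j) = gt blk j) → (∀ j < i, g j = j → j ∈ reps) →
      (∀ v, (if m.testBit v then (1 : ZMod 2) else 0) =
        ∑ j ∈ range i, if g j = v then (1 : ZMod 2) else 0) →
      (∀ j < i + k, ∀ v, (gt cm j).testBit v = true →
        ∑ j ∈ range (j + 1), (if g j = v then (1 : ZMod 2) else 0) = 0) →
      f ((List.range (i + k)).map g) = true := by
  induction k with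
  | zero =>
    intro i reps m h _ _ _ _
    have h' : revK ((List.range i).map g).reverse [] f = true := h
    rw [revK_eq] at h'
    simpa using h'
  | succ k ih =>
    intro i reps m h hb hr hm hev
    have h' : an (cn (Nat.beq (Nat.land (Nat.xor m (Nat.shiftLeft 1 i)) (gt cm i)) 0)
        (allR blk cm f k (i + 1) (i :: ((List.range i).map g).reverse) (i :: reps)
        (Nat.xor m (Nat.shiftLeft 1 i))) true)
        (allL (fun v => cn (Nat.beq (gt blk v) (gt blk i))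
          (cn (Nat.beq (Nat.land (Nat.xor m (Nat.shiftLeft 1 v)) (gt cm i)) 0)
            (allR blk cm f k (i + 1) (v :: ((List.range i).map g).reverse) reps
            (Nat.xor m (Nat.shiftLeft 1 v))) true) true) reps) = true := h
    rw [an_eq, Bool.and_eq_true] at h'
    have e1 : g i :: ((List.range i).map g).reverse = ((List.range (i + 1)).map g).reverse := by
      simp [List.range_succ]
    have e2 : ∀ v, (if (Nat.xor m (Nat.shiftLeft 1 (g i))).testBit v then (1 : ZMod 2) else 0) =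
        ∑ j ∈ range (i + 1), if g j = v then (1 : ZMod 2) else 0 := by
      intro v
      have : (Nat.xor m (Nat.shiftLeft 1 (g i))).testBit v =
          xor (m.testBit v) (decide (g i = v)) := by
        show (m ^^^ (1 <<< g i)).testBit v = _
        rw [Nat.testBit_xor, Nat.one_shiftLeft, Nat.testBit_two_pow]
      rw [this, sum_range_succ, ← hm v]
      by_cases h3 : m.testBit v = true <;> by_cases h4 : g i = v <;> simp [h3, h4]
      rfl
    have e4 : Nat.land (Nat.xor m (Nat.shiftLeft 1 (g i))) (gt cm i) = 0 := by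
      apply Nat.eq_of_testBit_eq
      intro v
      show ((Nat.xor m (Nat.shiftLeft 1 (g i))) &&& (gt cm i)).testBit v = _
      rw [Nat.testBit_and, Nat.zero_testBit]
      by_cases hv : (gt cm i).testBit v = true
      · have h5 := e2 v
        rw [hev i (by omega) v hv] at h5
        by_cases h6 : (Nat.xor m (Nat.shiftLeft 1 (g i))).testBit v = true
        · rw [if_pos h6] at h5; exact absurd h5 (by decide)
        · rw [Bool.eq_false_iff.mpr h6, Bool.false_and]
      · simp [hv]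
    have e3 : i + (k + 1) = i + 1 + k := by omega
    rw [e3] at hb hev ⊢
    by_cases hi : g i = i
    · refine ih (i + 1) (i :: reps) _ ?_ hb ?_ e2 hev
      · have h3 := h'.1
        rw [hi] at e4
        rw [e4, cn_eq, Nat.beq_refl, if_pos rfl] at h3
        rw [← e1, hi]; exact h3
      · intro j hj hg
        rcases Nat.lt_succ_iff_lt_or_eq.mp hj with hj | rfl
        · exact List.mem_cons_of_mem _ (hr j hj hg)
        · exact List.mem_cons_self
    · have hlt : g i < i := lt_of_le_of_ne (h1 i) hi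
      have h3 := allL_sound h'.2 (g i) (hr _ hlt (h2 i))
      rw [cn_eq, hb i (by omega), Nat.beq_refl, if_pos rfl, e4, cn_eq, Nat.beq_refl,
        if_pos rfl] at h3
      refine ih (i + 1) reps _ ?_ hb ?_ e2 hev
      · rw [← e1]; exact h3
      · intro j hj hg
        rcases Nat.lt_succ_iff_lt_or_eq.mp hj with hj | rfl
        · exact hr j hj hg
        · exact absurd hg hi

/-- `cm` only asks for parity of classes in finished blocks -/
def CmOK (n : ℕ) (blk cm : List ℕ) : Prop :=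
  ∀ i < n, ∀ v < n, (gt cm i).testBit v = true → ∀ j < n, i < j → gt blk j ≠ gt blk v

theorem allR_sound {blk cm : List ℕ} {f : List ℕ → Bool} {n : ℕ}
    (h : allR blk cm f n 0 [] [] 0 = true) (r0 : α → α → Prop) (L : ℕ → α) (bk : α → ℕ)
    (hb : ∀ a b, r0 a b → bk a = bk b) (hL : ∀ i < n, bk (L i) = gt blk i)
    (bk0 : α → ℕ) (blk0 : List ℕ) (hb0 : ∀ a b, r0 a b → bk0 a = bk0 b)
    (hL0 : ∀ i < n, bk0 (L i) = gt blk0 i) (hcm : CmOK n blk0 cm)
    (hev : cm = [] ∨ ∀ g : α → ZMod 2, (∀ a b, r0 a b → g a = g b) →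
      ∑ i ∈ range n, g (L i) = 0) : f (rho0 r0 L n) = true := by
  have := allR_aux blk cm f (rho r0 L) (rho_le r0 L) (rho_rho r0 L) n 0 [] 0 h ?_ (by simp)
    (by simp) ?_
  · simpa [rho0] using this
  · intro j hj
    rw [zero_add] at hj
    rw [← hL j hj, ← hL _ ((rho_le r0 L j).trans_lt hj)]
    exact lift_eq hb (rho_spec r0 L j)
  · intro i hi v hv
    rw [zero_add] at hi
    rcases hev with rfl | hev
    · simp [gt] at hv
    have := hev (fun a => if mn r0 L (Quot.mk r0 a) = v then 1 else 0)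
      (fun a b hab => by simp only [Quot.sound hab])
    refine Eq.trans ?_ this
    apply sum_subset (range_subset_range.mpr (show i + 1 ≤ n by omega))
    intro j hj hj'
    rw [mem_range] at hj hj'
    apply if_neg
    intro e
    have hvn : v < n := by rw [← e]; exact (rho_le r0 L j).trans_lt hj
    apply hcm i hi v hvn hv j hj (by omega)
    rw [← hL0 j hj, ← hL0 v hvn, ← e]
    exact (lift_eq hb0 (rho_spec r0 L j)).symm

def masks (src : List ℕ) : ℕ → List ℕ
  | 0 => [0]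
  | i + 1 => if gt src i = i then (masks src i).flatMap fun B => [B, B ||| 2 ^ i]
      else (masks src i).map fun B => if bit B (gt src i) then B ||| 2 ^ i else B

theorem masks_sound (src : List ℕ) (b : ℕ → Bool) (n : ℕ)
    (h : ∀ i < n, gt src i ≤ i ∧ b (gt src i) = b i) :
    ∃ B ∈ masks src n, ∀ j, B.testBit j = (decide (j < n) && b j) := by
  induction n with
  | zero => exact ⟨0, by simp [masks], by simp⟩
  | succ i ih =>
    obtain ⟨B, hB, hb⟩ := ih fun j hj => h j (by omega)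
    refine ⟨if b i then B ||| 2 ^ i else B, ?_, ?_⟩
    · unfold masks
      by_cases h1 : gt src i = i
      · rw [if_pos h1]
        refine List.mem_flatMap.mpr ⟨B, hB, ?_⟩
        split_ifs <;> simp
      · rw [if_neg h1]
        refine List.mem_map.mpr ⟨B, hB, ?_⟩
        have := h i (by omega)
        rw [bit_eq, hb, this.2, decide_eq_true (by omega), Bool.true_and]
    · intro j
      by_cases hi : b i = true
      · rw [if_pos hi, Nat.testBit_or, hb, Nat.testBit_two_pow]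
        by_cases hj : i = j
        · subst hj; simp [hi]
        · have : (j < i + 1) ↔ j < i := by omega
          simp [hj, this]
      · rw [if_neg hi, hb]
        by_cases hj : i = j
        · subst hj; simp [hi]
        · have : (j < i + 1) ↔ j < i := by omega
          simp [this]

def refine (blk : List ℕ) (B n : ℕ) : List ℕ :=
  (List.range n).map fun i => 2 * gt blk i + cn (bit B i) 1 0

end

end Pool.Agent.MP_97bb71_gt

end

section

/-! States, circles and the bracket at `a = 2`. -/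

namespace Pool.Agent.MP_97bb71_gt
open Finset

/-- how the four ends of a crossing are joined -/
inductive Md
  | U
  | V
  | S
  | C
  deriving DecidableEq

noncomputable section
open Classical

variable {α β X P : Type}

def mp : Md → List (Fin 4 × Fin 4)
  | .U => [(0, 1), (2, 3)]
  | .V => [(1, 2), (3, 0)]
  | .S => [(0, 2), (1, 3)]
  | .C => [(0, 1), (1, 2), (2, 3)]

def cp (v : Fin 4 → β) : Md → Prop
  | .U => v 0 = v 1 ∧ v 2 = v 3
  | .V => v 1 = v 2 ∧ v 3 = v 0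
  | .S => v 0 = v 2 ∧ v 1 = v 3
  | .C => v 0 = v 1 ∧ v 1 = v 2 ∧ v 2 = v 3

theorem cp_iff (v : Fin 4 → β) (m : Md) : cp v m ↔ ∀ q ∈ mp m, v q.1 = v q.2 := by
  cases m <;> simp [cp, mp]

def rel (x : X → Fin 4 → α) (p : P → Fin 2 → α) (μ : X → Md) (a b : α) : Prop :=
  (∃ y, ∃ q ∈ mp (μ y), a = x y q.1 ∧ b = x y q.2) ∨ ∃ j, a = p j 0 ∧ b = p j 1

def Cp (x : X → Fin 4 → α) (p : P → Fin 2 → α) (μ : X → Md) (g : α → β) : Prop :=
  (∀ y, cp (fun j => g (x y j)) (μ y)) ∧ ∀ j, g (p j 0) = g (p j 1)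

theorem Cp_iff {x : X → Fin 4 → α} {p : P → Fin 2 → α} {μ : X → Md} {g : α → β} :
    Cp x p μ g ↔ ∀ a b, rel x p μ a b → g a = g b := by
  constructor
  · rintro ⟨h1, h2⟩ a b (⟨y, q, hq, rfl, rfl⟩ | ⟨j, rfl, rfl⟩)
    · exact (cp_iff _ _).mp (h1 y) q hq
    · exact h2 j
  · intro h
    exact ⟨fun y => (cp_iff _ _).mpr fun q hq => h _ _ (Or.inl ⟨y, q, hq, rfl, rfl⟩),
      fun j => h _ _ (Or.inr ⟨j, rfl, rfl⟩)⟩

theorem Cp_mk (x : X → Fin 4 → α) (p : P → Fin 2 → α) (μ : X → Md) :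
    Cp x p μ (Quot.mk (rel x p μ)) := Cp_iff.mpr fun _ _ h => Quot.sound h

theorem Cp.eq {x : X → Fin 4 → α} {p : P → Fin 2 → α} {μ : X → Md} {g : α → β}
    (h : Cp x p μ g) {a b : α} (hab : Quot.mk (rel x p μ) a = Quot.mk (rel x p μ) b) :
    g a = g b := lift_eq (Cp_iff.mp h) hab

theorem Cp.comp {γ : Type} {x : X → Fin 4 → α} {p : P → Fin 2 → α} {μ : X → Md} {g : α → β}
    (h : Cp x p μ g) (f : β → γ) : Cp x p μ (fun a => f (g a)) :=
  Cp_iff.mpr fun a b hab => congrArg f (Cp_iff.mp h a b hab)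

theorem Cp.comp₂ {γ δ : Type} {x : X → Fin 4 → α} {p : P → Fin 2 → α} {μ : X → Md} {g : α → β}
    {g' : α → γ} (h : Cp x p μ g) (h' : Cp x p μ g') (f : β → γ → δ) :
    Cp x p μ (fun a => f (g a) (g' a)) :=
  Cp_iff.mpr fun a b hab => by rw [Cp_iff.mp h a b hab, Cp_iff.mp h' a b hab]

/-- number of circles -/
def N (x : X → Fin 4 → α) (p : P → Fin 2 → α) (U : Finset α) (μ : X → Md) : ℕ :=
  ncl (rel x p μ) U

theorem N_anti {X' P' : Type} {x : X → Fin 4 → α} {p : P → Fin 2 → α} {μ : X → Md}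
    {x' : X' → Fin 4 → α} {p' : P' → Fin 2 → α} {μ' : X' → Md} (U : Finset α)
    (h : Cp x p μ (Quot.mk (rel x' p' μ'))) : N x' p' U μ' ≤ N x p U μ :=
  ncl_anti U (Cp_iff.mp h)

theorem N_congr {X' P' : Type} {x : X → Fin 4 → α} {p : P → Fin 2 → α} {μ : X → Md}
    {x' : X' → Fin 4 → α} {p' : P' → Fin 2 → α} {μ' : X' → Md} (U : Finset α)
    (h : ∀ (β : Type) (g : α → β), Cp x p μ g ↔ Cp x' p' μ' g) : N x p U μ = N x' p' U μ' :=
  le_antisymm (N_anti U ((h _ _).mp (Cp_mk _ _ _))) (N_anti U ((h _ _).mpr (Cp_mk _ _ _)))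

def md (e : ℤ) (s : Bool) : Md := if e = 1 ∨ e = -1 then (if s then .V else .U) else .S

def wt (e : ℤ) (s : Bool) : ℚ :=
  if e = 1 then (if s then 1 / 2 else 2) else if e = -1 then (if s then 2 else 1 / 2)
  else (if s then 1 else 0)

def dl : ℚ := -17 / 4

/-- the bracket -/
def Br [Fintype X] (x : X → Fin 4 → α) (p : P → Fin 2 → α) (U : Finset α) (e : X → ℤ) : ℚ :=
  ∑ s : X → Bool, (∏ y, wt (e y) (s y)) * dl ^ N x p U fun y => md (e y) (s y)

theorem Br_def [Fintype X] [Fintype (X → Bool)] (x : X → Fin 4 → α) (p : P → Fin 2 → α)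
    (U : Finset α) (e : X → ℤ) : Br x p U e =
    ∑ s : X → Bool, (∏ y, wt (e y) (s y)) * dl ^ N x p U fun y => md (e y) (s y) := by
  unfold Br; congr; exact Subsingleton.elim _ _

def sg (b : Bool) : ℤ := if b then 1 else -1

def ind (b : Bool) : ℤ := if b then 1 else 0

def cd (e : ℤ) : ℕ := if e = 1 then 1 else if e = -1 then 2 else 0

def cod (B : ℕ) (η : Bool) (a b c : ℕ) : ℕ :=
  cn (an (bit B a) (bit B b)) (cn η c (Nat.mod (Nat.sub 3 c) 3)) 0

theorem cod_eq (B : ℕ) (η : Bool) (a b : ℕ) (e : ℤ) :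
    cod B η a b (cd e) = cd (sg η * (e * ind (B.testBit a) * ind (B.testBit b))) := by
  unfold cod
  rw [bit_eq, bit_eq, an_eq, cn_eq, cn_eq]
  by_cases h1 : e = 1
  · subst h1; cases η <;> cases B.testBit a <;> cases B.testBit b <;> decide
  by_cases h2 : e = -1
  · subst h2; cases η <;> cases B.testBit a <;> cases B.testBit b <;> decide
  have h3 : ¬(-e = 1) := by omega
  have h4 : ¬(-e = -1) := by omega
  cases η <;> cases B.testBit a <;> cases B.testBit b <;> simp [cd, sg, ind, h1, h2, h3, h4]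

def leaf (n c : ℕ) : ℤ :=
  frc (Nat.mul (Nat.pow 17 c) (Nat.pow 4 (Nat.sub n c))) fun t =>
    cn (Nat.beq (Nat.mod c 2) 1) (Int.negOfNat t) (Int.ofNat t)

theorem leaf_eq {n c : ℕ} (h : c ≤ n) : (leaf n c : ℚ) = dl ^ c * 4 ^ n := by
  have e : dl ^ c * 4 ^ n = (-1) ^ c * (17 ^ c * 4 ^ (n - c)) := by
    obtain ⟨k, rfl⟩ := Nat.exists_eq_add_of_le h
    rw [Nat.add_sub_cancel_left, pow_add, ← mul_assoc, ← mul_pow, ← mul_assoc, ← mul_pow]
    norm_num [dl]
  rw [e]
  show ((cn (Nat.beq (c % 2) 1) (Int.negOfNat (17 ^ c * 4 ^ (n - c)))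
    (Int.ofNat (17 ^ c * 4 ^ (n - c))) : ℤ) : ℚ) = _
  rcases Nat.even_or_odd c with hc | hc
  · rw [hc.neg_one_pow, Nat.even_iff.mp hc, cn_eq]; simp
  · rw [hc.neg_one_pow, Nat.odd_iff.mp hc, cn_eq]; simp [Int.negOfNat_eq]

def lbr (used : List ℕ) (nu B : ℕ) (η : Bool) (xs : List (ℕ × ℕ × ℕ × ℕ × ℕ)) : List ℕ → ℤ :=
  @List.rec (ℕ × ℕ × ℕ × ℕ × ℕ) (fun _ => List ℕ → ℤ)
    (fun ρ => frc (cnt ρ used) fun c => leaf nu c)
    (fun q _ ih ρ => frc (cod B η q.1 q.2.1 q.2.2.2.2) fun c =>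
      cn (Nat.beq c 0)
        (Int.mul 2 (mgK q.1 q.2.2.1 ρ fun ρ1 => mgK q.2.1 q.2.2.2.1 ρ1 ih))
        (Int.add
          (Int.mul (cn (Nat.beq c 1) 4 1) (mgK q.1 q.2.1 ρ fun ρ1 => mgK q.2.2.1 q.2.2.2.1 ρ1 ih))
          (Int.mul (cn (Nat.beq c 1) 1 4)
            (mgK q.2.1 q.2.2.1 ρ fun ρ1 => mgK q.2.2.2.1 q.1 ρ1 ih)))) xs

theorem loc_sum {r0 : α → α → Prop} {L : ℕ → α} {n : ℕ} (U : Finset α) (used : List ℕ) (M B : ℕ)
    (η : Bool) (hc : ∀ r ρ, St r0 L n r ρ → ncl r U = M + cnt ρ used) (k : ℕ) :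
    ∀ (cx : Fin k → Fin 4 → ℕ) (ε el : Fin k → ℤ), (∀ y j, cx y j < n) →
      (∀ y, el y = sg η * (ε y * ind (B.testBit (cx y 0)) * ind (B.testBit (cx y 1)))) →
      ∀ r ρ, St r0 L n r ρ →
      (∑ s : Fin k → Bool, (∏ y, wt (el y) (s y)) * dl ^ ncl (fun a b => r a b ∨
        ∃ y, ∃ q ∈ mp (md (el y) (s y)), a = L (cx y q.1) ∧ b = L (cx y q.2)) U) *
          (2 ^ k * 4 ^ used.length) =
      dl ^ M * lbr used used.length B η
        (List.ofFn fun y => (cx y 0, cx y 1, cx y 2, cx y 3, cd (ε y))) ρ := by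
  induction k with
  | zero =>
    intro cx ε el _ _ r ρ h
    have e : lbr used used.length B η
      (List.ofFn fun y : Fin 0 => (cx y 0, cx y 1, cx y 2, cx y 3, cd (ε y))) ρ =
      leaf used.length (cnt ρ used) := by rw [List.ofFn_zero]; rfl
    rw [e, leaf_eq (cnt_le _ _)]
    simp [hc r ρ h, pow_add, mul_assoc]
  | succ k ih =>
    intro cx ε el hcx hel r ρ h
    have key : ∀ (t : Bool) (ps : List (ℕ × ℕ)),
        ps = (mp (md (el 0) t)).map (fun q => (cx 0 q.1, cx 0 q.2)) →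
        (∑ s : Fin k → Bool, (∏ y, wt (el y) ((Fin.cons t s : Fin (k + 1) → Bool) y)) *
          dl ^ ncl (fun a b => r a b ∨ ∃ y, ∃ q ∈ mp (md (el y)
            ((Fin.cons t s : Fin (k + 1) → Bool) y)), a = L (cx y q.1) ∧ b = L (cx y q.2)) U) *
          (2 ^ k * 4 ^ used.length) = wt (el 0) t * (dl ^ M * lbr used used.length B η
          (List.ofFn fun y : Fin k => (cx y.succ 0, cx y.succ 1, cx y.succ 2, cx y.succ 3,
            cd (ε y.succ))) (mgs ps ρ)) := by
      intro t ps hps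
      have h1 := h.merges ps (r' := fun a b => r a b ∨ ∃ q ∈ ps, a = L q.1 ∧ b = L q.2)
        (by
          intro q hq
          rw [hps] at hq
          obtain ⟨q', _, rfl⟩ := List.mem_map.mp hq
          exact ⟨hcx _ _, hcx _ _⟩) (fun _ _ => Iff.rfl)
      rw [← ih (fun y => cx y.succ) (fun y => ε y.succ) (fun y => el y.succ)
        (fun y j => hcx _ _) (fun y => hel _) _ _ h1, ← mul_assoc (wt _ _), mul_sum]
      congr 1
      refine sum_congr rfl fun s _ => ?_
      rw [Fin.prod_univ_succ, mul_assoc]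
      simp only [Fin.cons_zero, Fin.cons_succ]
      congr 4
      funext a b
      simp only [Fin.exists_fin_succ, Fin.cons_zero, Fin.cons_succ, hps, List.mem_map, or_assoc]
      congr 2
      apply propext
      constructor
      · rintro ⟨q, hq, h⟩; exact ⟨_, ⟨q, hq, rfl⟩, h⟩
      · rintro ⟨_, ⟨q, hq, rfl⟩, h⟩; exact ⟨q, hq, h⟩
    rw [← (Fin.consEquiv fun _ : Fin (k + 1) => Bool).sum_comp, Fintype.sum_prod_type,
      Fintype.sum_bool, List.ofFn_succ]
    have k1 := key true _ rfl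
    have k2 := key false _ rfl
    have e : ∀ (u v : ℚ), (u + v) * (2 ^ (k + 1) * 4 ^ used.length) =
      2 * (u * (2 ^ k * 4 ^ used.length) + v * (2 ^ k * 4 ^ used.length)) := by intros; ring
    rw [e]
    erw [k1, k2]
    show _ = dl ^ M * ((cn (Nat.beq (cod B η (cx 0 0) (cx 0 1) (cd (ε 0))) 0)
        (2 * (mgK (cx 0 0) (cx 0 2) ρ fun ρ1 => mgK (cx 0 1) (cx 0 3) ρ1 (lbr _ _ B η _)))
        ((cn (Nat.beq (cod B η (cx 0 0) (cx 0 1) (cd (ε 0))) 1) 4 1) *
          (mgK (cx 0 0) (cx 0 1) ρ fun ρ1 => mgK (cx 0 2) (cx 0 3) ρ1 (lbr _ _ B η _)) +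
          (cn (Nat.beq (cod B η (cx 0 0) (cx 0 1) (cd (ε 0))) 1) 1 4) *
            (mgK (cx 0 1) (cx 0 2) ρ fun ρ1 => mgK (cx 0 3) (cx 0 0) ρ1 (lbr _ _ B η _))) : ℤ) : ℚ)
    rw [cod_eq, ← hel 0]
    simp only [mgK_eq]
    by_cases h1 : el 0 = 1
    · simp [h1, cd, cn_eq, md, wt, mp, mgs]; ring
    by_cases h2 : el 0 = -1
    · simp [h2, cd, cn_eq, md, wt, mp, mgs]; ring
    · simp [h1, h2, cd, cn_eq, md, wt, mp, mgs]; ring

theorem rel_sum {R PR : Type} {k l : ℕ} (xR : R → Fin 4 → α) (pR : PR → Fin 2 → α)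
    (μR : R → Md) (L : ℕ → α) (cx : Fin k → Fin 4 → ℕ) (cj : Fin l → Fin 2 → ℕ) (μ : Fin k → Md)
    (a b : α) :
    rel (Sum.elim xR fun y j => L (cx y j)) (Sum.elim pR fun y j => L (cj y j))
      (Sum.elim μR μ) a b ↔
    (rel xR pR μR a b ∨ ∃ q ∈ List.ofFn (fun y => (cj y 0, cj y 1)), a = L q.1 ∧ b = L q.2) ∨
      ∃ y, ∃ q ∈ mp (μ y), a = L (cx y q.1) ∧ b = L (cx y q.2) := by
  simp only [rel, Sum.exists, Sum.elim_inl, Sum.elim_inr, List.mem_ofFn]
  constructor
  · rintro ((h | h) | h | ⟨j, h⟩)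
    · exact Or.inl (Or.inl (Or.inl h))
    · exact Or.inr h
    · exact Or.inl (Or.inl (Or.inr h))
    · exact Or.inl (Or.inr ⟨_, ⟨j, rfl⟩, h⟩)
  · rintro (((h | h) | ⟨_, ⟨j, rfl⟩, h⟩) | h)
    · exact Or.inl (Or.inl h)
    · exact Or.inr (Or.inl h)
    · exact Or.inr (Or.inr ⟨j, h⟩)
    · exact Or.inl (Or.inr h)

theorem Br_sum {R PR : Type} [Fintype R] {k l : ℕ} (xR : R → Fin 4 → α) (pR : PR → Fin 2 → α)
    (eR : R → ℤ) (L : ℕ → α) (n : ℕ) (cx : Fin k → Fin 4 → ℕ) (cj : Fin l → Fin 2 → ℕ)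
    (ε el : Fin k → ℤ) (UR U : Finset α) (used : List ℕ) (B : ℕ) (η : Bool)
    (hcx : ∀ y j, cx y j < n) (hcj : ∀ y j, cj y j < n)
    (hel : ∀ y, el y = sg η * (ε y * ind (B.testBit (cx y 0)) * ind (B.testBit (cx y 1))))
    (hU : ∀ a, a ∈ U ↔ a ∈ UR ∨ ∃ i ∈ used, L i = a) (hu : ∀ i ∈ used, i < n)
    (hit : ∀ (s : R → Bool) (μ : R → Md), (μ = fun y => md (eR y) (s y)) → ∀ a ∈ UR, ∀ i < n,
      Quot.mk (rel xR pR μ) (L i) = Quot.mk (rel xR pR μ) a →
      ∃ j ∈ used, Quot.mk (rel xR pR μ) (L j) = Quot.mk (rel xR pR μ) a) :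
    Br (Sum.elim xR fun y j => L (cx y j)) (Sum.elim pR fun y j => L (cj y j)) U
      (Sum.elim eR el) * (2 ^ k * 4 ^ used.length) =
    ∑ s : R → Bool, (∏ y, wt (eR y) (s y)) *
      (dl ^ mOut (rel xR pR fun y => md (eR y) (s y)) L n UR *
        lbr used used.length B η (List.ofFn fun y => (cx y 0, cx y 1, cx y 2, cx y 3, cd (ε y)))
          (mgs (List.ofFn fun y => (cj y 0, cj y 1))
            (rho0 (rel xR pR fun y => md (eR y) (s y)) L n))) := by
  rw [Br_def, ← (Equiv.sumArrowEquivProdArrow R (Fin k) Bool).symm.sum_comp, Fintype.sum_prod_type,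
    sum_mul]
  refine sum_congr rfl fun s _ => ?_
  have h1 := (St_init (rel xR pR fun y => md (eR y) (s y)) L n).merges
    (List.ofFn fun y => (cj y 0, cj y 1)) (r' := fun a b => rel xR pR (fun y => md (eR y) (s y)) a b ∨
      ∃ q ∈ List.ofFn (fun y => (cj y 0, cj y 1)), a = L q.1 ∧ b = L q.2)
    (by
      intro q hq
      obtain ⟨y, rfl⟩ := List.mem_ofFn.mp hq
      exact ⟨hcj _ _, hcj _ _⟩) (fun _ _ => Iff.rfl)
  rw [← loc_sum U used _ B η (fun r ρ h => h.ncl_eq UR U used hU hu (hit s _ rfl)) k cx ε el hcx hel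
    _ _ h1, ← mul_assoc (∏ y, wt (eR y) (s y)), mul_sum]
  congr 1
  refine sum_congr rfl fun t _ => ?_
  rw [Fintype.prod_sum_type, mul_assoc]
  simp only [Equiv.sumArrowEquivProdArrow_symm_apply_inl,
    Equiv.sumArrowEquivProdArrow_symm_apply_inr, Sum.elim_inl, Sum.elim_inr]
  congr 3
  unfold N
  congr 1
  funext a b
  rw [← rel_sum]
  congr 1
  funext y
  cases y <;> rfl

end

end Pool.Agent.MP_97bb71_gt

end

section

/-! A checker for local identities of the bracket. -/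

namespace Pool.Agent.MP_97bb71_gt
open Finset

noncomputable section
open Classical

variable {α β X P : Type}

structure Sd where
  xs : List (ℕ × ℕ × ℕ × ℕ × ℕ)
  js : List (ℕ × ℕ)
  used : List ℕ

def Sd.val (s : Sd) (B : ℕ) (η : Bool) (ρ : List ℕ) : ℤ :=
  frc s.used.length fun nu => mgsK s.js ρ (lbr s.used nu B η s.xs)

def Sd.sc (s : Sd) : ℕ := 2 ^ s.xs.length * 4 ^ s.used.length

def kf (B : ℕ) (kl : List (ℕ × ℤ)) : ℤ := (kl.map fun q => q.2 * ind (bit B q.1)).sum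

def tst (s1 s2 : Sd) (a1 a2 : ℕ) (kl : List (ℕ × ℤ)) (B : ℕ) (η : Bool) (ρ : List ℕ) : Bool :=
  frc (sg η * (kf B kl / 2)).toNat fun k1 => frc (-(sg η * (kf B kl / 2))).toNat fun k2 =>
    decide (s1.val B η ρ * a2 * (-8) ^ k2 = s2.val B η ρ * a1 * (-8) ^ k1)

def chk (n : ℕ) (blk cm src : List ℕ) (s1 s2 : Sd) (kl : List (ℕ × ℤ)) (M r : ℕ)
    (η : Bool) : Bool :=
  forceL (masks src n) fun Bs => frc s1.sc fun a1 => frc s2.sc fun a2 =>
    allL (fun B => cn (Nat.beq (Nat.mod B M) r) (forceL (refine blk B n) fun blk' =>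
      allR blk' cm (tst s1 s2 a1 a2 kl B η) n 0 [] [] 0) true) Bs

theorem md_ne {e : ℤ} {s : Bool} (h : md e s ≠ .S) : e = 1 ∨ e = -1 := by
  by_contra h'; exact h (by simp [md, h'])

theorem cp_of_C {v : Fin 4 → β} (h : cp v .C) (m : Md) : cp v m := by
  obtain ⟨h1, h2, h3⟩ := h
  cases m <;> simp only [cp] <;> refine ⟨?_, ?_⟩ <;> simp [h1, h2, h3]

theorem Br_move {R PR : Type} [Fintype R] {k1 l1 k2 l2 : ℕ} (xR : R → Fin 4 → α)
    (pR : PR → Fin 2 → α) (εR : R → ℤ) (L : ℕ → α) (n : ℕ) (blk cm src : List ℕ)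
    (s1 s2 : Sd) (kl : List (ℕ × ℤ)) (M : ℕ)
    (h : ∀ η, ∀ r < M + 1, chk n blk cm src s1 s2 kl (M + 1) r η = true) (hcm : CmOK n blk cm)
    (cx1 : Fin k1 → Fin 4 → ℕ) (cj1 : Fin l1 → Fin 2 → ℕ) (ε1 : Fin k1 → ℤ)
    (cx2 : Fin k2 → Fin 4 → ℕ) (cj2 : Fin l2 → Fin 2 → ℕ) (ε2 : Fin k2 → ℤ)
    (hx1 : s1.xs = List.ofFn fun y => (cx1 y 0, cx1 y 1, cx1 y 2, cx1 y 3, cd (ε1 y)))
    (hj1 : s1.js = List.ofFn fun y => (cj1 y 0, cj1 y 1))
    (hx2 : s2.xs = List.ofFn fun y => (cx2 y 0, cx2 y 1, cx2 y 2, cx2 y 3, cd (ε2 y)))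
    (hj2 : s2.js = List.ofFn fun y => (cj2 y 0, cj2 y 1))
    (hlt : (∀ y j, cx1 y j < n) ∧ (∀ y j, cj1 y j < n) ∧ (∀ y j, cx2 y j < n) ∧
      (∀ y j, cj2 y j < n) ∧ (∀ i ∈ s1.used, i < n) ∧ (∀ i ∈ s2.used, i < n) ∧
      (∀ q ∈ kl, q.1 < n) ∧ ∀ i < n, gt src i ≤ i)
    (UR U1 U2 : Finset α) (hU1 : ∀ a, a ∈ U1 ↔ a ∈ UR ∨ ∃ i ∈ s1.used, L i = a)
    (hU2 : ∀ a, a ∈ U2 ↔ a ∈ UR ∨ ∃ i ∈ s2.used, L i = a)
    (bk : α → ℕ) (hbk : Cp xR pR (fun y => if εR y = 0 then .S else .C) bk)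
    (hL : ∀ i < n, bk (L i) = gt blk i)
    (hit : ∀ i < n, (i ∈ s1.used ∧ i ∈ s2.used) ∨ ∀ a ∈ UR, bk a ≠ gt blk i)
    (hev : cm = [] ∨ ∀ μ (g : α → ZMod 2), Cp xR pR μ g → ∑ i ∈ range n, g (L i) = 0)
    (b : α → Bool) (hb : Cp xR pR (fun _ => .S) b) (hsrc : ∀ i < n, b (L (gt src i)) = b (L i))
    (η : Bool) :
    Br (Sum.elim xR fun y j => L (cx1 y j)) (Sum.elim pR fun y j => L (cj1 y j)) U1
      (Sum.elim (fun y => sg η * (εR y * ind (b (xR y 0)) * ind (b (xR y 1))))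
        fun y => sg η * (ε1 y * ind (b (L (cx1 y 0))) * ind (b (L (cx1 y 1))))) =
    (-8 : ℚ) ^ (sg η * ((kl.map fun q => q.2 * ind (b (L q.1))).sum / 2)) *
    Br (Sum.elim xR fun y j => L (cx2 y j)) (Sum.elim pR fun y j => L (cj2 y j)) U2
      (Sum.elim (fun y => sg η * (εR y * ind (b (xR y 0)) * ind (b (xR y 1))))
        fun y => sg η * (ε2 y * ind (b (L (cx2 y 0))) * ind (b (L (cx2 y 1))))) := by
  obtain ⟨l1, l2, l3, l4, l5, l6, l7, l8⟩ := hlt
  obtain ⟨B, hB, hBb⟩ := masks_sound src (fun i => b (L i)) n fun i hi => ⟨l8 i hi, hsrc i hi⟩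
  have hB' : ∀ i < n, B.testBit i = b (L i) := fun i hi => by rw [hBb]; simp [hi]
  set eR : R → ℤ := fun y => sg η * (εR y * ind (b (xR y 0)) * ind (b (xR y 1))) with heR
  have hbk' : ∀ s : R → Bool, Cp xR pR (fun y => md (eR y) (s y)) bk := by
    intro s
    refine ⟨fun y => ?_, hbk.2⟩
    have := hbk.1 y
    by_cases h0 : εR y = 0
    · simp only [h0, if_true] at this
      simpa [heR, h0, md] using this
    · simp only [h0, if_false] at this
      exact cp_of_C this _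
  have hb' : ∀ s : R → Bool, Cp xR pR (fun y => md (eR y) (s y)) b := by
    intro s
    refine ⟨fun y => ?_, hb.2⟩
    have := hb.1 y
    by_cases h0 : md (eR y) (s y) = .S
    · simp only [h0]; exact this
    · have h1 := md_ne h0
      obtain ⟨h2, h3⟩ := this
      apply cp_of_C
      simp only [cp, ← h2, ← h3]
      simp only [heR] at h1
      cases h4 : b (xR y 0) <;> cases h5 : b (xR y 1) <;> simp [h4, h5, ind] at h1 ⊢
  have hit' : ∀ (used : List ℕ), (∀ i < n, i ∈ used ∨ ∀ a ∈ UR, bk a ≠ gt blk i) →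
      ∀ (s : R → Bool) (μ : R → Md), (μ = fun y => md (eR y) (s y)) → ∀ a ∈ UR, ∀ i < n,
      Quot.mk (rel xR pR μ) (L i) = Quot.mk (rel xR pR μ) a →
      ∃ j ∈ used, Quot.mk (rel xR pR μ) (L j) = Quot.mk (rel xR pR μ) a := by
    rintro used hu s _ rfl a ha i hi e
    rcases hu i hi with h1 | h1
    · exact ⟨i, h1, e⟩
    · exact absurd (((hbk' s).eq e).symm.trans (hL i hi)) (h1 a ha)
  have e1 := Br_sum xR pR eR L n cx1 cj1 ε1
    (fun y => sg η * (ε1 y * ind (b (L (cx1 y 0))) * ind (b (L (cx1 y 1))))) UR U1 s1.used B η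
    l1 l2 (fun y => by rw [hB' _ (l1 _ _), hB' _ (l1 _ _)]) hU1 l5
    (hit' _ fun i hi => (hit i hi).imp_left And.left)
  have e2 := Br_sum xR pR eR L n cx2 cj2 ε2
    (fun y => sg η * (ε2 y * ind (b (L (cx2 y 0))) * ind (b (L (cx2 y 1))))) UR U2 s2.used B η
    l3 l4 (fun y => by rw [hB' _ (l3 _ _), hB' _ (l3 _ _)]) hU2 l6
    (hit' _ fun i hi => (hit i hi).imp_left And.right)
  have ek : (kl.map fun q => q.2 * ind (b (L q.1))).sum = kf B kl := by
    unfold kf
    congr 1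
    exact List.map_congr_left fun q hq => by rw [bit_eq, hB' _ (l7 q hq)]
  rw [ek]
  set k := sg η * (kf B kl / 2) with hk
  have c1 : (s1.sc : ℚ) = 2 ^ k1 * 4 ^ s1.used.length := by simp [Sd.sc, hx1]
  have c2 : (s2.sc : ℚ) = 2 ^ k2 * 4 ^ s2.used.length := by simp [Sd.sc, hx2]
  have key : ∀ s : R → Bool, ((s1.val B η (rho0 (rel xR pR fun y => md (eR y) (s y)) L n) : ℤ) : ℚ)
      * s2.sc * (-8) ^ (-k).toNat =
      (s2.val B η (rho0 (rel xR pR fun y => md (eR y) (s y)) L n) : ℤ) * s1.sc * (-8) ^ k.toNat := by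
    intro s
    have h0 := h η (Nat.mod B (M + 1)) (Nat.mod_lt _ (Nat.succ_pos _))
    unfold chk at h0
    rw [forceL_eq] at h0
    have h1 := allL_sound h0 B hB
    rw [cn_eq, Nat.beq_refl, if_pos rfl, forceL_eq] at h1
    have h2 := allR_sound h1 (rel xR pR fun y => md (eR y) (s y)) L
      (fun a => 2 * bk a + cn (b a) 1 0)
      (Cp_iff.mp ((hbk' s).comp₂ (hb' s) fun u v => 2 * u + cn v 1 0))
      (fun i hi => by rw [refine, gt_map_range n _ hi, hL i hi, bit_eq, hB' i hi])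
      bk blk (Cp_iff.mp (hbk' s)) hL hcm
      (hev.imp_right fun he g hg => he _ g (Cp_iff.mpr hg))
    have h5 := of_decide_eq_true h2
    exact_mod_cast h5
  have p1 : (s1.sc : ℚ) ≠ 0 := by rw [c1]; positivity
  have p2 : (s2.sc : ℚ) ≠ 0 := by rw [c2]; positivity
  have p3 : ((-8 : ℚ)) ^ (-k).toNat ≠ 0 := pow_ne_zero _ (by norm_num)
  have e3 : (-8 : ℚ) ^ k * (-8) ^ (-k).toNat = (-8) ^ k.toNat := by
    rw [← zpow_natCast, ← zpow_natCast, ← zpow_add₀ (by norm_num)]
    congr 1; omega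
  rw [← c1] at e1
  rw [← c2] at e2
  apply mul_right_cancel₀ (mul_ne_zero (mul_ne_zero p1 p2) p3)
  have e4 : ∀ u v : ℚ, (-8 : ℚ) ^ k * u * (s1.sc * s2.sc * (-8) ^ (-k).toNat) =
    u * s2.sc * (s1.sc * ((-8 : ℚ) ^ k * (-8) ^ (-k).toNat)) := by intros; ring
  rw [e4 _ 0, e3, e2, mul_assoc (s1.sc : ℚ), ← mul_assoc, e1, sum_mul, sum_mul]
  refine sum_congr rfl fun s _ => ?_
  have k1 := key s
  simp only [Sd.val, frc_eq, mgsK_eq, hx1, hj1, hx2, hj2] at k1
  linear_combination (∏ y, wt (eR y) (s y)) *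
    dl ^ mOut (rel xR pR fun y => md (eR y) (s y)) L n UR * k1

end

end Pool.Agent.MP_97bb71_gt

end

section

/-! The package of invariants carried by a diagram. -/

namespace Pool.Agent.MP_97bb71_gt
open Finset

set_option linter.unusedSectionVars false

noncomputable section

variable {α β Γ X X' P P' : Type}

structure Dat (Γ : Type) where
  B : Finset Γ → Bool → ℚ
  w : Finset Γ → ℤ
  lk : Γ → Γ → ℤ
  K : ℤ

def Dat.mir (d : Dat Γ) : Dat Γ :=
  ⟨fun S η => d.B S (!η), fun S => -d.w S, fun Y Z => -d.lk Y Z, -d.K⟩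

theorem Dat.mir_mir (d : Dat Γ) : d.mir.mir = d := by
  cases d; simp [Dat.mir]

def sn (o : Fin 4 → Bool) : ℤ := -(sg (o 0) * sg (o 1))

def eS (x : X → Fin 4 → α) (ε : X → ℤ) (b : α → Bool) (y : X) : ℤ :=
  ε y * ind (b (x y 0)) * ind (b (x y 1))

def W [Fintype X] (x : X → Fin 4 → α) (ε : X → ℤ) (o : X → Fin 4 → Bool) (g g' : α → ℤ) : ℤ :=
  ∑ y, ε y * sn (o y) * (g (x y 0) * g' (x y 1) + g' (x y 0) * g (x y 1))

def wr [Fintype X] (x : X → Fin 4 → α) (ε : X → ℤ) (o : X → Fin 4 → Bool) (b : α → Bool) : ℤ :=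
  ∑ y, eS x ε b y * sn (o y)

def flow [Fintype X] [Fintype P] (x : X → Fin 4 → α) (p : P → Fin 2 → α) (o : X → Fin 4 → Bool)
    (oP : P → Bool) (g : α → ℤ) : ℤ :=
  ∑ y, ∑ j, g (x y j) * sg (o y j) + ∑ j, (g (p j 0) - g (p j 1)) * sg (oP j)

def Ori (o : X → Fin 4 → Bool) : Prop := ∀ y, o y 2 = !o y 0 ∧ o y 3 = !o y 1

def inS [DecidableEq Γ] (κ : α → Γ) (S : Finset Γ) (a : α) : Bool := decide (κ a ∈ S)

def chi [DecidableEq Γ] (κ : α → Γ) (Y : Γ) (a : α) : ℤ := if κ a = Y then 1 else 0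

structure Pk [Fintype X] [Fintype P] [DecidableEq Γ] (x : X → Fin 4 → α) (p : P → Fin 2 → α)
    (U : Finset α) (ε : X → ℤ) (d : Dat Γ) (o : X → Fin 4 → Bool) (oP : P → Bool) (κ : α → Γ) :
    Prop where
  ori : Ori o
  bal : ∀ g, flow x p o oP g = 0
  kap : Cp x p (fun _ => .S) κ
  br : ∀ S η, Br x p U (fun y => sg η * eS x ε (inS κ S) y) =
    (-8 : ℚ) ^ (sg η * (wr x ε o (inS κ S) - d.w S)) * d.B S η
  lk : ∀ Y Z, Y ≠ Z → W x ε o (chi κ Y) (chi κ Z) = d.lk Y Z

theorem sg_not (b : Bool) : sg (!b) = -sg b := by cases b <;> rfl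

theorem sg_sq (b : Bool) : sg b * sg b = 1 := by cases b <;> rfl

theorem ind_sq (b : Bool) : ind b * ind b = ind b := by cases b <;> rfl

theorem two_wr [Fintype X] (x : X → Fin 4 → α) (ε : X → ℤ) (o : X → Fin 4 → Bool)
    (b : α → Bool) : 2 * wr x ε o b = W x ε o (fun a => ind (b a)) (fun a => ind (b a)) := by
  unfold wr W eS
  rw [mul_sum]
  exact sum_congr rfl fun y _ => by ring

variable [Fintype X] [Fintype P] [Fintype X'] [Fintype P'] [DecidableEq Γ]

theorem Pk.congr_kap {x : X → Fin 4 → α} {p : P → Fin 2 → α} {U : Finset α} {ε : X → ℤ}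
    {d : Dat Γ} {o : X → Fin 4 → Bool} {oP : P → Bool} {κ κ' : α → Γ}
    (h : Pk x p U ε d o oP κ) (h1 : ∀ y j, κ' (x y j) = κ (x y j))
    (h2 : ∀ y j, κ' (p y j) = κ (p y j)) : Pk x p U ε d o oP κ' := by
  have e1 : ∀ S, eS x ε (inS κ' S) = eS x ε (inS κ S) := by
    intro S; funext y; simp only [eS, inS, h1]
  refine ⟨h.ori, h.bal, ⟨fun y => ?_, fun j => ?_⟩, fun S η => ?_, fun Y Z hYZ => ?_⟩
  · simp only [h1]; exact h.kap.1 y
  · simp only [h2]; exact h.kap.2 j
  · rw [wr, e1]; exact h.br S η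
  · rw [← h.lk Y Z hYZ]; simp only [W, chi, h1]

theorem Cp_reindex {x : X → Fin 4 → α} {p : P → Fin 2 → α} {μ : X → Md} (σ : X' ≃ X)
    (τ : P' ≃ P) (g : α → β) :
    Cp (fun y => x (σ y)) (fun j => p (τ j)) (fun y => μ (σ y)) g ↔ Cp x p μ g :=
  and_congr (σ.forall_congr' (by simp)) (τ.forall_congr' (by simp))

theorem N_reindex {x : X → Fin 4 → α} {p : P → Fin 2 → α} (U : Finset α) {μ : X → Md}
    (σ : X' ≃ X) (τ : P' ≃ P) :
    N (fun y => x (σ y)) (fun j => p (τ j)) U (fun y => μ (σ y)) = N x p U μ :=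
  N_congr U fun _ g => Cp_reindex σ τ g

theorem Br_reindex (x : X → Fin 4 → α) (p : P → Fin 2 → α) (U : Finset α) (e : X → ℤ)
    (σ : X' ≃ X) (τ : P' ≃ P) :
    Br (fun y => x (σ y)) (fun j => p (τ j)) U (fun y => e (σ y)) = Br x p U e := by
  classical
  rw [Br_def, Br_def]
  symm
  refine Fintype.sum_equiv (σ.symm.arrowCongr (Equiv.refl Bool)) _ _ fun s => ?_
  simp only [Equiv.arrowCongr_apply, Equiv.coe_refl, Function.comp, Equiv.symm_symm, id]
  rw [σ.prod_comp fun y => wt (e y) (s y), N_reindex U (μ := fun y => md (e y) (s y))]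

theorem wr_reindex (x : X → Fin 4 → α) (ε : X → ℤ) (o : X → Fin 4 → Bool) (b : α → Bool)
    (σ : X' ≃ X) :
    wr (fun y => x (σ y)) (fun y => ε (σ y)) (fun y => o (σ y)) b = wr x ε o b :=
  σ.sum_comp fun y => eS x ε b y * sn (o y)

theorem flow_reindex (x : X → Fin 4 → α) (p : P → Fin 2 → α) (o : X → Fin 4 → Bool)
    (oP : P → Bool) (σ : X' ≃ X) (τ : P' ≃ P) (g : α → ℤ) :
    flow (fun y => x (σ y)) (fun j => p (τ j)) (fun y => o (σ y)) (fun j => oP (τ j)) g =
      flow x p o oP g := by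
  unfold flow
  rw [σ.sum_comp fun y => ∑ j, g (x y j) * sg (o y j),
    τ.sum_comp fun j => (g (p j 0) - g (p j 1)) * sg (oP j)]

theorem Pk.reindex {x : X → Fin 4 → α} {p : P → Fin 2 → α} {U : Finset α} {ε : X → ℤ}
    {d : Dat Γ} {o : X → Fin 4 → Bool} {oP : P → Bool} {κ : α → Γ}
    (h : Pk x p U ε d o oP κ) (σ : X' ≃ X) (τ : P' ≃ P) :
    Pk (fun y => x (σ y)) (fun j => p (τ j)) U (fun y => ε (σ y)) d (fun y => o (σ y))
      (fun j => oP (τ j)) κ := by
  refine ⟨fun y => h.ori _, fun g => ?_, (Cp_reindex (μ := fun _ => .S) σ τ κ).mpr h.kap,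
    fun S η => ?_, fun Y Z hYZ => ?_⟩
  · rw [flow_reindex]; exact h.bal g
  · rw [wr_reindex, ← h.br S η]
    exact Br_reindex x p U (fun y => sg η * eS x ε (inS κ S) y) σ τ
  · rw [← h.lk Y Z hYZ]
    exact σ.sum_comp fun y => ε y * sn (o y) *
      (chi κ Y (x y 0) * chi κ Z (x y 1) + chi κ Z (x y 0) * chi κ Y (x y 1))

theorem N_relabel (f : β → α) (hf : Function.Injective f) (x : X → Fin 4 → β)
    (p : P → Fin 2 → β) (U' : Finset β) (U : Finset α) (hU : ∀ u, u ∈ U ↔ ∃ a ∈ U', f a = u)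
    (μ : X → Md) : N (fun y j => f (x y j)) (fun y j => f (p y j)) U μ = N x p U' μ := by
  refine ncl_map f hf _ _ U' U hU ?_ ?_
  · rintro a b (⟨y, q, hq, rfl, rfl⟩ | ⟨j, rfl, rfl⟩)
    · exact Or.inl ⟨y, q, hq, rfl, rfl⟩
    · exact Or.inr ⟨j, rfl, rfl⟩
  · rintro a b (⟨y, q, hq, rfl, rfl⟩ | ⟨j, rfl, rfl⟩)
    · exact ⟨_, _, rfl, rfl, Or.inl ⟨y, q, hq, rfl, rfl⟩⟩
    · exact ⟨_, _, rfl, rfl, Or.inr ⟨j, rfl, rfl⟩⟩

theorem Pk_relabel (f : β → α) (hf : Function.Injective f) {x : X → Fin 4 → β}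
    {p : P → Fin 2 → β} {U' : Finset β} {U : Finset α} (hU : ∀ u, u ∈ U ↔ ∃ a ∈ U', f a = u)
    {ε : X → ℤ} {d : Dat Γ} {o : X → Fin 4 → Bool} {oP : P → Bool} {κ : α → Γ} :
    Pk (fun y j => f (x y j)) (fun y j => f (p y j)) U ε d o oP κ ↔
      Pk x p U' ε d o oP (fun a => κ (f a)) := by
  have e : ∀ e, Br (fun y j => f (x y j)) (fun y j => f (p y j)) U e = Br x p U' e := by
    intro e; unfold Br; simp only [N_relabel f hf x p U' U hU]
  constructor
  · intro h
    refine ⟨h.ori, fun g => ?_, h.kap, fun S η => ?_, h.lk⟩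
    · have := h.bal (Function.extend f g 0)
      simpa only [flow, hf.extend_apply] using this
    · rw [← e]; exact h.br S η
  · intro h
    exact ⟨h.ori, fun g => h.bal fun a => g (f a), h.kap, fun S η => by rw [e]; exact h.br S η,
      h.lk⟩

theorem Pk.neg {x : X → Fin 4 → α} {p : P → Fin 2 → α} {U : Finset α} {ε : X → ℤ}
    {d : Dat Γ} {o : X → Fin 4 → Bool} {oP : P → Bool} {κ : α → Γ}
    (h : Pk x p U ε d o oP κ) : Pk x p U (fun y => -ε y) d.mir o oP κ := by
  refine ⟨h.ori, h.bal, h.kap, fun S η => ?_, fun Y Z hYZ => ?_⟩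
  · have := h.br S (!η)
    have e : wr x (fun y => -ε y) o (inS κ S) = -wr x ε o (inS κ S) := by
      simp [wr, eS]
    simp only [Dat.mir, e]
    rw [sg_not] at this
    convert this using 3
    · simp [eS]
    · ring
  · simp only [Dat.mir, ← h.lk Y Z hYZ, W, ← sum_neg_distrib]
    exact sum_congr rfl fun y _ => by ring

/-- the symmetries of a crossing -/
def pm (k : Fin 4) (r : Bool) (j : Fin 4) : Fin 4 :=
  ![![0, 1, 2, 3], ![1, 0, 3, 2], ![2, 3, 0, 1], ![3, 2, 1, 0]] k (if r then j + 1 else j)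

def sw (r : Bool) : Md → Md
  | .U => if r then .V else .U
  | .V => if r then .U else .V
  | .S => .S
  | .C => .C

omit [Fintype X] in
theorem cp_pm (v : Fin 4 → β) (k : Fin 4) (r : Bool) (m : Md) :
    cp (fun j => v (pm k r j)) (sw r m) ↔ cp v m := by
  fin_cases k <;> cases r <;> cases m <;> simp [cp, pm, sw] <;> grind

theorem sum_pm (F : Fin 4 → ℤ) (k : Fin 4) (r : Bool) : ∑ j, F (pm k r j) = ∑ j, F j := by
  fin_cases k <;> cases r <;> simp [pm, Fin.sum_univ_four] <;> ring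

theorem Cp_pm {x : X → Fin 4 → α} {p : P → Fin 2 → α} {μ : X → Md} (k : X → Fin 4)
    (r : X → Bool) (g : α → β) :
    Cp (fun y j => x y (pm (k y) (r y) j)) p (fun y => sw (r y) (μ y)) g ↔ Cp x p μ g :=
  and_congr_left' (forall_congr' fun y => cp_pm (fun j => g (x y j)) (k y) (r y) (μ y))

theorem Br_pm (x : X → Fin 4 → α) (p : P → Fin 2 → α) (U : Finset α) (e : X → ℤ) (k : X → Fin 4)
    (r : X → Bool) :
    Br (fun y j => x y (pm (k y) (r y) j)) p U (fun y => sg (!r y) * e y) = Br x p U e := by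
  classical
  rw [Br_def, Br_def]
  have hinv : Function.Involutive fun (s : X → Bool) y =>
      if r y = true ∧ (e y = 1 ∨ e y = -1) then !s y else s y := by
    intro s; funext y
    by_cases h : r y = true ∧ (e y = 1 ∨ e y = -1) <;> simp [h]
  symm
  refine Fintype.sum_equiv hinv.toPerm _ _ fun s => ?_
  have key : ∀ (r s : Bool) (e : ℤ),
      wt (sg (!r) * e) (if r = true ∧ (e = 1 ∨ e = -1) then !s else s) = wt e s ∧
      md (sg (!r) * e) (if r = true ∧ (e = 1 ∨ e = -1) then !s else s) = sw r (md e s) := by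
    intro r s e
    by_cases h1 : e = 1
    · subst h1; cases r <;> cases s <;> simp [wt, md, sg, sw]
    by_cases h2 : e = -1
    · subst h2; cases r <;> cases s <;> simp [wt, md, sg, sw]
    have h3 : ¬(-e = 1) := by omega
    cases r <;> cases s <;> simp [wt, md, sg, sw, h1, h2, h3]
  simp only [Function.Involutive.coe_toPerm, key]
  rw [N_congr U fun _ g => Cp_pm (μ := fun y => md (e y) (s y)) k r g]

theorem sn_pm {o : Fin 4 → Bool} (h : o 2 = !o 0 ∧ o 3 = !o 1) (k : Fin 4) (r : Bool) :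
    sn (fun j => o (pm k r j)) = sg (!r) * sn o ∧
    (o (pm k r 2) = !o (pm k r 0) ∧ o (pm k r 3) = !o (pm k r 1)) := by
  fin_cases k <;> cases r <;> simp [pm, sn, h.1, h.2, sg_not] <;> cases o 0 <;> cases o 1 <;> rfl

theorem sym_pm {u v : Fin 4 → ℤ} (hu : cp u .S) (hv : cp v .S) (k : Fin 4) (r : Bool) :
    u (pm k r 0) * v (pm k r 1) + v (pm k r 0) * u (pm k r 1) = u 0 * v 1 + v 0 * u 1 := by
  obtain ⟨h1, h2⟩ := hu
  obtain ⟨h3, h4⟩ := hv
  fin_cases k <;> cases r <;> simp [pm, ← h1, ← h2, ← h3, ← h4] <;> ring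

theorem eS_pm {x : X → Fin 4 → α} {p : P → Fin 2 → α} (ε : X → ℤ) {b : α → Bool}
    (hb : Cp x p (fun _ => .S) b) (k : X → Fin 4) (r : X → Bool) (y : X) :
    eS (fun y j => x y (pm (k y) (r y) j)) (fun y => sg (!r y) * ε y) b y =
      sg (!r y) * eS x ε b y := by
  have := sym_pm ((hb.comp ind).1 y) ((hb.comp ind).1 y) (k y) (r y)
  simp only [eS]
  have e : ind (b (x y (pm (k y) (r y) 0))) * ind (b (x y (pm (k y) (r y) 1))) =
    ind (b (x y 0)) * ind (b (x y 1)) := by linarith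
  rw [mul_assoc, e]; ring

theorem wr_pm {x : X → Fin 4 → α} {p : P → Fin 2 → α} (ε : X → ℤ) {o : X → Fin 4 → Bool}
    (ho : Ori o) {b : α → Bool} (hb : Cp x p (fun _ => .S) b) (k : X → Fin 4) (r : X → Bool) :
    wr (fun y j => x y (pm (k y) (r y) j)) (fun y => sg (!r y) * ε y)
      (fun y j => o y (pm (k y) (r y) j)) b = wr x ε o b := by
  refine sum_congr rfl fun y _ => ?_
  rw [eS_pm ε hb, (sn_pm (ho y) _ _).1]
  linear_combination (eS x ε b y * sn (o y)) * sg_sq (!r y)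

theorem Pk.pm {x : X → Fin 4 → α} {p : P → Fin 2 → α} {U : Finset α} {ε : X → ℤ}
    {d : Dat Γ} {o : X → Fin 4 → Bool} {oP : P → Bool} {κ : α → Γ}
    (h : Pk x p U ε d o oP κ) (k : X → Fin 4) (r : X → Bool) :
    Pk (fun y j => x y (pm (k y) (r y) j)) p U (fun y => sg (!r y) * ε y) d
      (fun y j => o y (pm (k y) (r y) j)) oP κ := by
  refine ⟨fun y => (sn_pm (h.ori y) _ _).2, fun g => ?_,
    (Cp_pm (μ := fun _ => .S) k r κ).mpr h.kap, fun S η => ?_, fun Y Z hYZ => ?_⟩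
  · rw [← h.bal g]
    unfold flow
    congr 1
    exact sum_congr rfl fun y _ => sum_pm (fun j => g (x y j) * sg (o y j)) _ _
  · have hb : Cp x p (fun _ => .S) (inS κ S) := h.kap.comp fun v => decide (v ∈ S)
    rw [wr_pm ε h.ori hb, ← h.br S η, ← Br_pm x p U _ k r]
    congr 1
    funext y
    rw [eS_pm ε hb]; ring
  · rw [← h.lk Y Z hYZ]
    refine sum_congr rfl fun y _ => ?_
    have := sym_pm ((h.kap.comp fun v => if v = Y then (1 : ℤ) else 0).1 y)
      ((h.kap.comp fun v => if v = Z then (1 : ℤ) else 0).1 y) (k y) (r y)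
    simp only [chi] at this ⊢
    rw [this, (sn_pm (h.ori y) _ _).1]
    congr 1
    linear_combination (ε y * sn (o y)) * sg_sq (!r y)

theorem Cp_sum {R PR : Type} {xR : R → Fin 4 → α} {pR : PR → Fin 2 → α} {x : X → Fin 4 → α}
    {p : P → Fin 2 → α} {μR : R → Md} {μ : X → Md} {g : α → β} :
    Cp (Sum.elim xR x) (Sum.elim pR p) (Sum.elim μR μ) g ↔ Cp xR pR μR g ∧ Cp x p μ g := by
  simp only [Cp, Sum.forall, Sum.elim_inl, Sum.elim_inr]; tauto

theorem Cp_sum_S {R PR : Type} {xR : R → Fin 4 → α} {pR : PR → Fin 2 → α} {x : X → Fin 4 → α}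
    {p : P → Fin 2 → α} {g : α → β} :
    Cp (Sum.elim xR x) (Sum.elim pR p) (fun _ => .S) g ↔
      Cp xR pR (fun _ => .S) g ∧ Cp x p (fun _ => .S) g := by
  simp only [Cp, Sum.forall, Sum.elim_inl, Sum.elim_inr]; tauto

theorem flow_sum {R PR : Type} [Fintype R] [Fintype PR] (xR : R → Fin 4 → α)
    (pR : PR → Fin 2 → α) (x : X → Fin 4 → α) (p : P → Fin 2 → α) (oR : R → Fin 4 → Bool)
    (o : X → Fin 4 → Bool) (oPR : PR → Bool) (oP : P → Bool) (g : α → ℤ) :
    flow (Sum.elim xR x) (Sum.elim pR p) (Sum.elim oR o) (Sum.elim oPR oP) g =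
      flow xR pR oR oPR g + flow x p o oP g := by
  simp only [flow, Fintype.sum_sum_type, Sum.elim_inl, Sum.elim_inr]; ring

theorem W_sum {R : Type} [Fintype R] (xR : R → Fin 4 → α) (x : X → Fin 4 → α) (εR : R → ℤ)
    (ε : X → ℤ) (oR : R → Fin 4 → Bool) (o : X → Fin 4 → Bool) (g g' : α → ℤ) :
    W (Sum.elim xR x) (Sum.elim εR ε) (Sum.elim oR o) g g' = W xR εR oR g g' + W x ε o g g' := by
  simp only [W, Fintype.sum_sum_type, Sum.elim_inl, Sum.elim_inr]

theorem Pk.move {R PR : Type} [Fintype R] [Fintype PR] {xR : R → Fin 4 → α}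
    {pR : PR → Fin 2 → α} {εR : R → ℤ} {oR : R → Fin 4 → Bool} {oPR : PR → Bool}
    {x : X → Fin 4 → α} {p : P → Fin 2 → α} {ε : X → ℤ} {o : X → Fin 4 → Bool} {oP : P → Bool}
    {x' : X' → Fin 4 → α} {p' : P' → Fin 2 → α} {ε' : X' → ℤ} {o' : X' → Fin 4 → Bool}
    {oP' : P' → Bool} {U U' : Finset α} {d : Dat Γ} {κ : α → Γ}
    (h : Pk (Sum.elim xR x) (Sum.elim pR p) U (Sum.elim εR ε) d (Sum.elim oR o)
      (Sum.elim oPR oP) κ)
    (ho : Ori o') (hf : ∀ g, flow x' p' o' oP' g = flow x p o oP g)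
    (hk : Cp x' p' (fun _ => .S) κ) (c : Finset Γ → ℤ)
    (hW : ∀ Y Z, Y ≠ Z → W x ε o (chi κ Y) (chi κ Z) = W x' ε' o' (chi κ Y) (chi κ Z))
    (hw : ∀ S, wr x ε o (inS κ S) - wr x' ε' o' (inS κ S) = c S)
    (hB : ∀ S η, Br (Sum.elim xR x) (Sum.elim pR p) U
      (Sum.elim (fun y => sg η * eS xR εR (inS κ S) y) fun y => sg η * eS x ε (inS κ S) y) =
      (-8 : ℚ) ^ (sg η * c S) * Br (Sum.elim xR x') (Sum.elim pR p') U'
      (Sum.elim (fun y => sg η * eS xR εR (inS κ S) y) fun y => sg η * eS x' ε' (inS κ S) y)) :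
    Pk (Sum.elim xR x') (Sum.elim pR p') U' (Sum.elim εR ε') d (Sum.elim oR o')
      (Sum.elim oPR oP') κ := by
  refine ⟨?_, fun g => ?_, Cp_sum_S.mpr ⟨(Cp_sum_S.mp h.kap).1, hk⟩, fun S η => ?_,
    fun Y Z hYZ => ?_⟩
  · rintro (y | y)
    · exact h.ori (.inl y)
    · exact ho y
  · rw [flow_sum, hf, ← flow_sum]; exact h.bal g
  · have h1 := h.br S η
    have e1 : (fun y => sg η * eS (Sum.elim xR x) (Sum.elim εR ε) (inS κ S) y) =
        Sum.elim (fun y => sg η * eS xR εR (inS κ S) y) fun y => sg η * eS x ε (inS κ S) y := by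
      funext y; cases y <;> rfl
    have e2 : (fun y => sg η * eS (Sum.elim xR x') (Sum.elim εR ε') (inS κ S) y) =
        Sum.elim (fun y => sg η * eS xR εR (inS κ S) y) fun y => sg η * eS x' ε' (inS κ S) y := by
      funext y; cases y <;> rfl
    have e3 : wr (Sum.elim xR x) (Sum.elim εR ε) (Sum.elim oR o) (inS κ S) =
        c S + wr (Sum.elim xR x') (Sum.elim εR ε') (Sum.elim oR o') (inS κ S) := by
      rw [← hw S]
      simp only [wr, eS, Fintype.sum_sum_type, Sum.elim_inl, Sum.elim_inr]; ring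
    rw [e1, hB, e3, add_sub_assoc, mul_add, zpow_add₀ (by norm_num), mul_assoc] at h1
    rw [e2]
    exact mul_left_cancel₀ (zpow_ne_zero _ (by norm_num)) h1
  · rw [W_sum, ← hW Y Z hYZ, ← W_sum]; exact h.lk Y Z hYZ

end

end Pool.Agent.MP_97bb71_gt

end

section

namespace Pool.Agent.MP_97bb71_gt

def sdD1 : Sd := ⟨[(0, 1, 2, 3, 2), (4, 5, 6, 7, 1), (8, 9, 10, 11, 1), (12, 13, 14, 15, 1)], [],
  [0, 1, 2, 3, 4, 5, 6, 7, 8, 9, 10, 11, 12, 13, 14, 15]⟩

def sdD2 : Sd := ⟨[(0, 5, 2, 7, 2), (4, 1, 6, 3, 1), (8, 9, 10, 11, 0), (12, 13, 14, 15, 0)], [],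
  [0, 1, 2, 3, 4, 5, 6, 7, 8, 9, 10, 11, 12, 13, 14, 15]⟩

def blkD : List ℕ := [3, 1, 0, 2, 3, 1, 0, 2, 2, 0, 0, 2, 1, 1, 0, 0]

def cmD : List ℕ := [0, 0, 0, 0, 17, 17, 17, 17, 17, 17, 17, 2457, 2457, 14779, 14779, 65535]

def srcD : List ℕ := [0, 1, 0, 1, 4, 5, 4, 5, 8, 9, 8, 9, 12, 13, 12, 13]

def klD : List (ℕ × ℤ) := [(12, 1), (13, 1), (8, -1), (9, -1)]

end Pool.Agent.MP_97bb71_gt

end

section

namespace Pool.Agent.MP_97bb71_gt

theorem chkD_true_0 : chk 16 blkD cmD srcD sdD1 sdD2 klD 2 0 true = true := by decide +kernel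

end Pool.Agent.MP_97bb71_gt

end
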