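import Pool.Agent.Mg.F97bb71.G0680c7
import Pool.Agent.Mg.F97bb71.G93af99

section

/-! Linear algebra of state circles over the field with two elements. -/

namespace Pool.Agent.MP_97bb71_gt
open Finset Module

set_option linter.unusedSectionVars false

noncomputable section

variable {α β X P : Type} [Fintype α] [Fintype X] [Fintype P] [DecidableEq X]

def Sol (K : Type) [Field K] (x : X → Fin 4 → α) (p : P → Fin 2 → α) (μ : X → Md) :
    Submodule K (α → K) where
  carrier := {g | Cp x p μ g}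
  add_mem' := fun h1 h2 => h1.comp₂ h2 fun u v => u + v
  zero_mem' := Cp_iff.mpr fun _ _ _ => rfl
  smul_mem' := fun c _ h => h.comp fun u => c • u

theorem finrank_Sol (K : Type) [Field K] (x : X → Fin 4 → α) (p : P → Fin 2 → α) (μ : X → Md) :
    finrank K (Sol K x p μ) = N x p univ μ := by
  classical
  have : Fintype (Quot (rel x p μ)) := Fintype.ofSurjective _ Quot.mk_surjective
  let e : (Quot (rel x p μ) → K) ≃ₗ[K] Sol K x p μ :=
    { toFun := fun f => ⟨fun a => f (Quot.mk _ a), (Cp_mk x p μ).comp f⟩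
      map_add' := fun _ _ => rfl
      map_smul' := fun _ _ => rfl
      invFun := fun g => Quot.lift g.1 (Cp_iff.mp g.2)
      left_inv := fun f => by funext q; induction q using Quot.ind; rfl
      right_inv := fun _ => rfl }
  rw [← e.finrank_eq, finrank_fintype_fun_eq_card, N, ncl,
    image_univ_of_surjective Quot.mk_surjective, card_univ]

theorem finrank_map_ker {K V V' : Type} [Field K] [AddCommGroup V] [Module K V] [AddCommGroup V']
    [Module K V'] [FiniteDimensional K V] (A : Submodule K V) (D : V →ₗ[K] V') :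
    finrank K (A.map D) + finrank K (A ⊓ LinearMap.ker D : Submodule K V) = finrank K A := by
  rw [← (D.domRestrict A).finrank_range_add_finrank_ker, LinearMap.range_domRestrict,
    LinearMap.ker_domRestrict, ← Submodule.finrank_map_subtype_eq, Submodule.map_comap_subtype]

def mF (F : Finset X) (μ : X → Md) (m : Md) (y : X) : Md := if y ∈ F then m else μ y

def dd (x : X → Fin 4 → α) (g : α → ZMod 2) (y : X) : ZMod 2 := g (x y 0) + g (x y 2)

def HS (x : X → Fin 4 → α) (p : P → Fin 2 → α) : Prop :=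
  ∀ g : α → ZMod 2, (∀ j, g (p j 0) = g (p j 1)) → ∑ y, ∑ j, g (x y j) = 0

theorem HS_of_flow {x : X → Fin 4 → α} {p : P → Fin 2 → α} {o : X → Fin 4 → Bool}
    {oP : P → Bool} (h : ∀ g, flow x p o oP g = 0) : HS x p := by
  intro g hg
  have h1 := congrArg (Int.cast : ℤ → ZMod 2) (h fun a => (g a).val)
  have e : ∀ b, ((sg b : ℤ) : ZMod 2) = 1 := by decide
  simpa [flow, hg, e] using h1

theorem cp_sum {v : Fin 4 → ZMod 2} {m : Md} (h : cp v m) : ∑ j, v j = 0 := by
  rw [Fin.sum_univ_four]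
  cases m <;> simp only [cp] at h <;> generalize v 0 = a at * <;> generalize v 1 = b at * <;>
    generalize v 2 = c at * <;> generalize v 3 = d at * <;> revert a b c d <;> decide

def UV (m m' : Md) : Prop := (m = .U ∧ m' = .V) ∨ (m = .V ∧ m' = .U)

variable {x : X → Fin 4 → α} {p : P → Fin 2 → α}

theorem orth (hs : HS x p) (F : Finset X) (μ : X → Md) {m m' : Md} (hm : UV m m')
    {ψ φ : α → ZMod 2} (h1 : Cp x p (mF F μ m) ψ) (h2 : Cp x p (mF F μ m') φ) :
    ∑ y ∈ F, dd x ψ y * dd x φ y = 0 := by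
  rw [← hs (fun a => ψ a * φ a) fun j => by rw [h1.2 j, h2.2 j]]
  refine (sum_congr rfl fun y hy => ?_).trans (sum_subset (subset_univ F) fun y _ hy => ?_)
  · have k1 := h1.1 y
    have k2 := h2.1 y
    simp only [mF, hy, if_true] at k1 k2
    rw [Fin.sum_univ_four]
    rcases hm with ⟨rfl, rfl⟩ | ⟨rfl, rfl⟩
    · simp only [dd, ← k1.1, ← k1.2, k2.1, k2.2]; ring
    · simp only [dd, ← k2.1, ← k2.2, k1.1, k1.2]; ring
  · have k1 := h1.1 y
    have k2 := h2.1 y
    simp only [mF, hy, if_false] at k1 k2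
    refine cp_sum (m := μ y) ((cp_iff _ _).mpr fun q hq => ?_)
    rw [(cp_iff _ _).mp k1 q hq, (cp_iff _ _).mp k2 q hq]

def DD (x : X → Fin 4 → α) (F : Finset X) : (α → ZMod 2) →ₗ[ZMod 2] (F → ZMod 2) where
  toFun g y := dd x g y
  map_add' g h := by funext y; simp only [dd, Pi.add_apply]; ring
  map_smul' c g := by funext y; simp only [dd, Pi.smul_apply, smul_eq_mul, RingHom.id_apply]; ring

theorem cp_C_iff {v : Fin 4 → ZMod 2} {m m' : Md} (hm : UV m m') :
    cp v .C ↔ cp v m ∧ v 0 + v 2 = 0 := by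
  rcases hm with ⟨rfl, _⟩ | ⟨rfl, _⟩ <;> simp only [cp] <;> generalize v 0 = a <;>
    generalize v 1 = b <;> generalize v 2 = c <;> generalize v 3 = d <;> revert a b c d <;> decide

theorem Sol_ker (F : Finset X) (μ : X → Md) {m m' : Md} (hm : UV m m') :
    Sol (ZMod 2) x p (mF F μ m) ⊓ LinearMap.ker (DD x F) = Sol (ZMod 2) x p (mF F μ .C) := by
  ext g
  simp only [Submodule.mem_inf, LinearMap.mem_ker]
  constructor
  · rintro ⟨h1, h2⟩
    refine ⟨fun y => ?_, h1.2⟩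
    have := h1.1 y
    by_cases hy : y ∈ F <;> simp only [mF, hy, if_true, if_false] at this ⊢
    · exact (cp_C_iff hm).mpr ⟨this, congrFun h2 ⟨y, hy⟩⟩
    · exact this
  · intro h
    refine ⟨⟨fun y => ?_, h.2⟩, funext fun y => ?_⟩
    · have := h.1 y
      by_cases hy : y ∈ F <;> simp only [mF, hy, if_true, if_false] at this ⊢
      · exact cp_of_C this _
      · exact this
    · have := h.1 y
      simp only [mF, y.2, if_true] at this
      exact ((cp_C_iff hm).mp this).2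

theorem rank_DD (F : Finset X) (μ : X → Md) {m m' : Md} (hm : UV m m') :
    finrank (ZMod 2) ((Sol (ZMod 2) x p (mF F μ m)).map (DD x F)) + N x p univ (mF F μ .C) =
      N x p univ (mF F μ m) := by
  rw [← finrank_Sol (ZMod 2), ← finrank_Sol (ZMod 2), ← Sol_ker F μ hm, finrank_map_ker]

theorem orth_facts (hs : HS x p) (F : Finset X) (μ : X → Md) {m m' : Md} (hm : UV m m') :
    ∃ O : Submodule (ZMod 2) (F → ZMod 2), (Sol (ZMod 2) x p (mF F μ m')).map (DD x F) ≤ O ∧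
      finrank (ZMod 2) ((Sol (ZMod 2) x p (mF F μ m)).map (DD x F)) + finrank (ZMod 2) O = F.card ∧
      ∀ h : X → ZMod 2, (∀ ψ, Cp x p (mF F μ m) ψ → ∑ y ∈ F, dd x ψ y * h y = 0) →
        (fun y : F => h y) ∈ O := by
  let B : LinearMap.BilinForm (ZMod 2) (F → ZMod 2) := dotProductBilin (ZMod 2) (ZMod 2)
  have hB : ∀ u v, B u v = ∑ y, u y * v y := fun _ _ => rfl
  have hk : LinearMap.ker B = ⊥ := by
    rw [LinearMap.ker_eq_bot']
    intro u hu
    funext y
    have := congrArg (fun f => f (Pi.single y 1)) hu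
    simpa [B] using this
  have key : ∀ h : X → ZMod 2, (∀ ψ, Cp x p (mF F μ m) ψ → ∑ y ∈ F, dd x ψ y * h y = 0) →
      (fun y : F => h y) ∈ B.orthogonal ((Sol (ZMod 2) x p (mF F μ m)).map (DD x F)) := by
    rintro h hh _ ⟨ψ, h1, rfl⟩
    show B _ _ = 0
    rw [hB, ← hh ψ h1]
    exact sum_coe_sort F fun y => dd x ψ y * h y
  refine ⟨_, ?_, ?_, key⟩
  · rintro _ ⟨φ, h1, rfl⟩
    exact key (dd x φ) fun ψ h2 => orth hs F μ hm h2 h1
  · rw [LinearMap.BilinForm.finrank_add_finrank_orthogonal', hk]; simp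

theorem GI (hs : HS x p) (F : Finset X) (μ : X → Md) :
    N x p univ (mF F μ .U) + N x p univ (mF F μ .V) ≤ F.card + 2 * N x p univ (mF F μ .C) := by
  obtain ⟨O, h1, h2, _⟩ := orth_facts hs F μ (Or.inl ⟨rfl, rfl⟩)
  have h3 := Submodule.finrank_mono h1
  have h4 := rank_DD (x := x) (p := p) F μ (Or.inl ⟨rfl, rfl⟩ : UV .U .V)
  have h5 := rank_DD (x := x) (p := p) F μ (Or.inr ⟨rfl, rfl⟩ : UV .V .U)
  omega

theorem T1 (hs : HS x p) (F : Finset X) (μ : X → Md) {m m' : Md} (hm : UV m m')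
    (he : F.card + 2 * N x p univ (mF F μ .C) ≤ N x p univ (mF F μ m) + N x p univ (mF F μ m'))
    (h : X → ZMod 2) (hh : ∀ ψ, Cp x p (mF F μ m) ψ → ∑ y ∈ F, dd x ψ y * h y = 0) :
    ∃ φ, Cp x p (mF F μ m') φ ∧ ∀ y ∈ F, dd x φ y = h y := by
  obtain ⟨O, h1, h2, h3⟩ := orth_facts hs F μ hm
  have h4 := rank_DD (x := x) (p := p) F μ hm
  have h5 := rank_DD (x := x) (p := p) F μ (hm.symm.imp And.symm And.symm : UV m' m)
  have h6 := Submodule.eq_of_le_of_finrank_le h1 (by omega)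
  obtain ⟨φ, k1, k2⟩ := h6 ▸ h3 h hh
  exact ⟨φ, k1, fun y hy => congrFun k2 ⟨y, hy⟩⟩

theorem DD_surj (F : Finset X) (μ : X → Md)
    (he : F.card + N x p univ (mF F μ .C) ≤ N x p univ (mF F μ .V)) (h : X → ZMod 2) :
    ∃ φ, Cp x p (mF F μ .V) φ ∧ ∀ y ∈ F, dd x φ y = h y := by
  have h5 := rank_DD (x := x) (p := p) F μ (Or.inr ⟨rfl, rfl⟩ : UV .V .U)
  have h6 := Submodule.eq_of_le_of_finrank_le
    (le_top : (Sol (ZMod 2) x p (mF F μ .V)).map (DD x F) ≤ ⊤) (by simp; omega)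
  obtain ⟨φ, k1, k2⟩ := h6 ▸ (Submodule.mem_top : (fun y : F => h y) ∈ ⊤)
  exact ⟨φ, k1, fun y hy => congrFun k2 ⟨y, hy⟩⟩

theorem T2 (hs : HS x p) (F : Finset X) (μ : X → Md)
    (he : F.card + 2 * N x p univ (mF F μ .C) ≤ N x p univ (mF F μ .U) + N x p univ (mF F μ .V))
    (g : α → ZMod 2) (h1 : ∀ y ∈ F, ∑ j, g (x y j) = 0)
    (h2 : ∀ y ∉ F, cp (fun j => g (x y j)) (μ y)) (h3 : ∀ j, g (p j 0) = g (p j 1)) :
    ∃ φ, Cp x p (mF F μ .V) φ ∧ Cp x p (mF F μ .U) fun a => φ a + g a := by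
  obtain ⟨φ, k1, k2⟩ := T1 hs F μ (Or.inl ⟨rfl, rfl⟩) he (fun y => g (x y 0) + g (x y 1)) (by
    intro ψ hψ
    rw [← hs (fun a => ψ a * g a) fun j => by rw [hψ.2 j, h3 j]]
    refine (sum_congr rfl fun y hy => ?_).trans (sum_subset (subset_univ F) fun y _ hy => ?_)
    · have k1 := hψ.1 y
      have k2 := h1 y hy
      simp only [mF, hy, if_true] at k1
      rw [Fin.sum_univ_four] at k2 ⊢
      simp only [dd, ← k1.1, ← k1.2]
      revert k2
      generalize g (x y 0) = a, g (x y 1) = b, g (x y 2) = c, g (x y 3) = d, ψ (x y 0) = u,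
        ψ (x y 2) = v
      revert a b c d u v; decide
    · have k1 := hψ.1 y
      simp only [mF, hy, if_false] at k1
      refine cp_sum (m := μ y) ((cp_iff _ _).mpr fun q hq => ?_)
      rw [(cp_iff _ _).mp k1 q hq, (cp_iff _ _).mp (h2 y hy) q hq])
  refine ⟨φ, k1, fun y => ?_, fun j => by simp only [k1.2 j, h3 j]⟩
  have k3 := k1.1 y
  by_cases hy : y ∈ F <;> simp only [mF, hy, if_true, if_false] at k3 ⊢
  · have k4 := k2 y hy
    have k5 := h1 y hy
    rw [Fin.sum_univ_four] at k5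
    simp only [cp, dd] at k3 k4 ⊢
    rw [k3.1, k3.2]
    revert k4 k5
    generalize g (x y 0) = a, g (x y 1) = b, g (x y 2) = c, g (x y 3) = d, φ (x y 0) = u,
      φ (x y 2) = v
    revert a b c d u v; decide
  · exact (cp_iff _ _).mpr fun q hq => by
      rw [(cp_iff _ _).mp k3 q hq, (cp_iff _ _).mp (h2 y hy) q hq]

end

end Pool.Agent.MP_97bb71_gt

end

section

/-! Extreme terms of the bracket, read off from the 2-adic valuation. -/

namespace Pool.Agent.MP_97bb71_gt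
open Finset

set_option linter.unusedSectionVars false

noncomputable section

def Low (q : ℚ) (k : ℤ) : Prop := ∃ z : ℤ, q = 2 ^ k * z

def Ex (q : ℚ) (k : ℤ) : Prop := ∃ z : ℤ, Odd z ∧ q = 2 ^ k * z

theorem Ex.low {q : ℚ} {k : ℤ} (h : Ex q k) : Low q k := h.imp fun _ h => h.2

theorem Low.mono {q : ℚ} {k l : ℤ} (h : Low q k) (hl : l ≤ k) : Low q l := by
  obtain ⟨z, rfl⟩ := h
  obtain ⟨n, rfl⟩ := Int.le.dest hl
  exact ⟨2 ^ n * z, by rw [zpow_add₀ (by norm_num)]; simp [mul_assoc]⟩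

theorem Low.zero (k : ℤ) : Low 0 k := ⟨0, by simp⟩

theorem Low.add {q r : ℚ} {k : ℤ} (h : Low q k) (h' : Low r k) : Low (q + r) k := by
  obtain ⟨z, rfl⟩ := h
  obtain ⟨w, rfl⟩ := h'
  exact ⟨z + w, by push_cast; ring⟩

theorem Low.sum {ι : Type} (A : Finset ι) (f : ι → ℚ) (k : ℤ) (h : ∀ i ∈ A, Low (f i) k) :
    Low (∑ i ∈ A, f i) k :=
  sum_induction f (fun q => Low q k) (fun _ _ => Low.add) (Low.zero k) h

theorem Ex.add {q r : ℚ} {k : ℤ} (h : Ex q k) (h' : Low r (k + 1)) : Ex (q + r) k := by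
  obtain ⟨z, hz, rfl⟩ := h
  obtain ⟨w, rfl⟩ := h'
  refine ⟨z + 2 * w, hz.add_even (even_two_mul w), ?_⟩
  rw [zpow_add₀ (by norm_num)]; push_cast; ring

theorem Ex.sum {ι : Type} [DecidableEq ι] (A : Finset ι) (f : ι → ℚ) (k : ℤ) {i0 : ι}
    (h0 : i0 ∈ A) (h1 : Ex (f i0) k) (h : ∀ i ∈ A, i ≠ i0 → Low (f i) (k + 1)) :
    Ex (∑ i ∈ A, f i) k := by
  rw [← add_sum_erase A f h0]
  exact h1.add (Low.sum _ _ _ fun i hi => h i (mem_of_mem_erase hi) (ne_of_mem_erase hi))

theorem Ex.le {q : ℚ} {k l : ℤ} (h : Ex q k) (h' : Low q l) : l ≤ k := by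
  by_contra hn
  obtain ⟨z, hz, rfl⟩ := h
  obtain ⟨w, hw⟩ := h'.mono (show k + 1 ≤ l by omega)
  rw [zpow_add₀ (by norm_num), mul_assoc] at hw
  have := mul_left_cancel₀ (zpow_ne_zero k (by norm_num)) hw
  have h2 : z = 2 * w := by exact_mod_cast this
  exact (Int.not_even_iff_odd.mpr hz) ⟨w, by omega⟩

theorem Ex.mul {q r : ℚ} {k l : ℤ} (h : Ex q k) (h' : Ex r l) : Ex (q * r) (k + l) := by
  obtain ⟨z, hz, rfl⟩ := h
  obtain ⟨w, hw, rfl⟩ := h'
  exact ⟨z * w, hz.mul hw, by rw [zpow_add₀ (by norm_num)]; push_cast; ring⟩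

theorem Low.mul {q r : ℚ} {k l : ℤ} (h : Low q k) (h' : Low r l) : Low (q * r) (k + l) := by
  obtain ⟨z, rfl⟩ := h
  obtain ⟨w, rfl⟩ := h'
  exact ⟨z * w, by rw [zpow_add₀ (by norm_num)]; push_cast; ring⟩

theorem Ex.two (k : ℤ) : Ex (2 ^ k) k := ⟨1, odd_one, by simp⟩

theorem Ex.dl (n : ℕ) : Ex (dl ^ n) (-2 * n) := by
  refine ⟨(-17) ^ n, Odd.pow (by decide), ?_⟩
  rw [zpow_mul, zpow_natCast]; push_cast
  rw [← mul_pow]; norm_num [MP_97bb71_gt.dl]

theorem Ex.eight (k : ℤ) : Ex ((-8) ^ k) (3 * k) := by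
  rcases Int.even_or_odd k with h | h
  · exact ⟨1, odd_one, by rw [zpow_mul, h.neg_zpow]; norm_num⟩
  · exact ⟨-1, by decide, by rw [zpow_mul, h.neg_zpow]; norm_num⟩

theorem two_zpow_sum {ι : Type} (A : Finset ι) (f : ι → ℤ) :
    ∏ i ∈ A, (2 : ℚ) ^ f i = 2 ^ ∑ i ∈ A, f i := by
  classical
  induction A using Finset.induction_on with
  | empty => simp
  | insert a A ha ih => rw [prod_insert ha, sum_insert ha, ih, zpow_add₀ (by norm_num)]

variable {α X P : Type} [Fintype α] [Fintype X] [Fintype P] [DecidableEq X]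
  {x : X → Fin 4 → α} {p : P → Fin 2 → α}

theorem prod_wt (e : X → ℤ) (he : ∀ y, e y = 0 ∨ e y = 1 ∨ e y = -1) (s : X → Bool)
    (hs : ∀ y, e y = 0 → s y = true) :
    ∏ y, wt (e y) (s y) = 2 ^ (2 * ∑ y with s y = false, e y - ∑ y, e y) := by
  rw [sum_filter, mul_sum, ← sum_sub_distrib, ← two_zpow_sum]
  refine prod_congr rfl fun y _ => ?_
  have := hs y
  rcases he y with h | h | h <;> cases h' : s y <;> simp [wt, h, h'] at this ⊢

theorem term_zero (e : X → ℤ) (s : X → Bool) (hs : ¬∀ y, e y = 0 → s y = true) :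
    ∏ y, wt (e y) (s y) = 0 := by
  push Not at hs
  obtain ⟨y, h1, h2⟩ := hs
  exact prod_eq_zero (mem_univ y) (by simp [wt, h1, h2])

theorem md_eq (e : X → ℤ) (he : ∀ y, e y = 0 ∨ e y = 1 ∨ e y = -1) (s : X → Bool)
    (hs : ∀ y, e y = 0 → s y = true) :
    (fun y => md (e y) (s y)) = mF (univ.filter fun y => s y = false) (act e .V) .U := by
  funext y
  have := hs y
  rcases he y with h | h | h <;> cases h' : s y <;> simp [md, mF, act, h, h'] at this ⊢

theorem mF_V (e : X → ℤ) (F : Finset X) (hF : ∀ y ∈ F, e y ≠ 0) :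
    mF F (act e .V) .V = act e .V := by
  funext y
  by_cases h : y ∈ F
  · simp [mF, act, h, hF y h]
  · simp [mF, h]

theorem Cp_mF_C {β : Type} {F : Finset X} {μ : X → Md} {g : α → β} (h : Cp x p (mF F μ .C) g)
    (m : Md) : Cp x p (mF F μ m) g := by
  refine ⟨fun y => ?_, h.2⟩
  have := h.1 y
  by_cases hy : y ∈ F <;> simp only [mF, hy, if_true, if_false] at this ⊢
  exacts [cp_of_C this _, this]

theorem N_mF_C (F : Finset X) (μ : X → Md) (m : Md) :
    N x p univ (mF F μ .C) ≤ N x p univ (mF F μ m) := N_anti _ (Cp_mF_C (Cp_mk _ _ _) m)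

theorem N_mF_C_lt (F : Finset X) (μ : X → Md) (m : Md) {y : X} (hy : y ∈ F)
    (h : Quot.mk (rel x p (mF F μ m)) (x y 0) ≠ Quot.mk (rel x p (mF F μ m)) (x y 2)) :
    N x p univ (mF F μ .C) + 1 ≤ N x p univ (mF F μ m) := by
  have h1 := (Cp_mk x p (mF F μ .C)).1 y
  simp only [mF, hy, if_true] at h1
  exact ncl_add_le univ (Cp_iff.mp (Cp_mF_C (Cp_mk x p (mF F μ .C)) m)) (x y 2) (mem_univ _)
    {x y 0} (subset_univ _) (by simpa using h) (by simp) (by simpa using h1.1.trans h1.2.1)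

theorem sum_filter_one (e : X → ℤ) (F : Finset X) (h : ∀ y ∈ F, e y = 1) :
    ∑ y ∈ F, e y = F.card := by rw [sum_congr rfl h]; simp

theorem low_term (hs : HS x p) (e : X → ℤ) (he : ∀ y, e y = 0 ∨ e y = 1) (s : X → Bool) (j : ℕ)
    (hj : (∀ y, e y = 0 → s y = true) → N x p univ (mF (univ.filter fun y => s y = false)
      (act e .V) .C) + j ≤ N x p univ (act e .V)) :
    Low ((∏ y, wt (e y) (s y)) * dl ^ N x p univ fun y => md (e y) (s y))
      (-∑ y, e y - 2 * N x p univ (act e .V) + 4 * j) := by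
  have he' : ∀ y, e y = 0 ∨ e y = 1 ∨ e y = -1 := fun y => (he y).imp_right Or.inl
  by_cases hv : ∀ y, e y = 0 → s y = true
  · have hF : ∀ y ∈ univ.filter fun y => s y = false, e y = 1 := by
      intro y hy
      refine (he y).resolve_left fun h => ?_
      simp [hv y h] at hy
    have h1 := GI hs (univ.filter fun y => s y = false) (act e .V)
    rw [mF_V e _ fun y hy => by simp [hF y hy]] at h1
    have h2 := hj hv
    rw [prod_wt e he' s hv, md_eq e he' s hv, sum_filter_one e _ hF]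
    exact ((Ex.two _).mul (Ex.dl _)).low.mono (by omega)
  · rw [term_zero e s hv, zero_mul]; exact Low.zero _

theorem Br_low (hs : HS x p) (e : X → ℤ) (he : ∀ y, e y = 0 ∨ e y = 1) :
    Low (Br x p univ e) (-∑ y, e y - 2 * N x p univ (act e .V)) := by
  rw [Br_def]
  refine Low.sum _ _ _ fun s _ => ?_
  have := low_term hs e he s 0 fun hv => by
    have := N_mF_C (x := x) (p := p) (univ.filter fun y => s y = false) (act e .V) .V
    rwa [mF_V e _ fun y hy h => by simp [hv y h] at hy] at this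
  simpa using this

theorem Br_ex (hs : HS x p) (e : X → ℤ) (he : ∀ y, e y = 0 ∨ e y = 1)
    (ha : ∀ y, e y ≠ 0 →
      Quot.mk (rel x p (act e .V)) (x y 0) ≠ Quot.mk (rel x p (act e .V)) (x y 2)) :
    Ex (Br x p univ e) (-∑ y, e y - 2 * N x p univ (act e .V)) := by
  have he' : ∀ y, e y = 0 ∨ e y = 1 ∨ e y = -1 := fun y => (he y).imp_right Or.inl
  rw [Br_def]
  refine Ex.sum _ _ _ (mem_univ fun _ => true) ?_ fun s _ hs' => ?_
  · rw [prod_wt e he' _ fun _ _ => rfl, md_eq e he' _ fun _ _ => rfl]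
    have : mF (univ.filter fun _ : X => true = false) (act e .V) .U = act e .V := by
      funext y; simp [mF]
    rw [this]
    convert (Ex.two _).mul (Ex.dl _) using 1
    simp; ring
  · refine (low_term hs e he s 1 fun hv => ?_).mono (by omega)
    obtain ⟨y, hy⟩ := Function.ne_iff.mp hs'
    have hF : ∀ y ∈ univ.filter fun y => s y = false, e y ≠ 0 := fun y hy h => by
      simp [hv y h] at hy
    have hy' : y ∈ univ.filter fun y => s y = false := by simpa using hy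
    have := N_mF_C_lt (x := x) (p := p) _ (act e .V) .V hy'
    rw [mF_V e _ hF] at this
    exact this (ha y (hF y hy'))

def Dep (x : X → Fin 4 → α) (p : P → Fin 2 → α) (ε : X → ℤ) (m : Md) (A : Finset X) : Prop :=
  ∀ φ : α → ZMod 2, Cp x p (act ε m) φ → ∑ y ∈ A, dd x φ y = 0

theorem ne_of_not_dep {e : X → ℤ} {m : Md} {y : X} (h : ¬Dep x p e m {y}) :
    Quot.mk (rel x p (act e m)) (x y 0) ≠ Quot.mk (rel x p (act e m)) (x y 2) := by
  intro h1
  refine h fun φ hφ => ?_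
  rw [sum_singleton, dd, hφ.eq h1]
  exact CharTwo.add_self_eq_zero _

theorem step_out {e : X → ℤ} {F : Finset X} (hF : ∀ y ∈ F, e y ≠ 0) {a b : α}
    (h1 : Quot.mk (rel x p (act e .V)) a ≠ Quot.mk (rel x p (act e .V)) b)
    (h2 : Quot.mk (rel x p (mF F (act e .V) .C)) a = Quot.mk (rel x p (mF F (act e .V) .C)) b) :
    ∃ y ∈ F, ∃ a', Quot.mk (rel x p (act e .V)) a' ≠ Quot.mk (rel x p (act e .V)) a ∧
      Quot.mk (rel x p (mF F (act e .V) .C)) a' = Quot.mk (rel x p (mF F (act e .V) .C)) a ∧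
      ∀ φ : α → ZMod 2, Cp x p (act e .V) φ → dd x φ y = φ a + φ a' := by
  by_contra hn
  have hC : Cp x p (act e .V) (Quot.mk (rel x p (mF F (act e .V) .C))) := by
    have := Cp_mF_C (Cp_mk x p (mF F (act e .V) .C)) .V
    rwa [mF_V e F hF] at this
  have key : Cp x p (mF F (act e .V) .C)
      fun c => Quot.mk (rel x p (act e .V)) c = Quot.mk (rel x p (act e .V)) a := by
    have h0 := (Cp_mk x p (act e .V)).comp fun q => q = Quot.mk (rel x p (act e .V)) a
    refine ⟨fun y => ?_, h0.2⟩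
    have h3 := h0.1 y
    by_cases hy : y ∈ F <;> simp only [mF, hy, if_true, if_false]
    swap
    · exact h3
    have h4 := (Cp_mk x p (mF F (act e .V) .C)).1 y
    simp only [mF, hy, if_true, act, hF y hy, if_false, cp] at h3 h4 ⊢
    have h5 : (Quot.mk (rel x p (act e .V)) (x y 0) = Quot.mk (rel x p (act e .V)) a) =
        (Quot.mk (rel x p (act e .V)) (x y 2) = Quot.mk (rel x p (act e .V)) a) := by
      apply propext
      constructor <;> intro h6 <;> by_contra h7 <;> refine hn ⟨y, hy, _, h7, ?_, fun φ hφ => ?_⟩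
      · rw [← hC.eq h6]; exact (h4.1.trans h4.2.1).symm
      · rw [dd, hφ.eq h6]
      · rw [← hC.eq h6]; exact h4.1.trans h4.2.1
      · rw [dd, hφ.eq h6, add_comm]
    exact ⟨h5.trans h3.1.symm, h3.1, h5.symm.trans h3.2.symm⟩
  have := key.eq h2
  exact h1 (this.mp rfl).symm

theorem four_classes {e : X → ℤ} {d : X} {F : Finset X} (hF : ∀ y ∈ F, e y ≠ 0 ∧ y ≠ d)
    (h1 : ¬Dep x p e .V {d}) (h2 : ∀ y, e y ≠ 0 → y ≠ d → ¬Dep x p e .V {d, y})
    (h3 : ∀ y z, e y ≠ 0 → e z ≠ 0 → y ≠ d → z ≠ d → y ≠ z → ¬Dep x p e .V {d, y, z})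
    (h : Quot.mk (rel x p (mF F (act e .V) .C)) (x d 0) =
      Quot.mk (rel x p (mF F (act e .V) .C)) (x d 2)) :
    N x p univ (mF F (act e .V) .C) + 3 ≤ N x p univ (act e .V) := by
  classical
  have hF' : ∀ y ∈ F, e y ≠ 0 := fun y hy => (hF y hy).1
  have h0 := ne_of_not_dep h1
  obtain ⟨y, hy, a, a1, a2, a3⟩ := step_out hF' h0 h
  obtain ⟨z, hz, b, b1, b2, b3⟩ := step_out hF' h0.symm h.symm
  have c2 : ∀ u : ZMod 2, u + u = 0 := CharTwo.add_self_eq_zero
  have a4 : Quot.mk (rel x p (act e .V)) a ≠ Quot.mk (rel x p (act e .V)) (x d 2) := by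
    intro h4
    refine h2 y (hF y hy).1 (hF y hy).2 fun φ hφ => ?_
    rw [sum_pair (hF y hy).2.symm, a3 φ hφ, hφ.eq h4]; exact c2 _
  have b4 : Quot.mk (rel x p (act e .V)) b ≠ Quot.mk (rel x p (act e .V)) (x d 0) := by
    intro h4
    refine h2 z (hF z hz).1 (hF z hz).2 fun φ hφ => ?_
    rw [sum_pair (hF z hz).2.symm, b3 φ hφ, hφ.eq h4, dd, add_comm (φ (x d 2))]; exact c2 _
  have ab : Quot.mk (rel x p (act e .V)) a ≠ Quot.mk (rel x p (act e .V)) b := by
    intro h4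
    by_cases hyz : y = z
    · refine h1 fun φ hφ => ?_
      have k1 := a3 φ hφ
      rw [hyz, b3 φ hφ, hφ.eq h4] at k1
      rw [sum_singleton, dd, add_right_cancel k1]; exact c2 _
    · refine h3 y z (hF y hy).1 (hF z hz).1 (hF y hy).2 (hF z hz).2 hyz fun φ hφ => ?_
      rw [sum_insert (by simp [(hF y hy).2.symm, (hF z hz).2.symm]), sum_pair hyz, a3 φ hφ,
        b3 φ hφ, hφ.eq h4, dd]
      linear_combination c2 (φ (x d 0)) + c2 (φ (x d 2)) + c2 (φ b)
  have hC : Cp x p (act e .V) (Quot.mk (rel x p (mF F (act e .V) .C))) := by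
    have := Cp_mF_C (Cp_mk x p (mF F (act e .V) .C)) .V
    rwa [mF_V e F hF'] at this
  have := ncl_add_le univ (Cp_iff.mp hC) (x d 0) (mem_univ _) {x d 2, a, b} (subset_univ _)
    (by simp [h0.symm, a1, b4]) (by
      simp only [mem_insert, mem_singleton]
      rintro u (rfl | rfl | rfl) v (rfl | rfl | rfl) h <;> first | rfl | simp_all)
    (by simp [a2, b2, h])
  rwa [card_eq_three.mpr ⟨_, _, _, fun h => a4 (by rw [h]), fun h => b1 (by rw [h]),
    fun h => ab (by rw [h]), rfl⟩] at this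

theorem Br_ex_aa (hs : HS x p) (e : X → ℤ) (d : X) (hd : e d = -1)
    (he : ∀ y, y ≠ d → e y = 0 ∨ e y = 1) (h1 : ∀ y, e y ≠ 0 → ¬Dep x p e .V {y})
    (h2 : ∀ y, e y ≠ 0 → y ≠ d → ¬Dep x p e .V {d, y})
    (h3 : ∀ y z, e y ≠ 0 → e z ≠ 0 → y ≠ d → z ≠ d → y ≠ z → ¬Dep x p e .V {d, y, z}) :
    Ex (Br x p univ e) (-∑ y, e y - 2 * N x p univ (act e .V) + 4) := by
  have he' : ∀ y, e y = 0 ∨ e y = 1 ∨ e y = -1 := fun y => by
    by_cases h : y = d
    · rw [h, hd]; simp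
    · exact (he y h).imp_right Or.inl
  let t : (X → Bool) → ℚ := fun s =>
    (∏ y, wt (e y) (s y)) * dl ^ N x p univ fun y => md (e y) (s y)
  have e1 : Br x p univ e = ∑ s with s d = true, (t s + t (Function.update s d false)) := by
    rw [Br_def, ← sum_filter_add_sum_filter_not univ fun s : X → Bool => s d = true,
      sum_add_distrib]
    congr 1
    refine sum_nbij' (fun s => Function.update s d true) (fun s => Function.update s d false)
      (by simp) (by simp) (fun s hs => ?_) (fun s hs => ?_) fun s hs => ?_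
    · simp only [mem_filter, mem_univ, true_and, Bool.not_eq_true] at hs
      rw [Function.update_idem, ← hs, Function.update_eq_self]
    · simp only [mem_filter, mem_univ, true_and] at hs
      rw [Function.update_idem, ← hs, Function.update_eq_self]
    · simp only [mem_filter, mem_univ, true_and, Bool.not_eq_true] at hs
      rw [Function.update_idem, ← hs, Function.update_eq_self]
  have key : ∀ s : X → Bool, s d = true → (∀ y, e y = 0 → s y = true) →
      ∀ F, F = univ.filter (fun y => s y = false) →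
      t s = 2 ^ (2 * F.card - ∑ y, e y) * dl ^ N x p univ (mF F (act e .V) .U) ∧
      t (Function.update s d false) = 2 ^ (2 * F.card - ∑ y, e y - 2) *
        dl ^ N x p univ (mF {d} (mF F (act e .V) .U) .U) ∧ ∀ y ∈ F, e y ≠ 0 ∧ y ≠ d := by
    intro s hsd hv F hF
    have hF1 : ∀ y ∈ F, e y ≠ 0 ∧ y ≠ d := by
      intro y hy
      rw [hF, mem_filter] at hy
      exact ⟨fun h => by simp [hv y h] at hy, fun h => by simp [h, hsd] at hy⟩
    have hF2 : ∀ y ∈ F, e y = 1 := fun y hy => (he y (hF1 y hy).2).resolve_left (hF1 y hy).1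
    have hv' : ∀ y, e y = 0 → Function.update s d false y = true := by
      intro y hy
      rw [Function.update_of_ne (fun h => by simp [h, hd] at hy)]; exact hv y hy
    have e2 : univ.filter (fun y => Function.update s d false y = false) = insert d F := by
      ext y
      by_cases h : y = d
      · simp [h]
      · simp [h, hF]
    refine ⟨?_, ?_, hF1⟩
    · simp only [t]
      rw [prod_wt e he' s hv, md_eq e he' s hv, ← hF, sum_filter_one e F hF2]
    · simp only [t]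
      rw [prod_wt e he' _ hv', md_eq e he' _ hv', e2, sum_insert fun h => (hF1 d h).2 rfl,
        sum_filter_one e F hF2, hd]
      congr 2
      · ring
      · congr 1; funext y
        by_cases h : y = d <;> simp [mF, h]
  have eV : ∀ F : Finset X, d ∉ F → mF {d} (mF F (act e .V) .U) .V = mF F (act e .V) .U := by
    intro F hF; funext y
    by_cases h : y = d
    · simp [mF, h, hF, act, hd]
    · simp [mF, h]
  have sep : ∀ F : Finset X, d ∉ F → Quot.mk (rel x p (mF F (act e .V) .U)) (x d 0) ≠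
      Quot.mk (rel x p (mF F (act e .V) .U)) (x d 2) →
      N x p univ (mF {d} (mF F (act e .V) .U) .U) + 1 = N x p univ (mF F (act e .V) .U) := by
    intro F hF hne
    have k1 := GI hs {d} (mF F (act e .V) .U)
    have k2 := N_mF_C_lt (x := x) (p := p) {d} (mF F (act e .V) .U) .V (mem_singleton_self d)
    have k3 := N_mF_C (x := x) (p := p) {d} (mF F (act e .V) .U) .U
    have k4 : N x p univ (mF {d} (mF F (act e .V) .U) .V) ≤
        N x p univ (mF {d} (mF F (act e .V) .U) .C) + 1 := by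
      refine ncl_le_succ univ (x d 0) (x d 1) (Cp_iff.mp ?_)
      have k5 : Cp x p (mF {d} (mF F (act e .V) .U) .V) (Quot.mk fun a b =>
          rel x p (mF {d} (mF F (act e .V) .U) .V) a b ∨ (a = x d 0 ∧ b = x d 1)) :=
        Cp_iff.mpr fun a b h => Quot.sound (Or.inl h)
      refine ⟨fun y => ?_, k5.2⟩
      have k6 := k5.1 y
      by_cases h : y = d
      · subst h
        simp only [mF, mem_singleton, if_true, cp] at k6 ⊢
        have k7 := Quot.sound (r := fun a b =>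
          rel x p (mF {y} (mF F (act e .V) .U) .V) a b ∨ (a = x y 0 ∧ b = x y 1)) (Or.inr ⟨rfl, rfl⟩)
        exact ⟨k7, k6.1, (k6.2.trans (k7.trans k6.1)).symm⟩
      · simpa only [mF, mem_singleton, h, if_false] using k6
    rw [eV F hF] at k1 k2 k4
    have := k2 hne
    rw [card_singleton] at k1
    omega
  have comb : ∀ (k : ℤ) (n : ℕ), Ex (2 ^ k * dl ^ (n + 1) + 2 ^ (k - 2) * dl ^ n)
      (k + 2 - 2 * n) := by
    intro k n
    have : (2 : ℚ) ^ k * dl ^ (n + 1) + 2 ^ (k - 2) * dl ^ n = (-8) ^ (1 : ℤ) * (2 ^ (k - 1) * dl ^ n) := by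
      rw [zpow_sub₀ (by norm_num), zpow_sub₀ (by norm_num), pow_succ, dl]; ring
    rw [this]
    convert (Ex.eight 1).mul ((Ex.two _).mul (Ex.dl n)) using 1
    ring
  rw [e1]
  refine Ex.sum _ _ _ (i0 := fun _ => true) (by simp) ?_ fun s hs1 hs2 => ?_
  · obtain ⟨k1, k2, _⟩ := key (fun _ => true) rfl (fun _ _ => rfl) ∅ (by simp)
    have e3 : mF ∅ (act e .V) .U = act e .V := by funext y; simp [mF]
    have k3 := sep ∅ (by simp) (by rw [e3]; exact ne_of_not_dep (h1 d (by simp [hd])))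
    rw [k1, k2, ← k3]
    rw [e3] at k3 ⊢
    convert comb _ _ using 1
    simp only [card_empty]; omega
  · rw [mem_filter] at hs1
    by_cases hv : ∀ y, e y = 0 → s y = true
    swap
    · have hv' : ¬∀ y, e y = 0 → Function.update s d false y = true := fun h => hv fun y hy => by
        have := h y hy
        rwa [Function.update_of_ne (fun h => by simp [h, hd] at hy)] at this
      simp only [t, term_zero e _ hv, term_zero e _ hv', zero_mul, add_zero]
      exact Low.zero _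
    obtain ⟨k1, k2, k3⟩ := key s hs1.2 hv _ rfl
    set F := univ.filter fun y => s y = false with hF
    have k4 := GI hs F (act e .V)
    rw [mF_V e F fun y hy => (k3 y hy).1] at k4
    rw [k1, k2]
    by_cases hsep : Quot.mk (rel x p (mF F (act e .V) .U)) (x d 0) =
      Quot.mk (rel x p (mF F (act e .V) .U)) (x d 2)
    · have k5 := four_classes k3 (h1 d (by simp [hd])) h2 h3
        ((Cp_mF_C (Cp_mk x p (mF F (act e .V) .C)) .U).eq hsep)
      have k6 := GI hs {d} (mF F (act e .V) .U)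
      have k7 := N_mF_C (x := x) (p := p) {d} (mF F (act e .V) .U) .V
      rw [eV F fun h => (k3 d h).2 rfl] at k6 k7
      rw [card_singleton] at k6
      exact (((Ex.two _).mul (Ex.dl _)).low.mono (by omega)).add
        (((Ex.two _).mul (Ex.dl _)).low.mono (by omega))
    · have k5 := sep F (fun h => (k3 d h).2 rfl) hsep
      obtain ⟨y, hy⟩ := Function.ne_iff.mp hs2
      have hy' : y ∈ F := by simpa [hF] using hy
      have k6 := N_mF_C_lt (x := x) (p := p) F (act e .V) .V hy'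
      rw [mF_V e F fun y hy => (k3 y hy).1] at k6
      have k7 := k6 (ne_of_not_dep (h1 y (k3 y hy').1))
      rw [← k5]
      exact (comb _ _).low.mono (by omega)

end

end Pool.Agent.MP_97bb71_gt

end

section

/-! The class of abstract almost alternating diagrams. -/

namespace Pool.Agent.MP_97bb71_gt
open Finset

set_option linter.unusedSectionVars false

noncomputable section

variable {α Γ X X' P P' : Type} [Fintype α] [Fintype X] [Fintype P] [Fintype X'] [Fintype P']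
  [DecidableEq X] [DecidableEq X'] [DecidableEq Γ]

def actv (ε : X → ℤ) : Finset X := univ.filter fun y => ε y ≠ 0

theorem act_eq (ε : X → ℤ) (m : Md) : act ε m = mF (actv ε) (fun _ => .S) m := by
  funext y; by_cases h : ε y = 0 <;> simp [act, mF, actv, h]

def Cl (x : X → Fin 4 → α) (p : P → Fin 2 → α) (ε : X → ℤ) (d : Dat Γ) : Prop :=
  ∃ o oP κ, Pk x p univ ε d o oP κ ∧ ((∃ y, ε y = -1) →
    |(N x p univ (act ε .U) : ℤ) - N x p univ (act ε .V) - wr x ε o (fun _ => true) - d.K| ≤ 2)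

structure Cls (x : X → Fin 4 → α) (p : P → Fin 2 → α) (ε : X → ℤ) (d1 d2 : Dat Γ) : Prop where
  eps : ∀ y, ε y = 0 ∨ ε y = 1 ∨ ε y = -1
  uniq : ∀ y z, ε y = -1 → ε z = -1 → y = z
  eul : (actv ε).card + 2 ≤ N x p univ (act ε .U) + N x p univ (act ε .V)
  c1 : Cl x p ε d1
  c2 : Cl x p ε d2

variable {x : X → Fin 4 → α} {p : P → Fin 2 → α} {ε : X → ℤ} {d d1 d2 : Dat Γ}

theorem Cls.hs (h : Cls x p ε d1 d2) : HS x p := by
  obtain ⟨o, oP, κ, h1, _⟩ := h.c1
  exact HS_of_flow h1.bal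

theorem Cls.eul' [Fintype Γ] (h : Cls x p ε d1 d2) (hc : Conn d1) :
    (actv ε).card + 2 * N x p univ (mF (actv ε) (fun _ => .S) .C) ≤
      N x p univ (mF (actv ε) (fun _ => .S) .U) + N x p univ (mF (actv ε) (fun _ => .S) .V) := by
  obtain ⟨o, oP, κ, h1, _⟩ := h.c1
  have := h1.N_conn hc fun _ _ => mem_univ _
  have := h.eul
  simp only [← act_eq]
  omega

theorem Cls.t1 [Fintype Γ] (h : Cls x p ε d1 d2) (hc : Conn d1) {m m' : Md} (hm : UV m m')
    {A : Finset X} (hA : ∀ y ∈ A, ε y ≠ 0) (hD : Dep x p ε m A) :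
    ∃ φ, Cp x p (act ε m') φ ∧ ∀ y, ε y ≠ 0 → dd x φ y = if y ∈ A then 1 else 0 := by
  have he := h.eul' hc
  obtain ⟨φ, h1, h2⟩ := T1 h.hs (actv ε) (fun _ => .S) hm
    (by rcases hm with ⟨rfl, rfl⟩ | ⟨rfl, rfl⟩ <;> omega) (fun y => if y ∈ A then 1 else 0) (by
      intro ψ hψ
      refine Eq.trans ?_ (hD ψ (by rwa [act_eq]))
      simp only [mul_ite, mul_one, mul_zero]
      rw [← sum_filter]
      congr 1
      ext y
      simpa [actv] using hA y)
  exact ⟨φ, by rwa [act_eq], fun y hy => h2 y (by simpa [actv] using hy)⟩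

theorem Cl.reindex (h : Cl x p ε d) (σ : X' ≃ X) (τ : P' ≃ P) :
    Cl (fun y => x (σ y)) (fun y => p (τ y)) (fun y => ε (σ y)) d := by
  obtain ⟨o, oP, κ, h1, h2⟩ := h
  refine ⟨_, _, κ, h1.reindex σ τ, fun ⟨y, hy⟩ => ?_⟩
  rw [wr_reindex]
  erw [N_reindex univ (μ := act ε .U), N_reindex univ (μ := act ε .V)]
  exact h2 ⟨_, hy⟩

theorem card_actv_reindex (ε : X → ℤ) (σ : X' ≃ X) :
    (actv fun y => ε (σ y)).card = (actv ε).card :=
  card_equiv σ (by simp [actv])

theorem Cls.reindex (h : Cls x p ε d1 d2) (σ : X' ≃ X) (τ : P' ≃ P) :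
    Cls (fun y => x (σ y)) (fun y => p (τ y)) (fun y => ε (σ y)) d1 d2 := by
  refine ⟨fun y => h.eps _, fun y z h1 h2 => σ.injective (h.uniq _ _ h1 h2), ?_,
    h.c1.reindex σ τ, h.c2.reindex σ τ⟩
  rw [card_actv_reindex]
  erw [N_reindex univ (μ := act ε .U), N_reindex univ (μ := act ε .V)]
  exact h.eul

theorem Cp_act_pm {β : Type} (k : X → Fin 4) (r : Bool) (m : Md) (g : α → β) :
    Cp (fun y j => x y (pm (k y) r j)) p (act ε (sw r m)) g ↔ Cp x p (act ε m) g := by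
  rw [← Cp_pm k (fun _ => r) (μ := act ε m)]
  have : act ε (sw r m) = fun y => sw r (act ε m y) := by
    funext y; unfold act; split_ifs <;> rfl
  rw [this]

theorem N_act_pm (k : X → Fin 4) (r : Bool) (m : Md) :
    N (fun y j => x y (pm (k y) r j)) p univ (act ε (sw r m)) = N x p univ (act ε m) :=
  N_congr _ fun _ g => Cp_act_pm k r m g

theorem dd_pm (k : X → Fin 4) (r : Bool) {μ : X → Md} {φ : α → ZMod 2} (h : Cp x p μ φ) (y : X) :
    dd (fun y j => x y (pm (k y) r j)) φ y = dd x φ y := by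
  have := cp_sum (h.1 y)
  rw [Fin.sum_univ_four] at this
  simp only [dd]
  generalize k y = k
  fin_cases k <;> cases r <;> simp [pm, add_comm] <;> revert this <;>
    generalize φ (x y 0) = a, φ (x y 1) = b, φ (x y 2) = c, φ (x y 3) = d <;> revert a b c d <;>
    decide

theorem Dep_pm (k : X → Fin 4) (r : Bool) (m : Md) (A : Finset X) :
    Dep (fun y j => x y (pm (k y) r j)) p ε (sw r m) A ↔ Dep x p ε m A := by
  refine forall_congr' fun φ => ?_
  rw [Cp_act_pm]
  exact imp_congr_right fun h => by simp only [dd_pm k r h]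

theorem Cl.klein (h : Cl x p ε d) (k : X → Fin 4) :
    Cl (fun y j => x y (pm (k y) false j)) p ε d := by
  obtain ⟨o, oP, κ, h1, h2⟩ := h
  have h3 := h1.pm k fun _ => false
  have h4 := wr_pm ε h1.ori (h1.kap.comp fun _ => true) k fun _ => false
  simp only [Bool.not_false, sg, if_true, one_mul] at h3 h4
  refine ⟨_, _, κ, h3, fun hy => ?_⟩
  rw [h4]
  erw [N_act_pm k false .U, N_act_pm k false .V]
  exact h2 hy

theorem Cls.klein (h : Cls x p ε d1 d2) (k : X → Fin 4) :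
    Cls (fun y j => x y (pm (k y) false j)) p ε d1 d2 := by
  refine ⟨h.eps, h.uniq, ?_, h.c1.klein k, h.c2.klein k⟩
  erw [N_act_pm k false .U, N_act_pm k false .V]
  exact h.eul

theorem Cl.mir (h : Cl x p ε d) : Cl (fun y j => x y (pm 0 true j)) p ε d.mir := by
  obtain ⟨o, oP, κ, h1, h2⟩ := h
  have h3 := h1.neg.pm (fun _ => 0) fun _ => true
  have h4 := wr_pm (fun y => -ε y) h1.ori (h1.kap.comp fun _ => true) (fun _ => 0) fun _ => true
  simp only [Bool.not_true, sg, Bool.false_eq_true, if_false, neg_mul, mul_neg, one_mul,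
    neg_neg] at h3 h4
  refine ⟨_, _, κ, h3, fun hy => ?_⟩
  have e : wr x (fun y => -ε y) o (fun _ => true) = -wr x ε o (fun _ => true) := by
    simp [wr, eS]
  rw [h4, e]
  erw [N_act_pm (fun _ => 0) true .V, N_act_pm (fun _ => 0) true .U]
  have := h2 hy
  rw [← abs_neg] at this
  convert this using 2
  simp only [Dat.mir]; ring

theorem Cls.mir (h : Cls x p ε d1 d2) :
    Cls (fun y j => x y (pm 0 true j)) p ε d2.mir d1.mir := by
  refine ⟨h.eps, h.uniq, ?_, h.c2.mir, h.c1.mir⟩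
  erw [N_act_pm (fun _ => 0) true .V, N_act_pm (fun _ => 0) true .U]
  rw [add_comm (N _ _ _ _)]
  exact h.eul

theorem flow_zero {o : X → Fin 4 → Bool} (oP : P → Bool) (ho : Ori o) {g : α → ℤ}
    (hg : Cp x p (fun _ => .S) g) : flow x p o oP g = 0 := by
  unfold flow
  rw [sum_eq_zero, sum_eq_zero, add_zero]
  · intro j _; rw [hg.2 j]; simp
  · intro y _
    obtain ⟨h1, h2⟩ := hg.1 y
    simp only at h1 h2
    rw [Fin.sum_univ_four, (ho y).1, (ho y).2, sg_not, sg_not, h1, h2]; ring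

theorem exists_split {k : ℕ} (ι : Fin k → X) (hι : Function.Injective ι) :
    ∃ σ : {y // y ∉ Set.range ι} ⊕ Fin k ≃ X, (∀ y, σ (.inl y) = y) ∧ ∀ i, σ (.inr i) = ι i := by
  classical
  exact ⟨(Equiv.sumCongr (Equiv.refl _) (Equiv.ofInjective ι hι)).trans
    ((Equiv.sumComm _ _).trans (Equiv.sumCompl fun y => y ∈ Set.range ι)), fun _ => rfl,
    fun _ => rfl⟩

def prs {k : ℕ} (cx : Fin k → Fin 4 → ℕ) (μ : Fin k → Md) : List (ℕ × ℕ) :=
  (List.ofFn fun y => (mp (μ y)).map fun q => (cx y q.1, cx y q.2)).flatten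

def chkN (n : ℕ) (blk cm used : List ℕ) (ps1 ps2 : List (ℕ × ℕ)) (a b : ℕ) : Bool :=
  allR blk cm (fun ρ => mgsK ps1 ρ fun ρ1 => mgsK ps2 ρ fun ρ2 =>
    frc (cnt ρ1 used) fun c1 => frc (cnt ρ2 used) fun c2 =>
      an (Nat.ble (c2 + a) c1) (Nat.ble c1 (c2 + b))) n 0 [] [] 0

theorem red {R : Type} [Fintype R] [DecidableEq R] {k : ℕ} {xR : R → Fin 4 → α} {εR : R → ℤ}
    (L : ℕ → α) (n : ℕ) (blk cm src : List ℕ) (s1 s2 : Sd) (kl : List (ℕ × ℤ)) (M : ℕ)
    (cx1 cx2 : Fin k → Fin 4 → ℕ) (ε1 ε2 : Fin k → ℤ) (aU bU aV bV : ℕ)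
    (pU1 pU2 pV1 pV2 : List (ℕ × ℕ))
    (hchk : ∀ η, ∀ r < M + 1, chk n blk cm src s1 s2 kl (M + 1) r η = true)
    (hN : chkN n blk cm s1.used pU1 pU2 aU bU = true ∧ chkN n blk cm s1.used pV1 pV2 aV bV = true)
    (hdec : CmOK n blk cm ∧
      s1.xs = List.ofFn (fun y => (cx1 y 0, cx1 y 1, cx1 y 2, cx1 y 3, cd (ε1 y))) ∧
      s2.xs = List.ofFn (fun y => (cx2 y 0, cx2 y 1, cx2 y 2, cx2 y 3, cd (ε2 y))) ∧
      s1.js = [] ∧ s2.js = [] ∧ s1.used = List.range n ∧ s2.used = List.range n ∧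
      (∀ y j, cx1 y j < n) ∧ (∀ y j, cx2 y j < n) ∧ (∀ q ∈ kl, q.1 < n) ∧ (∀ i < n, gt src i ≤ i) ∧
      pU1 = prs cx1 (act ε1 .U) ∧ pU2 = prs cx2 (act ε2 .U) ∧ pV1 = prs cx1 (act ε1 .V) ∧
      pV2 = prs cx2 (act ε2 .V))
    (hsum : ∀ g : ℕ → ZMod 2, ∑ y, ∑ j, g (cx1 y j) = ∑ i ∈ range n, g i)
    (bk : α → ℕ) (hbk : Cp xR p (act εR .C) bk) (hL : ∀ i < n, bk (L i) = gt blk i)
    (T : (Fin k → Fin 4 → Bool) → Fin k → Fin 4 → Bool) (hT : ∀ o, Ori o → Ori (T o))
    (hf : ∀ o (g : ℕ → ℤ), ∑ y, ∑ j, g (cx2 y j) * sg (T o y j) = ∑ y, ∑ j, g (cx1 y j) * sg (o y j))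
    (hk : ∀ κ : ℕ → Γ, Cp cx1 (![] : Fin 0 → Fin 2 → ℕ) (fun _ => .S) κ →
      Cp cx2 (![] : Fin 0 → Fin 2 → ℕ) (fun _ => .S) κ ∧ ∀ i < n, κ (gt src i) = κ i)
    (hWW : ∀ o (g g' : ℕ → ℤ), Ori o → Cp cx1 (![] : Fin 0 → Fin 2 → ℕ) (fun _ => .S) g →
      Cp cx1 (![] : Fin 0 → Fin 2 → ℕ) (fun _ => .S) g' →
      (∀ v, ∑ y, ∑ j, (if gt blk (cx1 y j) = v then g (cx1 y j) else 0) * sg (o y j) = 0) →
      (∀ v, ∑ y, ∑ j, (if gt blk (cx1 y j) = v then g' (cx1 y j) else 0) * sg (o y j) = 0) →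
      W cx1 ε1 o g g' - W cx2 ε2 (T o) g g' = (kl.map fun q => q.2 * (g q.1 * g' q.1)).sum)
    (hs : HS (Sum.elim xR fun y j => L (cx1 y j)) (Sum.elim p (![] : Fin 0 → Fin 2 → α))) :
    ∃ U1 U2 V1 V2 : ℕ, U2 + aU ≤ U1 ∧ U1 ≤ U2 + bU ∧ V2 + aV ≤ V1 ∧ V1 ≤ V2 + bV ∧
      N (Sum.elim xR fun y j => L (cx1 y j)) (Sum.elim p ![]) univ
        (act (Sum.elim εR ε1) .U) = U1 ∧
      N (Sum.elim xR fun y j => L (cx1 y j)) (Sum.elim p ![]) univ
        (act (Sum.elim εR ε1) .V) = V1 ∧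
      N (Sum.elim xR fun y j => L (cx2 y j)) (Sum.elim p ![]) univ
        (act (Sum.elim εR ε2) .U) = U2 ∧
      N (Sum.elim xR fun y j => L (cx2 y j)) (Sum.elim p ![]) univ
        (act (Sum.elim εR ε2) .V) = V2 ∧
      ∀ (d : Dat Γ) o oP κ, Pk (Sum.elim xR fun y j => L (cx1 y j)) (Sum.elim p ![]) univ
        (Sum.elim εR ε1) d o oP κ → ∃ o', Pk (Sum.elim xR fun y j => L (cx2 y j))
          (Sum.elim p ![]) univ (Sum.elim εR ε2) d o' oP κ ∧
        wr (Sum.elim xR fun y j => L (cx1 y j)) (Sum.elim εR ε1) o (fun _ => true) =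
          wr (Sum.elim xR fun y j => L (cx2 y j)) (Sum.elim εR ε2) o' (fun _ => true) +
            (kl.map fun q => q.2).sum / 2 := by
  obtain ⟨hcm, hx1, hx2, hj1, hj2, hu1, hu2, l1, l2, l3, l4, q1, q2, q3, q4⟩ := hdec
  have ep : (![] : Fin 0 → Fin 2 → α) = fun y j => L ((![] : Fin 0 → Fin 2 → ℕ) y j) :=
    funext fun y => y.elim0
  have hev : ∀ μ (g : α → ZMod 2), Cp xR p μ g → ∑ i ∈ range n, g (L i) = 0 := by
    intro μ g hg
    have := hs g (by rintro (j | j); exacts [hg.2 j, j.elim0])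
    rw [Fintype.sum_sum_type] at this
    simp only [Sum.elim_inl, Sum.elim_inr] at this
    rwa [sum_eq_zero fun y _ => cp_sum (hg.1 y), zero_add, hsum fun i => g (L i)] at this
  have keyN : ∀ (m : Md) (a b : ℕ), chkN n blk cm s1.used (prs cx1 (act ε1 m))
      (prs cx2 (act ε2 m)) a b = true →
      N (Sum.elim xR fun y j => L (cx2 y j)) (Sum.elim p ![]) univ (act (Sum.elim εR ε2) m) + a ≤
      N (Sum.elim xR fun y j => L (cx1 y j)) (Sum.elim p ![]) univ (act (Sum.elim εR ε1) m) ∧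
      N (Sum.elim xR fun y j => L (cx1 y j)) (Sum.elim p ![]) univ (act (Sum.elim εR ε1) m) ≤
      N (Sum.elim xR fun y j => L (cx2 y j)) (Sum.elim p ![]) univ (act (Sum.elim εR ε2) m) + b := by
    intro m a b h
    have hb : Cp xR p (act εR m) bk := by
      rw [act_eq] at hbk ⊢; exact Cp_mF_C hbk m
    have h1 := allR_sound h (rel xR p (act εR m)) L bk (Cp_iff.mp hb) hL bk blk (Cp_iff.mp hb) hL
      hcm (Or.inr fun g hg => hev _ g (Cp_iff.mpr hg))
    have h2 : ∀ (cx : Fin k → Fin 4 → ℕ) (ε : Fin k → ℤ), (∀ y j, cx y j < n) →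
        N (Sum.elim xR fun y j => L (cx y j)) (Sum.elim p ![]) univ (act (Sum.elim εR ε) m) =
        mOut (rel xR p (act εR m)) L n univ + cnt (mgs (prs cx (act ε m))
          (rho0 (rel xR p (act εR m)) L n)) s1.used := by
      intro cx ε hl
      refine ((St_init (rel xR p (act εR m)) L n).merges (prs cx (act ε m)) ?_ ?_).ncl_eq univ univ
        s1.used (by simp) (by simp [hu1]) fun a _ i hi h => ⟨i, by simp [hu1, hi], h⟩
      · intro q hq
        simp only [prs, List.mem_flatten, List.mem_ofFn] at hq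
        obtain ⟨_, ⟨y, rfl⟩, hq⟩ := hq
        obtain ⟨q', _, rfl⟩ := List.mem_map.mp hq
        exact ⟨hl _ _, hl _ _⟩
      · intro a b
        have : act (Sum.elim εR ε) m = Sum.elim (act εR m) (act ε m) := by
          funext y; cases y <;> rfl
        rw [this, ep, rel_sum]
        simp only [prs, List.mem_flatten, List.mem_ofFn, List.ofFn_zero, List.not_mem_nil,
          false_and, exists_false, or_false]
        refine or_congr_right ⟨?_, ?_⟩
        · rintro ⟨y, q, hq, h⟩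
          exact ⟨_, ⟨_, ⟨y, rfl⟩, List.mem_map.mpr ⟨q, hq, rfl⟩⟩, h⟩
        · rintro ⟨_, ⟨_, ⟨y, rfl⟩, hq⟩, h⟩
          obtain ⟨q', hq', rfl⟩ := List.mem_map.mp hq
          exact ⟨y, q', hq', h⟩
    rw [h2 cx1 ε1 l1, h2 cx2 ε2 l2]
    simp only [mgsK_eq, frc_eq, an_eq, Bool.and_eq_true, Nat.ble_eq] at h1
    omega
  subst q1 q2 q3 q4
  refine ⟨_, _, _, _, (keyN _ _ _ hN.1).1, (keyN _ _ _ hN.1).2, (keyN _ _ _ hN.2).1,
    (keyN _ _ _ hN.2).2, rfl, rfl, rfl, rfl, fun d o oP κ h => ?_⟩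
  rw [← Sum.elim_comp_inl_inr o, ← Sum.elim_comp_inl_inr oP] at h ⊢
  have k1 := Cp_sum_S.mp h.kap
  have ho : Ori (o ∘ Sum.inr) := fun y => h.ori (.inr y)
  have k2 := hk (fun i => κ (L i)) ⟨k1.2.1, fun j => j.elim0⟩
  have hfl : ∀ (G : Γ → ℤ) (v : ℕ), ∑ y, ∑ j, (if gt blk (cx1 y j) = v then G (κ (L (cx1 y j)))
      else 0) * sg ((o ∘ Sum.inr) y j) = 0 := by
    intro G v
    have h1 := h.bal fun a => if bk a = v then G (κ a) else 0
    rw [flow_sum, flow_zero (o := o ∘ Sum.inl) _ (fun y => h.ori (.inl y))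
      (hbk.str.comp₂ k1.1 fun u w => if u = v then G w else 0)] at h1
    simpa [flow, hL _ (l1 _ _)] using h1
  obtain ⟨w1, w2, w3⟩ := hw_of_WW (x := fun y j => L (cx1 y j)) (x' := fun y j => L (cx2 y j))
    (κ := κ) L kl fun G G' => hWW (o ∘ Sum.inr) (fun i => G (κ (L i))) (fun i => G' (κ (L i))) ho
      ⟨(k1.2.comp G).1, fun j => j.elim0⟩ ⟨(k1.2.comp G').1, fun j => j.elim0⟩ (hfl G) (hfl G')
  refine ⟨Sum.elim (o ∘ Sum.inl) (T (o ∘ Sum.inr)), Pk.move h (hT _ ho) (fun g => ?_)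
    ⟨k2.1.1, fun j => j.elim0⟩ _ w1 w2 fun S η => ?_, ?_⟩
  · simp only [flow, hf (o ∘ Sum.inr) fun i => g (L i)]
  · rw [ep]
    exact Br_move xR p εR L n blk cm src s1 s2 kl M hchk hcm cx1 ![] ε1 cx2 ![] ε2 hx1
      (by simp [hj1]) hx2 (by simp [hj2])
      ⟨l1, fun y => y.elim0, l2, fun y => y.elim0, by simp [hu1], by simp [hu2], l3, l4⟩
      univ univ univ (by simp) (by simp) bk hbk hL (fun i hi => Or.inl (by simp [hu1, hu2, hi]))
      (Or.inr hev) (inS κ S) (k1.1.comp fun v => decide (v ∈ S))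
      (fun i hi => by simp only [inS, k2.2 i hi]) η
  · rw [← w3]
    simp only [wr, eS, Fintype.sum_sum_type, Sum.elim_inl, Sum.elim_inr]; ring

end

end Pool.Agent.MP_97bb71_gt

end

section

namespace Pool.Agent.MP_97bb71_gt

theorem chkND : chkN 16 blkD cmD sdD1.used
    [(0, 1), (2, 3), (4, 5), (6, 7), (8, 9), (10, 11), (12, 13), (14, 15)]
    [(0, 5), (2, 7), (4, 1), (6, 3), (8, 10), (9, 11), (12, 14), (13, 15)] 1 1 = true ∧
    chkN 16 blkD cmD sdD1.used
    [(1, 2), (3, 0), (5, 6), (7, 4), (9, 10), (11, 8), (13, 14), (15, 12)]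
    [(5, 2), (7, 0), (1, 6), (3, 4), (8, 10), (9, 11), (12, 14), (13, 15)] 1 1 = true := by
  decide +kernel

end Pool.Agent.MP_97bb71_gt

end
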