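import Pool.Agent.Mg.F97bb71.G10128d

namespace Pool.Agent.MP_97bb71_gt

theorem chkD : ∀ η, ∀ r < 1 + 1, chk 16 blkD cmD srcD sdD1 sdD2 klD (1 + 1) r η = true := by
  intro η r hr
  cases η <;> interval_cases r
  exacts [chkD_false_0, chkD_false_1, chkD_true_0, chkD_true_1]

end Pool.Agent.MP_97bb71_gt
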