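import Pool.Agent.Mg.F97bb71.G2da74e
import Pool.Agent.MP_97bb71_gt.Gr

section

/-! Invariant data of the necklace link and first consequences. -/

namespace Pool.Agent.MP_97bb71_gt
open Finset

set_option linter.unusedSectionVars false

noncomputable section

structure Good0 (d : Dat G) : Prop where
  b0 : ∀ η, d.B ∅ η = dl ^ 60
  w0 : d.w ∅ = 0
  lk : ∀ Y Z, Y ≠ Z → d.lk Y Z = if adj Y Z then -2 else 0

structure Good (d : Dat G) : Prop extends Good0 d where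
  b1 : ∀ Y, Ex (d.B {Y} true) (-120)
  w1 : ∀ Y, d.w {Y} = 0
  wu : d.w univ = -144
  K : d.K = 144
  bu : ∀ η, Low (d.B univ η) (-288)
  wl : ∀ i, d.w (leg i) = -12
  bl : ∀ i : Fin 12, ∃ j k, (j = i ∧ k = i + 1 ∨ k = i ∧ j = i + 1) ∧
    (∃ s ≤ -136, Ex (d.B (leg j) true) s) ∧ Low (d.B (leg k) true) (-132)

theorem Good0.conn {d : Dat G} (h : Good0 d) : Conn d := by
  refine ⟨fun η => by simpa using h.b0 η, h.w0, fun Y => ?_, fun β f hf Y Z => ?_⟩
  · obtain ⟨Z, hZ⟩ := g_nb Y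
    exact ⟨Z, hZ.ne, by simp [h.lk _ _ hZ.ne, hZ]⟩
  · have := g_con.eq f fun Y Z _ _ h1 => hf Y Z h1.ne (by simp [h.lk _ _ h1.ne, h1])
    rw [this Y trivial, this Z trivial]

variable {α X P : Type} [Fintype α] [Fintype X] [Fintype P] [DecidableEq X]
  {x : X → Fin 4 → α} {p : P → Fin 2 → α} {ε : X → ℤ} {d : Dat G} {o : X → Fin 4 → Bool}
  {oP : P → Bool} {κ : α → G}

theorem Pk.crs (h : Pk x p univ ε d o oP κ) (hd : Good0 d) {Y Z : G} (h1 : adj Y Z) :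
    ∃ y, ε y ≠ 0 ∧ Btw x κ Y Z y := h.cross h1.ne (by simp [hd.lk _ _ h1.ne, h1])

theorem Pk.sur (h : Pk x p univ ε d o oP κ) (hd : Good0 d) (Y : G) : ∃ a, κ a = Y := by
  obtain ⟨Z, hZ⟩ := g_nb Y
  obtain ⟨y, _, h1 | h1⟩ := h.crs hd hZ
  exacts [⟨_, h1.1⟩, ⟨_, h1.2⟩]

theorem Pk.cst0 (h : Pk x p univ ε d o oP κ) (hd : Good0 d) {β : Type} {A : G → Prop} (ψ : α → β)
    (hp : ∀ j, ψ (p j 0) = ψ (p j 1))
    (h0 : ∀ y, (A (κ (x y 0)) → ψ (x y 0) = ψ (x y 2)) ∧ (A (κ (x y 1)) → ψ (x y 1) = ψ (x y 3)))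
    (h1 : ∀ y, ε y ≠ 0 → A (κ (x y 0)) → A (κ (x y 1)) → ψ (x y 0) = ψ (x y 1)) :
    ∃ f : G → β, (∀ a, A (κ a) → ψ a = f (κ a)) ∧ ∀ Y Z, A Y → A Z → adj Y Z → f Y = f Z := by
  classical
  choose s hs using h.sur hd
  have hg : Cp x p (fun _ => .S) fun a => if A (κ a) then some (ψ a) else none := by
    refine ⟨fun y => ?_, fun j => by simp only [h.kap.2 j, hp j]⟩
    obtain ⟨k1, k2⟩ := h.kap.1 y
    simp only at k1 k2
    simp only [cp, ← k1, ← k2]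
    constructor <;> split_ifs with h2 <;> simp [h0 y, h2]
  have k : ∀ a, A (κ a) → ψ a = ψ (s (κ a)) := fun a ha => by
    have := h.fac hd.conn (fun _ _ => mem_univ _) hg (mem_univ a) (mem_univ _) (hs (κ a)).symm
    simpa [hs, ha] using this
  refine ⟨fun Y => ψ (s Y), k, fun Y Z hY hZ h2 => ?_⟩
  obtain ⟨y, h3, ⟨rfl, rfl⟩ | ⟨rfl, rfl⟩⟩ := h.crs hd h2
  · exact (k _ hY).symm.trans ((h1 y h3 hY hZ).trans (k _ hZ))
  · exact (k _ hY).symm.trans ((h1 y h3 hZ hY).symm.trans (k _ hZ))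

theorem Pk.NC (h : Pk x p univ ε d o oP κ) (hd : Good0 d) {S : Finset G} {R : G}
    (hS : Con (· ∈ S) R) : N x p univ (act (eS x ε (inS κ S)) .C) + S.card ≤ 61 := by
  classical
  have k := Cp_mk x p (act (eS x ε (inS κ S)) .C)
  obtain ⟨f, f1, f2⟩ := h.cst0 hd (A := (· ∈ S)) _ k.2 (fun y => ⟨fun _ => (k.str.1 y).1,
    fun _ => (k.str.1 y).2⟩) fun y h1 h2 h3 => by
      have := k.1 y
      simp only [act, eS, ind_inS, h2, h3, if_true, mul_one, h1, if_false] at this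
      exact this.1
  have h1 := ncl_le_card (r := rel x p (act (eS x ε (inS κ S)) .C)) (U := univ)
    (fun a => if κ a ∈ S then none else some (κ a)) fun a _ b _ hab => by
      by_cases ha : κ a ∈ S <;> by_cases hb : κ b ∈ S <;> simp [ha, hb] at hab
      · rw [f1 a ha, f1 b hb, hS.eq f f2 _ ha, hS.eq f f2 _ hb]
      · exact h.fac hd.conn (fun _ _ => mem_univ _) k.str (mem_univ a) (mem_univ _) hab
  have h2 : (univ.image fun a => if κ a ∈ S then none else some (κ a)) ⊆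
      insert none (Sᶜ.image some) := by
    intro v hv
    obtain ⟨a, _, rfl⟩ := mem_image.mp hv
    split_ifs with ha <;> simp [ha]
  have h3 := (card_le_card h2).trans ((card_insert_le _ _).trans
    (Nat.add_le_add_right card_image_le 1))
  have h4 := card_add_card_compl S
  simp only [Fintype.card_fin] at h4
  unfold N
  omega

theorem Pk.mix (h : Pk x p univ ε d o oP κ) (hd : Good0 d) (S : Finset G) :
    ∑ y, ε y * sn (o y) * (if κ (x y 0) ∈ S ∧ κ (x y 1) ∈ S ∧ κ (x y 0) ≠ κ (x y 1) then 2 else 0) =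
      ∑ Y ∈ S, ∑ Z ∈ S, if adj Y Z then (-2 : ℤ) else 0 := by
  have e : ∀ Y Z, (if adj Y Z then (-2 : ℤ) else 0) = ∑ y, ε y * sn (o y) *
      ((if κ (x y 0) = Y then if κ (x y 1) = Z then if Y ≠ Z then 1 else 0 else 0 else 0) +
       (if κ (x y 1) = Y then if κ (x y 0) = Z then if Y ≠ Z then 1 else 0 else 0 else 0)) := by
    intro Y Z
    by_cases h1 : Y = Z
    · simp [h1, show ¬adj Z Z from fun h => h.ne rfl]
    · rw [← hd.lk Y Z h1, ← h.lk Y Z h1]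
      refine sum_congr rfl fun y _ => ?_
      simp only [chi]
      split_ifs <;> simp_all
  simp only [e]
  symm
  rw [sum_congr rfl fun Y _ => sum_comm, sum_comm]
  refine sum_congr rfl fun y _ => ?_
  simp only [← mul_sum, sum_add_distrib, sum_ite_irrel, sum_const_zero, sum_ite_eq]
  congr 1
  by_cases h1 : κ (x y 0) ∈ S <;> by_cases h2 : κ (x y 1) ∈ S <;>
    by_cases h3 : κ (x y 0) = κ (x y 1) <;> simp [h1, h2, h3, eq_comm]

theorem sn_cases (o : Fin 4 → Bool) : sn o = 1 ∨ sn o = -1 := by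
  unfold sn; cases o 0 <;> cases o 1 <;> decide

theorem card_actv (ε : X → ℤ) : ((actv ε).card : ℤ) = ∑ y, if ε y = 0 then 0 else 1 := by
  simp [actv, sum_ite]

theorem Pk.brU (h : Pk x p univ ε d o oP κ) {k l : ℤ} (h1 : Ex (Br x p univ ε) k)
    (h2 : Low (d.B univ true) l) : 3 * (wr x ε o (fun _ => true) - d.w univ) + l ≤ k := by
  have h3 := h.br univ true
  have e : inS κ univ = fun _ => true := by funext a; simp [inS]
  simp only [e, sg, eS, ind, if_true, one_mul, mul_one] at h3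
  exact h1.le (h3 ▸ (Ex.eight _).low.mul h2)

theorem caseB {d2 : Dat G} (h : Cls x p ε d d2) (hd : Good d) (h1 : ∀ y, ε y ≠ -1)
    (hU : ∀ y, ε y ≠ 0 → ¬Dep x p ε .U {y}) (hV : ∀ y, ε y ≠ 0 → ¬Dep x p ε .V {y}) : False := by
  have he : ∀ y, ε y = 0 ∨ ε y = 1 := fun y => (h.eps y).imp_right fun h2 => h2.resolve_right (h1 y)
  obtain ⟨o, oP, κ, k1, -⟩ := h.c1
  have k2 := k1.brU (Br_ex h.hs ε he fun y hy => ne_of_not_dep (hV y hy)) (hd.bu true)
  have h3 := k1.neg.pm (fun _ => 0) fun _ => true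
  have h4 := wr_pm (fun y => -ε y) k1.ori (k1.kap.comp fun _ => true) (fun _ => 0) fun _ => true
  simp only [Bool.not_true, sg, Bool.false_eq_true, if_false, neg_mul, mul_neg, one_mul,
    neg_neg] at h3 h4
  have k3 := h3.brU (Br_ex h.mir.hs ε he fun y hy => ne_of_not_dep
    (mt (Dep_pm (fun _ => 0) true .U _).mp (hU y hy))) (hd.bu false)
  have e : wr x (fun y => -ε y) o (fun _ => true) = -wr x ε o (fun _ => true) := by
    simp [wr, eS]
  erw [h4, e, N_act_pm (fun _ => 0) true .U] at k3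
  have k4 := h.eul
  have k5 : ∑ y, ε y = (actv ε).card := by
    rw [card_actv]
    exact sum_congr rfl fun y _ => by rcases he y with h | h <;> simp [h]
  have k6 : -2 * ∑ y, ε y ≤ -288 := by
    rw [← g_sum, ← k1.mix hd.1 univ, mul_sum]
    refine sum_le_sum fun y _ => ?_
    rcases he y with h | h <;> rcases sn_cases (o y) with h' | h' <;> split_ifs <;> simp [h, h']
  simp only [Dat.mir, hd.wu] at k2 k3
  omega

theorem one_pos {d2 : Dat G} (h : Cls x p ε d d2) (hd : Good d) {u : X} (hu : ε u = -1)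
    (h1 : ∀ y, ε y ≠ 0 → ¬Dep x p ε .V {y}) (h2 : ∀ y, ε y ≠ 0 → y ≠ u → ¬Dep x p ε .V {u, y})
    (h3 : ∀ y z, ε y ≠ 0 → ε z ≠ 0 → y ≠ u → z ≠ u → y ≠ z → ¬Dep x p ε .V {u, y, z}) :
    ∃ o oP κ z, Pk x p univ ε d o oP κ ∧ ∀ y, y ≠ z → ε y ≠ 0 → ε y * sn (o y) = -1 := by
  have he : ∀ y, y ≠ u → ε y = 0 ∨ ε y = 1 := fun y hy =>
    (h.eps y).imp_right fun h2 => h2.resolve_right fun h3 => hy (h.uniq _ _ h3 hu)
  obtain ⟨o, oP, κ, k1, k2⟩ := h.c1
  have k3 := k1.brU (Br_ex_aa h.hs ε u hu he h1 h2 h3) (hd.bu true)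
  have k4 := h.eul
  have k5 : ∑ y, ε y + 2 = (actv ε).card := by
    rw [card_actv, ← add_sum_erase _ _ (mem_univ u), ← add_sum_erase _ _ (mem_univ u), hu,
      sum_congr rfl fun y hy => show ε y = if ε y = 0 then 0 else 1 by
        rcases he y (ne_of_mem_erase hy) with h | h <;> simp [h]]
    simp; ring
  have k6 := (abs_le.mp (k2 ⟨u, hu⟩)).2
  have k7 : ∀ y, ε y ≠ 0 → ε y * sn (o y) = -1 ∨ ε y * sn (o y) = 1 := fun y hy => by
    rcases (h.eps y).resolve_left hy with h | h <;> rcases sn_cases (o y) with h' | h' <;>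
      simp [h, h']
  have k8 : wr x ε o (fun _ => true) + (actv ε).card =
      2 * ((univ.filter fun y => ε y * sn (o y) = 1).card : ℤ) := by
    rw [card_actv, card_filter, wr, ← sum_add_distrib]
    push_cast
    rw [mul_sum]
    refine sum_congr rfl fun y _ => ?_
    by_cases h0 : ε y = 0
    · simp [eS, h0]
    · rcases k7 y h0 with h | h <;> simp [eS, ind, h0, h]
  rw [hd.wu] at k3
  rw [hd.K] at k6
  have k9 : (univ.filter fun y => ε y * sn (o y) = 1).card ≤ 1 := by omega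
  have : Nonempty X := ⟨u⟩
  obtain ⟨z, hz⟩ := card_le_one_iff_subset_singleton.mp k9
  exact ⟨o, oP, κ, z, k1, fun y h4 h5 => (k7 y h5).resolve_right fun h6 =>
    h4 (mem_singleton.mp (hz (by simpa using h6)))⟩

end

end Pool.Agent.MP_97bb71_gt

end

section

/-! Side functions near a window of the necklace. -/

namespace Pool.Agent.MP_97bb71_gt
open Finset

set_option linter.unusedSectionVars false

noncomputable section

variable {α X P : Type} [Fintype α] [Fintype X] [Fintype P] [DecidableEq X]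

structure Ctx (x : X → Fin 4 → α) (p : P → Fin 2 → α) (ε : X → ℤ) (d : Dat G)
    (o : X → Fin 4 → Bool) (oP : P → Bool) (κ : α → G) (i : Fin 12) : Prop where
  pk : Pk x p univ ε d o oP κ
  gd : Good d
  eul : (actv ε).card + 2 * N x p univ (mF (actv ε) (fun _ => .S) .C) ≤
      N x p univ (mF (actv ε) (fun _ => .S) .U) + N x p univ (mF (actv ε) (fun _ => .S) .V)
  one : ∀ y, ε y ≠ 0 → NT i (κ (x y 0)) → ε y = 1
  neg : ∀ y, ε y ≠ 0 → NT i (κ (x y 0)) ∨ NT i (κ (x y 1)) → ε y * sn (o y) = -1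
  nl : ∀ y, ε y ≠ 0 → ¬Dep x p ε .U {y}

variable {x : X → Fin 4 → α} {p : P → Fin 2 → α} {ε : X → ℤ} {d : Dat G} {o : X → Fin 4 → Bool}
  {oP : P → Bool} {κ : α → G} {i : Fin 12}

instance (Y Z : G) (y : X) : Decidable (Btw x κ Y Z y) := by unfold Btw; infer_instance

theorem Ctx.hs (h : Ctx x p ε d o oP κ i) : HS x p := HS_of_flow h.pk.bal

theorem Ctx.cnt (h : Ctx x p ε d o oP κ i) {Y Z : G} (hY : NT i Y) (hZ : Y ≠ Z) :
    (univ.filter fun y => ε y ≠ 0 ∧ Btw x κ Y Z y).card = if adj Y Z then 2 else 0 := by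
  have h1 := h.pk.lk Y Z hZ
  rw [h.gd.lk Y Z hZ, W, sum_congr rfl fun y _ =>
    show _ = -(if ε y ≠ 0 ∧ Btw x κ Y Z y then 1 else 0 : ℤ) from ?_, sum_neg_distrib,
    sum_boole] at h1
  · split_ifs at h1 ⊢ <;> omega
  · by_cases h0 : ε y = 0
    · simp [h0]
    by_cases hb : Btw x κ Y Z y
    · rw [h.neg y h0 (by rcases hb with h2 | h2 <;> simp [h2, hY])]
      rcases hb with h2 | h2 <;> simp [h0, Btw, chi, h2, hZ, hZ.symm]
    · simp only [hb, and_false, if_false, chi]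
      simp only [Btw, not_or, not_and] at hb
      split_ifs <;> simp_all

theorem Ctx.clA (h : Ctx x p ε d o oP κ i) {y : X} (h0 : ε y ≠ 0) {Y Z : G} (hY : NT i Y)
    (hb : Btw x κ Y Z y) (hZ : Y ≠ Z) : adj Y Z := by
  by_contra hn
  have := h.cnt hY hZ
  rw [if_neg hn, card_eq_zero, filter_eq_empty_iff] at this
  exact this (mem_univ y) ⟨h0, hb⟩

def ch (κ : α → G) (W : G) (a : α) : ZMod 2 := if κ a = W then 1 else 0

def Side (x : X → Fin 4 → α) (p : P → Fin 2 → α) (ε : X → ℤ) (g θ : α → ZMod 2) : Prop :=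
  Cp x p (act ε .V) θ ∧ Cp x p (act ε .U) fun a => θ a + g a

theorem Ctx.chS (h : Ctx x p ε d o oP κ i) (W : G) : Cp x p (fun _ => .S) (ch κ W) :=
  h.pk.kap.comp fun v => if v = W then (1 : ZMod 2) else 0

theorem Ctx.side (h : Ctx x p ε d o oP κ i) (g : α → ZMod 2) (μ : X → Md) (hg : Cp x p μ g)
    (h0 : ∀ y, ε y = 0 → μ y = .S) : ∃ θ, Side x p ε g θ := by
  obtain ⟨θ, h1, h2⟩ := T2 h.hs (actv ε) (fun _ => .S) h.eul g (fun y _ => cp_sum (hg.1 y))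
    (fun y hy => h0 y (by simpa [actv] using hy) ▸ hg.1 y) hg.2
  exact ⟨θ, by rwa [act_eq], by rwa [act_eq]⟩

variable {g g' θ θ' : α → ZMod 2}

theorem Side.add (h : Side x p ε g θ) (h' : Side x p ε g' θ') :
    Side x p ε (fun a => g a + g' a) fun a => θ a + θ' a :=
  ⟨h.1.comp₂ h'.1 fun u v => u + v, by
    convert h.2.comp₂ h'.2 fun u v => u + v using 2; ring⟩

theorem Side.shift (h : Side x p ε g θ) (c : ZMod 2) : Side x p ε g fun a => θ a + c :=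
  ⟨h.1.comp fun u => u + c, by convert h.2.comp fun u => u + c using 2; ring⟩

theorem Side.S (h : Side x p ε g θ) {y : X} (h0 : ε y = 0) :
    θ (x y 0) = θ (x y 2) ∧ θ (x y 1) = θ (x y 3) := by
  have := h.1.1 y
  simpa only [act, h0, if_true, cp] using this

theorem Side.V (h : Side x p ε g θ) {y : X} (h0 : ε y ≠ 0) :
    θ (x y 1) = θ (x y 0) + (g (x y 0) + g (x y 1)) ∧
      θ (x y 2) = θ (x y 0) + (g (x y 0) + g (x y 1)) ∧ θ (x y 3) = θ (x y 0) := by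
  have h1 := h.1.1 y
  have h2 := h.2.1 y
  simp only [act, h0, if_false, cp] at h1 h2
  have h3 : θ (x y 1) = θ (x y 0) + (g (x y 0) + g (x y 1)) := by
    have := h2.1
    revert this
    generalize θ (x y 1) = a, θ (x y 0) = b, g (x y 0) = c, g (x y 1) = e
    revert a b c e; decide
  exact ⟨h3, h1.1 ▸ h3, h1.2⟩

theorem Side.C (h : Side x p ε g θ) {y : X} (h0 : ε y ≠ 0) (h1 : g (x y 0) = g (x y 1)) (j : Fin 4) :
    θ (x y j) = θ (x y 0) := by
  have := h.V h0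
  rw [h1, CharTwo.add_self_eq_zero, add_zero] at this
  fin_cases j
  exacts [rfl, this.1, this.2.1, this.2.2]

theorem Ctx.cst (h : Ctx x p ε d o oP κ i) (hθ : Side x p ε g θ) {A : G → Prop} {R : G}
    (hA : Con A R ∨ ∀ Y, A Y → Y = R ∨ (adj Y R ∧ A R))
    (h1 : ∀ y, ε y ≠ 0 → A (κ (x y 0)) ∨ A (κ (x y 1)) → g (x y 0) = g (x y 1)) :
    ∃ c, ∀ a, A (κ a) → θ a = c := by
  obtain ⟨f, f1, f2⟩ := h.pk.cst0 h.gd.1 (A := A) θ hθ.1.2 (fun y => by
      by_cases h0 : ε y = 0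
      · exact ⟨fun _ => (hθ.S h0).1, fun _ => (hθ.S h0).2⟩
      · exact ⟨fun h2 => (hθ.C h0 (h1 y h0 (.inl h2)) 2).symm, fun h2 =>
          (hθ.C h0 (h1 y h0 (.inr h2)) 1).trans (hθ.C h0 (h1 y h0 (.inr h2)) 3).symm⟩)
    fun y h0 h2 _ => (hθ.C h0 (h1 y h0 (.inl h2)) 1).symm
  refine ⟨f R, fun a ha => (f1 a ha).trans ?_⟩
  rcases hA with hA | hA
  · exact hA.eq f f2 _ ha
  · rcases hA _ ha with h2 | h2
    exacts [by rw [h2], f2 _ _ ha h2.2 h2.1]

theorem Ctx.far (h : Ctx x p ε d o oP κ i) {W : G} (hW : NT i W) (hg : ∀ a, κ a ≠ W → g a = 0)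
    (hθ : Side x p ε g θ) : ∃ c, ∀ a, κ a ≠ W → ¬adj W (κ a) → θ a = c := by
  obtain ⟨c, hc⟩ := h.cst hθ (.inl (g_far W)) fun y h0 h1 => by
    rcases h1 with h1 | h1
    · rw [hg _ h1.1, hg _ fun h2 => h1.2 (h.clA h0 hW (.inr ⟨rfl, h2⟩) h1.1.symm)]
    · rw [hg _ h1.1, hg _ fun h2 => h1.2 (h.clA h0 hW (.inl ⟨h2, rfl⟩) h1.1.symm)]
  exact ⟨c, fun a h1 h2 => hc a ⟨h1, h2⟩⟩

theorem Ctx.nside (h : Ctx x p ε d o oP κ i) {W : G} (g : α → ZMod 2) (μ : X → Md)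
    (h1 : Cp x p μ g) (h0 : ∀ y, ε y = 0 → μ y = .S) (hg : ∀ a, κ a ≠ W → g a = 0) :
    ∃ θ, Side x p ε g θ ∧ (NT i W → ∀ a, κ a ≠ W → ¬adj W (κ a) → θ a = 0) := by
  obtain ⟨θ, hθ⟩ := h.side g μ h1 h0
  by_cases hW : NT i W
  · obtain ⟨c, hc⟩ := h.far hW hg hθ
    exact ⟨_, hθ.shift c, fun _ a h2 h3 => by rw [hc a h2 h3]; exact CharTwo.add_self_eq_zero c⟩
  · exact ⟨θ, hθ, fun h => absurd h hW⟩

structure Phi (x : X → Fin 4 → α) (p : P → Fin 2 → α) (ε : X → ℤ) (κ : α → G) (i : Fin 12)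
    (φ : G → α → ZMod 2) (k : ZMod 2) : Prop where
  sd : ∀ W, Side x p ε (ch κ W) (φ W)
  nm : ∀ W, NT i W → ∀ a, κ a ≠ W → ¬adj W (κ a) → φ W a = 0
  tot : ∀ a, TT i (κ a) → ∑ W with NT i W, φ W a = k

theorem Ctx.phi (h : Ctx x p ε d o oP κ i) : ∃ φ k, Phi x p ε κ i φ k := by
  choose φ h1 h2 using fun W => h.nside (W := W) (ch κ W) _ (h.chS W) (fun _ _ => rfl)
    fun a ha => if_neg ha
  have h3 : ∀ A : Finset G, Side x p ε (fun a => if κ a ∈ A then 1 else 0)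
      fun a => ∑ W ∈ A, φ W a := by
    intro A
    induction A using Finset.induction_on with
    | empty => exact ⟨Cp_iff.mpr fun _ _ _ => rfl, Cp_iff.mpr fun _ _ _ => by simp⟩
    | insert W A hW ih =>
      convert (h1 W).add ih using 2 with a
      · by_cases h4 : κ a = W <;> simp [ch, h4, hW]
      · rw [sum_insert hW]
  have hT := (g_T i).2.2.2.2.1
  obtain ⟨k, hk⟩ := h.cst (h3 (univ.filter (NT i))) (.inl (g_T i).1) fun y h0 h4 => by
    have : NT i (κ (x y 0)) ∧ NT i (κ (x y 1)) := by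
      by_cases h5 : κ (x y 0) = κ (x y 1)
      · rw [← h5, or_self] at h4; exact ⟨(hT _ h4).1, h5 ▸ (hT _ h4).1⟩
      rcases h4 with h4 | h4
      · exact ⟨(hT _ h4).1, (hT _ h4).2 _ (h.clA h0 (hT _ h4).1 (.inl ⟨rfl, rfl⟩) h5)⟩
      · exact ⟨(hT _ h4).2 _ (h.clA h0 (hT _ h4).1 (.inr ⟨rfl, rfl⟩) (Ne.symm h5)), (hT _ h4).1⟩
    simp [this]
  exact ⟨φ, k, h1, h2, hk⟩

variable {φ : G → α → ZMod 2} {k : ZMod 2}

theorem Phi.C (h : Phi x p ε κ i φ k) {y : X} (h0 : ε y ≠ 0) {W : G} (h1 : κ (x y 0) ≠ W)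
    (h2 : κ (x y 1) ≠ W) (j : Fin 4) : φ W (x y j) = φ W (x y 0) :=
  (h.sd W).C h0 (by simp [ch, h1, h2]) j

theorem Phi.zero (h : Phi x p ε κ i φ k) {y : X} (h0 : ε y ≠ 0) {W : G} (hW : NT i W)
    (h1 : κ (x y 0) ≠ W) (h2 : κ (x y 1) ≠ W) (h3 : adj (κ (x y 0)) (κ (x y 1))) (j : Fin 4) :
    φ W (x y j) = 0 := by
  rw [h.C h0 h1 h2]
  by_cases h4 : adj W (κ (x y 0))
  · rw [← h.C h0 h1 h2 1]
    exact h.nm W hW _ h2 fun h5 => g_tri _ _ h4 _ h5 h3
  · exact h.nm W hW _ h1 h4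

theorem Phi.mix (h : Phi x p ε κ i φ k) {y : X} (h0 : ε y ≠ 0) (h1 : TT i (κ (x y 0)))
    (h3 : adj (κ (x y 0)) (κ (x y 1))) :
    φ (κ (x y 0)) (x y 0) + φ (κ (x y 1)) (x y 0) = k := by
  have hT := (g_T i).2.2.2.2.1 _ h1
  rw [← h.tot _ h1, sum_eq_add_of_mem _ _ (by simpa using hT.1) (by simpa using hT.2 _ h3) h3.ne]
  intro W hW h4
  exact h.zero h0 (by simpa using hW) h4.1.symm h4.2.symm h3 0

end

end Pool.Agent.MP_97bb71_gt

end

section

/-! Self-crossings near the window. -/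

namespace Pool.Agent.MP_97bb71_gt
open Finset

set_option linter.unusedSectionVars false

noncomputable section

variable {α X P : Type} [Fintype α] [Fintype X] [Fintype P] [DecidableEq X]
  {x : X → Fin 4 → α} {p : P → Fin 2 → α} {ε : X → ℤ} {d : Dat G} {o : X → Fin 4 → Bool}
  {oP : P → Bool} {κ : α → G} {i : Fin 12}

theorem Ctx.sub (h : Ctx x p ε d o oP κ i) {S : Finset G} (hS : ∀ Y ∈ S, NT i Y) :
    (∀ y, eS x ε (inS κ S) y = 0 ∨ eS x ε (inS κ S) y = 1) ∧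
    (∀ y, eS x ε (inS κ S) y ≠ 0 ↔ ε y ≠ 0 ∧ κ (x y 0) ∈ S ∧ κ (x y 1) ∈ S) ∧
    ∑ y, eS x ε (inS κ S) y = (actv (eS x ε (inS κ S))).card ∧
    Br x p univ (eS x ε (inS κ S)) =
      (-8 : ℚ) ^ (-((actv (eS x ε (inS κ S))).card : ℤ) - d.w S) * d.B S true := by
  have h1 : ∀ y, eS x ε (inS κ S) y = if ε y ≠ 0 ∧ κ (x y 0) ∈ S ∧ κ (x y 1) ∈ S then 1 else 0 := by
    intro y
    by_cases h0 : ε y = 0 <;> by_cases h2 : κ (x y 0) ∈ S <;> by_cases h3 : κ (x y 1) ∈ S <;>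
      simp [eS, ind_inS, h0, h2, h3]
    exact h.one y h0 (hS _ h2)
  have h2 : ∑ y, eS x ε (inS κ S) y = (actv (eS x ε (inS κ S))).card := by
    rw [card_actv]
    exact sum_congr rfl fun y _ => by rw [h1]; split_ifs <;> simp_all
  refine ⟨fun y => by rw [h1]; split_ifs <;> simp, fun y => by rw [h1]; simp, h2, ?_⟩
  have h3 := h.pk.br S true
  simp only [sg, if_true, one_mul] at h3
  rw [h3, ← h2, ← sum_neg_distrib, wr]
  congr 3
  refine sum_congr rfl fun y _ => ?_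
  rw [h1]
  split_ifs with h4
  · have := h.neg y h4.1 (.inl (hS _ h4.2.1))
    rwa [h.one y h4.1 (hS _ h4.2.1)] at this
  · simp

theorem Ctx.subL (h : Ctx x p ε d o oP κ i) {S : Finset G} (hS : ∀ Y ∈ S, NT i Y) {s : ℤ}
    (hs : Ex (d.B S true) s) : 2 * ((actv (eS x ε (inS κ S))).card : ℤ) + 3 * d.w S - s ≤
      2 * N x p univ (act (eS x ε (inS κ S)) .V) := by
  obtain ⟨h1, -, h3, h4⟩ := h.sub hS
  have := (h4 ▸ (Ex.eight _).mul hs).le (Br_low h.hs _ h1)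
  omega

structure HL (x : X → Fin 4 → α) (p : P → Fin 2 → α) (ε : X → ℤ) (κ : α → G) (u : X)
    (g : α → ZMod 2) : Prop where
  cp : Cp x p (mF {u} (fun _ => .S) .V) g
  sup : ∀ a, κ a ≠ κ (x u 0) → g a = 0
  d0 : g (x u 0) + g (x u 1) = 1
  slf : ∀ y, ε y ≠ 0 → y ≠ u → κ (x y 0) = κ (x y 1) → g (x y 0) = g (x y 1)

variable {u : X} {g g' θ : α → ZMod 2}

theorem HL.S (h : HL x p ε κ u g) {y : X} (hy : y ≠ u) :
    g (x y 0) = g (x y 2) ∧ g (x y 1) = g (x y 3) := by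
  have := h.cp.1 y
  simpa only [mF, mem_singleton, hy, if_false, MP_97bb71_gt.cp] using this

theorem HL.V (h : HL x p ε κ u g) : g (x u 1) = g (x u 2) ∧ g (x u 3) = g (x u 0) := by
  have := h.cp.1 u
  simpa only [mF, mem_singleton, if_true, MP_97bb71_gt.cp] using this

theorem HL.on (h : HL x p ε κ u g) {a : α} (ha : g a = 1) : κ a = κ (x u 0) := by
  by_contra hn
  exact absurd ((h.sup a hn).symm.trans ha) (by decide)

theorem Ctx.hl (h : Ctx x p ε d o oP κ i) (h0 : ε u ≠ 0) (hY : NT i (κ (x u 0)))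
    (he : κ (x u 0) = κ (x u 1)) : ∃ g, HL x p ε κ u g := by
  have hS : ∀ Y ∈ ({κ (x u 0)} : Finset G), NT i Y := by simpa using hY
  have h1 := h.subL hS (h.gd.b1 _)
  have h2 := h.pk.NC h.gd.1 (S := {κ (x u 0)}) (R := κ (x u 0)) fun Y hY => .inl (by simpa using hY)
  have h3 := (h.sub hS).2.1
  rw [h.gd.w1, act_eq] at h1
  rw [act_eq, card_singleton] at h2
  obtain ⟨φ, k1, k2⟩ := DD_surj (x := x) (p := p) (actv (eS x ε (inS κ {κ (x u 0)}))) (fun _ => .S)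
    (by omega) fun y => if y = u then 1 else 0
  have h4 : ∀ y, y ∈ actv (eS x ε (inS κ {κ (x u 0)})) ↔
      ε y ≠ 0 ∧ κ (x y 0) = κ (x u 0) ∧ κ (x y 1) = κ (x u 0) := by
    intro y; simpa [actv] using h3 y
  have h5 := (h4 u).mpr ⟨h0, rfl, he.symm⟩
  have k3 : ∀ y ∈ actv (eS x ε (inS κ {κ (x u 0)})), y ≠ u → cp (fun j => φ (x y j)) .C := by
    intro y hy h6
    have := k1.1 y
    simp only [mF, hy, if_true] at this
    exact (cp_C_iff (.inr ⟨rfl, rfl⟩)).mpr ⟨this, (k2 y hy).trans (if_neg h6)⟩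
  have k4 := k1.1 u
  have k5 := k2 u h5
  have k6 := h.pk.kap.1 u
  simp only [mF, h5, if_true, cp, dd] at k4 k5 k6
  refine ⟨fun a => ch κ (κ (x u 0)) a * φ a, ⟨fun y => ?_, fun j => by
    simp only [k1.2 j, (h.chS _).2 j]⟩, fun a ha => by simp [ch, ha], by
    simpa [ch, ← he, k4.1] using k5, fun y h6 h7 h8 => ?_⟩
  · by_cases hy : y = u
    · subst hy
      simp [mF, cp, ch, ← k6.1, ← k6.2, ← he, k4]
    · have k7 := (h.chS (κ (x u 0))).1 y
      have k8 : cp (fun j => φ (x y j)) .S := by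
        by_cases h7 : y ∈ actv (eS x ε (inS κ {κ (x u 0)}))
        · exact cp_of_C (k3 y h7 hy) _
        · simpa only [mF, h7, if_false] using k1.1 y
      simp only [mF, mem_singleton, hy, if_false, cp] at k7 k8 ⊢
      rw [k7.1, k7.2, k8.1, k8.2]; exact ⟨rfl, rfl⟩
  · by_cases h9 : κ (x y 0) = κ (x u 0)
    · have := (k3 y ((h4 y).mpr ⟨h6, h9, h8 ▸ h9⟩) h7).1
      simp only at this
      simp [ch, ← h8, this]
    · simp [ch, ← h8, h9]

theorem Ctx.compl (h : Ctx x p ε d o oP κ i) (he : κ (x u 0) = κ (x u 1))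
    (hg : HL x p ε κ u g) : HL x p ε κ u fun a => ch κ (κ (x u 0)) a + g a := by
  have k6 := h.pk.kap.1 u
  simp only [cp] at k6
  refine ⟨Cp.comp₂ ⟨fun y => ?_, (h.chS _).2⟩ hg.cp fun a b => a + b,
    fun a ha => by simp [ch, ha, hg.sup a ha], ?_, fun y h1 h2 h3 => by
      simp only [ch, h3, hg.slf y h1 h2 h3]⟩
  · by_cases hy : y = u
    · subst hy; simp [mF, cp, ch, ← k6.1, ← k6.2, ← he]
    · simpa only [mF, mem_singleton, hy, if_false] using (h.chS _).1 y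
  · simp only [ch, ← he, if_true]
    linear_combination hg.d0 + CharTwo.add_self_eq_zero (1 : ZMod 2)

theorem z01 (a : ZMod 2) : a = 0 ∨ a = 1 := by revert a; decide

theorem Ctx.nside' (h : Ctx x p ε d o oP κ i) (h0 : ε u ≠ 0) (hY : NT i (κ (x u 0)))
    (hg : HL x p ε κ u g) : ∃ θ, Side x p ε g θ ∧
      ∀ a, κ a ≠ κ (x u 0) → ¬adj (κ (x u 0)) (κ a) → θ a = 0 := by
  obtain ⟨θ, h1, h2⟩ := h.nside g _ hg.cp (fun y hy => if_neg (by
    rw [mem_singleton]; rintro rfl; exact h0 hy)) hg.sup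
  exact ⟨θ, h1, h2 hY⟩

theorem Ctx.par (h : Ctx x p ε d o oP κ i) (h0 : ε u ≠ 0) (hY : NT i (κ (x u 0)))
    (hg : HL x p ε κ u g) {Z : G} (hZ : adj (κ (x u 0)) Z) :
    ∃ t, ∀ y, ε y ≠ 0 → Btw x κ (κ (x u 0)) Z y → g (x y 0) + g (x y 1) = t := by
  obtain ⟨θ, h1, -⟩ := h.nside' h0 hY hg
  have h2 := h.cnt hY hZ.ne
  rw [if_pos hZ] at h2
  obtain ⟨y1, y2, h3, h4⟩ := card_eq_two.mp h2
  have h5 := h.hs (fun a => θ a * ch κ Z a) fun j => by rw [h1.1.2 j, (h.chS Z).2 j]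
  rw [sum_congr rfl fun y _ => show _ = if ε y ≠ 0 ∧ Btw x κ (κ (x u 0)) Z y then
    g (x y 0) + g (x y 1) else 0 from ?_, ← sum_filter, h4, sum_pair h3] at h5
  · refine ⟨g (x y1 0) + g (x y1 1), fun y h6 h7 => ?_⟩
    have : y ∈ ({y1, y2} : Finset X) := h4 ▸ mem_filter.mpr ⟨mem_univ _, h6, h7⟩
    rcases mem_insert.mp this with rfl | h8
    · rfl
    · rw [mem_singleton.mp h8]; exact (CharTwo.add_eq_zero.mp h5).symm
  · have k1 := (h.chS Z).1 y
    simp only [cp] at k1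
    have c2 : ∀ u : ZMod 2, u + u = 0 := CharTwo.add_self_eq_zero
    rw [Fin.sum_univ_four, ← k1.1, ← k1.2]
    by_cases h6 : ε y = 0
    · rw [← (h1.S h6).1, ← (h1.S h6).2, if_neg (by simp [h6])]
      linear_combination c2 (θ (x y 0) * ch κ Z (x y 0)) + c2 (θ (x y 1) * ch κ Z (x y 1))
    rw [(h1.V h6).1, (h1.V h6).2.1, (h1.V h6).2.2]
    have e : (ch κ Z (x y 0) + ch κ Z (x y 1)) * (g (x y 0) + g (x y 1)) =
        if ε y ≠ 0 ∧ Btw x κ (κ (x u 0)) Z y then g (x y 0) + g (x y 1) else 0 := by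
      have := hZ.ne
      by_cases a1 : κ (x y 0) = Z <;> by_cases a2 : κ (x y 1) = Z <;>
        by_cases a3 : κ (x y 0) = κ (x u 0) <;> by_cases a4 : κ (x y 1) = κ (x u 0) <;>
        simp_all [ch, Btw, hg.sup]
    linear_combination e + c2 (θ (x y 0) * ch κ Z (x y 0)) + c2 (θ (x y 0) * ch κ Z (x y 1))

theorem Ctx.key (h : Ctx x p ε d o oP κ i) (h0 : ε u ≠ 0) (hY : NT i (κ (x u 0)))
    (hg : HL x p ε κ u g) : ∃ Z, adj (κ (x u 0)) Z ∧
      (∀ y, ε y ≠ 0 → Btw x κ (κ (x u 0)) Z y → g (x y 0) + g (x y 1) = 1) ∧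
      ∀ g' θ, Side x p ε g' θ →
        (∀ y, ε y ≠ 0 → y ≠ u → g (x y 0) = 1 ∨ g (x y 1) = 1 → g' (x y 0) = g' (x y 1)) →
        (∀ a, κ a = Z → θ a = 0) → ∀ a, g a = 1 → θ a = 0 := by
  have c2 : ∀ u : ZMod 2, u + u = 0 := CharTwo.add_self_eq_zero
  obtain ⟨y, h1, h2, h3⟩ : ∃ y, ε y ≠ 0 ∧ y ≠ u ∧ g (x y 0) ≠ g (x y 1) := by
    by_contra hn
    push Not at hn
    refine h.nl u h0 fun ψ hψ => ?_
    have h4 : Cp x p (act ε .V) g := by
      refine ⟨fun y => ?_, hg.cp.2⟩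
      by_cases hy : y = u
      · subst hy; simpa only [act, h0, if_false, cp] using hg.V
      by_cases h5 : ε y = 0 <;> simp only [act, h5, if_true, if_false, cp]
      exacts [hg.S hy, by simp [← hg.S hy, hn y h5 hy]]
    rw [act_eq] at hψ h4
    have h5 := orth h.hs _ _ (.inl ⟨rfl, rfl⟩) hψ h4
    rw [sum_eq_single_of_mem u (by simpa [actv] using h0) fun y _ hy => by
      rw [dd, dd, (hg.S hy).1, c2, mul_zero], dd, dd, ← hg.V.1, hg.d0, mul_one] at h5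
    rw [sum_singleton, dd, h5]
  have h4 : ∃ Z a b, Btw x κ (κ (x u 0)) Z y ∧ κ (x u 0) ≠ Z ∧ g (x y a) = 1 ∧ κ (x y b) = Z := by
    have h5 : κ (x y 0) ≠ κ (x y 1) := fun h5 => h3 (hg.slf y h1 h2 h5)
    rcases z01 (g (x y 0)) with h6 | h6
    · have h7 : g (x y 1) = 1 := (z01 _).resolve_left fun h7 => h3 (h6.trans h7.symm)
      exact ⟨_, 1, 0, .inr ⟨rfl, hg.on h7⟩, hg.on h7 ▸ h5.symm, h7, rfl⟩
    · exact ⟨_, 0, 1, .inl ⟨hg.on h6, rfl⟩, hg.on h6 ▸ h5, h6, rfl⟩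
  obtain ⟨Z, a, b, h5, h6, h7, h8⟩ := h4
  have hZ := h.clA h1 hY h5 h6
  have h9 : g (x y 0) = 1 ∨ g (x y 1) = 1 := by
    revert h3; generalize g (x y 0) = v, g (x y 1) = w; revert v w; decide
  refine ⟨Z, hZ, ?_, fun g' θ k1 k2 k3 => ?_⟩
  · obtain ⟨t, ht⟩ := h.par h0 hY hg hZ
    intro z k1 k2
    rw [ht z k1 k2, ← ht y h1 h5]
    revert h3; generalize g (x y 0) = v, g (x y 1) = w; revert v w; decide
  have k4 : ∀ j, g (x u j) * (θ (x u j) + (g (x u 0) * θ (x u 0) + g (x u 1) * θ (x u 1))) = 0 := by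
    have k5 := k1.1.1 u
    have k6 := hg.d0
    simp only [act, h0, if_false, cp] at k5
    intro j
    fin_cases j <;> simp only [Fin.zero_eta, Fin.mk_one, Fin.reduceFinMk, ← k5.1, k5.2, ← hg.V.1,
      hg.V.2] <;> revert k6 <;>
      generalize g (x u 0) = v, g (x u 1) = w, θ (x u 0) = s, θ (x u 1) = t <;> revert v w s t <;>
      decide
  have k5 : Cp x p (fun _ => .S)
      fun a => g a * (θ a + (g (x u 0) * θ (x u 0) + g (x u 1) * θ (x u 1))) := by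
    refine ⟨fun z => ?_, fun j => by simp only [hg.cp.2 j, k1.1.2 j]⟩
    by_cases hz : z = u
    · subst hz; simp only [cp, k4, and_self]
    simp only [cp, ← hg.S hz]
    by_cases h5 : ε z = 0
    · simp only [← k1.S h5, and_self]
    by_cases h6 : g (x z 0) = 1 ∨ g (x z 1) = 1
    · simp only [k1.C h5 (k2 z h5 hz h6), and_self]
    · push Not at h6
      simp [(z01 _).resolve_right h6.1, (z01 _).resolve_right h6.2]
  have k6 : ∀ a, g a = 1 → θ a = g (x u 0) * θ (x u 0) + g (x u 1) * θ (x u 1) := by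
    intro a ha
    have := h.pk.fac h.gd.conn (fun _ _ => mem_univ _) k5 (mem_univ a) (mem_univ _) (hg.on ha)
    rw [k4 0, ha, one_mul] at this
    exact CharTwo.add_eq_zero.mp this
  intro c hc
  rw [k6 c hc, ← k6 _ h7, k1.C h1 (k2 y h1 h2 h9), ← k1.C h1 (k2 y h1 h2 h9) b, k3 _ h8]

theorem Ctx.half (h : Ctx x p ε d o oP κ i) (h0 : ε u ≠ 0) (hY : NT i (κ (x u 0)))
    (hg : HL x p ε κ u g) (hg' : HL x p ε κ u g') (hc : ∀ a, g a + g' a = ch κ (κ (x u 0)) a)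
    (h1 : Side x p ε g' θ) (h2 : ∀ a, κ a ≠ κ (x u 0) → ¬adj (κ (x u 0)) (κ a) → θ a = 0) :
    ∀ a, g a = 1 → θ a = 0 := by
  obtain ⟨Z, k1, k2, k3⟩ := h.key h0 hY hg
  have e : ∀ a, g a = 1 → g' a = 0 := fun a ha => by
    have := hc a
    rw [ha, ch, if_pos (hg.on ha)] at this
    simpa using this
  refine k3 g' θ h1 (fun y h3 h4 h5 => ?_) ?_
  · by_cases h6 : κ (x y 0) = κ (x y 1)
    · exact hg'.slf y h3 h4 h6
    rcases h5 with h5 | h5
    · rw [e _ h5, hg'.sup _ fun h7 => h6 ((hg.on h5).trans h7.symm)]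
    · rw [e _ h5, hg'.sup _ fun h7 => h6 (h7.trans (hg.on h5).symm)]
  obtain ⟨R, k4, k5⟩ := g_out _ _ k1
  have k6 : ¬adj (κ (x u 0)) R := fun h3 => g_tri _ _ k1 _ h3 k4
  obtain ⟨c, hc'⟩ := h.cst h1 (A := fun V => V = Z ∨ V = R) (R := R) (.inr (by
      rintro _ (rfl | rfl)
      exacts [.inr ⟨k4, .inr rfl⟩, .inl rfl])) fun y h3 h4 => by
    have k7 : ∀ V, V = Z ∨ V = R → Btw x κ (κ (x u 0)) V y → g' (x y 0) = g' (x y 1) := by
      rintro V (rfl | rfl) h5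
      · have h6 := k2 y h3 h5
        have h7 : ch κ (κ (x u 0)) (x y 0) + ch κ (κ (x u 0)) (x y 1) = 1 := by
          rcases h5 with h5 | h5 <;> simp [ch, h5, k1.ne.symm]
        rw [← hc, ← hc] at h7
        exact CharTwo.add_eq_zero.mp (by linear_combination h7 - h6)
      · exact absurd (h.clA h3 hY h5 k5.symm) k6
    have k8 : ∀ V, V = Z ∨ V = R → V ≠ κ (x u 0) := by
      rintro V (rfl | rfl)
      exacts [k1.ne.symm, k5]
    rcases h4 with h4 | h4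
    · by_cases h5 : κ (x y 1) = κ (x u 0)
      · exact k7 _ h4 (.inr ⟨rfl, h5⟩)
      · rw [hg'.sup _ h5, hg'.sup _ (k8 _ h4)]
    · by_cases h5 : κ (x y 0) = κ (x u 0)
      · exact k7 _ h4 (.inl ⟨h5, rfl⟩)
      · rw [hg'.sup _ h5, hg'.sup _ (k8 _ h4)]
  obtain ⟨b, hb⟩ := h.pk.sur h.gd.1 R
  intro a ha
  rw [hc' a (.inl ha), ← hc' b (.inr hb), h2 b (hb ▸ k5) (hb ▸ k6)]

variable {φ : G → α → ZMod 2} {k : ZMod 2}

theorem Ctx.oth (h : Ctx x p ε d o oP κ i) (hφ : Phi x p ε κ i φ k) (h0 : ε u ≠ 0)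
    (hY : NT i (κ (x u 0))) (he : κ (x u 0) = κ (x u 1)) (hg : HL x p ε κ u g) {W : G}
    (hW : NT i W) (h1 : adj (κ (x u 0)) W)
    (h2 : ∀ y, ε y ≠ 0 → Btw x κ (κ (x u 0)) W y → g (x y 0) + g (x y 1) = 0) :
    φ W (x u 0) = 0 := by
  obtain ⟨Z, k1, k2, k3⟩ := h.key h0 hY hg
  have k4 : Z ≠ W := by
    rintro rfl
    obtain ⟨y, h3, h4⟩ := h.pk.crs h.gd.1 h1
    exact absurd ((k2 y h3 h4).symm.trans (h2 y h3 h4)) (by decide)
  have k5 := k3 _ _ (hφ.sd W) (fun y h3 _ h5 => by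
      rcases h5 with h5 | h5
      · have h6 : κ (x y 1) ≠ W := fun h6 => by
          have := h2 y h3 (.inl ⟨hg.on h5, h6⟩)
          rw [h5, hg.sup _ (h6 ▸ h1.ne.symm)] at this
          exact absurd this (by decide)
        simp [ch, h6, hg.on h5, h1.ne]
      · have h6 : κ (x y 0) ≠ W := fun h6 => by
          have := h2 y h3 (.inr ⟨h6, hg.on h5⟩)
          rw [h5, hg.sup _ (h6 ▸ h1.ne.symm)] at this
          exact absurd this (by decide)
        simp [ch, h6, hg.on h5, h1.ne])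
    fun a ha => hφ.nm W hW a (ha ▸ k4) (ha ▸ g_tri _ _ h1 _ k1)
  rcases z01 (g (x u 0)) with h3 | h3
  · rw [← hφ.C h0 h1.ne (he ▸ h1.ne) 1]
    exact k5 _ (by simpa [h3] using hg.d0)
  · exact k5 _ h3

theorem Ctx.self (h : Ctx x p ε d o oP κ i) (hφ : Phi x p ε κ i φ k) (h0 : ε u ≠ 0)
    (hT : TT i (κ (x u 0))) (he : κ (x u 0) = κ (x u 1)) : k = 1 := by
  have c2 : ∀ u : ZMod 2, u + u = 0 := CharTwo.add_self_eq_zero
  have hY := ((g_T i).2.2.2.2.1 _ hT).1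
  obtain ⟨g, hg⟩ := h.hl h0 hY he
  have hg' := h.compl he hg
  obtain ⟨θ, h1, h2⟩ := h.nside' h0 hY hg
  have h3 := (hφ.sd (κ (x u 0))).add h1
  have k1 := h.half h0 hY hg hg' (fun a => by linear_combination c2 (g a)) h3
    fun a h4 h5 => by rw [hφ.nm _ hY a h4 h5, h2 a h4 h5, add_zero]
  have k2 := h.half h0 hY hg' hg (fun a => by linear_combination c2 (g a)) h1 h2
  rw [← hφ.tot _ hT, sum_eq_single_of_mem _ (by simpa using hY)]
  · have k3 := (h1.V h0).1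
    have k4 := (hφ.sd (κ (x u 0))).C h0 (by simp [ch, ← he]) 1
    have k5 := hg.d0
    rw [k5] at k3
    rcases z01 (g (x u 0)) with h4 | h4
    · have k6 := k1 (x u 1) (by simpa [h4] using k5)
      have k7 := k2 (x u 0) (by simp [ch, h4])
      rw [k4, k3, k7] at k6
      exact CharTwo.add_eq_zero.mp (by simpa using k6)
    · have k6 := k1 (x u 0) h4
      have k7 := k2 (x u 1) (by simpa [ch, h4, ← he] using k5)
      linear_combination k6 + k3 - k7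
  · intro W hW h4
    have hW' : NT i W := by simpa using hW
    by_cases h5 : adj (κ (x u 0)) W
    swap
    · exact hφ.nm W hW' _ h4.symm fun h6 => h5 h6.symm
    obtain ⟨t, ht⟩ := h.par h0 hY hg h5
    rcases z01 t with rfl | rfl
    · exact h.oth hφ h0 hY he hg hW' h5 ht
    · refine h.oth hφ h0 hY he hg' hW' h5 fun y h6 h7 => ?_
      have h8 : ch κ (κ (x u 0)) (x y 0) + ch κ (κ (x u 0)) (x y 1) = 1 := by
        rcases h7 with h7 | h7 <;> simp [ch, h7, h4]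
      linear_combination h8 + ht y h6 h7 + c2 1

end

end Pool.Agent.MP_97bb71_gt

end
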