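import Pool.Agent.Mg.F97bb71.G2da74e
import Pool.Agent.Mg.F97bb71.Gd3f58c
import Pool.Agent.Mg.F97bb71.Gda5e74

section

/-! The three reductions of abstract almost alternating diagrams. -/

namespace Pool.Agent.MP_97bb71_gt
open Finset

set_option linter.unusedSectionVars false

noncomputable section

variable {α Γ X P : Type} [Fintype α] [Fintype X] [Fintype P] [DecidableEq X] [DecidableEq Γ]

def Bad (α : Type) [Fintype α] (c : ℕ) (d1 d2 : Dat Γ) : Prop :=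
  ∀ (X P : Type) [Fintype X] [Fintype P] [DecidableEq X] (x : X → Fin 4 → α) (p : P → Fin 2 → α)
    (ε : X → ℤ), (actv ε).card < c → ¬Cls x p ε d1 d2

variable {x : X → Fin 4 → α} {p : P → Fin 2 → α} {ε : X → ℤ} {d1 d2 : Dat Γ}

theorem card_actv_sum {R : Type} [Fintype R] [DecidableEq R] (εR : R → ℤ) (ε : X → ℤ) :
    (actv (Sum.elim εR ε)).card = (actv εR).card + (actv ε).card := by
  simp only [actv, card_filter, Fintype.sum_sum_type, Sum.elim_inl, Sum.elim_inr]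
  rfl

theorem red2 (h : Cls x p ε d1 d2) (hbad : Bad α (actv ε).card d1 d2) {k : ℕ} (ι : Fin k → X)
    (hι : Function.Injective ι)
    (L : ℕ → α) (n : ℕ) (blk cm src : List ℕ) (s1 s2 : Sd) (kl : List (ℕ × ℤ)) (M : ℕ)
    (cx1 cx2 : Fin k → Fin 4 → ℕ) (ε1 ε2 : Fin k → ℤ) (aU bU aV bV : ℕ)
    (pU1 pU2 pV1 pV2 : List (ℕ × ℕ))
    (hchk : ∀ η, ∀ r < M + 1, chk n blk cm src s1 s2 kl (M + 1) r η = true)
    (hN : chkN n blk cm s1.used pU1 pU2 aU bU = true ∧ chkN n blk cm s1.used pV1 pV2 aV bV = true)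
    (hdec : CmOK n blk cm ∧
      s1.xs = List.ofFn (fun y => (cx1 y 0, cx1 y 1, cx1 y 2, cx1 y 3, cd (ε1 y))) ∧
      s2.xs = List.ofFn (fun y => (cx2 y 0, cx2 y 1, cx2 y 2, cx2 y 3, cd (ε2 y))) ∧
      s1.js = [] ∧ s2.js = [] ∧ s1.used = List.range n ∧ s2.used = List.range n ∧
      (∀ y j, cx1 y j < n) ∧ (∀ y j, cx2 y j < n) ∧ (∀ q ∈ kl, q.1 < n) ∧ (∀ i < n, gt src i ≤ i) ∧
      pU1 = prs cx1 (act ε1 .U) ∧ pU2 = prs cx2 (act ε2 .U) ∧ pV1 = prs cx1 (act ε1 .V) ∧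
      pV2 = prs cx2 (act ε2 .V))
    (hdec2 : (∀ i, ε2 i = 0 ∨ ε2 i = 1 ∨ ε2 i = -1) ∧ (∀ i, ε2 i = -1 → ε1 i = -1) ∧
      (actv ε2).card < (actv ε1).card ∧ (actv ε2).card + bU + bV ≤ (actv ε1).card ∧
      (((∃ i, ε1 i = -1) ∧ ∀ i, ε2 i ≠ -1) ∨
        (aU = bU ∧ aV = bV ∧ (bU : ℤ) - bV = (kl.map fun q => q.2).sum / 2)))
    (hsum : ∀ g : ℕ → ZMod 2, ∑ y, ∑ j, g (cx1 y j) = ∑ i ∈ range n, g i)
    (T : (Fin k → Fin 4 → Bool) → Fin k → Fin 4 → Bool) (hT : ∀ o, Ori o → Ori (T o))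
    (hf : ∀ o (g : ℕ → ℤ), ∑ y, ∑ j, g (cx2 y j) * sg (T o y j) = ∑ y, ∑ j, g (cx1 y j) * sg (o y j))
    (hk : ∀ κ : ℕ → Γ, Cp cx1 (![] : Fin 0 → Fin 2 → ℕ) (fun _ => .S) κ →
      Cp cx2 (![] : Fin 0 → Fin 2 → ℕ) (fun _ => .S) κ ∧ ∀ i < n, κ (gt src i) = κ i)
    (hWW : ∀ o (g g' : ℕ → ℤ), Ori o → Cp cx1 (![] : Fin 0 → Fin 2 → ℕ) (fun _ => .S) g →
      Cp cx1 (![] : Fin 0 → Fin 2 → ℕ) (fun _ => .S) g' →
      (∀ v, ∑ y, ∑ j, (if gt blk (cx1 y j) = v then g (cx1 y j) else 0) * sg (o y j) = 0) →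
      (∀ v, ∑ y, ∑ j, (if gt blk (cx1 y j) = v then g' (cx1 y j) else 0) * sg (o y j) = 0) →
      W cx1 ε1 o g g' - W cx2 ε2 (T o) g g' = (kl.map fun q => q.2 * (g q.1 * g' q.1)).sum)
    (hx : ∀ i j, x (ι i) j = L (cx1 i j)) (hε : ∀ i, ε (ι i) = ε1 i)
    (bk : α → ℕ) (hbk : ∀ y, y ∉ Set.range ι → cp (fun j => bk (x y j)) (act ε .C y))
    (hbk' : ∀ j, bk (p j 0) = bk (p j 1)) (hL : ∀ i < n, bk (L i) = gt blk i) : False := by
  classical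
  obtain ⟨σ, σ1, σ2⟩ := exists_split ι hι
  have h1 := h.reindex σ (Equiv.sumEmpty P (Fin 0))
  have e1 : (fun y => x (σ y)) = Sum.elim (fun y => x y.1) fun y j => L (cx1 y j) := by
    funext y j; cases y <;> simp [σ1, σ2, hx]
  have e2 : (fun y => p (Equiv.sumEmpty P (Fin 0) y)) = Sum.elim p ![] := by
    funext y; rcases y with y | y
    exacts [rfl, y.elim0]
  have e3 : (fun y => ε (σ y)) = Sum.elim (fun y => ε y.1) ε1 := by
    funext y; cases y <;> simp [σ1, σ2, hε]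
  have e4 := card_actv_reindex ε σ
  rw [e3, card_actv_sum] at e4
  rw [e1, e2, e3] at h1
  obtain ⟨U1, U2, V1, V2, a1, a2, a3, a4, b1, b2, b3, b4, key⟩ := red (Γ := Γ) L n blk cm src s1 s2
    kl M cx1 cx2 ε1 ε2 aU bU aV bV pU1 pU2 pV1 pV2 hchk hN hdec hsum bk
    ⟨fun y => hbk y.1 y.2, hbk'⟩ hL T hT hf hk hWW h1.hs
  obtain ⟨c1, c2, c3, c4, c5⟩ := hdec2
  have hm : ∀ y, Sum.elim (fun y : {y // y ∉ Set.range ι} => ε y.1) ε2 y = -1 →
      Sum.elim (fun y : {y // y ∉ Set.range ι} => ε y.1) ε1 y = -1 := by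
    rintro (y | y)
    exacts [id, c2 y]
  have cl : ∀ d : Dat Γ, Cl (Sum.elim (fun y : {y // y ∉ Set.range ι} => x y.1)
      fun y j => L (cx1 y j)) (Sum.elim p ![]) (Sum.elim (fun y => ε y.1) ε1) d →
      Cl (Sum.elim (fun y : {y // y ∉ Set.range ι} => x y.1)
      fun y j => L (cx2 y j)) (Sum.elim p ![]) (Sum.elim (fun y => ε y.1) ε2) d := by
    rintro d ⟨o, oP, κ, k1, k2⟩
    obtain ⟨o', k3, k4⟩ := key d o oP κ k1
    refine ⟨o', oP, κ, k3, fun ⟨y, hy⟩ => ?_⟩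
    rcases c5 with ⟨⟨i, hi⟩, c5⟩ | ⟨c5, c6, c7⟩
    · have := h1.uniq y (.inr i) (hm y hy) hi
      subst this
      exact absurd hy (c5 i)
    · have := k2 ⟨y, hm y hy⟩
      rw [b1, b2, k4] at this
      rw [b3, b4]
      convert this using 2
      omega
  refine hbad _ _ _ _ _ ?_ ⟨?_, fun y z hy hz => h1.uniq y z (hm y hy) (hm z hz), ?_, cl _ h1.c1,
    cl _ h1.c2⟩
  · rw [card_actv_sum]; omega
  · rintro (y | y)
    exacts [h.eps _, c1 y]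
  · have := h1.eul
    rw [card_actv_sum] at this ⊢
    omega

instance (n : ℕ) (blk cm : List ℕ) : Decidable (CmOK n blk cm) :=
  decidable_of_iff (∀ i ∈ List.range n, ∀ v ∈ List.range n, (gt cm i).testBit v = true →
    ∀ j ∈ List.range n, i < j → gt blk j ≠ gt blk v) (by simp only [CmOK, List.mem_range])

theorem cp_of_dd {φ : α → ZMod 2} {m m' : Md} (hm : UV m m') (h : Cp x p (act ε m) φ) {y : X}
    (hy : ε y ≠ 0 → dd x φ y = 0) : cp (fun j => φ (x y j)) (act ε .C y) := by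
  have := h.1 y
  by_cases h0 : ε y = 0 <;> simp only [act, h0, if_true, if_false] at this ⊢
  exacts [this, (cp_C_iff hm).mpr ⟨this, hy h0⟩]

theorem cp_comp {β γ : Type} {v : Fin 4 → β} {m : Md} (h : cp v m) (f : β → γ) :
    cp (fun j => f (v j)) m :=
  (cp_iff _ _).mpr fun q hq => congrArg f ((cp_iff _ _).mp h q hq)

theorem cp_comp₂ {β γ δ : Type} {v : Fin 4 → β} {w : Fin 4 → γ} {m : Md} (h : cp v m)
    (h' : cp w m) (f : β → γ → δ) : cp (fun j => f (v j) (w j)) m :=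
  (cp_iff _ _).mpr fun q hq => by rw [(cp_iff _ _).mp h q hq, (cp_iff _ _).mp h' q hq]

theorem redA [Fintype Γ] (hc : Conn d1) (h : Cls x p ε d1 d2)
    (hbad : Bad α (actv ε).card d1 d2) {e : X} (he : ε e ≠ 0) (hD : Dep x p ε .U {e}) : False := by
  obtain ⟨φ, h1, h2⟩ := h.t1 hc (Or.inl ⟨rfl, rfl⟩) (by simpa using he) hD
  have h3 := h1.1 e
  have h4 := h2 e he
  simp only [act, he, if_false, cp, dd, mem_singleton, if_true] at h3 h4
  have hL : ∀ i < 4, (φ ([x e 0, x e 1, x e 2, x e 3].getD i (x e 0)) + φ (x e 0)).val =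
      gt [0, 1, 1, 0] i := by
    intro i hi
    interval_cases i <;> simp [gt_eq, h3.1, h3.2] <;> revert h4 <;>
      generalize φ (x e 0) = a, φ (x e 2) = b <;> revert a b <;> decide
  have hb : ∀ y, y ∉ Set.range ![e] →
      cp (fun j => (φ (x y j) + φ (x e 0)).val) (act ε .C y) := fun y hy =>
    cp_comp (cp_of_dd (Or.inr ⟨rfl, rfl⟩) h1 fun h0 => by
      rw [h2 y h0, if_neg (by simpa using hy)]) fun u => (u + φ (x e 0)).val
  have hW : ∀ (s : ℤ) (o : Fin 1 → Fin 4 → Bool) (g g' : ℕ → ℤ), Ori o →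
      Cp ![![0, 1, 2, 3]] (![] : Fin 0 → Fin 2 → ℕ) (fun _ => .S) g →
      Cp ![![0, 1, 2, 3]] (![] : Fin 0 → Fin 2 → ℕ) (fun _ => .S) g' →
      (∀ v, ∑ y, ∑ j, (if gt [0, 1, 1, 0] (![![0, 1, 2, 3]] y j) = v then
        g (![![0, 1, 2, 3]] y j) else 0) * sg (o y j) = 0) →
      (∀ v, ∑ y, ∑ j, (if gt [0, 1, 1, 0] (![![0, 1, 2, 3]] y j) = v then
        g' (![![0, 1, 2, 3]] y j) else 0) * sg (o y j) = 0) →
      W ![![0, 1, 2, 3]] ![s] o g g' - W ![![0, 1, 2, 3]] ![0] o g g' =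
        ([(0, -2 * s)].map fun q => q.2 * (g q.1 * g' q.1)).sum := by
    intro s o g g' ho k1 k2 k3 k4
    have k5 := k3 0
    have k6 := k4 0
    simp [Cp, cp] at k1 k2
    simp [Fin.sum_univ_succ, gt_eq, (ho 0).2, sg_not, ← k1.2, ← k2.2] at k5 k6
    simp only [W, sn, Fin.sum_univ_succ]
    simp
    linear_combination -(s * sg (o 0 0) * g 0) * k6 - s * sg (o 0 0) * g' 0 * k5 +
      2 * s * g 0 * g' 0 * sg_sq (o 0 0)
  rcases (h.eps e).resolve_left he with h5 | h5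
  · exact red2 h hbad ![e] (Function.injective_of_subsingleton _)
      (fun i => [x e 0, x e 1, x e 2, x e 3].getD i (x e 0)) 4 [0, 1, 1, 0] [0, 0, 6, 15]
      [0, 1, 0, 1] ⟨[(0, 1, 2, 3, 1)], [], [0, 1, 2, 3]⟩ ⟨[(0, 1, 2, 3, 0)], [], [0, 1, 2, 3]⟩
      [(0, -2 * 1)] 0 ![![0, 1, 2, 3]] ![![0, 1, 2, 3]] ![1] ![0] 0 0 1 1 [(0, 1), (2, 3)]
      [(0, 2), (1, 3)] [(1, 2), (3, 0)] [(0, 2), (1, 3)] (by decide +kernel) (by decide +kernel)
      (by decide +kernel) (by decide) (fun g => by simp [Fin.sum_univ_succ, sum_range_succ]; ring)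
      id (fun _ => id) (fun _ _ => rfl)
      (fun κ hκ => ⟨hκ, fun i hi => by
        simp [Cp, cp] at hκ; interval_cases i <;> simp [gt_eq, hκ]⟩) (hW 1)
      (fun i j => by fin_cases i; fin_cases j <;> rfl) (fun i => by fin_cases i; exact h5)
      (fun a => (φ a + φ (x e 0)).val) hb (fun j => by rw [h1.2 j]) hL
  · exact red2 h hbad ![e] (Function.injective_of_subsingleton _)
      (fun i => [x e 0, x e 1, x e 2, x e 3].getD i (x e 0)) 4 [0, 1, 1, 0] [0, 0, 6, 15]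
      [0, 1, 0, 1] ⟨[(0, 1, 2, 3, 2)], [], [0, 1, 2, 3]⟩ ⟨[(0, 1, 2, 3, 0)], [], [0, 1, 2, 3]⟩
      [(0, -2 * -1)] 0 ![![0, 1, 2, 3]] ![![0, 1, 2, 3]] ![-1] ![0] 0 0 1 1 [(0, 1), (2, 3)]
      [(0, 2), (1, 3)] [(1, 2), (3, 0)] [(0, 2), (1, 3)] (by decide +kernel) (by decide +kernel)
      (by decide +kernel) (by decide) (fun g => by simp [Fin.sum_univ_succ, sum_range_succ]; ring)
      id (fun _ => id) (fun _ _ => rfl)
      (fun κ hκ => ⟨hκ, fun i hi => by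
        simp [Cp, cp] at hκ; interval_cases i <;> simp [gt_eq, hκ]⟩) (hW (-1))
      (fun i j => by fin_cases i; fin_cases j <;> rfl) (fun i => by fin_cases i; exact h5)
      (fun a => (φ a + φ (x e 0)).val) hb (fun j => by rw [h1.2 j]) hL

def kn (u v : ZMod 2) : Fin 4 := if u = 1 then (if v = 1 then 0 else 3) else if v = 1 then 1 else 2

theorem norm_kl {φ ψ : α → ZMod 2} (h1 : Cp x p (act ε .V) φ) (h2 : Cp x p (act ε .U) ψ) {y : X}
    (hy : ε y ≠ 0) :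
    (dd x φ y = 1 → φ (x y (pm (kn (φ (x y 0)) (ψ (x y 0))) false 0)) = 1) ∧
    (dd x ψ y = 1 → ψ (x y (pm (kn (φ (x y 0)) (ψ (x y 0))) false 0)) = 1) := by
  have k1 := h1.1 y
  have k2 := h2.1 y
  simp only [act, hy, if_false, cp] at k1 k2
  have z : ∀ u : ZMod 2, u = 0 ∨ u = 1 := by decide
  rcases z (φ (x y 0)) with h3 | h3 <;> rcases z (ψ (x y 0)) with h4 | h4 <;>
    simp [kn, pm, dd, h3, h4, k1.1, k1.2, ← k2.1, ← k2.2]

theorem Cls.norm (h : Cls x p ε d1 d2) {φ ψ : α → ZMod 2} (h1 : Cp x p (act ε .V) φ)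
    (h2 : Cp x p (act ε .U) ψ) : ∃ x' : X → Fin 4 → α, Cls x' p ε d1 d2 ∧
      Cp x' p (act ε .V) φ ∧ Cp x' p (act ε .U) ψ ∧ (∀ y, dd x' φ y = dd x φ y) ∧
      (∀ y, dd x' ψ y = dd x ψ y) ∧ (∀ y c, cp (fun j => φ (x y j)) .C → φ (x y 0) = c →
        φ (x' y 0) = c) ∧ (∀ y c, cp (fun j => ψ (x y j)) .C → ψ (x y 0) = c → ψ (x' y 0) = c) ∧
      ∀ y, ε y ≠ 0 → (dd x φ y = 1 → φ (x' y 0) = 1) ∧ (dd x ψ y = 1 → ψ (x' y 0) = 1) := by
  have e : ∀ (g : α → ZMod 2) y c (j : Fin 4), cp (fun j => g (x y j)) .C → g (x y 0) = c →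
      g (x y j) = c := by
    rintro g y c j ⟨k1, k2, k3⟩ rfl
    fin_cases j
    exacts [rfl, k1.symm, (k1.trans k2).symm, (k1.trans (k2.trans k3)).symm]
  exact ⟨_, h.klein fun y => kn (φ (x y 0)) (ψ (x y 0)), (Cp_act_pm _ false .V φ).mpr h1,
    (Cp_act_pm _ false .U ψ).mpr h2, dd_pm _ false h1, dd_pm _ false h2,
    fun y c => e φ y c _, fun y c => e ψ y c _, fun y hy => norm_kl h1 h2 hy⟩

theorem redC [Fintype Γ] (hc : Conn d1) (h : Cls x p ε d1 d2)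
    (hbad : Bad α (actv ε).card d1 d2) {d e : X} (hd : ε d = -1) (he : ε e ≠ 0) (hde : e ≠ d)
    (hD : Dep x p ε .U {d, e}) : False := by
  have hd' : ε d ≠ 0 := by simp [hd]
  obtain ⟨φ, h1, h2⟩ := h.t1 hc (Or.inl ⟨rfl, rfl⟩) (by simp [hd', he]) hD
  obtain ⟨x, h, h1, -, k2, -, -, -, k3⟩ := h.norm h1 (ψ := 0) (Cp_iff.mpr fun _ _ _ => rfl)
  have a1 := (k3 d hd').1 (by simp [h2 d hd'])
  have a2 := (k3 e he).1 (by simp [h2 e he])
  simp only [← k2] at h2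
  have a3 := h1.1 d
  have a4 := h1.1 e
  have a5 := h2 d hd'
  have a6 := h2 e he
  simp [act, he, hd', cp, dd, a1, a2] at a3 a4 a5 a6
  have he1 : ε e = 1 := ((h.eps e).resolve_left he).resolve_right fun h' => hde (h.uniq _ _ h' hd)
  refine red2 h hbad ![d, e] (by
      intro i j; fin_cases i <;> fin_cases j <;> simp [hde, hde.symm])
    (fun i => [x d 0, x d 1, x d 2, x d 3, x e 0, x e 1, x e 2, x e 3].getD i (x e 0)) 8
    [1, 0, 0, 1, 1, 0, 0, 1] [0, 0, 0, 0, 0, 0, 102, 255] [0, 1, 0, 1, 4, 5, 4, 5]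
    ⟨[(0, 1, 2, 3, 2), (4, 5, 6, 7, 1)], [], [0, 1, 2, 3, 4, 5, 6, 7]⟩
    ⟨[(0, 1, 2, 3, 0), (4, 5, 6, 7, 0)], [], [0, 1, 2, 3, 4, 5, 6, 7]⟩
    [(0, 1), (1, 1), (4, -1), (5, -1)] 0 ![![0, 1, 2, 3], ![4, 5, 6, 7]]
    ![![0, 1, 2, 3], ![4, 5, 6, 7]] ![-1, 1] ![0, 0] 0 0 0 2 [(0, 1), (2, 3), (4, 5), (6, 7)]
    [(0, 2), (1, 3), (4, 6), (5, 7)] [(1, 2), (3, 0), (5, 6), (7, 4)]
    [(0, 2), (1, 3), (4, 6), (5, 7)] (by decide +kernel) (by decide +kernel)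
    (by decide +kernel) (by decide) (fun g => by simp [Fin.sum_univ_succ, sum_range_succ]; ring)
    id (fun _ => id) (fun _ _ => rfl)
    (fun κ hκ => ⟨hκ, fun i hi => by
      simp [Cp, cp] at hκ; interval_cases i <;> simp [gt_eq, hκ]⟩) ?_
    (fun i j => by fin_cases i <;> fin_cases j <;> rfl)
    (fun i => by fin_cases i; exacts [hd, he1]) (fun a => (φ a).val) (fun y hy => ?_)
    (fun j => by rw [h1.2 j]) fun i hi => ?_
  · intro o g g' ho k1 k2 k3 k4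
    have k5 := k3 1
    have k6 := k4 1
    simp [Cp, cp] at k1 k2
    simp [Fin.sum_univ_succ, gt_eq, (ho _).2, sg_not, ← k1.1.2, ← k2.1.2, ← k1.2.2,
      ← k2.2.2] at k5 k6
    simp only [W, sn, Fin.sum_univ_succ]
    simp
    linear_combination (-(g 0 * sg (o 0 0)) + g 1 * sg (o 0 1)) * k6 +
      (g' 4 * sg (o 1 0) - g' 5 * sg (o 1 1)) * k5 + g 0 * g' 0 * sg_sq (o 0 0) +
      g 1 * g' 1 * sg_sq (o 0 1) - g 4 * g' 4 * sg_sq (o 1 0) - g 5 * g' 5 * sg_sq (o 1 1)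
  · refine cp_comp (cp_of_dd (Or.inr ⟨rfl, rfl⟩) h1 fun h0 => ?_) fun u => u.val
    rw [h2 y h0, if_neg]
    simpa [not_or, eq_comm, and_comm] using hy
  · interval_cases i <;> simp [gt_eq, a1, a2, a3, a4, a5, a6] <;> rfl

theorem redD0 [Fintype Γ] (hc : Conn d1) (h : Cls x p ε d1 d2)
    (hbad : Bad α (actv ε).card d1 d2) {d e g f : X} (hd : ε d = -1) (he : ε e ≠ 0)
    (hg : ε g ≠ 0) (hf : ε f ≠ 0) (n1 : e ≠ d) (n2 : g ≠ d) (n3 : f ≠ d) (n4 : g ≠ e) (n5 : f ≠ e)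
    (n6 : f ≠ g) (hD : Dep x p ε .U {d, e, g}) (hD' : Dep x p ε .V {d, e, f}) : False := by
  have hd' : ε d ≠ 0 := by simp [hd]
  obtain ⟨φ0, h1, h2⟩ := h.t1 hc (Or.inl ⟨rfl, rfl⟩) (by simp [hd', he, hg]) hD
  obtain ⟨ψ0, h3, h4⟩ := h.t1 hc (Or.inr ⟨rfl, rfl⟩) (by simp [hd', he, hf]) hD'
  have c2 : ∀ u : ZMod 2, u + u = 0 := CharTwo.add_self_eq_zero
  have e1 : ∀ (φ : α → ZMod 2) c y, dd x (fun a => φ a + c) y = dd x φ y := by
    intro φ c y; simp only [dd]; linear_combination c2 c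
  replace h1 := h1.comp fun u => u + φ0 (x f 0)
  replace h3 := h3.comp fun u => u + ψ0 (x g 0)
  simp only [← e1 φ0 (φ0 (x f 0))] at h2
  simp only [← e1 ψ0 (ψ0 (x g 0))] at h4
  have z1 : (fun u => φ0 u + φ0 (x f 0)) (x f 0) = 0 := c2 _
  have z2 : (fun u => ψ0 u + ψ0 (x g 0)) (x g 0) = 0 := c2 _
  generalize (fun u => φ0 u + φ0 (x f 0)) = φ at h1 h2 z1
  generalize (fun u => ψ0 u + ψ0 (x g 0)) = ψ at h3 h4 z2
  have z3 := cp_of_dd (Or.inr ⟨rfl, rfl⟩) h1 (y := f) fun h0 => by simp [h2 f h0, n3, n5, n6]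
  have z4 := cp_of_dd (Or.inl ⟨rfl, rfl⟩) h3 (y := g) fun h0 => by
    simp [h4 g h0, n2, n4, n6.symm]
  simp only [act, hf, hg, if_false] at z3 z4
  obtain ⟨x, h, h1, h3, k2, k2', k4, k5, k3⟩ := h.norm h1 h3
  have a1 := (k3 d hd').1 (by simp [h2 d hd'])
  have a2 := (k3 e he).1 (by simp [h2 e he])
  have a3 := (k3 g hg).1 (by simp [h2 g hg])
  have a4 := k4 f 0 z3 z1
  have b1 := (k3 d hd').2 (by simp [h4 d hd'])
  have b2 := (k3 e he).2 (by simp [h4 e he])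
  have b3 := k5 g 0 z4 z2
  have b4 := (k3 f hf).2 (by simp [h4 f hf])
  simp only [← k2] at h2
  simp only [← k2'] at h4
  have u1 := And.intro (And.intro (h1.1 d) (h2 d hd')) (And.intro (h3.1 d) (h4 d hd'))
  have u2 := And.intro (And.intro (h1.1 e) (h2 e he)) (And.intro (h3.1 e) (h4 e he))
  have u3 := And.intro (And.intro (h1.1 g) (h2 g hg)) (And.intro (h3.1 g) (h4 g hg))
  have u4 := And.intro (And.intro (h1.1 f) (h2 f hf)) (And.intro (h3.1 f) (h4 f hf))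
  simp [act, he, hd', hg, hf, cp, dd, a1, a2, a3, a4, b1, b2, b3, b4, n1, n2, n3, n4, n5, n6,
    n6.symm] at u1 u2 u3 u4
  have one : ∀ y, ε y ≠ 0 → y ≠ d → ε y = 1 := fun y h1 h2 =>
    ((h.eps y).resolve_left h1).resolve_right fun h' => h2 (h.uniq _ _ h' hd)
  refine red2 h hbad ![d, e, g, f] (by
      intro i j; fin_cases i <;> fin_cases j <;>
        simp [n1, n2, n3, n4, n5, n6, n1.symm, n2.symm, n3.symm, n4.symm, n5.symm, n6.symm])
    (fun i => [x d 0, x d 1, x d 2, x d 3, x e 0, x e 1, x e 2, x e 3, x g 0, x g 1, x g 2, x g 3,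
      x f 0, x f 1, x f 2, x f 3].getD i (x e 0)) 16 blkD cmD srcD sdD1 sdD2 klD 1
    ![![0, 1, 2, 3], ![4, 5, 6, 7], ![8, 9, 10, 11], ![12, 13, 14, 15]]
    ![![0, 5, 2, 7], ![4, 1, 6, 3], ![8, 9, 10, 11], ![12, 13, 14, 15]] ![-1, 1, 1, 1]
    ![-1, 1, 0, 0] 1 1 1 1 _ _ _ _ chkD chkND
    (by decide +kernel) (by decide) (fun g => by simp [Fin.sum_univ_succ, sum_range_succ]; ring)
    (fun o => ![![o 0 0, o 1 1, o 0 2, o 1 3], ![o 1 0, o 0 1, o 1 2, o 0 3], o 2, o 3])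
    (fun o ho => by simp [Ori, Fin.forall_fin_succ, ho _])
    (fun _ _ => by simp [Fin.sum_univ_succ]; ring)
    (fun κ hκ => by
      simp [Cp, cp, Fin.forall_fin_succ] at hκ ⊢
      refine ⟨by simp [hκ], fun i hi => ?_⟩
      interval_cases i <;> simp [gt_eq, srcD, hκ]) ?_
    (fun i j => by fin_cases i <;> fin_cases j <;> rfl)
    (fun i => by fin_cases i; exacts [hd, one e he n1, one g hg n2, one f hf n3])
    (fun a => 2 * (φ a).val + (ψ a).val) (fun y hy => ?_)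
    (fun j => by rw [h1.2 j, h3.2 j]) fun i hi => ?_
  · intro o g g' ho k1 k2 k3 k4
    have k5 := And.intro (k3 1) (And.intro (k3 2) (k3 3))
    have k6 := And.intro (k4 1) (And.intro (k4 2) (k4 3))
    simp [Cp, cp, Fin.forall_fin_succ] at k1 k2
    simp [Fin.sum_univ_succ, gt_eq, blkD, (ho _).2, sg_not, ← k1.1.2, ← k2.1.2, ← k1.2.1.2,
      ← k2.2.1.2, ← k1.2.2.1.2, ← k2.2.2.1.2] at k5 k6
    simp only [W, sn, Fin.sum_univ_succ]
    simp [klD]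
    linear_combination (g' 1 * sg (o 0 1) - g' 5 * sg (o 1 1)) * k5.2.2 +
      (g 1 * sg (o 0 1) - g 5 * sg (o 1 1)) * k6.2.2 -
      (g 12 * sg (o 3 0) + g 13 * sg (o 3 1)) * (k6.1 + k6.2.1) +
      (g' 8 * sg (o 2 0) - g' 9 * sg (o 2 1)) * (k5.1 + k5.2.1) +
      g 12 * g' 12 * sg_sq (o 3 0) + g 13 * g' 13 * sg_sq (o 3 1) -
      g 8 * g' 8 * sg_sq (o 2 0) - g 9 * g' 9 * sg_sq (o 2 1)
  · simp only [Matrix.range_cons, Matrix.range_empty, Set.union_empty, Set.mem_union,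
      Set.mem_singleton_iff, not_or] at hy
    exact cp_comp₂ (cp_of_dd (Or.inr ⟨rfl, rfl⟩) h1 fun h0 => by simp [h2 y h0, hy])
      (cp_of_dd (Or.inl ⟨rfl, rfl⟩) h3 fun h0 => by simp [h4 y h0, hy])
      fun u v => 2 * u.val + v.val
  · interval_cases i <;> simp [gt_eq, blkD, a1, a2, a3, a4, b1, b2, b3, b4, u1.1, u2.1, u3.1, u4.1,
      ← u1.2.1.1, ← u1.2.1.2, u1.2.2, ← u2.2.1.1, ← u2.2.1.2, u2.2.2, ← u3.2.1.1, ← u3.2.1.2,
      u3.2.2, ← u4.2.1.1, ← u4.2.1.2, u4.2.2] <;> rfl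

theorem redD [Fintype Γ] (hc : Conn d1) (h : Cls x p ε d1 d2)
    (hbad : Bad α (actv ε).card d1 d2) {d e g e' g' : X} (hd : ε d = -1) (he : ε e ≠ 0)
    (hg : ε g ≠ 0) (he' : ε e' ≠ 0) (hg' : ε g' ≠ 0) (n1 : e ≠ d) (n2 : g ≠ d) (n3 : e ≠ g)
    (n4 : e' ≠ d) (n5 : g' ≠ d) (n6 : e' ≠ g') (hD : Dep x p ε .U {d, e, g})
    (hD' : Dep x p ε .V {d, e', g'}) : False := by
  have hd' : ε d ≠ 0 := by simp [hd]
  obtain ⟨ψ, h3, h4⟩ := h.t1 hc (Or.inr ⟨rfl, rfl⟩) (by simp [hd', he', hg']) hD'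
  have h5 := hD ψ h3
  rw [sum_insert (by simp [n1.symm, n2.symm]), sum_pair n3, h4 d hd', h4 e he, h4 g hg] at h5
  have s1 : ({d, e, g} : Finset X) = {d, g, e} := by rw [pair_comm e g]
  have s2 : ({d, e', g'} : Finset X) = {d, g', e'} := by rw [pair_comm e' g']
  by_cases a : e = e' <;> by_cases b : e = g' <;> by_cases c : g = e' <;> by_cases c' : g = g' <;>
    simp [n1, n2, a, b, c, c', n4, n5] at h5 <;> try (exact absurd h5 (by decide))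
  all_goals first
    | exact n6 (a.symm.trans b)
    | exact n3 (a.trans c.symm)
    | exact n3 (b.trans c'.symm)
    | exact n6 (c.symm.trans c')
    | exact redD0 hc h hbad hd he hg hg' n1 n2 n5 n3.symm (Ne.symm b) (Ne.symm c') hD (a ▸ hD')
    | exact redD0 hc h hbad hd he hg he' n1 n2 n4 n3.symm (Ne.symm a) (Ne.symm c) hD
        (b ▸ s2 ▸ hD')
    | exact redD0 hc h hbad hd hg he hg' n2 n1 n5 n3 (Ne.symm c') (Ne.symm b) (s1 ▸ hD) (c ▸ hD')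
    | exact redD0 hc h hbad hd hg he he' n2 n1 n4 n3 (Ne.symm c) (Ne.symm a) (s1 ▸ hD)
        (c' ▸ s2 ▸ hD')

end

end Pool.Agent.MP_97bb71_gt

end

section

/-! No abstract almost alternating diagram carries the invariants of the necklace link. -/

namespace Pool.Agent.MP_97bb71_gt
open Finset

set_option linter.unusedSectionVars false

noncomputable section

variable {α X P : Type} [Fintype α] [Fintype X] [Fintype P] [DecidableEq X]
  {x : X → Fin 4 → α} {p : P → Fin 2 → α} {ε : X → ℤ} {d : Dat G} {o : X → Fin 4 → Bool}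
  {oP : P → Bool} {κ : α → G} {i : Fin 12} {φ : G → α → ZMod 2} {k : ZMod 2} {S : Finset G}

def vv (κ : α → G) (φ : G → α → ZMod 2) (S : Finset G) (a : α) (W : G) : ZMod 2 :=
  if W = κ a then (if κ a ∈ S then ∑ V ∈ S.erase (κ a), φ V a else 1)
  else if κ a ∈ S ∧ W ∈ S then φ W a else 0

theorem vv_congr {a b : α} (h : κ a = κ b) (h1 : κ a ∈ S → ∀ W ∈ S, W ≠ κ a → φ W a = φ W b) :
    vv κ φ S a = vv κ φ S b := by
  funext W
  simp only [vv, ← h]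
  split_ifs with h2 h3 h3
  · exact sum_congr rfl fun V hV => h1 h3 V (mem_of_mem_erase hV) (ne_of_mem_erase hV)
  · rfl
  · exact h1 h3.1 W h3.2 h2
  · rfl

def pr (Y Z : G) (c : ZMod 2) (W : G) : ZMod 2 := if W = Y ∨ W = Z then c else 0

theorem vv_pair {a : α} {Y Z : G} (ha : κ a = Y) (hY : Y ∈ S) (hZ : Z ∈ S) (hne : Y ≠ Z)
    (h : ∀ W ∈ S, Y ≠ W → Z ≠ W → φ W a = 0) : vv κ φ S a = pr Y Z (φ Z a) := by
  funext W
  simp only [vv, pr, ha, hY, if_true, true_and]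
  by_cases h1 : W = Y
  · simp only [h1, if_true, true_or]
    exact sum_eq_single_of_mem _ (by simp [hZ, hne.symm]) fun V hV h2 =>
      h V (mem_of_mem_erase hV) (ne_of_mem_erase hV).symm h2.symm
  by_cases h2 : W = Z
  · simp [h2, hZ, hne.symm]
  · simp only [h1, h2, if_false, or_self]
    split_ifs with h3
    exacts [h W h3 (Ne.symm h1) (Ne.symm h2), rfl]

theorem Ctx.vmix (h : Ctx x p ε d o oP κ i) (hφ : Phi x p ε κ i φ k) (hS : ∀ Y ∈ S, TT i Y)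
    {y : X} (h0 : ε y ≠ 0) (h1 : κ (x y 0) ∈ S) (h2 : κ (x y 1) ∈ S)
    (h3 : κ (x y 0) ≠ κ (x y 1)) : ∃ t, vv κ φ S (x y 0) = pr (κ (x y 0)) (κ (x y 1)) t ∧
      vv κ φ S (x y 1) = pr (κ (x y 0)) (κ (x y 1)) (t + k + 1) ∧
      vv κ φ S (x y 2) = pr (κ (x y 0)) (κ (x y 1)) (t + 1) ∧
      vv κ φ S (x y 3) = pr (κ (x y 0)) (κ (x y 1)) (t + k) := by
  have hT := (g_T i).2.2.2.2.1
  have h4 := h.clA h0 (hT _ (hS _ h1)).1 (.inl ⟨rfl, rfl⟩) h3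
  have h5 := fun W hW a b => hφ.zero h0 (W := W) (hT _ (hS _ hW)).1 a b h4
  have h6 := hφ.mix h0 (hS _ h1) h4
  have k1 := (hφ.sd (κ (x y 0))).V h0
  have k2 := (hφ.sd (κ (x y 1))).V h0
  simp only [ch, if_true, h3, h3.symm, if_false, add_zero, zero_add] at k1 k2
  obtain ⟨k3, k4⟩ := h.pk.kap.1 y
  have e : ∀ c, pr (κ (x y 1)) (κ (x y 0)) c = pr (κ (x y 0)) (κ (x y 1)) c := fun c => by
    funext W; simp only [pr, or_comm]
  have e2 : φ (κ (x y 0)) (x y 0) = φ (κ (x y 1)) (x y 0) + k := by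
    linear_combination h6 - CharTwo.add_self_eq_zero (φ (κ (x y 1)) (x y 0))
  refine ⟨_, vv_pair rfl h1 h2 h3 fun W hW a b => h5 W hW a b 0, ?_, ?_, ?_⟩
  · rw [vv_pair rfl h2 h1 h3.symm fun W hW a b => h5 W hW b a 1, e, k1.1, e2]
  · rw [vv_pair k3.symm h1 h2 h3 fun W hW a b => h5 W hW a b 2, k2.2.1]
  · rw [vv_pair k4.symm h2 h1 h3.symm fun W hW a b => h5 W hW b a 3, e, k1.2.2, e2]

theorem Ctx.vcp (h : Ctx x p ε d o oP κ i) (hφ : Phi x p ε κ i φ k) (hS : ∀ Y ∈ S, TT i Y)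
    {m : Md} (hm : k = 0 ∧ m = .V ∨ k = 1 ∧ m = .U) :
    Cp x p (act (eS x ε (inS κ S)) m) (vv κ φ S) := by
  have h1 := (h.sub fun Y hY => ((g_T i).2.2.2.2.1 _ (hS Y hY)).1).2.1
  refine ⟨fun y => ?_, fun j => vv_congr (h.pk.kap.2 j) fun _ W _ _ => (hφ.sd W).1.2 j⟩
  obtain ⟨k3, k4⟩ := h.pk.kap.1 y
  simp only at k3 k4
  by_cases h2 : eS x ε (inS κ S) y = 0
  · simp only [act, h2, if_true, cp]
    have h3 := mt (h1 y).mpr (not_not.mpr h2)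
    by_cases h0 : ε y = 0
    · exact ⟨vv_congr k3 fun _ W _ _ => ((hφ.sd W).S h0).1,
        vv_congr k4 fun _ W _ _ => ((hφ.sd W).S h0).2⟩
    refine ⟨vv_congr k3 fun a W b c => (hφ.C h0 c.symm ?_ 2).symm, vv_congr k4 fun a W b c => ?_⟩
    · exact fun h4 => h3 ⟨h0, a, h4 ▸ b⟩
    · have h4 : κ (x y 0) ≠ W := fun h4 => h3 ⟨h0, h4 ▸ b, a⟩
      rw [hφ.C h0 h4 c.symm, hφ.C h0 h4 c.symm 3]
  simp only [act, h2, if_false]
  obtain ⟨h0, h3, h4⟩ := (h1 y).mp h2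
  by_cases h5 : κ (x y 0) = κ (x y 1)
  · have e : ∀ j, κ (x y j) = κ (x y 0) → vv κ φ S (x y j) = vv κ φ S (x y 0) := fun j hj =>
      vv_congr hj fun _ W _ c => hφ.C h0 (hj ▸ c.symm) (h5 ▸ hj ▸ c.symm) j
    refine cp_of_C ?_ _
    simp only [cp, e 1 h5.symm, e 2 k3.symm, e 3 (k4.symm.trans h5.symm), and_self]
  obtain ⟨t, e0, e1, e2, e3⟩ := h.vmix hφ hS h0 h3 h4 h5
  rcases hm with ⟨rfl, rfl⟩ | ⟨rfl, rfl⟩ <;> simp only [cp, e0, e1, e2, e3, add_zero, and_self]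
  rw [add_assoc, CharTwo.add_self_eq_zero, add_zero]; exact ⟨rfl, trivial⟩

theorem Ctx.big (h : Ctx x p ε d o oP κ i) (hφ : Phi x p ε κ i φ k) {j : Fin 12}
    (hS : ∀ Y ∈ leg j, TT i Y) {μ : X → Md} (hc : Cp x p μ (vv κ φ (leg j))) :
    61 ≤ N x p univ μ := by
  classical
  obtain ⟨-, -, g1, -, -, g2, -⟩ := g_T j
  have key : ∀ Y ∈ leg j, ∀ c, ∃ a, vv κ φ (leg j) a = pr Y (nxt j Y) c := by
    intro Y hY c
    obtain ⟨-, -, g3, g4, -⟩ := g2 Y hY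
    obtain ⟨y, h0, h1⟩ := h.pk.crs h.gd.1 g4
    have e : ∀ c, pr (κ (x y 0)) (κ (x y 1)) c = pr Y (nxt j Y) c := fun c => by
      funext W; rcases h1 with h1 | h1 <;> simp only [pr, h1, or_comm]
    obtain ⟨t, e0, -, e2, -⟩ := h.vmix hφ hS h0 (by rcases h1 with h1 | h1 <;> simpa [h1])
      (by rcases h1 with h1 | h1 <;> simpa [h1])
      (by rcases h1 with h1 | h1 <;> simp [h1, g4.ne, g4.ne.symm])
    have : t = c ∨ t + 1 = c := by clear e0 e2; revert t c; decide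
    rcases this with rfl | rfl
    exacts [⟨_, e0.trans (e _)⟩, ⟨_, e2.trans (e _)⟩]
  let tv : Option G → G → ZMod 2 := fun v => v.elim 0 fun Y =>
    pr Y (if Y ∈ leg j then nxt j Y else Y) 1
  have h1 : Function.Injective tv := by
    have e : ∀ Y, tv (some Y) Y = 1 := fun Y => by simp [tv, pr]
    rintro (_ | Y) (_ | Z) h1
    · rfl
    · exact absurd ((congrFun h1 Z).trans (e Z)) (by simp [tv])
    · exact absurd ((congrFun h1 Y).symm.trans (e Y)) (by simp [tv])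
    by_contra h2
    have h3 := (congrFun h1 Z).trans (e Z)
    have h4 := (congrFun h1 Y).symm.trans (e Y)
    have h5 : Y ≠ Z := fun h => h2 (by rw [h])
    simp only [tv, pr, Option.elim, h5, h5.symm, false_or, ite_eq_left_iff, zero_ne_one,
      imp_false, not_not] at h3 h4
    split_ifs at h3 h4 with a b b
    · exact (g2 Y a).2.2.2.2 (by rw [← h3, ← h4])
    all_goals first | exact h5 h4 | exact h5 h3.symm
  have h2 : univ.image tv ⊆ univ.image (vv κ φ (leg j)) := by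
    intro v hv
    obtain ⟨_ | Y, -, rfl⟩ := mem_image.mp hv
    · obtain ⟨a, ha⟩ := key _ g1 0
      exact mem_image.mpr ⟨a, mem_univ _, ha.trans (by funext W; simp [pr, tv])⟩
    by_cases hY : Y ∈ leg j
    · obtain ⟨a, ha⟩ := key _ hY 1
      exact mem_image.mpr ⟨a, mem_univ _, ha.trans (by simp [tv, hY])⟩
    · obtain ⟨a, ha⟩ := h.pk.sur h.gd.1 Y
      exact mem_image.mpr ⟨a, mem_univ _, by funext W; simp [tv, pr, vv, ha, hY]⟩
  have h3 := (card_le_card h2).trans (card_le_ncl _ (Cp_iff.mp hc))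
  rw [card_image_of_injective _ h1] at h3
  simpa [N] using h3

theorem Ctx.false (h : Ctx x p ε d o oP κ i) : False := by
  obtain ⟨φ, k, hφ⟩ := h.phi
  obtain ⟨j, l, h1, ⟨s, hs, h2⟩, h3⟩ := h.gd.bl i
  have h4 : (∀ Y ∈ leg j, TT i Y) ∧ ∀ Y ∈ leg l, TT i Y := by
    have a := fun Y hY => ((g_T i).2.2.2.2.2.1 Y hY).1
    have b := fun Y hY => ((g_T (i + 1)).2.2.2.2.2.1 Y hY).2.1
    rw [add_sub_cancel_right] at b
    rcases h1 with ⟨rfl, rfl⟩ | ⟨rfl, rfl⟩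
    exacts [⟨a, b⟩, ⟨b, a⟩]
  have hT := (g_T i).2.2.2.2.1
  rcases z01 k with rfl | rfl
  · have k1 := h.vcp hφ h4.2 (.inl ⟨rfl, rfl⟩)
    have k2 := h.big hφ h4.2 k1
    obtain ⟨e1, e2, e3, e4⟩ := h.sub fun Y hY => (hT _ (h4.2 Y hY)).1
    have k3 : ∀ y, eS x ε (inS κ (leg l)) y ≠ 0 → κ (x y 0) ≠ κ (x y 1) := fun y hy h5 =>
      absurd (h.self hφ ((e2 y).mp hy).1 (h4.2 _ ((e2 y).mp hy).2.1) h5) (by decide)
    have k4 := (Br_ex h.hs _ e1 fun y hy h5 => by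
      obtain ⟨a, b, c⟩ := (e2 y).mp hy
      obtain ⟨t, e0, -, e2, -⟩ := h.vmix hφ h4.2 a b c (k3 y hy)
      have := congrFun (e0.symm.trans ((k1.eq h5).trans e2)) (κ (x y 0))
      simp [pr] at this).le (e4 ▸ (Ex.eight _).low.mul h3)
    have k5 : -2 * ∑ y, eS x ε (inS κ (leg l)) y = -24 := by
      rw [← (g_T l).2.2.2.2.2.2, ← h.pk.mix h.gd.1, mul_sum]
      refine sum_congr rfl fun y _ => ?_
      rcases e1 y with h5 | h5
      · have := mt (e2 y).mpr (not_not.mpr h5)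
        rw [h5]
        split_ifs with h6
        · rw [not_not.mp fun h7 => this ⟨h7, h6.1, h6.2.1⟩]; simp
        · simp
      · obtain ⟨a, b, c⟩ := (e2 y).mp (by simp [h5])
        rw [h5, if_pos ⟨b, c, k3 y (by simp [h5])⟩, h.neg y a (.inl (hT _ (h4.2 _ b)).1)]; rfl
    rw [h.gd.wl] at k4
    omega
  · have k2 := h.big hφ h4.1 (h.vcp hφ h4.1 (.inr ⟨rfl, rfl⟩))
    have k3 := h.subL (fun Y hY => (hT _ (h4.1 Y hY)).1) h2
    have k4 := h.pk.NC h.gd.1 (g_T j).2.1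
    have k5 := GI h.hs (actv (eS x ε (inS κ (leg j)))) fun _ => .S
    simp only [← act_eq] at k5
    rw [h.gd.wl] at k3
    rw [(g_T j).2.2.2.1] at k4
    omega

theorem caseF {d2 : Dat G} (h : Cls x p ε d d2) (hd : Good d) {u : X} (hu : ε u = -1)
    (h0 : ∀ y, ε y ≠ 0 → ¬Dep x p ε .U {y})
    (h1 : ∀ y, ε y ≠ 0 → ¬Dep x p ε .V {y}) (h2 : ∀ y, ε y ≠ 0 → y ≠ u → ¬Dep x p ε .V {u, y})
    (h3 : ∀ y z, ε y ≠ 0 → ε z ≠ 0 → y ≠ u → z ≠ u → y ≠ z → ¬Dep x p ε .V {u, y, z}) :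
    False := by
  obtain ⟨o, oP, κ, z, k1, k2⟩ := one_pos h hd hu h1 h2 h3
  obtain ⟨i, a, b, c⟩ := g_win (κ (x u 0)) (κ (x z 0)) (κ (x z 1))
  refine Ctx.false ⟨k1, hd, h.eul' hd.conn, fun y h4 h5 => ?_, fun y h4 h5 => k2 y ?_ h4, h0⟩
    (i := i)
  · exact ((h.eps y).resolve_left h4).resolve_right fun h6 => a (h.uniq _ _ h6 hu ▸ h5)
  · rintro rfl; tauto

theorem bad (α : Type) [Fintype α] (c : ℕ) :
    ∀ d1 d2 : Dat G, Good d1 → Good d2.mir → Bad α c d1 d2 := by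
  induction c with
  | zero => intro _ _ _ _ X P _ _ _ x p ε h; omega
  | succ c ih =>
    intro d1 d2 g1 g2 X P _ _ _ x p ε hc h
    have b1 : Bad α (actv ε).card d1 d2 := fun X P _ _ _ x p ε h1 =>
      ih d1 d2 g1 g2 X P x p ε (by omega)
    have b2 : Bad α (actv ε).card d2.mir d1.mir := fun X P _ _ _ x p ε h1 =>
      ih _ _ g2 (by rwa [Dat.mir_mir]) X P x p ε (by omega)
    have m1 := fun A => Dep_pm (x := x) (p := p) (ε := ε) (fun _ => 0) true .V A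
    have m2 := fun A => Dep_pm (x := x) (p := p) (ε := ε) (fun _ => 0) true .U A
    have l1 : ∀ y, ε y ≠ 0 → ¬Dep x p ε .U {y} := fun y hy => redA g1.conn h b1 hy
    have l2 : ∀ y, ε y ≠ 0 → ¬Dep x p ε .V {y} := fun y hy hD =>
      redA g2.conn h.mir b2 hy ((m1 _).mpr hD)
    by_cases h1 : ∀ y, ε y ≠ -1
    · exact caseB h g1 h1 l1 l2
    push Not at h1
    obtain ⟨u, hu⟩ := h1
    by_cases h2 : ∀ y z, ε y ≠ 0 → ε z ≠ 0 → y ≠ u → z ≠ u → y ≠ z → ¬Dep x p ε .V {u, y, z}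
    · exact caseF h g1 hu l1 l2 (fun y a b hD => redC g2.conn h.mir b2 hu a b ((m1 _).mpr hD)) h2
    refine caseF h.mir g2 hu (fun y a hD => l2 y a ((m1 _).mp hD))
      (fun y a hD => l1 y a ((m2 _).mp hD))
      (fun y a b hD => redC g1.conn h b1 hu a b ((m2 _).mp hD)) fun y z a b c e f hD => ?_
    exact h2 fun y' z' a' b' c' e' f' hD' =>
      redD g1.conn h b1 hu a b a' b' c e f c' e' f' ((m2 _).mp hD) hD'

end

end Pool.Agent.MP_97bb71_gt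

end
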