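import Pool.Agent.Mg.F97bb71.G93af99

namespace Pool.Agent.MP_97bb71_gt

theorem chkD_true_1 : chk 16 blkD cmD srcD sdD1 sdD2 klD 2 1 true = true := by decide +kernel

end Pool.Agent.MP_97bb71_gt
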