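import Pool.Agent.Mg.F97bb71.G4bdbe4
import Pool.Agent.Mg.F97bb71.G1e55b7
import Pool.Agent.Mg.F97bb71.G2da74e

section

/-! Invariance under the second Reidemeister move. -/

namespace Pool.Agent.MP_97bb71_gt
open Finset

noncomputable section

variable {Γ : Type} [DecidableEq Γ] {d : Dat Γ}

theorem ncl_pos {α : Type} {r : α → α → Prop} {U : Finset α} {a : α} (h : a ∈ U) :
    0 < ncl r U := by
  classical
  exact card_pos.mpr (image_nonempty.mpr ⟨a, h⟩)

theorem PkS.faces [Fintype Γ] (hc : Conn d) {R : Diagram} {k l : ℕ} {x : Fin k → Fin 4 → ℕ}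
    {p : Fin l → Fin 2 → ℕ} {oR : Fin R.n → Fin 4 → Bool} {oPR : Fin R.m → Bool}
    {o : Fin k → Fin 4 → Bool} {oP : Fin l → Bool} {κ : ℕ → Γ}
    (h : PkS R.x R.p x p d oR oPR o oP κ) (hp : (R.add x p).Planar) (a : ℕ)
    (ha : a ∈ labs x p) :
    ncl (fun a b => frel R.x R.p oR a b ∨ frel x p o a b)
      (labs (Sum.elim R.x x) (Sum.elim R.p p) ×ˢ univ) = R.n + k + 2 := by
  have e1 : (fun y => Sum.elim R.x x (finSumFinEquiv.symm y)) = (R.add x p).x := by
    rw [← add_x R x p]; funext y; simp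
  have e2 : (fun y => Sum.elim R.p p (finSumFinEquiv.symm y)) = (R.add x p).p := by
    rw [← add_p R x p]; funext y; simp
  have h1 := Pk.reindex h finSumFinEquiv.symm finSumFinEquiv.symm
  have e3 := labs_reindex (Sum.elim R.x x) (Sum.elim R.p p) finSumFinEquiv.symm
    finSumFinEquiv.symm
  have e4 := frel_reindex (Sum.elim R.x x) (Sum.elim R.p p) (Sum.elim oR o) finSumFinEquiv.symm
    finSumFinEquiv.symm
  rw [e1, e2] at h1 e3 e4
  have h2 := (R.add x p).faces_eq hp.1 h1.bal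
  erw [e4, e3] at h2
  have h3 := h1.N_conn hc fun y j => by rw [← e3]; exact mem_labs.mpr (Or.inl ⟨_, _, rfl⟩)
  have h4 := (R.add x p).pieces_eq
  have e5 : act (fun y => Sum.elim (fun _ : Fin R.n => (1 : ℤ)) (fun _ : Fin k => 1)
      (finSumFinEquiv.symm y)) .C = fun _ => .C := by
    funext y; unfold act; rw [if_neg]; cases finSumFinEquiv.symm y <;> simp
  rw [e5, ← e3] at h3
  replace h3 := h4.le.trans h3
  have h5 : 0 < (R.add x p).pieces := by
    rw [h4]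
    erw [e3]
    refine ncl_pos (a := a) ?_
    rcases mem_labs.mp ha with ⟨y, j, h⟩ | ⟨y, j, h⟩
    · exact mem_labs.mpr (Or.inl ⟨.inr y, j, h⟩)
    · exact mem_labs.mpr (Or.inr ⟨.inr y, j, h⟩)
  have h6 := hp.2
  have e6 : frel (Sum.elim R.x x) (Sum.elim R.p p) (Sum.elim oR o) =
      fun a b => frel R.x R.p oR a b ∨ frel x p o a b := by
    funext a b
    simp only [frel, Sum.exists, Sum.elim_inl, Sum.elim_inr]
    exact propext or_or_or_comm
  rw [← e6, ← h2, h6]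
  have : (R.add x p).n = R.n + k := rfl
  omega

theorem fresh2 {R : Diagram} {a b c g e f : ℕ} (hfr : R.Fresh [e, f] [a, b, c, g]) :
    (a ≠ e ∧ b ≠ e ∧ c ≠ e ∧ g ≠ e) ∧ (a ≠ f ∧ b ≠ f ∧ c ≠ f ∧ g ≠ f) ∧ f ≠ e := by
  have h1 := (hfr.2 e (by simp)).1
  have h2 := (hfr.2 f (by simp)).1
  have h4 := hfr.1
  simp at h1 h2 h4
  grind

theorem r2_faces (R : Diagram) (a b c g e f : ℕ) (hfr : R.Fresh [e, f] [a, b, c, g]) (t u : Bool)
    (oR : Fin R.n → Fin 4 → Bool) (o : Fin 0 → Fin 4 → Bool)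
    (h : ncl (fun v w => frel R.x R.p oR v w ∨ frel ![] ![![a, b], ![c, g]] o v w)
      (labs (Sum.elim R.x ![]) (Sum.elim R.p ![![a, b], ![c, g]]) ×ˢ univ) + 2 ≤
      ncl (fun v w => frel R.x R.p oR v w ∨ frel ![![c, e, f, a], ![f, e, g, b]] ![]
        ![![u, !t, !u, t], ![u, t, !u, !t]] v w)
      (labs (Sum.elim R.x ![![c, e, f, a], ![f, e, g, b]]) (Sum.elim R.p ![]) ×ˢ univ)) :
    (∀ z, FCS R.x R.p oR ![] ![![a, b], ![c, g]] o z → z a t = z c (!u)) ∧
    ∃ v, FCS R.x R.p oR ![![c, e, f, a], ![f, e, g, b]] ![] ![![u, !t, !u, t], ![u, t, !u, !t]] v ∧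
      v a t = 1 ∧ v b t = 0 := by
  classical
  obtain ⟨n1, n2, n3⟩ := fresh2 hfr
  let L : ℕ → ℕ × Bool := fun i => [(a, t), (a, !t), (b, t), (b, !t), (c, !u), (c, u), (g, !u),
    (g, u), (e, t), (e, !t), (f, u), (f, !u)].getD i (0, false)
  let bk : ℕ × Bool → ℕ := fun v => if v.1 = e then (if v.2 = t then 1 else 2) else
    if v.1 = f then (if v.2 = u then 3 else 4) else 0
  have hz : ∀ v : ℕ × Bool, v.1 ∈ labs R.x R.p → bk v = 0 := by
    intro v hv
    obtain ⟨q, hq⟩ := (R.mem_labs' _).mp hv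
    simp only [bk, ← hq, if_neg ((hfr.2 e (by simp)).2 q), if_neg ((hfr.2 f (by simp)).2 q)]
  have hb : ∀ v w, frel R.x R.p oR v w → bk v = bk w := by
    rintro v w (⟨y, q, rfl, rfl⟩ | ⟨j, s, rfl, rfl⟩) <;> rw [hz, hz] <;> first
      | exact mem_labs.mpr (Or.inl ⟨_, _, rfl⟩)
      | exact mem_labs.mpr (Or.inr ⟨_, _, rfl⟩)
  have hL : ∀ i < 12, bk (L i) = gt [0, 0, 0, 0, 0, 0, 0, 0, 1, 2, 3, 4] i := by
    intro i hi
    interval_cases i <;> simp [L, bk, gt_eq, n1, n2, n3]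
  have h1 := allR_sound r2f_all (frel R.x R.p oR) L bk hb hL bk _ hb hL
    (fun i _ v _ hv => by simp [gt] at hv) (Or.inl rfl)
  have s0 := St_init (frel R.x R.p oR) L 12
  have s1 := s0.merges [(0, 2), (1, 3), (4, 6), (5, 7)]
    (r' := fun v w => frel R.x R.p oR v w ∨ frel ![] ![![a, b], ![c, g]] o v w) (by decide)
    (fun v w => or_congr_right (by
      cases t <;> cases u <;> simp [frel, L, Fin.exists_fin_succ] <;> grind))
  have s2 := s0.merges [(5, 8), (9, 10), (11, 1), (0, 4), (10, 9), (8, 7), (6, 2), (3, 11)]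
    (r' := fun v w => frel R.x R.p oR v w ∨ frel ![![c, e, f, a], ![f, e, g, b]] ![]
        ![![u, !t, !u, t], ![u, t, !u, !t]] v w) (by decide)
    (fun v w => or_congr_right (by simp [frel, L, Fin.exists_fin_succ, or_assoc]))
  have hit : ∀ used : List ℕ, (∀ i < 8, i ∈ used) → ∀ v ∈ labs R.x R.p ×ˢ (univ : Finset Bool),
      ∀ i < 12, Quot.mk (frel R.x R.p oR) (L i) = Quot.mk (frel R.x R.p oR) v →
      ∃ j ∈ used, Quot.mk (frel R.x R.p oR) (L j) = Quot.mk (frel R.x R.p oR) v := by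
    intro used hu v hv i hi he
    refine ⟨i, hu i ?_, he⟩
    have := lift_eq hb he
    rw [hz v (mem_product.mp hv).1, hL i hi] at this
    by_contra hn
    have : 8 ≤ i := by omega
    interval_cases i <;> simp [gt_eq] at *
  rw [s1.ncl_eq (labs R.x R.p ×ˢ univ) _ [0, 1, 2, 3, 4, 5, 6, 7] ?_ (by decide) (hit _ (by decide)),
    s2.ncl_eq (labs R.x R.p ×ˢ univ) _ [0, 1, 2, 3, 4, 5, 6, 7, 8, 9, 10, 11] ?_ (by decide)
      (hit _ (by decide))] at h
  · simp only [r2f, mgsK_eq, orr_eq, an_eq, cn_eq, Bool.or_eq_true, Nat.ble_eq, Bool.and_eq_true,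
      Nat.beq_eq] at h1
    obtain ⟨h2, h3⟩ := h1.resolve_left (by omega)
    replace h2 := (s1.eq_iff (i := 0) (j := 4) (by decide) (by decide)).mp h2
    have h4 := fun h => absurd (b := False) h3 (by
      rw [if_pos ((s2.eq_iff (i := 0) (j := 2) (by decide) (by decide)).mpr h)]; simp)
    constructor
    · intro z hz
      refine lift_eq (g := fun v : ℕ × Bool => z v.1 v.2) ?_ h2
      rintro v w (h | h)
      exacts [FC_iff.mp hz.1 v w h, FC_iff.mp hz.2 v w h]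
    · refine ⟨fun v s => if Quot.mk (fun v w => frel R.x R.p oR v w ∨
        frel ![![c, e, f, a], ![f, e, g, b]] ![] ![![u, !t, !u, t], ![u, t, !u, !t]] v w) (v, s) =
        Quot.mk _ (a, t) then 1 else 0, ⟨FC_iff.mpr fun v w h => ?_, FC_iff.mpr fun v w h => ?_⟩,
        if_pos rfl, if_neg fun h => h4 h.symm⟩
      · simp only [Quot.sound (r := fun v w => frel R.x R.p oR v w ∨ frel _ _ _ v w) (Or.inl h)]
      · simp only [Quot.sound (r := fun v w => frel R.x R.p oR v w ∨ frel _ _ _ v w) (Or.inr h)]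
  · rintro ⟨v, s⟩
    cases t <;> cases u <;> cases s <;> simp [mem_labs, L, Fin.exists_fin_succ] <;> grind
  · rintro ⟨v, s⟩
    cases t <;> cases u <;> cases s <;> simp [mem_labs, L, Fin.exists_fin_succ] <;> grind

theorem r2_core [Fintype Γ] (hc : Conn d) (R : Diagram) (a b c g e f : ℕ)
    (hfr : R.Fresh [e, f] [a, b, c, g]) (hp1 : (R.add ![] ![![a, b], ![c, g]]).Planar)
    (hp2 : (R.add ![![c, e, f, a], ![f, e, g, b]] ![]).Planar) (t u : Bool)
    {oR : Fin R.n → Fin 4 → Bool} {oPR : Fin R.m → Bool} {κ : ℕ → Γ} (o : Fin 0 → Fin 4 → Bool)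
    (oP : Fin 0 → Bool) (h1 : κ b = κ a) (h2 : κ g = κ c) (h3 : κ e = κ a) (h4 : κ f = κ c) :
    Core R.x R.p ![] ![![a, b], ![c, g]] d oR oPR o ![t, u] κ ↔
    Core R.x R.p ![![c, e, f, a], ![f, e, g, b]] ![] d oR oPR
      ![![u, !t, !u, t], ![u, t, !u, !t]] oP κ := by
  obtain ⟨n1, n2, n3⟩ := fresh2 hfr
  refine core_iff R [a, b, c, g] [e, f] hfr 4 6 [0, 0, 2, 2, 0, 2]
    ⟨[], [(0, 1), (2, 3)], [0, 1, 2, 3]⟩
    ⟨[(2, 4, 5, 0, 1), (5, 4, 3, 1, 1)], [], [0, 1, 2, 3, 4, 5]⟩ [] ![] ![![0, 1], ![2, 3]]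
    ![![2, 4, 5, 0], ![5, 4, 3, 1]] ![] 1 1 (by decide +kernel) (by decide) rfl rfl
    (by funext y; exact y.elim0) (by funext y j; fin_cases y <;> fin_cases j <;> rfl)
    (by funext y j; fin_cases y <;> fin_cases j <;> rfl) (by funext y; exact y.elim0)
    (by simp [Ori]) (by simp [Ori, Fin.forall_fin_succ])
    (fun g => by simp [flow, Fin.sum_univ_succ, sg_not]; ring)
    (by simp [Cp, h1, h2]) (by simp [Cp, cp, Fin.forall_fin_succ, h1, h2, h3, h4])
    (fun i hi => by interval_cases i <;> simp [gt_eq, h1, h2, h3, h4])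
    (fun G G' => by simp [W, sn, sg_not, Fin.sum_univ_succ, h3, h4]) fun k1 k2 => ?_
  obtain ⟨P1, v, hv, va, vb⟩ := r2_faces R a b c g e f hfr t u oR o (by
    rw [k1.faces hc hp1 a (by simp [mem_labs]), k2.faces hc hp2 c (mem_labs.mpr (Or.inl ⟨0, 0, rfl⟩))])
  have hv2 := hv.2
  simp [FC, Fin.forall_fin_succ] at hv2
  have key : ∀ τ : ℚ, τ * τ = 1 → Sh (FCS R.x R.p oR ![] ![![a, b], ![c, g]] o)
      (fun z => τ * QS R.x oR ![] o z) (FCS R.x R.p oR ![![c, e, f, a], ![f, e, g, b]] ![]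
        ![![u, !t, !u, t], ![u, t, !u, !t]]) (fun z => τ * QS R.x oR
        ![![c, e, f, a], ![f, e, g, b]] ![![u, !t, !u, t], ![u, t, !u, !t]] z) 1 := by
    intro τ hτ
    let β : Fn ℕ →ₗ[ℚ] ℚ := ev a t - Bf R.x (fun _ => 1) oR v
    let γ : ℚ := (τ + 1 - Qf R.x (fun _ => 1) oR v) / 2
    let Φ := upd e (fun s => if s = t then ev c u else β)
      (upd f (fun s => if s = u then β else ev a (!t)) LinearMap.id)
    let w : Fn ℕ := fun x s => if x = e ∧ s = !t ∨ x = f ∧ s = u then γ else v x s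
    refine sh_one (by simp [QS, Qf_zero]) Φ w LinearMap.id (ev a t - ev b t) (fun z k hz => ?_)
      fun z hz hl => ?_
    · have hr := rest_congr hfr oR (z := z + k • v) (z' := Φ z + k • w)
        (fun x hx => by simp at hx; funext s; simp [Φ, w, upd_apply, hx])
      have h5 := P1 z hz
      have h6 := hz.2
      have h7 : FC R.x R.p oR (z + k • v) := by
        refine ⟨fun y j => ?_, fun j => ?_⟩
        · simp [hz.1.1 y j, hv.1.1 y j]
        · simp [hz.1.2 j, hv.1.2 j]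
      simp [FC, funext_iff] at h6
      rw [QS, QS, hr.2, Qf_add]
      refine ⟨⟨hr.1 h7, ?_⟩, le_of_eq ?_⟩ <;> cases t <;> cases u <;>
        simp [FC, Qf, qt, Fin.forall_fin_succ, Fin.sum_univ_succ, Φ, w, β, γ, upd_apply, n1, n2, n3,
          Ne.symm n3] at hv2 h5 ⊢ <;> grind
    · have h6 := hz.2
      rw [QS, QS, LinearMap.id_apply]
      refine ⟨⟨hz.1, ?_⟩, le_of_eq ?_⟩ <;> cases t <;> cases u <;>
        simp [FC, Qf, qt, Fin.forall_fin_succ, Fin.sum_univ_succ, funext_iff] at h6 hl ⊢ <;> grind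
  have k3 := key 1 (by norm_num)
  have k4 := key (-1) (by norm_num)
  simp only [one_mul, neg_mul] at k3 k4
  exact ⟨k3, k4⟩

theorem r2_inv [Fintype Γ] (hc : Conn d) (R : Diagram) (a b c g e f : ℕ)
    (hfr : R.Fresh [e, f] [a, b, c, g]) (hp1 : (R.add ![] ![![a, b], ![c, g]]).Planar)
    (hp2 : (R.add ![![c, e, f, a], ![f, e, g, b]] ![]).Planar) :
    DInv (R.add ![] ![![a, b], ![c, g]]) d ↔
      DInv (R.add ![![c, e, f, a], ![f, e, g, b]] ![]) d := by
  obtain ⟨n1, n2, n3⟩ := fresh2 hfr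
  unfold DInv
  rw [IV_add, IV_add]
  constructor <;> rintro ⟨oR, oPR, o, oP, κ, h⟩ <;> have hk := h.kap
  · simp [Cp] at hk
    rw [fin2 oP] at h
    have h' := h.upd hfr (by simp) (by simp [Fin.forall_fin_succ])
      (fun v => if v = e then κ a else if v = f then κ c else κ v)
      (fun v hv => by simp at hv; simp [hv])
    exact ⟨_, _, _, ![], _, (r2_core hc R a b c g e f hfr hp1 hp2 _ _ o _ (by simp [n1, n2, hk])
      (by simp [n1, n2, hk]) (by simp [n1, n2]) (by simp [n1, n2, n3])).mp h'⟩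
  · simp [Cp, cp] at hk
    have i1 := h.int hfr (e := e) (by simp)
    have i2 := h.int hfr (e := f) (by simp)
    have ho := h.ori
    simp [flow, Fin.sum_univ_succ, n1, n2, n3, Ne.symm n3, (ho _).1, sg_not, sg_add,
      sg_sub'] at i1 i2
    have e1 : o = ![![o 0 0, !o 0 3, !o 0 0, o 0 3], ![o 0 0, o 0 3, !o 0 0, !o 0 3]] := by
      funext y j
      fin_cases y <;> fin_cases j <;> simp [(ho _).1, (ho _).2, i1, i2]
    rw [e1] at h
    exact ⟨_, _, ![], _, _, (r2_core hc R a b c g e f hfr hp1 hp2 _ _ _ oP (by grind) (by grind)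
      (by grind) (by grind)).mpr h⟩

theorem Same.inv [Fintype Γ] [Nonempty Γ] (hc : Conn d) {D E : Diagram} (h : Same D E) :
    DInv D d ↔ DInv E d := by
  induction h with
  | refl => rfl
  | symm _ _ _ ih => exact ih.symm
  | trans _ _ _ _ _ ih1 ih2 => exact ih1.trans ih2
  | rel D E h =>
    obtain ⟨h1, h2, h3⟩ := h
    cases h3 with
    | reorder D σ τ => exact (IV_reindex σ τ).symm
    | relabel D f =>
      refine (Inv_relabel f f.injective fun u => ?_).symm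
      simp only [mem_labs]
      constructor
      · rintro (⟨y, j, rfl⟩ | ⟨y, j, rfl⟩)
        exacts [⟨_, Or.inl ⟨y, j, rfl⟩, rfl⟩, ⟨_, Or.inr ⟨y, j, rfl⟩, rfl⟩]
      · rintro ⟨_, ⟨y, j, rfl⟩ | ⟨y, j, rfl⟩, rfl⟩
        exacts [Or.inl ⟨y, j, rfl⟩, Or.inr ⟨y, j, rfl⟩]
    | turn R a b c e => exact ⟨turn_inv R a b c e, turn_inv R c e a b⟩
    | flip R a b => exact ⟨flip_inv R a b, flip_inv R b a⟩
    | cut0 R a b c f e h => exact cut0_inv R a b c f e h
    | cut1 R a b c f e h => exact cut1_inv R a b c f e h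
    | cutJ R a b e h => exact cutJ_inv R a b e h
    | r1a R a b e h => exact (r1_inv R a b e h).1
    | r1b R a b e h => exact (r1_inv R a b e h).2
    | r2 R a b c g e f h => exact r2_inv hc R a b c g e f h h1 h2
    | r3a R a₁ a₂ a₃ a₄ a₅ a₆ e f g h => exact r3a_inv R a₁ a₂ a₃ a₄ a₅ a₆ e f g h
    | r3b R a₁ a₂ a₃ a₄ a₅ a₆ e f g h => exact r3b_inv R a₁ a₂ a₃ a₄ a₅ a₆ e f g h

end

end Pool.Agent.MP_97bb71_gt

end

section

/-! From almost alternating diagram codes to the abstract class. -/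

namespace Pool.Agent.MP_97bb71_gt
open Finset Module

set_option linter.unusedSectionVars false

noncomputable section

variable {α Γ X P : Type} [Fintype X] [Fintype P] [DecidableEq X] [DecidableEq Γ]
  {x : X → Fin 4 → α} {p : P → Fin 2 → α} {ε : X → ℤ} {o : X → Fin 4 → Bool} {t : α → Bool}

def Alt (x : X → Fin 4 → α) (p : P → Fin 2 → α) (o : X → Fin 4 → Bool) (t : α → Bool) : Prop :=
  (∀ y, (t (x y 0) = o y 0 ∧ t (x y 2) = o y 2) ∧ t (x y 1) = (!o y 1) ∧ t (x y 3) = !o y 3) ∧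
    ∀ j, t (p j 0) = t (p j 1)

def RR (x : X → Fin 4 → α) (ε : X → ℤ) (ψ : α → ℚ) : ℚ :=
  ∑ y, (ε y : ℚ) * (ψ (x y 0) - ψ (x y 2)) ^ 2

theorem sig_half [Fintype α] {M : Type} [AddCommGroup M] [Module ℚ M] {V : M → Prop} {Q : M → ℚ}
    {u : X} (he : ∀ y, y ≠ u → ε y = 1) {m m' : Md} (hm : UV m m')
    (hc : ∀ g : α → ℚ, Cp x p (fun _ => .C) g → ∀ a b, g a = g b)
    (π π' : M →ₗ[ℚ] (α → ℚ)) (ι : (α → ℚ) →ₗ[ℚ] M)
    (h1 : ∀ z, V z → Cp x p (fun _ => m') (π' z) ∧ Q z = RR x ε (π z) - RR x ε (π' z))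
    (h2 : ∀ ψ, Cp x p (fun _ => m) ψ → V (ι ψ) ∧ π (ι ψ) = ψ ∧ π' (ι ψ) = 0) :
    (∃ k, PD V Q k ∧ N x p univ (fun _ => m) ≤ k + 2) ∧
      ∀ l, PD V (fun z => -Q z) l → l ≤ N x p univ fun _ => m' := by
  classical
  have pos : ∀ ψ : α → ℚ, ψ (x u 0) = ψ (x u 2) →
      RR x ε ψ = ∑ y, (ψ (x y 0) - ψ (x y 2)) ^ 2 := fun ψ h => sum_congr rfl fun y _ => by
    by_cases hy : y = u
    · simp [hy, h]
    · simp [he y hy]
  constructor
  · by_cases h0 : N x p univ (fun _ => m) ≤ 2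
    · exact ⟨0, PD.zero (by simpa using (h2 0 (Cp_iff.mpr fun _ _ _ => rfl)).1), h0⟩
    obtain ⟨k, hk⟩ : ∃ k, N x p univ (fun _ => m) = k + 1 + 1 := ⟨_, (Nat.sub_add_cancel
      (le_of_not_ge h0)).symm⟩
    refine ⟨k, ?_, hk.le⟩
    obtain ⟨f, hf⟩ := finrank_le_iff_exists_linearMap.mp
      (show finrank ℚ (Fin (k + 1 + 1) → ℚ) ≤ finrank ℚ (Sol ℚ x p fun _ => m) by
        simp [finrank_Sol, hk])
    have k1 : PD (Cp x p fun _ => m) (fun ψ : α → ℚ => if ψ = 0 then 0 else 1) (k + 1 + 1) :=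
      ⟨(Sol ℚ x p _).subtype.comp f, fun v => (f v).2, fun v hv => by
        have : (f v : α → ℚ) ≠ 0 := fun h => hv (hf (by rw [map_zero]; exact Subtype.ext h))
        simp [this]⟩
    obtain ⟨g, g1, g2⟩ := (k1.ker (LinearMap.proj (x u 0))).ker (LinearMap.proj (x u 2))
    refine ⟨ι.comp g, fun v => (h2 _ (g1 v).1.1).1, fun v hv => ?_⟩
    obtain ⟨⟨a1, a2⟩, a3⟩ := g1 v
    obtain ⟨b1, b2, b3⟩ := h2 _ a1
    simp only [LinearMap.proj_apply] at a2 a3
    rw [LinearMap.comp_apply, (h1 _ b1).2, b2, b3, pos _ (a2.trans a3.symm), pos 0 rfl]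
    simp only [Pi.zero_apply, sub_self, ne_eq, OfNat.ofNat_ne_zero, not_false_eq_true, zero_pow,
      sum_const_zero, sub_zero]
    refine lt_of_le_of_ne (sum_nonneg fun _ _ => sq_nonneg _) fun h => ?_
    have k2 := (sum_eq_zero_iff_of_nonneg fun _ _ => sq_nonneg _).mp h.symm
    have k3 : g v = 0 := funext fun a => (hc (g v) ⟨fun y => ?_, a1.2⟩ a _).trans a2
    · simpa [k3] using g2 v hv
    · have k4 := sub_eq_zero.mp (pow_eq_zero_iff two_ne_zero |>.mp (k2 y (mem_univ _)))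
      have k5 := a1.1 y
      rcases hm with ⟨rfl, _⟩ | ⟨rfl, _⟩ <;> simp only [cp] at k5 ⊢ <;> grind
  · rintro l ⟨f, f1, f2⟩
    let pj : α → ((α → ℚ) →ₗ[ℚ] ℚ) := fun a => LinearMap.proj a
    let F : (Fin l → ℚ) →ₗ[ℚ] (α → ℚ) := π'.comp f + LinearMap.pi fun _ =>
      ((pj (x u 0) - pj (x u 2)).comp π - (pj (x u 0)).comp π').comp f
    have hF : ∀ v a, F v a = π' (f v) a + (π (f v) (x u 0) - π (f v) (x u 2) - π' (f v) (x u 0)) :=
      fun _ _ => rfl
    have := LinearMap.finrank_le_finrank_of_injective (f := F.codRestrict (Sol ℚ x p fun _ => m')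
      fun v => (h1 _ (f1 v)).1.comp fun w => w + _) (by
        rw [← LinearMap.ker_eq_bot, LinearMap.ker_eq_bot']
        intro v hv
        have k1 : ∀ a, F v a = 0 := congrFun (congrArg Subtype.val hv)
        by_contra h0
        have k2 : 0 < -Q (f v) := f2 v h0
        have k3 : π (f v) (x u 0) = π (f v) (x u 2) := by
          have := k1 (x u 0); rw [hF] at this; linarith
        have k4 : RR x ε (π' (f v)) = 0 := sum_eq_zero fun y _ => by
          have a := k1 (x y 0)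
          have b := k1 (x y 2)
          rw [hF] at a b
          rw [show π' (f v) (x y 0) = π' (f v) (x y 2) by linarith]; simp
        rw [(h1 _ (f1 v)).2, k4, pos _ k3] at k2
        have := sum_nonneg fun y (_ : y ∈ univ) =>
          sq_nonneg (π (f v) (x y 0) - π (f v) (x y 2))
        linarith)
    simpa [finrank_Sol] using this

def piS (t : α → Bool) : Fn α →ₗ[ℚ] (α → ℚ) := LinearMap.pi fun a => ev a (t a)

def ioS (t : α → Bool) : (α → ℚ) →ₗ[ℚ] Fn α :=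
  LinearMap.pi fun a => LinearMap.pi fun s => if s = t a then LinearMap.proj a else 0

theorem ioS_apply (t : α → Bool) (ψ : α → ℚ) (a : α) (s : Bool) :
    ioS t ψ a s = if s = t a then ψ a else 0 := by
  simp only [ioS, LinearMap.pi_apply]; split_ifs <;> rfl

theorem Alt.cp {β : Type} (h : Alt x p o t) (z : α → Bool → β) :
    ((∀ y j, z (x y j) (o y j) = z (x y (j + 1)) (!o y (j + 1))) ∧ ∀ j, z (p j 0) = z (p j 1)) ↔
      Cp x p (fun _ => .U) (fun a => z a (t a)) ∧ Cp x p (fun _ => .V) fun a => z a (!t a) := by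
  simp only [Cp, MP_97bb71_gt.cp, h.1, h.2, Bool.not_not, Fin.forall_fin_succ, funext_iff]
  constructor
  · rintro ⟨h1, h2⟩
    exact ⟨⟨fun y => ⟨(h1 y).1, (h1 y).2.2.1⟩, fun j => h2 j _⟩,
      fun y => ⟨(h1 y).2.1, (h1 y).2.2.2.1⟩, fun j => h2 j _⟩
  · rintro ⟨⟨h1, h2⟩, h3, h4⟩
    refine ⟨fun y => ⟨(h1 y).1, (h3 y).1, (h1 y).2, (h3 y).2, fun j => j.elim0⟩, fun j s => ?_⟩
    by_cases hs : s = t (p j 1)
    · rw [hs]; exact h2 j
    · rw [Bool.eq_not_iff.mpr hs]; exact h4 j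

theorem sigJ [Fintype α] {u : X} (he : ∀ y, y ≠ u → ε y = 1) (h : Alt x p o t)
    (hc : ∀ g : α → ℚ, Cp x p (fun _ => .C) g → ∀ a b, g a = g b) {τ : ℤ}
    (hs : SigI (FC x p o) (Qf x ε o) τ) :
    |(N x p univ (fun _ => .U) : ℤ) - N x p univ (fun _ => .V) - τ| ≤ 2 := by
  have z0 : ∀ m, Cp x p (fun _ => m) (0 : α → ℚ) := fun _ => Cp_iff.mpr fun _ _ _ => rfl
  have e : ∀ z, FC x p o z → Qf x ε o z =
      RR x ε (piS t z) - RR x ε (piS (fun a => !t a) z) := by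
    intro z hz
    rw [Qf, RR, RR, ← sum_sub_distrib]
    refine sum_congr rfl fun y _ => ?_
    have k1 := hz.1 y 1
    have k2 := hz.1 y 3
    simp only [piS, LinearMap.pi_apply, ev_apply, qt, h.1 y, k1, k2]
    simp; ring
  have i1 : ∀ (t : α → Bool) ψ, piS t (ioS t ψ) = ψ := fun t ψ => by
    funext a; simp [piS, ioS_apply]
  have i2 : ∀ ψ, piS (fun a => !t a) (ioS t ψ) = 0 := fun ψ => by
    funext a; simp [piS, ioS_apply]
  have i3 : ∀ ψ, piS t (ioS (fun a => !t a) ψ) = 0 := fun ψ => by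
    funext a; simp [piS, ioS_apply]
  obtain ⟨⟨k, a1, a2⟩, a3⟩ := sig_half (V := FC x p o) (Q := Qf x ε o) he (.inl ⟨rfl, rfl⟩) hc
    (piS t) (piS fun a => !t a) (ioS t) (fun z hz => ⟨((h.cp z).mp hz).2, e z hz⟩)
    fun ψ hψ => ⟨(h.cp _).mpr ⟨by convert hψ using 1; exact i1 t ψ,
      by convert z0 _ using 1; exact i2 ψ⟩, i1 t ψ, i2 ψ⟩
  obtain ⟨⟨l, b1, b2⟩, b3⟩ := sig_half (V := FC x p o) (Q := fun z => -Qf x ε o z) he
    (.inr ⟨rfl, rfl⟩) hc (piS fun a => !t a) (piS t) (ioS fun a => !t a)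
    (fun z hz => ⟨((h.cp z).mp hz).1, by rw [e z hz]; ring⟩)
    fun ψ hψ => ⟨(h.cp _).mpr ⟨by convert z0 _ using 1; exact i3 ψ,
      by convert hψ using 1; exact i1 _ ψ⟩, i1 _ ψ, i3 ψ⟩
  obtain ⟨l', c1, c2⟩ := hs.1 k a1
  obtain ⟨k', c3, c4⟩ := hs.2 l b1
  have := a3 l' c1
  have := b3 k' (by simpa using c3)
  rw [abs_le]; omega

theorem Alt.faces (h : Alt x p o t) (U : Finset α) : ncl (frel x p o) (U ×ˢ univ) =
    N x p U (fun _ => .U) + N x p U fun _ => .V := by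
  classical
  obtain ⟨h1, h2⟩ := (h.cp fun a s => Quot.mk (frel x p o) (a, s)).mp
    ⟨fun y j => Quot.sound (.inl ⟨y, j, rfl, rfl⟩),
      fun j => funext fun s => Quot.sound (.inr ⟨j, s, rfl, rfl⟩)⟩
  let f : α × Bool → Quot (rel x p fun _ => .U) ⊕ Quot (rel x p fun _ => .V) := fun q =>
    if q.2 = t q.1 then .inl (Quot.mk _ q.1) else .inr (Quot.mk _ q.1)
  have e : ((U ×ˢ univ).image f).card = N x p U (fun _ => .U) + N x p U fun _ => .V := by
    rw [N, N, ncl, ncl, ← card_disjSum]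
    congr 1
    ext v
    simp only [mem_image, mem_disjSum, mem_product, mem_univ, and_true]
    constructor
    · rintro ⟨⟨a, s⟩, h3, rfl⟩
      simp only [f]
      split_ifs
      exacts [.inl ⟨_, ⟨a, h3, rfl⟩, rfl⟩, .inr ⟨_, ⟨a, h3, rfl⟩, rfl⟩]
    · rintro (⟨_, ⟨a, h3, rfl⟩, rfl⟩ | ⟨_, ⟨a, h3, rfl⟩, rfl⟩)
      exacts [⟨(a, t a), h3, by simp [f]⟩, ⟨(a, !t a), h3, by simp [f]⟩]
  rw [← e]
  refine le_antisymm (ncl_le_card f ?_) (card_le_ncl f ?_)
  · rintro ⟨a, s⟩ - ⟨b, s'⟩ - h3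
    by_cases ha : s = t a <;> by_cases hb : s' = t b <;> simp [f, ha, hb] at h3
    · rw [ha, hb]; exact h1.eq h3
    · rw [Bool.eq_not_iff.mpr ha, Bool.eq_not_iff.mpr hb]; exact h2.eq h3
  · obtain ⟨k1, k2⟩ := (h.cp fun a s => f (a, s)).mpr
      ⟨by simpa [f] using (Cp_mk x p fun _ => .U).comp Sum.inl,
        by simpa [f] using (Cp_mk x p fun _ => .V).comp Sum.inr⟩
    rintro a b (⟨y, j, rfl, rfl⟩ | ⟨j, s, rfl, rfl⟩)
    exacts [k1 y j, congrFun (k2 j) s]

theorem frel_rot (x : X → Fin 4 → α) (p : P → Fin 2 → α) (o : X → Fin 4 → Bool) (r : X → Bool) :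
    frel (fun y j => x y (pm 0 (r y) j)) p (fun y j => o y (pm 0 (r y) j)) = frel x p o := by
  funext a b
  refine propext (or_congr_left (exists_congr fun y => ?_))
  beta_reduce
  cases r y <;> simp [pm, Fin.exists_fin_succ]
  tauto

theorem Diagram.alt (D : Diagram) (hv : ∀ a : D.Dart, ∃! b, b ≠ a ∧ D.lab b = D.lab a)
    (h : D.Alternating) {o : Fin D.n → Fin 4 → Bool} {oP : Fin D.m → Bool}
    (hb : ∀ g, flow D.x D.p o oP g = 0) : ∃ t, Alt D.x D.p o t := by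
  classical
  obtain ⟨θ, h1, h2, h3⟩ := h
  let t : ℕ → Bool := fun u =>
    if h : ∃ a, D.lab a = u then D.od o oP h.choose == θ h.choose else false
  have e : ∀ a, t (D.lab a) = (D.od o oP a == θ a) := by
    intro a
    have h : ∃ b, D.lab b = D.lab a := ⟨a, rfl⟩
    simp only [t, dif_pos h]
    by_cases h4 : h.choose = a
    · rw [h4]
    · rw [D.od_ne hv hb h4 h.choose_spec, Bool.eq_not_iff.mpr (h3 _ _ h4 h.choose_spec)]
      simp
  refine ⟨t, fun y => ?_, fun j => ?_⟩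
  · have := fun j => e (.inl (y, j))
    simp only [Diagram.lab, Diagram.od, h1] at this
    simp [this]
  · have a := e (.inr (j, 0))
    have b := e (.inr (j, 1))
    simp only [Diagram.lab, Diagram.od] at a b
    rw [a, b, Bool.eq_not_iff.mpr (h2 j)]
    simp

theorem Diagram.change_x (E : Diagram) (C : Finset (Fin E.n)) :
    (E.change C).x = fun y : Fin E.n => fun j => E.x y (pm 0 (decide (y ∈ C)) j) := by
  refine funext fun y : Fin E.n => funext fun j => ?_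
  show (if y ∈ C then E.x y (j + 1) else E.x y j) = _
  by_cases hy : y ∈ C <;> fin_cases j <;> simp [pm, hy]

theorem Diagram.change_valid (E : Diagram) (C : Finset (Fin E.n))
    (hv : ∀ a : E.Dart, ∃! b, b ≠ a ∧ E.lab b = E.lab a) (a : (E.change C).Dart) :
    ∃! b, b ≠ a ∧ (E.change C).lab b = (E.change C).lab a := by
  let e : E.Dart ≃ E.Dart := Equiv.sumCongr
    (Equiv.prodCongrRight fun i => Equiv.addRight (if i ∈ C then 1 else 0)) (Equiv.refl _)
  have he : ∀ a, (E.change C).lab a = E.lab (e a) := by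
    rintro (⟨i, j⟩ | ⟨i, j⟩)
    · simp [Diagram.change, Diagram.lab, e]
      split_ifs <;> simp
    · rfl
  simp only [he]
  obtain ⟨b, ⟨h3, h4⟩, h5⟩ := hv (e a)
  refine ⟨e.symm b, ⟨fun h => h3 (by rw [← h]; simp), by simpa using h4⟩, fun c hc => ?_⟩
  rw [← h5 (e c) ⟨fun h => hc.1 (e.injective h), hc.2⟩]; simp

theorem Diagram.faces_alt {d : Dat Γ} (E : Diagram) (C : Finset (Fin E.n))
    (hv : ∀ a : E.Dart, ∃! b, b ≠ a ∧ E.lab b = E.lab a) (hA : (E.change C).Alternating)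
    (h : DInv E d) {x : Fin E.n → Fin 4 → ℕ} (hx : (E.change C).x = x) :
    E.faces = N x E.p (labs E.x E.p) (fun _ => .U) + N x E.p (labs E.x E.p) fun _ => .V := by
  subst hx
  obtain ⟨o, oP, κ, k1, -⟩ := h
  obtain ⟨t, ht⟩ := (E.change C).alt (E.change_valid C hv) hA
    (o := fun y : Fin E.n => fun j => o y (pm 0 (decide (y ∈ C)) j)) (oP := oP)
    fun g => by rw [E.change_x]; exact (k1.pm (fun _ => 0) _).bal g
  rw [E.faces_eq hv k1.bal, ← frel_rot E.x E.p o fun y => decide (y ∈ C), ← E.change_x]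
  exact ht.faces _

theorem Diagram.pieces_one [Fintype Γ] [Nonempty Γ] {d : Dat Γ} (hc : Conn d) (E : Diagram)
    (h : DInv E d) : E.pieces = 1 := by
  obtain ⟨o, oP, κ, k1, -⟩ := h
  obtain ⟨Z, k3, k4⟩ := hc.nb (Classical.arbitrary Γ)
  obtain ⟨y, -⟩ := k1.cross k3 k4
  rw [E.pieces_eq]
  exact le_antisymm (k1.N_conn hc fun y j => mem_labs.mpr (.inl ⟨y, j, rfl⟩))
    (ncl_pos (mem_labs.mpr (.inl ⟨y, 0, rfl⟩)))

theorem bridge [Fintype Γ] [Nonempty Γ] {d1 d2 : Dat Γ} (c1 : Conn d1) (c2 : Conn d2)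
    (E : Diagram) (hp : E.Planar) (C : Finset (Fin E.n)) (hC : C.card ≤ 1)
    (hA : (E.change C).Alternating) (h1 : DInv E d1) (h2 : DInv E d2) :
    ∃ (x : Fin E.n → Fin 4 → {a // a ∈ labs E.x E.p}) (p : Fin E.m → Fin 2 → _) (ε : _),
      Cls x p ε d1 d2 := by
  let r : Fin E.n → Bool := fun y => decide (y ∈ C)
  have ex : (E.change C).x = fun y j => E.x y (pm 0 (r y) j) := E.change_x C
  have hv := E.change_valid C hp.1
  let x : Fin E.n → Fin 4 → {a // a ∈ labs E.x E.p} := fun y j =>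
    ⟨E.x y (pm 0 (r y) j), mem_labs.mpr (.inl ⟨_, _, rfl⟩)⟩
  let p : Fin E.m → Fin 2 → {a // a ∈ labs E.x E.p} := fun y j =>
    ⟨E.p y j, mem_labs.mpr (.inr ⟨_, _, rfl⟩)⟩
  have hU : ∀ u, u ∈ labs E.x E.p ↔ ∃ a ∈ (univ : Finset {a // a ∈ labs E.x E.p}), a.1 = u := by
    simp
  have he : ∀ y, sg (!r y) * 1 = -1 ↔ y ∈ C := fun y => by
    by_cases hy : y ∈ C <;> simp [r, hy, sg]
  have he' : ∀ y, sg (!r y) * 1 = 1 ∨ sg (!r y) * 1 = -1 := fun y => by cases r y <;> decide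
  have ea : ∀ m, act (fun y => sg (!r y) * 1) m = fun _ => m := fun m => by
    funext y; rcases he' y with h | h <;> simp only [act, h] <;> rfl
  have un : ∀ y z, sg (!r y) * 1 = -1 → sg (!r z) * 1 = -1 → y = z := fun y z a b =>
    card_le_one.mp hC _ ((he y).mp a) _ ((he z).mp b)
  have cl : ∀ d : Dat Γ, Conn d → DInv E d → Cl x p (fun y => sg (!r y) * 1) d := by
    intro d hc h
    obtain ⟨o, oP, κ, k1, k2⟩ := (Inv_relabel (x := x) (p := p) Subtype.val Subtype.val_injective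
      hU).mp (Inv.rot h r)
    refine ⟨o, oP, κ, k1, fun ⟨u, hu⟩ => ?_⟩
    obtain ⟨t, ht⟩ := (E.change C).alt hv hA (o := o) (oP := oP) fun g => by
      rw [ex]; exact k1.bal fun a => g a.1
    rw [ex] at ht
    rw [ea, ea, sub_sub _ _ d.K]
    exact sigJ (u := u) (fun y hy => (he' y).resolve_right fun h => hy (un _ _ h hu))
      (t := fun a => t a.1) ht (fun g hg a b => k1.conn hc (fun _ _ => mem_univ _)
        (by rwa [ea]) (mem_univ _) (mem_univ _)) k2
  refine ⟨x, p, _, fun y => .inr (he' y), un, ?_, cl _ c1 h1, cl _ c2 h2⟩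
  have k2 := E.faces_alt C hp.1 hA h1 ex
  rw [hp.2] at k2
  have k5 := E.pieces_one c1 h1
  have k6 : actv (fun y => sg (!r y) * 1) = univ := by
    ext y; cases h : r y <;> simp [actv, h, sg]
  rw [ea, ea, k6, card_fin, ← N_relabel Subtype.val Subtype.val_injective x p univ _ hU,
    ← N_relabel Subtype.val Subtype.val_injective x p univ _ hU]
  exact le_trans (by omega) k2.le

end

end Pool.Agent.MP_97bb71_gt

end
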