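import Pool.Agent.Mg.F97bb71.Gcfc813
import Pool.Agent.Mg.F97bb71.Gda5e74
import Pool.Agent.Mg.F97bb71.G999b03
import Pool.Agent.Mg.F97bb71.G8a0376

section

/-! The invariants of the reference diagram. -/

namespace Pool.Agent.MP_97bb71_gt
open Finset

noncomputable section

abbrev p0 : Fin 0 → Fin 2 → Fin 288 := ![]

def dE : Fin 144 × Fin 4 ≃ Fin 288 × Bool where
  toFun q := (x0 q.1 q.2, o0 q.2)
  invFun a := if a.2 then src a.1 else tgt a.1
  left_inv q := r_dart q.1 q.2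
  right_inv := by
    rintro ⟨a, _ | _⟩ <;> simp [r_lab a]

theorem bal_os (b : Bool) (g : Fin 288 → ℤ) : flow (xs (sh b)) p0 (os b) ![] g = 0 := by
  have e : ∀ y, ∑ j, g (xs (sh b) y j) * sg (os b y j) =
      ∑ j, g (dE (y, j)).1 * sg (xor (dE (y, j)).2 (uo b (kp (dE (y, j)).1))) := fun y =>
    Equiv.sum_comp (Equiv.addRight (sh b y))
      fun j => g (x0 y j) * sg (xor (o0 j) (uo b (kp (x0 y j))))
  simp only [flow, e, univ_eq_empty, sum_empty, add_zero]
  rw [← Fintype.sum_prod_type', dE.sum_comp fun a => g a.1 * sg (xor a.2 (uo b (kp a.1))),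
    Fintype.sum_prod_type]
  exact sum_eq_zero fun a _ => by cases h : uo b (kp a) <;> simp [sg, h]

theorem kp_xs (s : Fin 144 → Fin 4) (y : Fin 144) :
    cp (fun j => kp (xs s y j)) .S ∧ Btw (xs s) kp (kp (x0 y 0)) (kp (x0 y 1)) y := by
  obtain ⟨h1, h2, -⟩ := r_kp y
  simp only [cp, Btw, xs]
  generalize s y = t
  fin_cases t <;> simp [← h1, ← h2]

def dat (b : Bool) : Dat G :=
  ⟨fun S η => Br (xs (sh b)) p0 univ fun y => sg η * eS (xs (sh b)) (fun _ => 1) (inS kp S) y,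
    fun S => wr (xs (sh b)) (fun _ => 1) (os b) (inS kp S),
    fun Y Z => W (xs (sh b)) (fun _ => 1) (os b) (chi kp Y) (chi kp Z), 144⟩

theorem pk_dat (b : Bool) : Pk (xs (sh b)) p0 univ (fun _ => 1) (dat b) (os b) ![] kp :=
  ⟨fun y => (r_os b y).1, bal_os b, ⟨fun y => (kp_xs _ y).1, fun j => j.elim0⟩,
    fun S η => by simp [dat], fun _ _ _ => rfl⟩

theorem eS_xs (s : Fin 144 → Fin 4) (S : Finset G) (y : Fin 144) :
    eS (xs s) (fun _ => 1) (inS kp S) y =
      if kp (x0 y 0) ∈ S ∧ kp (x0 y 1) ∈ S then 1 else 0 := by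
  rcases (kp_xs s y).2 with h | h <;> simp only [eS, ind_inS, h] <;> split_ifs <;> simp_all

theorem w_dat (b : Bool) (S : Finset G) :
    (dat b).w S = -∑ y, eS (xs (sh b)) (fun _ => 1) (inS kp S) y := by
  simp [dat, wr, (r_os b _).2]

theorem N_sh (b : Bool) (m : Md) :
    N (xs (sh b)) p0 univ (fun _ => sw b m) = N (xs s1) p0 univ fun _ => m := by
  have : xs (sh b) = fun y j => xs s1 y (pm (if b then 2 else 0) b j) := by
    funext y j
    simp only [xs, sh]
    congr 1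
    generalize s1 y = t
    revert b j t; decide
  rw [this]
  exact N_congr _ fun _ g => Cp_pm (μ := fun _ => m) (fun _ => _) (fun _ => b) g

theorem B_zero (b : Bool) (S : Finset G) (η : Bool)
    (h : ∀ y, ¬(kp (x0 y 0) ∈ S ∧ kp (x0 y 1) ∈ S)) : (dat b).B S η = dl ^ 60 ∧ (dat b).w S = 0 := by
  have e : eS (xs (sh b)) (fun _ => 1) (inS kp S) = fun _ => 0 := by
    funext y; rw [eS_xs, if_neg (h y)]
  refine ⟨?_, by simp [w_dat, e]⟩
  simp only [dat, e, mul_zero, Br_zero]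
  erw [N_sh b .S, N_comp, nC_S]

theorem good0 (b : Bool) : Good0 (dat b) := by
  refine ⟨fun η => (B_zero b _ η (by simp)).1, (B_zero b _ true (by simp)).2, fun Y Z h => ?_⟩
  have e : ∀ Y Z, (∑ y, if kp (x0 y 0) = Y ∧ kp (x0 y 1) = Z then (1 : ℤ) else 0) =
      if adj Y Z then 1 else 0 := by
    intro Y Z
    split_ifs with h1
    · rw [sum_eq_single (cr Y Z) (fun y _ h2 => if_neg fun h3 => h2 ?_) (by simp),
        if_pos (r_cr Y Z h1)]
      rw [← h3.1, ← h3.2, (r_kp y).2.2.2]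
    · refine sum_eq_zero fun y _ => if_neg fun h3 => h1 ?_
      rw [← h3.1, ← h3.2]; exact (r_kp y).2.2.1
  have e2 : (dat b).lk Y Z = -((∑ y, if kp (x0 y 0) = Y ∧ kp (x0 y 1) = Z then (1 : ℤ) else 0) +
      ∑ y, if kp (x0 y 0) = Z ∧ kp (x0 y 1) = Y then (1 : ℤ) else 0) := by
    rw [← sum_add_distrib, ← sum_neg_distrib]
    simp only [dat, W]
    refine sum_congr rfl fun y _ => ?_
    rcases (kp_xs (sh b) y).2 with h | h <;> simp only [chi, (r_os b y).2, h] <;> split_ifs <;>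
      simp_all
  rw [e2, e, e]
  by_cases h1 : adj Y Z
  · simp [h1, h1.symm]
  · simp [h1, mt adj.symm h1]

theorem eS_leg (s : Fin 144 → Fin 4) (i : Fin 12) :
    eS (xs s) (fun _ => 1) (inS kp (leg i)) = fun y => if y.1 / 12 = i.1 then 1 else 0 := by
  funext y
  simp only [eS_xs, leg, mem_filter, mem_univ, true_and, (r_leg i y).1]

theorem leg_cp (b : Bool) (i : Fin 12) :
    Cp (xs (sh b)) p0 (act (fun y => if y.1 / 12 = i.1 then 1 else 0)
      (if i.1 % 2 = b.toNat then .V else .U)) (ff i) ∧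
    (∀ y : Fin 144, y.1 / 12 = i.1 → ff i (xs (sh b) y 0) ≠ ff i (xs (sh b) y 2)) ∧
    62 ≤ N (xs (sh b)) p0 univ (act (fun y => if y.1 / 12 = i.1 then 1 else 0)
      (if i.1 % 2 = b.toNat then .V else .U)) := by
  have h1 : ∀ y : Fin 144, cp (fun j => ff i (xs (sh b) y j))
      (act (fun y : Fin 144 => if y.1 / 12 = i.1 then 1 else 0)
      (if i.1 % 2 = b.toNat then .V else .U) y) ∧
      (y.1 / 12 = i.1 → ff i (xs (sh b) y 0) ≠ ff i (xs (sh b) y 2)) := by
    intro y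
    have := (r_leg i y).2
    by_cases h : y.1 / 12 = i.1 <;> simp only [h, if_true, if_false] at this
    · rcases Nat.mod_two_eq_zero_or_one i.1 with h2 | h2 <;> cases b <;>
        simp [act, xs, sh, s1, h, h2, cp] <;> grind
    · simp only [act, h, if_false, if_true, xs, cp]
      generalize sh b y = t
      fin_cases t <;> simp [this]
  have h2 : Cp (xs (sh b)) p0 _ (ff i) := ⟨fun y => (h1 y).1, fun j => j.elim0⟩
  refine ⟨h2, fun y => (h1 y).2, le_trans ?_ (card_le_ncl _ (Cp_iff.mp h2))⟩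
  rw [← r_FF]
  refine card_le_card fun a ha => mem_image.mpr ⟨a + Fin.ofNat 288 (24 * i.1), mem_univ _, ?_⟩
  rw [ff, add_sub_cancel_right, (mem_filter.mp ha).2]

theorem good (b : Bool) : Good (dat b) := by
  have hs : HS (xs (sh b)) p0 := HS_of_flow (bal_os b)
  have eu : eS (xs (sh b)) (fun _ => 1) (inS kp univ) = fun _ => 1 := by
    funext y; simp [eS_xs]
  have ea : ∀ m, act (fun _ : Fin 144 => 1) m = fun _ => m := fun m => by funext y; simp [act]
  have n1 : ∀ m, m = .U ∨ m = .V → N (xs (sh b)) p0 univ (fun _ => m) = 72 := by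
    have h1 := (N_sh b .U).trans ((N_comp _ _).trans nC_U)
    have h2 := (N_sh b .V).trans ((N_comp _ _).trans nC_V)
    rintro m (rfl | rfl) <;> cases b
    exacts [h1, h2, h2, h1]
  have s0 : ∀ Y y, ¬(kp (x0 y 0) ∈ ({Y} : Finset G) ∧ kp (x0 y 1) ∈ ({Y} : Finset G)) :=
    fun Y y h => (r_kp y).2.2.1.ne ((mem_singleton.mp h.1).trans (mem_singleton.mp h.2).symm)
  have he : ∀ (i : Fin 12) (y : Fin 144), (if y.1 / 12 = i.1 then (1 : ℤ) else 0) = 0 ∨
      (if y.1 / 12 = i.1 then (1 : ℤ) else 0) = 1 := fun i y => by split_ifs <;> simp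
  have bm : ∀ i : Fin 12, i.1 % 2 = b.toNat → ∃ s ≤ -136, Ex ((dat b).B (leg i) true) s := by
    intro i hi
    obtain ⟨h1, h2, h3⟩ := leg_cp b i
    rw [if_pos hi] at h1 h3
    have := Br_ex hs _ (he i) fun y hy h => h2 y (by simpa using hy) (h1.eq h)
    rw [r_cnt] at this
    refine ⟨_, ?_, by simp only [dat, eS_leg, sg, if_true, one_mul]; exact this⟩
    omega
  have bp : ∀ i : Fin 12, i.1 % 2 ≠ b.toNat → Low ((dat b).B (leg i) true) (-132) := by
    intro i hi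
    obtain ⟨-, -, h3⟩ := leg_cp b i
    rw [if_neg hi] at h3
    have h4 := (pk_dat b).NC (good0 b) (g_T i).2.1
    have h5 := GI hs (actv fun y : Fin 144 => if y.1 / 12 = i.1 then 1 else 0) fun _ => .S
    have h6 := card_actv fun y : Fin 144 => if y.1 / 12 = i.1 then 1 else 0
    rw [sum_congr rfl fun y _ => show _ = if y.1 / 12 = i.1 then (1 : ℤ) else 0 by
      split_ifs <;> simp_all, r_cnt] at h6
    simp only [← act_eq] at h5
    rw [eS_leg, (g_T i).2.2.2.1] at h4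
    have := Br_low hs _ (he i)
    rw [r_cnt] at this
    simp only [dat, eS_leg, sg, if_true, one_mul]
    exact this.mono (by omega)
  refine ⟨good0 b, fun Y => ?_, fun Y => (B_zero b _ true (s0 Y)).2, by simp [w_dat, eu], rfl,
    fun η => ?_, fun i => by rw [w_dat, eS_leg, r_cnt], fun i => ?_⟩
  · rw [(B_zero b _ true (s0 Y)).1]; exact Ex.dl 60
  · simp only [dat, eu]
    cases η
    · have h1 : HS (fun y j => xs (sh b) y (pm 0 true j)) p0 :=
        HS_of_flow ((pk_dat b).pm (fun _ => 0) fun _ => true).bal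
      have := Br_low h1 (fun _ => 1) fun _ => .inr rfl
      erw [N_act_pm (fun _ => 0) true .U, ea, n1 _ (.inl rfl)] at this
      rw [← Br_pm _ _ _ _ (fun _ => 0) fun _ => true]
      simpa [sg] using this
    · have := Br_low hs (fun _ => 1) fun _ => .inr rfl
      rw [ea, n1 _ (.inr rfl)] at this
      simpa [sg] using this
  · have e : ∀ (b : Bool) (i : Fin 12), (i + 1).1 % 2 = b.toNat ↔ i.1 % 2 ≠ b.toNat := by decide
    by_cases hi : i.1 % 2 = b.toNat
    · exact ⟨i, i + 1, .inl ⟨rfl, rfl⟩, bm i hi, bp _ fun h => (e b i).mp h hi⟩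
    · exact ⟨i + 1, i, .inr ⟨rfl, rfl⟩, bm _ ((e b i).mpr hi), bp i hi⟩

theorem inv_dat (b : Bool) : Inv (xs (sh b)) p0 univ (fun _ => 1) (dat b) := by
  refine ⟨_, _, _, pk_dat b, ?_⟩
  have e : wr (xs (sh b)) (fun _ => 1) (os b) (fun _ => true) + (dat b).K = 0 := by
    simp [wr, eS, ind, (r_os b _).2, dat]
  let Φ : Fn (Fin 288) →ₗ[ℚ] Fn (Fin 288) := LinearMap.pi fun a => LinearMap.pi fun s =>
    ev (a + 24) (xor s (xor (uo b (kp a)) (uo b (kp (a + 24)))))
  have h1 : ∀ z y j, Φ z (xs (sh b) y j) (os b y j) =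
      z (xs (sh b) (y + 12) (j + (sh b y - sh b (y + 12))))
        (os b (y + 12) (j + (sh b y - sh b (y + 12)))) := fun z y j => by
    rw [← (r_sym b y j).1, ← (r_sym b y j).2.1]; rfl
  have h2 : ∀ z y j, Φ z (xs (sh b) y j) (!os b y j) =
      z (xs (sh b) (y + 12) (j + (sh b y - sh b (y + 12))))
        (!os b (y + 12) (j + (sh b y - sh b (y + 12)))) := fun z y j => by
    rw [← (r_sym b y j).1, ← (r_sym b y j).2.1, ← Bool.not_xor]; rfl
  have h3 : ∀ z, FC (xs (sh b)) p0 (os b) z → FC (xs (sh b)) p0 (os b) (Φ z) := fun z hz =>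
    ⟨fun y j => by rw [h1, h2, hz.1, add_right_comm], fun j => j.elim0⟩
  have h4 : ∀ z, Qf (xs (sh b)) (fun _ => 1) (os b) (Φ z) =
      -Qf (xs (sh b)) (fun _ => 1) (os b) z := fun z => by
    rw [Qf, Qf, ← sum_neg_distrib]
    refine Fintype.sum_equiv (Equiv.addRight (12 : Fin 144)) _ _ fun y => ?_
    simp only [h1, Equiv.coe_addRight]
    rcases (r_sym b y 0).2.2 with h | h <;> simp [h, qt] <;> ring
  rw [e]
  exact ⟨fun k hk => ⟨k, hk.map Φ fun z hz => ⟨h3 z hz, by rw [h4, neg_neg]⟩, by simp⟩,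
    fun k hk => ⟨k, hk.map Φ fun z hz => ⟨h3 z hz, by rw [h4]⟩, by simp⟩⟩

end

end Pool.Agent.MP_97bb71_gt

end

section

/-! The necklace link has Turaev genus at most one and dealternating number at least two. -/

namespace Pool.Agent.MP_97bb71_gt
open Finset

noncomputable section

def Dg (s : Fin 144 → Fin 4) : Diagram := ⟨144, 0, fun y j => (xs s y j).1, fun y j => (p0 y j).1⟩

theorem two_darts {q q' : Fin 144 × Fin 4} (h : q ≠ q') (h1 : x0 q.1 q.2 = x0 q'.1 q'.2) :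
    q' = dE.symm (x0 q.1 q.2, !o0 q.2) ∧ q.2.1 % 2 ≠ q'.2.1 % 2 := by
  have h2 : o0 q'.2 = !o0 q.2 := Bool.eq_not_iff.mpr fun h2 =>
    h (dE.injective (Prod.ext h1 h2.symm))
  refine ⟨dE.eq_symm_apply.mpr (Prod.ext h1.symm h2), ?_⟩
  have a := r_dart q.1 q.2
  have b := r_dart q'.1 q'.2
  have c := (r_lab (x0 q.1 q.2)).2.2.2.2
  rw [h2, ← h1] at b
  cases h3 : o0 q.2 <;> simp only [h3, if_true, Bool.not_true, Bool.not_false, if_false,
    Bool.false_eq_true] at a b <;> rw [a, b] at c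
  exacts [c.symm, c]

theorem Dg_valid (s : Fin 144 → Fin 4) (a : (Dg s).Dart) :
    ∃! b, b ≠ a ∧ (Dg s).lab b = (Dg s).lab a := by
  rcases a with ⟨y, j⟩ | ⟨y, _⟩
  swap
  · exact y.elim0
  set q := dE.symm (x0 y (j + s y), !o0 (j + s y)) with hq
  have h1 : dE q = (x0 y (j + s y), !o0 (j + s y)) := dE.apply_symm_apply _
  refine ⟨.inl (q.1, q.2 - s q.1), ⟨fun h => ?_, ?_⟩, ?_⟩
  · obtain ⟨h2, h3⟩ := Prod.ext_iff.mp (Sum.inl_injective h)
    have h4 : o0 q.2 = _ := congrArg Prod.snd h1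
    simp only at h2 h3
    rw [← h3, h2, sub_add_cancel] at h4
    simp at h4
  · have h4 : x0 q.1 q.2 = _ := congrArg Prod.fst h1
    simp only [Diagram.lab, Dg, xs, sub_add_cancel, h4]
  · rintro (⟨z, k⟩ | ⟨z, _⟩) ⟨h2, h3⟩
    swap
    · exact z.elim0
    have := (two_darts (q := (y, j + s y)) (q' := (z, k + s z)) (fun h => h2 (by
      obtain ⟨rfl, h4⟩ := Prod.ext_iff.mp h
      rw [add_right_cancel h4])) (Fin.ext h3.symm)).1
    rw [← hq] at this
    rw [← this]; simp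

def C0 : Finset (Fin 144) := univ.filter fun y => y.1 / 12 % 2 ≠ 0

theorem Dg_cx (y : Fin 144) (j : Fin 4) :
    (if y ∈ C0 then (xs s1 y (j + 1)).1 else (xs s1 y j).1) = (xs (fun _ => 1) y j).1 := by
  by_cases h : y.1 / 12 % 2 = 0
  · rw [if_neg (by simp [C0, h]), xs, s1, if_pos h, xs]
  · rw [if_pos (show y ∈ C0 from mem_filter.mpr ⟨mem_univ y, h⟩), xs, s1, if_neg h, add_zero, xs]

theorem Dg_change : (Dg s1).change C0 = Dg fun _ => 1 :=
  congrArg (fun x => Diagram.mk 144 0 x _) (funext fun y => funext (Dg_cx y))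

theorem Dg_alt : ((Dg s1).change C0).Alternating := by
  rw [Dg_change]
  refine ⟨Sum.elim (fun q => decide (q.2 = 0 ∨ q.2 = 2)) fun _ => true, fun _ _ => rfl,
    fun i => i.elim0, ?_⟩
  rintro (⟨y, j⟩ | ⟨y, _⟩) (⟨z, k⟩ | ⟨z, _⟩) h1 h2
  · have := (two_darts (q := (y, j + 1)) (q' := (z, k + 1)) (fun h => h1 (by
      obtain ⟨rfl, h4⟩ := Prod.ext_iff.mp h
      rw [add_right_cancel h4])) (Fin.ext h2)).2
    simp only [Sum.elim_inl] at this ⊢
    exact (by decide : ∀ j k : Fin 4, (j + 1).1 % 2 ≠ (k + 1).1 % 2 →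
      decide (j = 0 ∨ j = 2) ≠ decide (k = 0 ∨ k = 2)) j k this
  exacts [z.elim0, y.elim0, y.elim0]

theorem Dg_labs (u : ℕ) :
    u ∈ labs (Dg s1).x (Dg s1).p ↔ ∃ a ∈ (univ : Finset (Fin 288)), a.1 = u := by
  rw [mem_labs]
  constructor
  · rintro (⟨y, j, rfl⟩ | ⟨y, _⟩)
    exacts [⟨_, mem_univ _, rfl⟩, y.elim0]
  · rintro ⟨a, -, rfl⟩
    exact .inl ⟨(src a).1, (src a).2 - s1 (src a).1, by simp [Dg, xs, (r_lab a).1]⟩

theorem Dg_N (s : Fin 144 → Fin 4) (m : Md) : N (X := Fin (Dg s1).n) (Dg s).x (Dg s1).p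
    (labs (Dg s1).x (Dg s1).p) (fun _ => m) = nC s m :=
  (N_relabel Fin.val Fin.val_injective (xs s) p0 univ _ Dg_labs _).trans (N_comp s m)

theorem Inv.neg {α Γ X P : Type} [Fintype X] [Fintype P] [DecidableEq Γ] {x : X → Fin 4 → α}
    {p : P → Fin 2 → α} {U : Finset α} {ε : X → ℤ} {d : Dat Γ} (h : Inv x p U ε d) :
    Inv x p U (fun y => -ε y) d.mir := by
  obtain ⟨o, oP, κ, h1, h2⟩ := h
  refine ⟨o, oP, κ, h1.neg, ?_⟩
  have e : Qf x (fun y => -ε y) o = fun z => -Qf x ε o z := by funext z; simp [Qf]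
  have e2 : wr x (fun y => -ε y) o (fun _ => true) + d.mir.K =
      -(wr x ε o (fun _ => true) + d.K) := by simp [wr, eS, Dat.mir]; ring
  rw [e, e2, SigI]
  simp only [neg_neg]
  exact h2.symm

theorem Dg_inv : DInv (Dg s1) (dat false) ∧ DInv (Dg s1) (dat true).mir := by
  constructor <;>
    refine (Inv_relabel Fin.val Fin.val_injective (x := xs s1) (p := p0) Dg_labs).mpr ?_
  · have e : sh false = s1 := by funext y; simp [sh]
    exact e ▸ inv_dat false
  · have e : (fun y j => xs (sh true) y (pm 0 true j)) = xs s1 := by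
      funext y j
      simp only [xs, sh]
      congr 1
      generalize s1 y = t
      revert j t; decide
    have := (inv_dat true).neg.rot fun _ => true
    rwa [e] at this

theorem Dg_pieces : (Dg s1).pieces = 1 := Diagram.pieces_one (good0 false).conn _ Dg_inv.1

theorem Dg_planar : (Dg s1).Planar := by
  refine ⟨Dg_valid _, ?_⟩
  rw [(Dg s1).faces_alt C0 (Dg_valid _) Dg_alt Dg_inv.1 (x := (Dg fun _ => 1).x)
    (funext fun y => funext (Dg_cx y)), Dg_N, Dg_N, nC_U1, nC_V1, Dg_pieces]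
  rfl

theorem Same.planar {D E : Diagram} (h : Same D E) : D.Planar ↔ E.Planar := by
  induction h with
  | refl => rfl
  | symm _ _ _ ih => exact ih.symm
  | trans _ _ _ _ _ ih1 ih2 => exact ih1.trans ih2
  | rel D E h => exact iff_of_true h.1 h.2.1

theorem main : ∃ D : Diagram, D.Planar ∧ (∀ E, Same D E → E.pieces = 1) ∧ D.sA + D.sB = D.n ∧
    turaevGenus D ≤ 1 ∧ 2 ≤ dalt D := by
  have c1 := (good false).conn
  have c2 := (good true).conn.mir
  have h1 : (Dg s1).sA + (Dg s1).sB = (Dg s1).n := by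
    rw [Diagram.sA_eq, Diagram.sB_eq, Dg_N, Dg_N, nC_U, nC_V]; rfl
  refine ⟨Dg s1, Dg_planar, fun E h => E.pieces_one c1 ((h.inv c1).mp Dg_inv.1), h1,
    Nat.sInf_le ⟨_, .refl _, by rw [Dg_pieces, add_assoc, h1]⟩, ?_⟩
  obtain ⟨E, C, h2, h3, h4⟩ := Nat.sInf_mem (s := {k | ∃ E C, Same (Dg s1) E ∧ Finset.card C = k ∧
    (E.change C).Alternating}) ⟨_, _, C0, .refl _, rfl, Dg_alt⟩
  by_contra hn
  obtain ⟨x, p, ε, h⟩ := bridge c1 c2 E (h2.planar.mp Dg_planar) C (by unfold dalt at hn; omega) h4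
    ((h2.inv c1).mp Dg_inv.1) ((h2.inv c2).mp Dg_inv.2)
  exact bad _ _ _ _ (good false) (by rw [Dat.mir_mir]; exact good true) _ _ x p ε
    (Nat.lt_succ_self _) h

end

end Pool.Agent.MP_97bb71_gt

end
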