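import Pool.Agent.Mg.F97bb71.G2da74e
import Pool.Agent.MP_97bb71_gt.Gr

section

/-! The reference diagram: tables and circle counts. -/

namespace Pool.Agent.MP_97bb71_gt
open Finset

def tX : ℕ := 434162308505806911734090010522139554223407627960670429378473959777125671416209420935288446864083514005830598817202617649675108879

def tK : ℕ := 1421449876989363324297197682531204585230400

def tG : ℕ := 62188290529681250047780291209855643497462866474201427049004849232355335

def tF : ℕ := 1021396103291486202528899959463118023849639831886251334880187116726748909040670118310242160752309007906151553279783580179117220824809332808327528525979208184797765935958001688742734150063853533617315716501471922292858731936917528451981668090003762835337377520197394114130406963499295806206119415459531615580145401881117139093103666662336975417491197209046152738850861845803784565996816676057064729869544641144021599739802922519320525302872246335468772383315253056617036721302160045517152352462174053703293248731497909661946128890425852392009958507831618391594799644771699736410538943627740746662819725062633795155663363413304117298914640572381680914100285377319270115152790750736249582940612205610245886729563244761171686892728018657963217848427769508259306495538569676622458257920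

/-- labels at crossing `y`, listed from the incoming outer edge of the entering circle -/
def x0 (y : Fin 144) (b : Fin 4) : Fin 288 :=
  ⟨(24 * (y.1 / 12) + (tX >>> (9 * (4 * (y.1 % 12) + b.1))) % 512) % 288, Nat.mod_lt _ (by decide)⟩

def xs (s : Fin 144 → Fin 4) (y : Fin 144) (j : Fin 4) : Fin 288 := x0 y (j + s y)

def s1 (y : Fin 144) : Fin 4 := if y.1 / 12 % 2 = 0 then 1 else 0

def nC (s : Fin 144 → Fin 4) (m : Md) : ℕ :=
  forceL (List.range 288) fun l => mgsK (prs (fun y j => (xs s y j).1) fun _ => m) l fun ρ => cnt ρ l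

theorem N_comp (s : Fin 144 → Fin 4) (m : Md) :
    N (xs s) (![] : Fin 0 → Fin 2 → Fin 288) univ (fun _ => m) = nC s m := by
  classical
  have e : rho0 (fun _ _ => False) (Fin.ofNat 288) 288 = List.range 288 := by
    rw [rho0]
    refine (List.map_congr_left fun i hi => le_antisymm (rho_le _ _ i) ?_).trans (List.map_id _)
    have h := lift_eq (g := id) (fun _ _ h => h.elim) (rho_spec (fun _ _ => False) (Fin.ofNat 288) i)
    have h1 := congrArg Fin.val h
    simp only [id, Fin.val_ofNat, Nat.mod_eq_of_lt (List.mem_range.mp hi)] at h1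
    exact h1.ge.trans (Nat.mod_le _ _)
  have e2 : ∀ a : Fin 288, Fin.ofNat 288 a.1 = a := fun a => Fin.ext (Nat.mod_eq_of_lt a.2)
  have h := ((St_init (fun _ _ => False) (Fin.ofNat 288) 288).merges
    (prs (fun y j => (xs s y j).1) fun _ => m)
    (r' := rel (xs s) (![] : Fin 0 → Fin 2 → Fin 288) fun _ => m) ?_ ?_).ncl_eq ∅ univ
    (List.range 288) (fun a => by simpa using ⟨a.1, a.2, e2 a⟩) (by simp) (by simp)
  · rw [N, h, e, nC, forceL_eq, mgsK_eq]; simp [mOut]
  · intro q hq
    simp only [prs, List.mem_flatten, List.mem_ofFn] at hq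
    obtain ⟨_, ⟨y, rfl⟩, hq⟩ := hq
    obtain ⟨q', _, rfl⟩ := List.mem_map.mp hq
    exact ⟨Fin.is_lt _, Fin.is_lt _⟩
  · intro a b
    simp only [rel, prs, List.mem_flatten, List.mem_ofFn, false_or, IsEmpty.exists_iff, or_false]
    constructor
    · rintro ⟨y, q, hq, h⟩
      exact ⟨_, ⟨_, ⟨y, rfl⟩, List.mem_map.mpr ⟨q, hq, rfl⟩⟩, by simpa only [e2] using h⟩
    · rintro ⟨_, ⟨_, ⟨y, rfl⟩, hq⟩, h⟩
      obtain ⟨q', hq', rfl⟩ := List.mem_map.mp hq
      exact ⟨y, q', hq', by simpa only [e2] using h⟩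

end Pool.Agent.MP_97bb71_gt

end

section

/-! Finite checks on the reference diagram. -/

namespace Pool.Agent.MP_97bb71_gt
open Finset

def kp (a : Fin 288) : G :=
  ⟨(5 * (a.1 / 24) + (tK >>> (6 * (a.1 % 24))) % 64) % 60, Nat.mod_lt _ (by decide)⟩

def o0 (b : Fin 4) : Bool := decide (b = 1 ∨ b = 2)

def src (a : Fin 288) : Fin 144 × Fin 4 :=
  (⟨a.1 / 2 % 144, Nat.mod_lt _ (by decide)⟩, if a.1 % 2 = 0 then 2 else 1)

def tgt (a : Fin 288) : Fin 144 × Fin 4 :=
  (⟨(12 * (a.1 / 24) + (tG >>> (10 * (a.1 % 24))) % 1024 / 4) % 144, Nat.mod_lt _ (by decide)⟩,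
    ⟨(tG >>> (10 * (a.1 % 24))) % 4, Nat.mod_lt _ (by decide)⟩)

def FF (a : Fin 288) : Fin 288 := ⟨(tF >>> (9 * a.1)) % 512 % 288, Nat.mod_lt _ (by decide)⟩

def sh (b : Bool) (y : Fin 144) : Fin 4 := s1 y + if b then 3 else 0

def uo (b : Bool) (Y : G) : Bool :=
  decide (((Y.1 / 5 + b.toNat) / 2 + (Y.1 % 5 + 1) / 2 * ((Y.1 / 5 + b.toNat) % 2)) % 2 = 1)

def os (b : Bool) (y : Fin 144) (j : Fin 4) : Bool :=
  xor (o0 (j + sh b y)) (uo b (kp (xs (sh b) y j)))

def ed (L H : G) (c : ℕ) : Fin 144 := Fin.ofNat 144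
  (12 * (L.1 / 5) + 2 * ((L.1 % 5 + 1) / 2) + 6 * ((max (L.1 % 5) (H.1 % 5) + 1) % 2) + c)

def cr (Y Z : G) : Fin 144 := if ell Z = (ell Y + 1) % 36 then ed Y Z 0 else ed Z Y 1

def ff (i : Fin 12) (a : Fin 288) : Fin 288 := FF (a - Fin.ofNat 288 (24 * i.1))

theorem r_dart : ∀ y b, (if o0 b then src (x0 y b) else tgt (x0 y b)) = (y, b) := by
  decide +kernel

theorem r_lab : ∀ a, x0 (src a).1 (src a).2 = a ∧ x0 (tgt a).1 (tgt a).2 = a ∧
    o0 (src a).2 = true ∧ o0 (tgt a).2 = false ∧ (src a).2.1 % 2 ≠ (tgt a).2.1 % 2 := by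
  decide +kernel

theorem r_kp : ∀ y, kp (x0 y 0) = kp (x0 y 2) ∧ kp (x0 y 1) = kp (x0 y 3) ∧
    adj (kp (x0 y 0)) (kp (x0 y 1)) ∧ cr (kp (x0 y 0)) (kp (x0 y 1)) = y := by decide +kernel

theorem r_cr : ∀ Y Z, adj Y Z → kp (x0 (cr Y Z) 0) = Y ∧ kp (x0 (cr Y Z) 1) = Z := by
  decide +kernel

theorem r_os : ∀ b y, (os b y 2 = !os b y 0 ∧ os b y 3 = !os b y 1) ∧ sn (os b y) = -1 := by
  decide +kernel

theorem r_leg : ∀ (i : Fin 12) y, ((ell (kp (x0 y 0)) + 36 - 3 * i.1) % 36 ≤ 3 ∧
    (ell (kp (x0 y 1)) + 36 - 3 * i.1) % 36 ≤ 3 ↔ y.1 / 12 = i.1) ∧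
    if y.1 / 12 = i.1 then ff i (x0 y 0) = ff i (x0 y 1) ∧ ff i (x0 y 2) = ff i (x0 y 3) ∧
      ff i (x0 y 0) ≠ ff i (x0 y 2)
    else ff i (x0 y 0) = ff i (x0 y 2) ∧ ff i (x0 y 1) = ff i (x0 y 3) := by decide +kernel

theorem r_FF : (univ.filter fun a => FF a = a).card = 62 := by decide +kernel

theorem r_cnt : ∀ i : Fin 12, (∑ y : Fin 144, if y.1 / 12 = i.1 then (1 : ℤ) else 0) = 12 := by
  decide +kernel

theorem r_sym : ∀ b y j, xs (sh b) y j + 24 = xs (sh b) (y + 12) (j + (sh b y - sh b (y + 12))) ∧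
    xor (os b y j) (xor (uo b (kp (xs (sh b) y j))) (uo b (kp (xs (sh b) y j + 24)))) =
      os b (y + 12) (j + (sh b y - sh b (y + 12))) ∧
    (sh b y - sh b (y + 12) = 1 ∨ sh b y - sh b (y + 12) = 3) := by decide +kernel

end Pool.Agent.MP_97bb71_gt

end

section

namespace Pool.Agent.MP_97bb71_gt

theorem nC_S : nC s1 .S = 60 := by decide +kernel

theorem nC_U : nC s1 .U = 72 := by decide +kernel

theorem nC_V : nC s1 .V = 72 := by decide +kernel

end Pool.Agent.MP_97bb71_gt

end

section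

namespace Pool.Agent.MP_97bb71_gt

theorem nC_U1 : nC (fun _ => 1) .U = 60 := by decide +kernel

theorem nC_V1 : nC (fun _ => 1) .V = 86 := by decide +kernel

end Pool.Agent.MP_97bb71_gt

end
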